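import Pool.Agent.Lib.MP_0becda_co.Zig

set_option autoImplicit false

namespace Pool.Agent.Lib.MP_0becda_co

variable {G H : Type*} [Group G] [Group H]

theorem rc_glue {P : Subgroup G} (hP : RC P) {κ : G} (hκ : κ ∈ P) (hκ1 : κ ≠ 1) (hκ2 : κ * κ = 1)
    {VQ : Multiset G} {EQ : Multiset (Sym2 G)} {u w : G} (hQ : Path VQ EQ u w)
    (hVQ : ∀ g, C VQ g = ind (g ∉ P))
    (hEQ : ∀ g, W EQ g + wt s(1, u) g + wt s(κ, w) g = 2 * ind (g ∉ P) + wt s(1, κ) g) : RC G := by
  obtain ⟨V, E, σ, hc, hV, hE, hσ⟩ := hP.sub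
  obtain ⟨x, hx⟩ := exists_edge (E := E) (g := κ) (by rw [hE, ind_pos ⟨hκ, hκ1⟩]; omega)
  have hmem : ∀ y ∈ V, y ∈ P ∧ y ≠ 1 := fun y hy => by
    have := C_pos_of_mem hy
    by_contra h
    rw [hV, ind_neg h] at this; omega
  have hxP := (hmem x (hc.mem_of_edge hx).1).1
  have hσ2 := (hmem _ (hc.mem_of_edge hσ).2).2
  obtain ⟨E', hp, rfl⟩ := hc.cut hx
  have hi : ∀ g, ind (g ∈ P ∧ g ≠ 1) + ind (g ∉ P) = ind (g ≠ 1) := fun g => by
    by_cases hg : g ∈ P
    · rw [ind_neg (not_not.2 hg), add_zero]; exact ind_congr (by simp [hg])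
    · rw [ind_neg fun h => hg h.1, ind_pos hg,
        ind_pos (show g ≠ 1 from fun h => hg (h ▸ P.one_mem))]
  refine ⟨_, _, σ, (hp.append (hQ.map fun y => x * y).reverse).close, fun g => ?_, fun g => ?_, ?_⟩
  · rw [C_add, hV, C_map_mul, hVQ, ind_congr (P.mul_mem_cancel_left (P.inv_mem hxP)).not, hi]
  · have h1 := hE g
    have h2 := hEQ g
    have h3 := hi g
    rw [W_cons, wt_one, inv_mul_cancel_left] at h1
    rw [W_cons, W_add, W_cons, W_map_mul, wt_one x, inv_mul_cancel_left,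
      wt_congr (u := x * κ) (u' := κ) (v' := w) (by group)]
    omega
  · have : s(σ, σ * σ) ∈ E' := (Multiset.mem_cons.1 hσ).resolve_left fun h => hσ2 (by
      rcases Sym2.eq_iff.1 h with ⟨h1, h2⟩ | ⟨h1, h2⟩
      · rw [← h1, mul_right_inj] at h2; rw [h2, hκ2]
      · have h3 : σ * κ = 1 := by
          rw [← mul_right_inj σ, ← mul_assoc, h2, ← h1, mul_one]
        rw [eq_inv_of_mul_eq_one_left h3, ← mul_inv_rev, hκ2, inv_one])
    simp [this]

theorem RT.start {J : Subgroup H} {V : Multiset H}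
    (hV : ∀ g, C V g = ind (g ∉ J)) {x : H} (hx : x ∈ V) : x ∉ J ∧ x ≠ 1 := by
  have := C_pos_of_mem hx
  have h1 : x ∉ J := by
    by_contra h
    rw [hV, ind_neg (not_not.2 h)] at this; omega
  exact ⟨h1, fun h => h1 (h ▸ J.one_mem)⟩

/-- Relative extension along an elementary abelian `2`-group. -/
theorem RT.ext_two (π : G →* H) (hπ : Function.Surjective π) [Finite π.ker]
    (h3 : 3 ≤ Nat.card π.ker) (hp : ∀ x : π.ker, x * x = 1) {J : Subgroup H} (h : RT H J)
    (hP : RC (J.comap π)) : RC G := by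
  classical
  have := Fintype.ofFinite π.ker
  have hc := comm_of_sq hp
  obtain ⟨V, E, s, hcyc, hV, hE, hs⟩ := h
  have hs1 := (RT.start hV (hcyc.mem_of_edge hs).1).2
  obtain ⟨E', hP0, rfl⟩ := hcyc.cut hs
  obtain ⟨S, rfl⟩ := hπ s
  let α : π.ker ≃* π.ker := MulAut.conjNormal S⁻¹
  have hα : ∀ n : π.ker, (α n : G) = S⁻¹ * n * S := fun n => by simp [α]
  obtain ⟨γ, δ, hγ, hδ, hγδ, heq⟩ : ∃ γ δ : π.ker, γ ≠ 1 ∧ δ ≠ 1 ∧ γ ≠ δ ∧
      α (α δ) * γ = α (γ * δ) := by
    by_cases hα1 : ∀ x, α x = x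
    · obtain ⟨δ, hδ⟩ := exists_ne_one_of_card (N := π.ker) (by omega)
      obtain ⟨γ, h1, h2⟩ := exists_third h3 1 δ
      exact ⟨γ, δ, h1, hδ, h2, by rw [hα1, hα1, hα1, hc]⟩
    · obtain ⟨δ, hδ⟩ := not_forall.1 hα1
      have h1 : δ ≠ 1 := fun h => hδ (by rw [h, map_one])
      exact ⟨α δ, δ, by simpa using h1, h1, hδ, by rw [map_mul]⟩
  obtain ⟨A, hA, hAγ⟩ := exists_singer_two π.ker h3 hc hp hγ hδ hγδ
  obtain ⟨Θ, φ, hΘ, hφ, hAφ⟩ := hA.oprod h3 hc hp (Multiset.card E')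
  obtain ⟨Vn, En, hPn, hVn, hEn⟩ := strands π hπ hP0 Θ S (S * S) hΘ rfl (map_mul _ _ _)
    (fun h0 => absurd (hP0.eq_of_zero h0) (by simpa using hs1))
  have hK1 := hφ.cyc (by omega) Vn En _ _ hPn
  obtain ⟨E1, hP1, hE1⟩ := hK1.cut (x := (γ : G) * S) (y := (δ : G) * (S * S))
    (Multiset.mem_sum.2 ⟨φ.symm γ, by simpa using hγ, by
      rw [← hAφ, MulEquiv.apply_symm_apply, hAγ, Sym2.eq_swap]; exact Multiset.mem_cons_self _ _⟩)
  have hQ1 := hPn 1
  simp only [map_one, OneMemClass.coe_one, one_mul] at hQ1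
  have hκ2 : (α (α δ) : G) * α (α δ) = 1 := by rw [← Subgroup.coe_mul, hp]; rfl
  refine rc_glue hP (κ := α (α δ)) ?_ (by simpa using hδ) hκ2 (hQ1.append hP1.reverse)
    (fun g => ?_) (fun g => ?_)
  · rw [Subgroup.mem_comap, (MonoidHom.mem_ker).1 (α (α δ)).2]; exact J.one_mem
  · have h1 := Finset.add_sum_erase Finset.univ (fun n => C (Vn n) g) (Finset.mem_univ 1)
    rw [C_add, C_sum, h1, hVn, hV]; rfl
  · have h1 := Finset.add_sum_erase Finset.univ (fun n => W (En n) g) (Finset.mem_univ 1)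
    rw [hEn] at h1
    have h5 := hE (π g)
    rw [W_cons] at h5
    have h6 := congrArg (fun E => W E g) hE1
    simp only [W_sum, W_cons, Finset.sum_add_distrib] at h6
    have h7 := Finset.sum_erase_add Finset.univ (fun n : π.ker => wt
      s((Θ n : G) * (S * S), (φ n : G) * S) g) (Finset.mem_univ 1)
    have h8 : ∑ n : π.ker, wt s((Θ n : G) * (S * S), (φ n : G) * S) g =
        wt s(π S, π S * π S) (π g) := by
      rw [← map_mul, ← match_W π (hA.ortho h3) S (S * S) g, ← φ.bijective.sum_comp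
        (fun n : π.ker => wt s((n : G) * S, (A n : G) * (S * S)) g)]
      exact Finset.sum_congr rfl fun n _ => by rw [Sym2.eq_swap, hAφ]
    rw [h8] at h7
    simp only [map_one, OneMemClass.coe_one, one_mul] at h7
    have c1 : wt s(S * S, S) g = wt s(1, S) g := wt_congr' (by group) g
    have c2 : wt s(S * S, (δ : G) * (S * S)) g = wt s(1, (α (α δ) : G)) g :=
      wt_congr (by rw [hα, hα]; group) g
    have c3 : wt s((γ : G) * S, (δ : G) * (S * S)) g = wt s((α (α δ) : G), (γ : G) * S) g := by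
      refine wt_congr ?_ g
      have e := congrArg Subtype.val heq
      rw [Subgroup.coe_mul, hα (γ * δ), Subgroup.coe_mul] at e
      rw [inv_eq_of_mul_eq_one_right hκ2, ← mul_assoc (α (α δ) : G), e, mul_inv_rev,
        ← Subgroup.coe_inv, inv_eq_of_mul_eq_one_right (hp γ)]
      group
    have c4 : ind (g ∉ J.comap π) = ind (π g ∉ J) := rfl
    simp only [W_add, W_cons]
    omega

section kit
variable {N : Type*} [Group N] [Fintype N]

/-- Number of occurrences of a difference. -/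
noncomputable def D (T : N → N) (m : N) : ℕ := ∑ n, ind (n⁻¹ * T n = m)

theorem D_conj (ρ : N ≃* N) (u : N) {T T' : N → N} (h : ∀ x, T' (ρ (u * x)) = ρ (u * T x))
    (m : N) : D T' (ρ m) = D T m := by
  unfold D
  rw [← (ρ.bijective.comp (Group.mulLeft_bijective u)).sum_comp]
  refine Finset.sum_congr rfl fun x _ => ind_congr ?_
  simp only [Function.comp_apply]
  rw [h, ← map_inv, ← map_mul, ρ.injective.eq_iff]
  simp [mul_assoc]

omit [Fintype N] in
theorem Ortho.conj (ρ : N ≃* N) (u : N) {θ : N → N} (h : Ortho θ) :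
    Ortho fun x => ρ (u * θ (u⁻¹ * ρ.symm x)) := by
  have hb := (Group.mulLeft_bijective u⁻¹).comp ρ.symm.bijective
  refine ⟨ρ.bijective.comp ((Group.mulLeft_bijective u).comp (h.1.comp hb)), ?_⟩
  convert ρ.bijective.comp (h.2.comp hb) using 1
  funext x
  simp [mul_assoc]

variable [DecidableEq N]

/-- The data on a kernel needed for the second relative extension theorem. -/
def Kit (N : Type*) [Group N] [Fintype N] [DecidableEq N] (z : N) (m : ℕ) : Prop :=
  ∃ (w p q : N) (θ : N → N), Ortho θ ∧ (w = 1 ∨ w = z) ∧ p ≠ q ∧ (p⁻¹ * q) * (p⁻¹ * q) = w ∧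
    ((θ p)⁻¹ * θ q) * ((θ p)⁻¹ * θ q) = w ∧
    ∀ c, c ≠ 1 → c * c = w → ∀ a b, a + b = m → ∃ (A Θa Θb φ : N → N) (v : N) (S : Finset N),
      Function.Bijective A ∧ ((A 1 = 1 ∧ A z = z) ∨ (A 1 = z ∧ A z = 1)) ∧
      (∀ x, D A x + 2 * ind (1 = x) + D (θ ∘ Equiv.swap p q) x =
        2 + ind (A 1 = x) + ind (z⁻¹ * A z = x)) ∧ OProd a Θa ∧ OProd b Θb ∧
      (∀ n, A (φ n) = Θb (Equiv.swap v (v * c) (Θa n))) ∧ Tr φ S ∧ Tr φ Sᶜ ∧ 1 ∈ S ∧ z ∉ S

theorem partner_pos (ρ : N ≃* N) {θ : N → N} (h : Ortho θ) (p q v : N) : ∃ η, Ortho η ∧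
    ∀ x, D (Equiv.swap v (v * ρ ((θ p)⁻¹ * θ q)) ∘ η) (ρ x) = D (θ ∘ Equiv.swap p q) x := by
  refine ⟨_, h.conj ρ (ρ.symm v * (θ p)⁻¹), D_conj ρ (ρ.symm v * (θ p)⁻¹) fun x => ?_⟩
  have hinj : Function.Injective fun y => ρ (ρ.symm v * (θ p)⁻¹ * θ y) :=
    ρ.injective.comp ((mul_right_injective _).comp h.1.1)
  have := hinj.swap_apply p q x
  simp only [Function.comp_apply, MulEquiv.symm_apply_apply, inv_mul_cancel_left]
  rw [← this]
  simp [mul_assoc]

theorem partner_neg (ρ : N ≃* N) {θ : N → N} (h : Ortho θ) (p q v : N) : ∃ η, Ortho η ∧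
    ∀ x, ∑ n, ind ((Equiv.swap v (v * ρ (p⁻¹ * q)) (η n))⁻¹ * n = ρ x) =
      D (θ ∘ Equiv.swap p q) x := by
  obtain ⟨η, h1, h2, -⟩ := (h.conj ρ (ρ.symm v * p⁻¹)).exists_inv
  refine ⟨η, h1, fun x => ?_⟩
  have hinj : Function.Injective fun y => ρ (ρ.symm v * p⁻¹ * y) :=
    ρ.injective.comp (mul_right_injective _)
  have hb : Function.Bijective fun y => ρ (ρ.symm v * p⁻¹ * θ (Equiv.swap p q y)) :=
    ρ.bijective.comp ((Group.mulLeft_bijective _).comp (h.1.comp (Equiv.swap p q).bijective))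
  rw [← hb.sum_comp]
  refine Finset.sum_congr rfl fun y _ => ind_congr ?_
  have e1 := h2 (ρ (ρ.symm v * p⁻¹ * Equiv.swap p q y))
  have e2 := hinj.swap_apply p q (Equiv.swap p q y)
  simp only [MulEquiv.symm_apply_apply, inv_mul_cancel_left, Equiv.swap_apply_self] at e1 e2
  have e3 : ρ (ρ.symm v * p⁻¹ * p) = v := by simp
  have e4 : ρ (ρ.symm v * p⁻¹ * q) = v * ρ (p⁻¹ * q) := by simp [mul_assoc]
  rw [e3, e4] at e2
  rw [e1, e2, ← map_inv, ← map_mul, ρ.injective.eq_iff]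
  simp [mul_assoc]

end kit

theorem sum_ind_lift (π : G →* H) [Fintype π.ker] (f : π.ker → π.ker) (F : π.ker → ℕ) (r : G)
    (h : ∀ x, ∑ n, ind (f n = MulAut.conjNormal r x) = F x) (y : G) :
    ∑ n, ind ((f n : G) = r * y * r⁻¹) = ∑ x : π.ker, ind ((x : G) = y) * F x := by
  by_cases hy : y ∈ π.ker
  · have e : ∑ x : π.ker, ind ((x : G) = y) * F x = F ⟨y, hy⟩ := by
      rw [Finset.sum_eq_single (⟨y, hy⟩ : π.ker) (fun x _ hx => by
        rw [ind_neg (p := (x : G) = y) fun h => hx (Subtype.ext h), zero_mul]) (by simp),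
        ind_pos rfl, one_mul]
    rw [e, ← h]
    exact Finset.sum_congr rfl fun n _ => ind_congr (by rw [Subtype.ext_iff]; simp)
  · rw [Finset.sum_eq_zero fun n _ => ind_neg fun h => hy ?_,
      Finset.sum_eq_zero fun x _ => by
        rw [ind_neg (p := (x : G) = y) fun h => hy (h ▸ x.2), zero_mul]]
    have := (f n).2
    rw [h] at this
    simpa [mul_assoc] using π.normal_ker.conj_mem _ this r⁻¹

theorem sum_ind_mul (π : G →* H) [Fintype π.ker] (a : π.ker) (y : G) :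
    ∑ x : π.ker, ind ((x : G) = y) * ind (a = x) = ind ((a : G) = y) := by
  rw [Finset.sum_eq_single a (fun x _ hx => by rw [ind_neg (Ne.symm hx), mul_zero]) (by simp),
    ind_pos rfl, mul_one]

theorem Tr.exists_pre {X : Type*} {φ : X → X} {S : Finset X} (h : Tr φ S) {x : X} (hx : x ∈ S) :
    ∃ y ∈ S, φ y = x := by
  obtain ⟨i, hi⟩ := h.2 _ (h.1 x hx) x hx
  exact ⟨φ^[i] x, h.iter hx i, by
    rw [← Function.iterate_succ_apply' φ i x, Function.iterate_succ_apply, hi]⟩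

/-- Relative extension along a kernel with a kit. -/
theorem RT.ext_kit (π : G →* H) (hπ : Function.Surjective π) [Fintype π.ker] [DecidableEq π.ker]
    [Finite H] (z : π.ker) (hz1 : z ≠ 1) (hz2 : z * z = 1) (hz : ∀ g : G, g * z = z * g)
    {J : Subgroup H} {m : ℕ} (hm : Nat.card H = Nat.card J + (m + 3)) (hkit : Kit π.ker z m)
    (h : RT H J) (hP : RC (J.comap π)) : RC G := by
  classical
  have := Fintype.ofFinite H
  obtain ⟨w, p, q, θ, hθ, hw, hpq, hw1, hw2, hk⟩ := hkit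
  obtain ⟨V, E, s, hcyc, hV, hE, hs⟩ := h
  obtain ⟨hsJ, hs1⟩ := RT.start hV (hcyc.mem_of_edge hs).1
  obtain ⟨hsJ2, hs2⟩ := RT.start hV (hcyc.mem_of_edge hs).2
  obtain ⟨E', hP0, rfl⟩ := hcyc.cut hs
  have hcard : Multiset.card E' = m + 2 := by
    have h1 := card_eq_sum_C V
    have h2 : ∑ g : H, ind (g ∈ J) = Nat.card J := by
      rw [Nat.card_eq_fintype_card, Fintype.card_subtype, Finset.card_filter]
      exact Finset.sum_congr rfl fun g _ => by unfold ind; congr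
    have h4 : ∑ g : H, (ind (g ∈ J) + ind (g ∉ J)) = Nat.card H := by
      rw [Finset.sum_congr rfl (g := fun _ => 1) fun g _ => by
        by_cases hg : g ∈ J
        · rw [ind_pos hg, ind_neg (not_not.2 hg)]
        · rw [ind_pos hg, ind_neg hg]]
      simp
    rw [Finset.sum_add_distrib, h2] at h4
    simp only [hV] at h1
    have := hP0.card
    omega
  obtain ⟨u, hu⟩ := exists_edge (E := E') (g := s) (by
    have := hE s
    rw [W_cons, wt_mk, inv_mul_cancel_left, ind_pos rfl, ind_pos hsJ,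
      ind_neg fun h => hs2 (by nth_rewrite 1 [h]; exact inv_mul_cancel s)] at this
    omega)
  obtain ⟨V1, E1, V2, E2, e1, e2, he, hP1, hP2, rfl, rfl⟩ := hP0.split hu
  rw [he] at hE hcard
  have hor : e2 = e1 * s ∨ e1 = e2 * s := by
    rcases Sym2.eq_iff.1 he with ⟨h1, h2⟩ | ⟨h1, h2⟩
    · left; rw [← h1, ← h2]
    · right; rw [← h1, ← h2]
  simp only [Multiset.card_add, Multiset.card_cons] at hcard
  have hE10 : Multiset.card E1 ≠ 0 := fun h0 => by
    have h1 := hP1.eq_of_zero h0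
    subst h1
    rcases hor with h2 | h2
    · subst h2
      have h3 := hV (s * s)
      have h4 := C_pos_of_mem hP2.start_mem
      rw [C_add, ind_pos hsJ2] at h3
      have := (hP2.eq_single (by omega)).2
      rw [this, h0] at hcard
      simp at hcard
    · exact (RT.start hV (Multiset.mem_add.2 (Or.inr hP2.start_mem))).2
        (by simpa using h2)
  obtain ⟨S, rfl⟩ := hπ s
  obtain ⟨R2, hR2, hR20⟩ : ∃ R2, π R2 = e2 ∧ (Multiset.card E2 = 0 → R2 = S * S) := by
    by_cases h0 : Multiset.card E2 = 0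
    · exact ⟨S * S, by rw [map_mul, hP2.eq_of_zero h0], fun _ => rfl⟩
    · obtain ⟨c, hc⟩ := hπ e2
      exact ⟨c, hc, fun h => absurd h h0⟩
  have hρw : ∀ r : G, MulAut.conjNormal r w = w := fun r => by
    rcases hw with rfl | rfl
    · exact map_one _
    · exact Subtype.ext (by simp [hz r])
  let F : G → ℕ := fun y => ∑ x : π.ker, ind ((x : G) = y) * D (θ ∘ Equiv.swap p q) x
  obtain ⟨R1, c, hR1, hc1, hc2, hpart⟩ : ∃ (R1 : G) (c : π.ker), π R1 = e1 ∧ c ≠ 1 ∧ c * c = w ∧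
      ∀ v, ∃ η, Ortho η ∧ ∀ g, ∑ n : π.ker, wt s((n : G) * R1,
        ((Equiv.swap v (v * c) (η n) : π.ker) : G) * R2) g =
          F (S * g * (S * S)⁻¹) + F (S * g⁻¹ * (S * S)⁻¹) := by
    rcases hor with h2 | h2
    · let r := R2 * S⁻¹ * S⁻¹
      refine ⟨R2 * S⁻¹, MulAut.conjNormal r ((θ p)⁻¹ * θ q), by simp [hR2, h2], ?_,
        by rw [← map_mul, hw2, hρw], fun v => ?_⟩
      · rw [ne_eq, map_eq_one_iff _ (MulEquiv.injective _), inv_mul_eq_one]
        exact fun h => hpq (hθ.1.1 h)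
      · obtain ⟨η, h3, h4⟩ := partner_pos (MulAut.conjNormal r) hθ p q v
        refine ⟨η, h3, fun g => ?_⟩
        simp only [wt_mk, Finset.sum_add_distrib, F]
        rw [← sum_ind_lift π _ _ r h4, ← sum_ind_lift π _ _ r h4]
        congr 1 <;> refine Finset.sum_congr rfl fun n _ => ind_congr ?_ <;>
          simp only [r, Subgroup.coe_mul, Subgroup.coe_inv, Function.comp_apply] <;>
          constructor <;> intro h
        · rw [← h]; group
        · rw [mul_inv_rev, mul_assoc, ← mul_assoc (n : G)⁻¹, h]; group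
        · rw [← h]; group
        · rw [mul_inv_rev, mul_assoc, ← mul_assoc (n : G)⁻¹, h]; group
    · let r := R2 * S⁻¹
      refine ⟨R2 * S, MulAut.conjNormal r (p⁻¹ * q), by simp [hR2, h2], ?_,
        by rw [← map_mul, hw1, hρw], fun v => ?_⟩
      · rw [ne_eq, map_eq_one_iff _ (MulEquiv.injective _), inv_mul_eq_one]
        exact hpq
      · obtain ⟨η, h3, h4⟩ := partner_neg (MulAut.conjNormal r) hθ p q v
        refine ⟨η, h3, fun g => ?_⟩
        simp only [Sym2.eq_swap (b := _ * R2), wt_mk, Finset.sum_add_distrib, F]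
        rw [← sum_ind_lift π _ _ r h4, ← sum_ind_lift π _ _ r h4]
        congr 1 <;> refine Finset.sum_congr rfl fun n _ => ind_congr ?_ <;>
          simp only [r, Subgroup.coe_mul, Subgroup.coe_inv] <;>
          constructor <;> intro h
        · rw [← h]; group
        · rw [mul_inv_rev, mul_assoc, ← mul_assoc _ (n : G), h]; group
        · rw [← h]; group
        · rw [mul_inv_rev, mul_assoc, ← mul_assoc _ (n : G), h]; group
  obtain ⟨A, Θa, Θb, φ, v, T, hA, hA1, hcov, hΘa, hΘb, hφ, hT, hT', h1T, hzT⟩ :=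
    hk c hc1 hc2 (Multiset.card E1 - 1) (Multiset.card E2) (by omega)
  obtain ⟨η, hη, hpart⟩ := hpart v
  obtain ⟨η', hη', -, hηη⟩ := hη.exists_inv
  have hΘ1 := (OProd.one hη').comp hΘa
  rw [show 1 + (Multiset.card E1 - 1) = Multiset.card E1 by omega] at hΘ1
  obtain ⟨Vn1, En1, hPn1, hVn1, hEn1⟩ := strands π hπ hP1 _ S R1 hΘ1 rfl hR1
    (fun h => absurd h hE10)
  obtain ⟨Vn2, En2, hPn2, hVn2, hEn2⟩ := strands π hπ hP2 _ R2 (S * S) hΘb hR2 (map_mul _ _ _) hR20
  let τ : π.ker → π.ker := fun n => Equiv.swap v (v * c) (Θa n)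
  have hτ : Function.Bijective τ := (Equiv.swap v (v * c)).bijective.comp hΘa.bijective
  have hφb : Function.Bijective φ := by
    have : A ∘ φ = Θb ∘ τ := funext hφ
    exact (Function.Bijective.of_comp_iff' hA φ).1 (this ▸ hΘb.bijective.comp hτ)
  let V' : π.ker → Multiset G := fun n => Vn1 n + Vn2 (τ n)
  let E' : π.ker → Multiset (Sym2 G) := fun n =>
    En1 n + s((η' (Θa n) : G) * R1, (τ n : G) * R2) ::ₘ En2 (τ n)
  have hQ : ∀ n, Path (V' n) (E' n) ((n : G) * S) ((A (φ n) : G) * (S * S)) := fun n =>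
    ((hPn1 n).append (hPn2 (τ n))).congr rfl rfl rfl (by rw [hφ])
  have hcut : ∀ (U : Finset π.ker) (y : π.ker), Tr φ U → y ∈ U → ∃ E1, Path (∑ n ∈ U, V' n) E1
      ((y : G) * S) ((A y : G) * (S * S)) ∧ ∀ g, wt s((y : G) * S, (A y : G) * (S * S)) g + W E1 g =
        ∑ n ∈ U, (wt s((φ n : G) * S, (A (φ n) : G) * (S * S)) g + W (E' n) g) := by
    intro U y hU hy
    have hK := cyc_orbit V' E' _ _ φ U ⟨y, hy⟩ hU.1 hU.2 fun n _ => hQ n
    obtain ⟨n, hn, rfl⟩ := hU.exists_pre hy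
    obtain ⟨E1, h1, h2⟩ := hK.cut (x := (φ n : G) * S) (y := (A (φ n) : G) * (S * S))
      (Multiset.mem_sum.2 ⟨n, hn, by rw [Sym2.eq_swap]; exact Multiset.mem_cons_self _ _⟩)
    refine ⟨E1, h1, fun g => ?_⟩
    rw [← W_cons, ← h2, W_sum]
    exact Finset.sum_congr rfl fun n _ => by rw [W_cons, Sym2.eq_swap]
  obtain ⟨F1, hF1, hW1⟩ := hcut T 1 hT h1T
  obtain ⟨F2, hF2, hW2⟩ := hcut Tᶜ z hT' (by simpa using hzT)
  have hzG : (z : G) * z = 1 := by rw [← Subgroup.coe_mul, hz2]; rfl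
  have hzi : (z : G)⁻¹ = z := inv_eq_of_mul_eq_one_right hzG
  refine rc_glue hP (κ := z) ?_ (by simpa using hz1) hzG (hF1.append hF2.reverse)
    (fun g => ?_) (fun g => ?_)
  · rw [Subgroup.mem_comap, (MonoidHom.mem_ker).1 z.2]; exact J.one_mem
  · rw [C_add, C_sum, C_sum, Finset.sum_add_sum_compl T (fun n => C (V' n) g)]
    simp only [V', C_add, Finset.sum_add_distrib]
    rw [hτ.sum_comp (fun n => C (Vn2 n) g), hVn1, hVn2, ← C_add, hV]; rfl
  · have h1 := hW1 g
    have h2 := hW2 g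
    have h3 := Finset.sum_add_sum_compl T
      (fun n => wt s((φ n : G) * S, (A (φ n) : G) * (S * S)) g + W (E' n) g)
    rw [← h1, ← h2, Finset.sum_add_distrib,
      hφb.sum_comp (fun n : π.ker => wt s((n : G) * S, (A n : G) * (S * S)) g)] at h3
    have h4 : ∑ n, W (E' n) g = W E1 (π g) + (F (S * g * (S * S)⁻¹) + F (S * g⁻¹ * (S * S)⁻¹)) +
        W E2 (π g) := by
      simp only [E', W_add, W_cons, Finset.sum_add_distrib]
      rw [hτ.sum_comp (fun n => W (En2 n) g), hEn1, hEn2, ← hpart g, add_assoc,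
        ← hΘ1.bijective.sum_comp (fun n : π.ker => wt s((n : G) * R1,
        ((Equiv.swap v (v * c) (η n) : π.ker) : G) * R2) g)]
      simp only [Function.comp_apply, hηη, τ]
    have k1 : ∀ (n : π.ker) (y : G), ind (((n : G) * S)⁻¹ * ((A n : G) * (S * S)) = y) =
        ind (((n⁻¹ * A n : π.ker) : G) = S * y * (S * S)⁻¹) := fun n y => ind_congr (by
      rw [Subgroup.coe_mul, Subgroup.coe_inv]
      constructor <;> intro h
      · rw [← h]; group
      · rw [mul_inv_rev, mul_assoc, ← mul_assoc (n : G)⁻¹, h]; group)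
    have k2 : ∀ y : G, ∑ n : π.ker, ind (((n⁻¹ * A n : π.ker) : G) = y) + 2 * ind (1 = y) + F y =
        2 * ind (π y = 1) + ind (((1⁻¹ * A 1 : π.ker) : G) = y) +
          ind (((z⁻¹ * A z : π.ker) : G) = y) := fun y => by
      have e1 := sum_ind_lift π (fun n => n⁻¹ * A n) (D A) 1 (fun x => by simp [D]) y
      have e2 := Finset.sum_congr rfl fun (x : π.ker) (_ : x ∈ Finset.univ) =>
        congrArg (fun k => ind ((x : G) = y) * k) (hcov x)
      simp only [mul_add, Finset.sum_add_distrib, mul_left_comm _ 2, ← Finset.mul_sum,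
        sum_ind_mul, ← Finset.sum_mul, sum_ind_ker] at e2
      simp only [one_mul, inv_one, mul_one, OneMemClass.coe_one] at e1 e2 ⊢
      rw [e1]; simp only [F]; omega
    have k3 := k2 (S * g * (S * S)⁻¹)
    have k4 := k2 (S * g⁻¹ * (S * S)⁻¹)
    have k5 : ∀ y : G, ind (1 = S * y * (S * S)⁻¹) = ind (S = y) := fun y => ind_congr (by
      rw [eq_mul_inv_iff_mul_eq, one_mul, mul_right_inj])
    have k6 : ∀ y : G, ind (π (S * y * (S * S)⁻¹) = 1) = ind (π S = π y) := fun y => ind_congr (by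
      rw [map_mul, map_inv, mul_inv_eq_one, map_mul, map_mul, mul_right_inj, eq_comm])
    rw [k5, k6] at k3 k4
    have k7 := hE (π g)
    have k8 : wt s(e1, e2) (π g) = wt s(1, π S) (π g) := by
      rcases hor with h | h
      · exact wt_congr (by rw [h]; group) _
      · exact wt_congr' (by rw [h]; group) _
    have k9 : wt s((A 1 : G) * (S * S), (A z : G) * (S * S)) g = wt s(1, (z : G)) g := by
      have : (S * S)⁻¹ * z * (S * S) = z := by rw [mul_assoc, ← hz]; group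
      rcases hA1 with ⟨h, h'⟩ | ⟨h, h'⟩ <;> rw [h, h']
      · exact wt_congr (by simpa [mul_assoc] using this) _
      · exact wt_congr' (by simpa [mul_assoc, hzi] using this) _
    have c4 : ind (g ∉ J.comap π) = ind (π g ∉ J) := rfl
    rw [W_cons, W_add, W_cons, k8, wt_one (π S), inv_mul_cancel_left] at k7
    rw [W_add, W_cons, k9, wt_one (z : G), inv_mul_cancel_left, OneMemClass.coe_one, one_mul]
    simp only [wt_mk, k1, Finset.sum_add_distrib, inv_one, one_mul, map_inv] at h3 k3 k4 k7 ⊢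
    omega

end Pool.Agent.Lib.MP_0becda_co
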