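import Pool.Agent.Lib.MP_0becda_co.Struct

set_option autoImplicit false

namespace Pool.Agent.Lib.MP_0becda_co

variable {G H : Type*} [Group G] [Group H]

/-- The subgroup generated by two commuting involutions. -/
def klein (a b : G) (ha : a * a = 1) (hb : b * b = 1) (hc : b * a = a * b) : Subgroup G where
  carrier := {n | n = 1 ∨ n = a ∨ n = b ∨ n = a * b}
  one_mem' := Or.inl rfl
  mul_mem' := by
    have h1 : ∀ y, a * (a * y) = y := fun y => by rw [← mul_assoc, ha, one_mul]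
    have h3 : ∀ y, b * (a * y) = a * (b * y) := fun y => by rw [← mul_assoc, hc, mul_assoc]
    rintro x y (rfl | rfl | rfl | rfl) (rfl | rfl | rfl | rfl) <;>
      simp [mul_assoc, ha, hb, hc, h1, h3]
  inv_mem' := by
    have h1 := inv_eq_of_mul_eq_one_right ha
    have h2 := inv_eq_of_mul_eq_one_right hb
    rintro x (rfl | rfl | rfl | rfl) <;> simp [h1, h2, hc]

theorem mem_klein {a b : G} {ha : a * a = 1} {hb : b * b = 1} {hc : b * a = a * b} {n : G} :
    n ∈ klein a b ha hb hc ↔ n = 1 ∨ n = a ∨ n = b ∨ n = a * b := Iff.rfl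

theorem klein_sq {a b : G} {ha : a * a = 1} {hb : b * b = 1} {hc : b * a = a * b} {n : G}
    (h : n ∈ klein a b ha hb hc) : n * n = 1 := by
  rcases h with rfl | rfl | rfl | rfl
  · simp
  · exact ha
  · exact hb
  · rw [mul_assoc, ← mul_assoc b, hc, mul_assoc, hb, mul_one, ha]

theorem klein_card {a b : G} {ha : a * a = 1} {hb : b * b = 1} {hc : b * a = a * b} (h1 : a ≠ 1)
    (h2 : b ≠ 1) (h3 : a ≠ b) : Nat.card (klein a b ha hb hc) = 4 := by
  have h4 : a * b ≠ 1 := fun h => h3 (by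
    rw [eq_inv_of_mul_eq_one_left h, inv_eq_of_mul_eq_one_right hb])
  rw [← SetLike.coe_sort_coe, Nat.card_coe_set_eq]
  exact Set.ncard_eq_four.2 ⟨1, a, b, a * b, h1.symm, h2.symm, h4.symm, h3, by simpa using h2,
    by simpa using h1, rfl⟩

theorem normal_of_sq {A : Subgroup G} (h : ∀ n, n * n ∈ A) : A.Normal := ⟨fun a ha n => by
  rw [show n * a * n⁻¹ = n * a * (n * a) * a⁻¹ * (n⁻¹ * n⁻¹) by group]
  exact mul_mem (mul_mem (h _) (inv_mem ha)) (h _)⟩

theorem kit_two {N : Type*} [Group N] [Fintype N] [DecidableEq N] {z a b d n0 : N} (hz1 : z ≠ 1)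
    (hz2 : z * z = 1) (hc : ∀ n, z * n = n * z) (hsq : ∀ n, n * n = 1 ∨ n * n = z)
    (hn0 : n0 * n0 ≠ 1) (ha : a * a = 1) (hb : b * b = 1) (hd : d * d = 1) (ha1 : a ≠ 1)
    (haz : a ≠ z) (hb' : b ∉ klein a z ha hz2 (hc a)) (hd' : d ∉ klein a z ha hz2 (hc a))
    (hdb : d ≠ b) (hdb' : d ≠ b * z) {m : ℕ} (hm : 2 ≤ m) : Kit N z m := by
  have hs : ∀ x (hx : x * x = 1) n, n * n ∈ klein x z hx hz2 (hc x) := fun x hx n => by
    rcases hsq n with h | h <;> simp [h, mem_klein]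
  have hA := normal_of_sq (hs a ha)
  have hB := normal_of_sq (hs b hb)
  have hb'' := hb'
  simp only [mem_klein, not_or] at hb''
  have c0 : Nat.card (klein a z ha hz2 (hc a)) = 4 := klein_card ha1 hz1 haz
  have c1 : Nat.card (klein b z hb hz2 (hc b)) = 4 := klein_card hb''.1 hz1 hb''.2.2.1
  have h3 : 3 ≤ Nat.card (N ⧸ klein a z ha hz2 (hc a)) := by
    by_contra h
    have key : ∀ n, n ∉ klein a z ha hz2 (hc a) → b⁻¹ * n ∈ klein a z ha hz2 (hc a) :=
      fun n hn => QuotientGroup.eq.1 (eq_of_card_le_two (by omega)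
        (by rwa [ne_eq, QuotientGroup.eq_one_iff]) (by rwa [ne_eq, QuotientGroup.eq_one_iff]))
    have hz' : ∀ x, x * z * (x * z) = x * x := fun x => by
      rw [mul_assoc, ← mul_assoc z, hc, mul_assoc, hz2, mul_one]
    have hba : b * a * (b * a) = 1 := by
      rcases key d hd' with h | h | h | h <;> rw [inv_mul_eq_iff_eq_mul] at h
      · exact absurd (by simpa using h) hdb
      · rwa [h] at hd
      · exact absurd h hdb'
      · rwa [h, ← mul_assoc b a, hz'] at hd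
    apply hn0
    rcases key n0 (fun h => hn0 (klein_sq h)) with h | h | h | h <;>
      rw [inv_mul_eq_iff_eq_mul] at h <;> rw [h]
    · simpa using hb
    · exact hba
    · rw [hz', hb]
    · rw [← mul_assoc b a, hz', hba]
  have e0 := Subgroup.card_eq_card_quotient_mul_card_subgroup (klein a z ha hz2 (hc a))
  have e1 := Subgroup.card_eq_card_quotient_mul_card_subgroup (klein b z hb hz2 (hc b))
  have hU : ∀ (A : Subgroup N) [A.Normal], (∀ n, n * n ∈ A) → ∀ x : N ⧸ A, x * x = 1 := by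
    intro A _ h x
    obtain ⟨x, rfl⟩ := QuotientGroup.mk_surjective x
    exact (QuotientGroup.eq_one_iff _).2 (h x)
  refine kit_generic (QuotientGroup.mk' (klein a z ha hz2 (hc a)))
    (QuotientGroup.mk' (klein b z hb hz2 (hc b))) (QuotientGroup.mk'_surjective _)
    (QuotientGroup.mk'_surjective _) (by rw [card_ker_mk', c0]) (by rw [card_ker_mk', c1])
    (fun x => Subtype.ext (klein_sq (mem_ker_mk' _ x)))
    (fun x => Subtype.ext (klein_sq (mem_ker_mk' _ x))) h3 (by rw [c0] at e0; rw [c1] at e1; omega)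
    (hU _ (hs a ha))
    (hU _ (hs b hb)) hz1 ((QuotientGroup.eq_one_iff _).2 (by simp [mem_klein]))
    ((QuotientGroup.eq_one_iff _).2 (by simp [mem_klein])) (fun x h0 h1 => ?_) hm
  have k0 := (QuotientGroup.eq_one_iff _).1 h0
  rcases (QuotientGroup.eq_one_iff _).1 h1 with h | h | h | h
  · exact Or.inl h
  · exact absurd (h ▸ k0) hb'
  · exact Or.inr h
  · exact absurd ((Subgroup.mul_mem_cancel_right _ (by simp [mem_klein])).1 (h ▸ k0)) hb'

theorem s3_orbit {V : Type*} [Group V] (hp : ∀ v : V, v * v = 1) (α β : V ≃* V)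
    (hα : ∀ v, α (α (α v)) = v) (hβ : ∀ v, β (β v) = v)
    (h : (∀ v, β (α v) = α (β v)) ∨ ∀ v, β (α v) = α (α (β v))) {v : V} (hv : α v ≠ v) :
    ∃ c, α c ≠ c ∧ β c = c ∧ α (α c) = c * α c := by
  let _ : CommGroup V := { (inferInstance : Group V) with mul_comm := comm_of_sq hp }
  have hT : ∀ c, c * α c * α (α c) = 1 → c ≠ 1 → β c = c →
      ∃ c, α c ≠ c ∧ β c = c ∧ α (α c) = c * α c := fun c h1 h2 h3 =>
    ⟨c, fun h4 => h2 (by rwa [h4, h4, hp, one_mul] at h1), h3, by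
      rw [← inv_eq_of_mul_eq_one_right h1, inv_eq_of_mul_eq_one_right (hp _)]⟩
  have h1 : v * α v * α (v * α v) * α (α (v * α v)) = 1 := by
    simp only [map_mul, hα]
    calc _ = v * v * (α v * α v) * (α (α v) * α (α v)) := by ac_rfl
      _ = 1 := by simp [hp]
  have h2 : v * α v ≠ 1 := fun h => hv (by
    rw [← inv_eq_of_mul_eq_one_right h, inv_eq_of_mul_eq_one_right (hp _)])
  generalize v * α v = w at h1 h2
  by_cases h3 : β w = w
  · exact hT w h1 h2 h3
  refine hT (w * β w) ?_ (fun h => h3 (by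
    rw [← inv_eq_of_mul_eq_one_right h, inv_eq_of_mul_eq_one_right (hp _)]))
    (by rw [map_mul, hβ, mul_comm])
  have h4 : β w * α (β w) * α (α (β w)) = 1 := by
    have := congrArg β h1
    rw [map_mul, map_mul, map_one] at this
    rcases h with h | h
    · rwa [h, h, h] at this
    · rwa [h, h, h, hα, mul_right_comm] at this
  simp only [map_mul]
  calc _ = (w * α w * α (α w)) * (β w * α (β w) * α (α (β w))) := by ac_rfl
    _ = 1 := by rw [h1, h4, one_mul]

theorem index_six [Finite G] {N : Subgroup G} [hN : N.Normal] (h2 : IsPGroup 2 N)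
    (hmin : ∀ K : Subgroup G, K.Normal → K ≤ N → N ≤ K ∨ K ≤ oddC G) {z : G} (hzN : z ∈ N)
    (hz2 : z * z = 1) (hz : ∀ g, g * z = z * g) (hsq : ∀ n ∈ N, n * n = 1 ∨ n * n = z)
    (h6 : Nat.card (G ⧸ N) = 6) {x a : G} (hx : Odd (orderOf x)) (ha : a ∈ N)
    (h1 : x * a * x⁻¹ ≠ a) (h1' : x * a * x⁻¹ ≠ a * z) :
    ∃ w, ∀ n ∈ N, n ≠ 1 → n ≠ z → n * n = w := by
  have hZ : (Subgroup.zpowers z).Normal := ⟨fun n hn g => by
    rcases (mem_zpowers_inv hz2 n).1 hn with rfl | rfl <;> simp [hz]⟩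
  let q := QuotientGroup.mk' (Subgroup.zpowers z)
  have hq : ∀ n, q n = 1 ↔ n = 1 ∨ n = z := fun n => by
    rw [← mem_zpowers_inv hz2]; exact QuotientGroup.eq_one_iff n
  let V := N.map q
  have hV : V.Normal := hN.map q (QuotientGroup.mk'_surjective _)
  have hp : ∀ v : V, v * v = 1 := by
    rintro ⟨_, n, hn, rfl⟩
    exact Subtype.ext (by change q n * q n = 1; rw [← map_mul, hq]; exact hsq n hn)
  let ρ0 : G →* MulAut V := MulAut.conjNormal.comp q
  have hρ0 : ∀ g (v : V), (ρ0 g v : G ⧸ Subgroup.zpowers z) = q g * v * (q g)⁻¹ := fun g v => rfl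
  let ρ : G ⧸ N →* MulAut V := QuotientGroup.lift N ρ0 fun n hn => MulEquiv.ext fun v =>
    Subtype.ext (by
      have := congrArg Subtype.val (comm_of_sq hp ⟨q n, n, hn, rfl⟩ v)
      rw [hρ0, mul_inv_eq_iff_eq_mul]; exact this)
  have hρ : ∀ g : G, ρ g = ρ0 g := fun g => rfl
  have hx3 : orderOf (x : G ⧸ N) = 3 := by
    have k1 : orderOf (x : G ⧸ N) ∣ 6 := h6 ▸ orderOf_dvd_natCard _
    have k2 : Odd (orderOf (x : G ⧸ N)) := hx.of_dvd_nat (orderOf_map_dvd (QuotientGroup.mk' N) x)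
    have k3 : orderOf (x : G ⧸ N) ≠ 1 := fun h => by
      rw [orderOf_eq_one_iff, QuotientGroup.eq_one_iff] at h
      obtain ⟨k, hk⟩ := two_pow_eq h2 h
      rw [eq_one_of_coprime (odd_coprime hx k) (pow_orderOf_eq_one x) hk] at h1
      simp at h1
    have := Nat.le_of_dvd (by omega) k1
    rw [Nat.odd_iff] at k2
    generalize orderOf (x : G ⧸ N) = o at *
    interval_cases o <;> omega
  obtain ⟨t, ht⟩ := exists_prime_orderOf_dvd_card' (G := G ⧸ N) 2 (by rw [h6]; decide)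
  have hM : (Subgroup.zpowers (x : G ⧸ N)).index = 2 := by
    have := (Subgroup.zpowers (x : G ⧸ N)).card_mul_index
    rw [Nat.card_zpowers, hx3, h6] at this
    omega
  have hMn := Subgroup.normal_of_index_eq_two hM
  have hX3 : (x : G ⧸ N) ^ 3 = 1 := hx3 ▸ pow_orderOf_eq_one _
  have ht2 : t * t = 1 := by rw [← pow_two, ← ht, pow_orderOf_eq_one]
  have hmem : ∀ y ∈ Subgroup.zpowers (x : G ⧸ N), y = 1 ∨ y = x ∨ y = x * x := fun y hy => by
    classical
    rw [mem_zpowers_iff_mem_range_orderOf, hx3, Finset.mem_image] at hy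
    obtain ⟨k, hk, rfl⟩ := hy
    rw [Finset.mem_range] at hk
    interval_cases k <;> simp [pow_two]
  have htM : t ∉ Subgroup.zpowers (x : G ⧸ N) := fun h => by
    have := orderOf_dvd_of_mem_zpowers h
    rw [ht, hx3] at this
    omega
  obtain ⟨c, hc1, hc2, hc3⟩ := s3_orbit hp (ρ x) (ρ t) (fun v => by
      rw [← MulAut.mul_apply, ← MulAut.mul_apply, ← map_mul, ← map_mul, ← pow_three', hX3, map_one,
        MulAut.one_apply])
    (fun v => by rw [← MulAut.mul_apply, ← map_mul, ht2, map_one, MulAut.one_apply]) (by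
      rcases hmem _ (hMn.conj_mem _ (Subgroup.mem_zpowers _) t) with h | h | h
      · rw [conj_eq_one_iff] at h
        rw [h, orderOf_one] at hx3; omega
      · left; intro v
        rw [← MulAut.mul_apply, ← MulAut.mul_apply, ← map_mul, ← map_mul,
          mul_inv_eq_iff_eq_mul.1 h]
      · right; intro v
        rw [← MulAut.mul_apply, ← MulAut.mul_apply, ← MulAut.mul_apply, ← map_mul, ← map_mul,
          ← map_mul, mul_inv_eq_iff_eq_mul.1 h])
    (v := ⟨q a, a, ha, rfl⟩) (fun h => by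
      have h3 : q (a⁻¹ * (x * a * x⁻¹)) = 1 := by
        have := congrArg Subtype.val h
        rw [hρ, hρ0] at this
        simp only [map_mul, map_inv]
        rw [this, inv_mul_cancel]
      rcases (hq _).1 h3 with h4 | h4 <;> rw [inv_mul_eq_iff_eq_mul] at h4
      · exact h1 (by simpa using h4)
      · exact h1' h4)
  let B := klein c (ρ x c) (hp _) (hp _) (comm_of_sq hp _ _)
  have hBx : ∀ v ∈ B, ρ x v ∈ B := by
    rintro _ (rfl | rfl | rfl | rfl)
    · rw [map_one]; exact B.one_mem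
    · exact Or.inr (Or.inr (Or.inl rfl))
    · exact Or.inr (Or.inr (Or.inr hc3))
    · rw [map_mul, hc3]
      exact B.mul_mem (Or.inr (Or.inr (Or.inl rfl))) (Or.inr (Or.inr (Or.inr rfl)))
  have hBM : ∀ y ∈ Subgroup.zpowers (x : G ⧸ N), ∀ v ∈ B, ρ y v ∈ B := fun y hy v hv => by
    rcases hmem y hy with rfl | rfl | rfl
    · simpa using hv
    · exact hBx v hv
    · rw [map_mul, MulAut.mul_apply]; exact hBx _ (hBx v hv)
  have hBt : ∀ v ∈ B, ρ t v ∈ B := by
    have k1 : ρ t (ρ x c) ∈ B := by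
      have := hBM _ (hMn.conj_mem _ (Subgroup.mem_zpowers _) t) c (Or.inr (Or.inl rfl))
      rwa [inv_eq_of_mul_eq_one_right ht2, map_mul, map_mul, MulAut.mul_apply, MulAut.mul_apply,
        hc2] at this
    rintro _ (rfl | rfl | rfl | rfl)
    · rw [map_one]; exact B.one_mem
    · rw [hc2]; exact Or.inr (Or.inl rfl)
    · exact k1
    · rw [map_mul, hc2]; exact B.mul_mem (Or.inr (Or.inl rfl)) k1
  have hB : ∀ y, ∀ v ∈ B, ρ y v ∈ B := fun y v hv => by
    by_cases hy : y ∈ Subgroup.zpowers (x : G ⧸ N)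
    · exact hBM y hy v hv
    · have := hBM (y * t) ((Subgroup.mul_mem_iff_of_index_two hM).2 (by simp [hy, htM])) _ (hBt v hv)
      rwa [← MulAut.mul_apply, ← map_mul, mul_assoc, ht2, mul_one] at this
  obtain ⟨_, c, hc, rfl⟩ := c
  rcases hmin ((B.map V.subtype).comap q) ⟨by
      rintro n ⟨v, hv, hn⟩ g
      refine ⟨_, hB g v hv, ?_⟩
      rw [map_mul, map_mul, map_inv, ← hn]; rfl⟩ (by
      rintro n ⟨⟨_, m, hm, rfl⟩, -, hn⟩
      have : q (m⁻¹ * n) = 1 := by rw [map_mul, map_inv, ← hn]; simp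
      rw [← N.mul_mem_cancel_left (N.inv_mem hm)]
      rcases (hq _).1 this with h | h <;> rw [h]
      exacts [N.one_mem, hzN]) with h | h
  · have key : ∀ n g : G, q n = q (g * c * g⁻¹) → n * n = c * c := fun n g hn => by
      have : q ((g * c * g⁻¹)⁻¹ * n) = 1 := by rw [map_mul, map_inv, hn, inv_mul_cancel]
      have k2 : g * c * g⁻¹ * (g * c * g⁻¹) = c * c := by
        rw [show g * c * g⁻¹ * (g * c * g⁻¹) = g * (c * c) * g⁻¹ by group]
        rcases hsq c hc with h | h <;> simp [h, hz]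
      rcases (hq _).1 this with h | h <;> rw [inv_mul_eq_iff_eq_mul] at h <;> rw [h]
      · simpa using k2
      · generalize g * c * g⁻¹ = y at k2
        rw [mul_assoc, ← mul_assoc z, ← hz, mul_assoc y z, hz2, mul_one, k2]
    refine ⟨c * c, fun n hn hn1 hnz => ?_⟩
    obtain ⟨v, hv, hn'⟩ := h hn
    rcases hv with rfl | rfl | rfl | hv
    · exact absurd ((hq n).1 hn'.symm) (by simp [hn1, hnz])
    · exact key n 1 (by simpa using hn'.symm)
    · exact key n x (by rw [← hn', map_mul, map_mul, map_inv]; rfl)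
    · refine key n (x * x) ?_
      rw [← hn', hv, ← hc3, ← MulAut.mul_apply, ← map_mul, map_mul q, map_mul q, map_inv]; rfl
  · have := mem_oddC.1 (h (x := c) ⟨_, Or.inr (Or.inl rfl), rfl⟩) x hx
    refine absurd (Subtype.ext ?_) hc1
    rw [hρ, hρ0, ← map_mul, this]; simp

theorem exists_kit [Finite G] [Group.IsSolvable G]
    (hE : ∀ K : Subgroup G, K.Normal → (∀ x ∈ K, x * x = 1) → Nat.card K ≤ 2)
    {P : Subgroup G} (hP : P.Normal) (hP2 : IsPGroup 2 P) (hPC : ¬ P ≤ oddC G) :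
    ∃ (N : Subgroup G) (_ : N.Normal) (z : G), IsPGroup 2 N ∧ z ∈ N ∧ z ≠ 1 ∧ z * z = 1 ∧
      (∀ g, g * z = z * g) ∧ (∃ n ∈ N, n * n ≠ 1) ∧
      ∀ (M : Subgroup G) [Fintype M] [DecidableEq M] (z' : M) (m : ℕ), M = N → (z' : G) = z →
        1 ≤ m → (m = 1 → Nat.card (G ⧸ N) = 6) → Kit M z' m := by
  obtain ⟨N, hN, h2, hC, hmin⟩ := exists_min hP hP2 hPC
  obtain ⟨z, hzN, hz1, hz2, hz, ⟨n0, hn0, hn0z⟩, hsq, hinv⟩ := sympl hE h2 hC hmin
  refine ⟨N, hN, z, h2, hzN, hz1, hz2, hz, ⟨n0, hn0, hn0z ▸ hz1⟩, ?_⟩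
  rintro M _ _ ⟨z', hz'⟩ m rfl rfl hm hm1
  simp only at hz1 hz2 hz hn0z hsq hinv
  have hZ : ∀ x a : G, Odd (orderOf x) → x * a * x⁻¹ ≠ a * z' := fun x a hx h =>
    hz1 (comm_of_coprime (odd_coprime hx 1) (pow_orderOf_eq_one x) (by simpa [pow_two] using hz2)
      (h.trans (hz a)) (hz x))
  have hfix : ∀ x a : G, x * a * x⁻¹ = z' → a = z' := fun x a h => by
    rw [mul_inv_eq_iff_eq_mul, ← hz, mul_right_inj] at h; exact h
  have ne : ∀ {a b : M}, (a : G) ≠ b → a ≠ b := fun h h' => h (congrArg Subtype.val h')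
  by_cases hu : ∀ a ∈ M, a * a = 1 → a = 1 ∨ a = z'
  · obtain ⟨n, hn, hnC⟩ := SetLike.not_le_iff_exists.1 hC
    obtain ⟨x, hx⟩ := not_forall.1 fun h => hnC (mem_oddC.2 h)
    obtain ⟨hx, hxn⟩ := Classical.not_imp.1 hx
    have k1 : n ≠ 1 := fun h => hxn (by simp [h])
    have k2 : n ≠ z' := fun h => hxn (by rw [h, hz])
    exact kit_unique (i := ⟨n, hn⟩) (j := ⟨_, hN.conj_mem n hn x⟩) (ne hz1) (Subtype.ext hz2)
      (fun y h1 h3 => Subtype.ext ((hsq y y.2).resolve_left fun h =>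
        (hu y y.2 h).elim (fun h => h1 (Subtype.ext h)) fun h => h3 (Subtype.ext h)))
      (ne k1) (ne k2) (ne (by simpa using k1)) (ne fun h => k2 (hfix _ _ h))
      (ne fun h => hxn (mul_inv_eq_iff_eq_mul.1 h)) (ne (hZ x n hx)) hm
  · obtain ⟨a, ha, ha2, k1, k2⟩ : ∃ a ∈ M, a * a = 1 ∧ a ≠ 1 ∧ a ≠ z' := by
      by_contra hcon
      exact hu fun a ha h => by_contra fun h' =>
        hcon ⟨a, ha, h, fun h => h' (Or.inl h), fun h => h' (Or.inr h)⟩
    obtain ⟨x, hx⟩ := not_forall.1 fun h => (hinv a ha ha2 (mem_oddC.2 h)).elim k1 k2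
    obtain ⟨hx, hxa⟩ := Classical.not_imp.1 hx
    have k3 : x * a * x⁻¹ ≠ a := fun h => hxa (mul_inv_eq_iff_eq_mul.1 h)
    have hm2 : 2 ≤ m := by
      by_contra h
      obtain ⟨w, hw⟩ := index_six h2 hmin hz' hz2 hz hsq (hm1 (by omega)) hx ha k3 (hZ x a hx)
      have e1 := hw a ha k1 k2
      have e2 := hw n0 hn0 (fun h => hz1 (by rw [← hn0z, h, one_mul]))
        (fun h => hz1 (by rw [← hn0z, h, hz2]))
      exact hz1 (by rw [← hn0z, e2, ← e1, ha2])
    have hcs : ∀ g b : G, b * b = 1 → g * b * g⁻¹ * (g * b * g⁻¹) = 1 := fun g b h => by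
      rw [show g * b * g⁻¹ * (g * b * g⁻¹) = g * (b * b) * g⁻¹ by group, h]; group
    have hxx : Odd (orderOf (x * x)) := hx.of_dvd_nat (by rw [← pow_two]; exact orderOf_pow_dvd 2)
    have k4 : x * x * a * (x * x)⁻¹ ≠ a := fun h => hxa (by
      obtain ⟨k, hk⟩ := hx
      have h3 : Commute (x * x) a := mul_inv_eq_iff_eq_mul.1 h
      have h4 : x = (x * x) ^ (k + 1) := by
        rw [← pow_two, ← pow_mul, show 2 * (k + 1) = orderOf x + 1 by omega, pow_succ,
          pow_orderOf_eq_one, one_mul]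
      rw [h4]; exact h3.pow_left _)
    have hnot : ∀ g : G, Odd (orderOf g) → g * a * g⁻¹ ≠ a → ∀ h1 h2 h3,
        (⟨_, hN.conj_mem a ha g⟩ : M) ∉ klein (⟨a, ha⟩ : M) ⟨z', hz'⟩ h1 h2 h3 := by
      rintro g hg h _ _ _ (h' | h' | h' | h') <;> have h'' := congrArg Subtype.val h'
      · exact k1 (by simpa using h'')
      · exact h h''
      · exact k2 (hfix _ _ h'')
      · exact hZ g a hg h''
    have e : x * x * a * (x * x)⁻¹ = x * (x * a * x⁻¹) * x⁻¹ := by group
    exact kit_two (a := ⟨a, ha⟩) (b := ⟨_, hN.conj_mem a ha x⟩) (d := ⟨_, hN.conj_mem a ha (x * x)⟩)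
      (n0 := ⟨n0, hn0⟩) (ne hz1) (Subtype.ext hz2) (fun n => Subtype.ext (hz n).symm)
      (fun n => (hsq n n.2).imp Subtype.ext Subtype.ext) (ne fun h => hz1 (hn0z.symm.trans h))
      (Subtype.ext ha2)
      (Subtype.ext (hcs _ _ ha2)) (Subtype.ext (hcs _ _ ha2)) (ne k1) (ne k2)
      (hnot x hx k3 _ _ _) (hnot _ hxx k4 _ _ _)
      (ne fun h => k3 ((MulAut.conj x).injective (e.symm.trans h)))
      (ne fun h => hZ x _ hx (e.symm.trans h)) hm2

end Pool.Agent.Lib.MP_0becda_co
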