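import Pool.Agent.Lib.MP_0becda_co.Explicit

set_option autoImplicit false
set_option linter.unusedSimpArgs false
set_option linter.unusedVariables false
set_option linter.unnecessarySeqFocus false

namespace Pool.Agent.Lib.MP_0becda_co

variable {G : Type*} [Group G]

/-- Enumeration of a group with a cyclic subgroup of index two. -/
def el (a b : G) (n m : ℕ) : G := if m < n then a ^ m else b * a ^ (m - n)

theorem el_lt (a b : G) {n m : ℕ} (h : m < n) : el a b n m = a ^ m := if_pos h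
theorem el_ge (a b : G) {n m : ℕ} (h : n ≤ m) : el a b n m = b * a ^ (m - n) :=
  if_neg (by omega)

theorem el_inj {a b : G} {n : ℕ} (ha : orderOf a = n) (hb : b ∉ Subgroup.zpowers a) {i j : ℕ}
    (hi : i < 2 * n) (hj : j < 2 * n) (h : el a b n i = el a b n j) : i = j := by
  have key : ∀ x y : ℕ, a ^ x ≠ b * a ^ y := fun x y h => hb (by
    have : b = a ^ x * (a ^ y)⁻¹ := by rw [h]; group
    rw [this]
    exact Subgroup.mul_mem _ (Subgroup.npow_mem_zpowers a x)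
      (Subgroup.inv_mem _ (Subgroup.npow_mem_zpowers a y)))
  by_cases h1 : i < n <;> by_cases h2 : j < n
  · rw [el_lt a b h1, el_lt a b h2] at h; exact pow_inj ha h1 h2 h
  · rw [el_lt a b h1, el_ge a b (by omega)] at h; exact absurd h (key _ _)
  · rw [el_lt a b h2, el_ge a b (by omega)] at h; exact absurd h.symm (key _ _)
  · rw [el_ge a b (by omega), el_ge a b (by omega), mul_right_inj] at h
    have := pow_inj ha (by omega) (by omega) h
    omega

theorem el_ne_one {a b : G} {n : ℕ} (ha : orderOf a = n) (hb : b ∉ Subgroup.zpowers a) {i : ℕ}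
    (h0 : 0 < i) (hi : i < 2 * n) : el a b n i ≠ 1 := fun h => by
  have : el a b n 0 = 1 := by rw [el_lt a b (by omega), pow_zero]
  have := el_inj ha hb hi (by omega) (h.trans this.symm)
  omega

/-- Index level colour relation. -/
def Good (n : ℕ) (κ : ℕ → ℕ) (i j c : ℕ) : Prop :=
  (i < n ∧ j < n ∧ c < n ∧ (i + c = j ∨ i + c = j + n)) ∨
  (n ≤ i ∧ n ≤ j ∧ c < n ∧ (i + c = j ∨ i + c = j + n)) ∨
  (i < n ∧ n ≤ j ∧ n ≤ c ∧ (j + κ i = c ∨ j + κ i = c + n ∨ j + κ i = c + 2 * n))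

theorem pow_eq_of {a : G} {n : ℕ} (ha : orderOf a = n) {x y : ℕ}
    (h : x = y ∨ x = y + n ∨ x = y + 2 * n ∨ x = y + 3 * n) : a ^ x = a ^ y := by
  have h1 : a ^ n = 1 := by rw [← ha, pow_orderOf_eq_one]
  rcases h with h | h | h | h
  · rw [h]
  · rw [h, pow_add, h1, mul_one]
  · rw [h, pow_add, mul_comm 2, pow_mul, h1, one_pow, mul_one]
  · rw [h, pow_add, mul_comm 3, pow_mul, h1, one_pow, mul_one]

theorem Good.col {a b : G} {n : ℕ} (ha : orderOf a = n) {κ : ℕ → ℕ}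
    (hκ : ∀ i, i < n → (a ^ i)⁻¹ * b = b * a ^ κ i) {i j c : ℕ} (h : Good n κ i j c) :
    (el a b n i)⁻¹ * el a b n j = el a b n c := by
  rcases h with ⟨h1, h2, h3, h⟩ | ⟨h1, h2, h3, h⟩ | ⟨h1, h2, h3, h⟩
  · rw [el_lt a b h1, el_lt a b h2, el_lt a b h3]; exact pow_col ha h
  · rw [el_ge a b h1, el_ge a b h2, el_lt a b h3, mul_inv_rev, mul_assoc, inv_mul_cancel_left]
    exact pow_col ha (by omega)
  · rw [el_lt a b h1, el_ge a b h2, el_ge a b h3, ← mul_assoc, hκ i h1, mul_assoc, ← pow_add]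
    congr 1
    exact pow_eq_of ha (by omega)

theorem rc_meta_of_idx [Finite G] {a b : G} {n : ℕ} (ha : orderOf a = n)
    (hb : b ∉ Subgroup.zpowers a) (hn : Nat.card G = 2 * n) (vi ci : ℕ → ℕ)
    (hv : ∀ i j, i + 1 < 2 * n → j + 1 < 2 * n → vi i = vi j → i = j)
    (hv1 : ∀ j, j + 1 < 2 * n → 0 < vi j ∧ vi j < 2 * n)
    (hc : ∀ i j, i + 1 < 2 * n → j + 1 < 2 * n → ci i = ci j → i = j)
    (hc1 : ∀ j, j + 1 < 2 * n → 0 < ci j ∧ ci j < 2 * n) (hcyc : vi (2 * n - 1) = vi 0)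
    (hcol : ∀ j, j + 1 < 2 * n →
      (el a b n (vi j))⁻¹ * el a b n (vi (j + 1)) = el a b n (ci j) ∨
      (el a b n (vi (j + 1)))⁻¹ * el a b n (vi j) = el a b n (ci j))
    (j0 : ℕ) (hj0 : j0 + 1 < 2 * n) (hs1 : vi j0 < n) (hs2 : vi (j0 + 1) < n)
    (hs : 2 * vi j0 = vi (j0 + 1) ∨ 2 * vi j0 = vi (j0 + 1) + n ∨ vi j0 = 2 * vi (j0 + 1)) :
    RC G := by
  refine rc_of_fun (fun j => el a b n (vi j)) (fun j => el a b n (ci j)) (2 * n - 1) (by omega)
    (fun i j hi hj h => hv i j (by omega) (by omega)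
      (el_inj ha hb (hv1 i (by omega)).2 (hv1 j (by omega)).2 h))
    (fun j hj => el_ne_one ha hb (hv1 j (by omega)).1 (hv1 j (by omega)).2)
    (fun i j hi hj h => hc i j (by omega) (by omega)
      (el_inj ha hb (hc1 i (by omega)).2 (hc1 j (by omega)).2 h))
    (fun j hj => el_ne_one ha hb (hc1 j (by omega)).1 (hc1 j (by omega)).2) (by simp only [hcyc])
    (fun j hj => hcol j (by omega)) j0 (by omega) ?_
  simp only [el_lt a b hs1, el_lt a b hs2, ← pow_add]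
  rcases hs with hs | hs | hs
  · left; exact (pow_eq_of ha (by omega)).symm
  · left; exact (pow_eq_of ha (by omega)).symm
  · right; exact pow_eq_of ha (by omega)

/-- Vertex pattern for dihedral type groups of order `8 h`. -/
def dv (h t : ℕ) : ℕ :=
  if t < 2 then (if t = 0 then 1 else 4 * h)
  else if t < 4 * h + 2 then
    (if t % 4 = 2 then 4 * h + 2 * ((t - 2) / 4) + 1
    else if t % 4 = 3 then 8 * h - 1 - 2 * ((t - 2) / 4)
    else if t % 4 = 0 then 4 * h - 1 - 2 * ((t - 2) / 4) else 2 * ((t - 2) / 4) + 2)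
  else if t = 4 * h + 2 then 6 * h
  else
    (if t % 4 = 3 then 2 * h - 1 - 2 * ((t - (4 * h + 3)) / 4)
    else if t % 4 = 0 then 2 * h + 2 + 2 * ((t - (4 * h + 3)) / 4)
    else if t % 4 = 1 then 6 * h + 2 + 2 * ((t - (4 * h + 3)) / 4)
    else 6 * h - 2 - 2 * ((t - (4 * h + 3)) / 4))

/-- Colour pattern; `d` is `0` in the dihedral case and `2 h` in the semidihedral case. -/
def dc (h d t : ℕ) : ℕ :=
  if t < 2 then (if t = 0 then 4 * h + 1 else 1)
  else if t < 4 * h + 1 then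
    (if t % 4 = 2 then 4 * h - t
    else if t % 4 = 3 then (if t ≤ d then 4 * h + 1 + d - t else 8 * h + 1 + d - t)
    else if t % 4 = 0 then t - 1 else 4 * h + t)
  else if t = 4 * h + 1 then 4 * h
  else if t = 4 * h + 2 then 8 * h - 1
  else
    (if t % 4 = 3 then 8 * h - t
    else if t % 4 = 0 then t
    else if t % 4 = 1 then t - 1 - 4 * h
    else 12 * h + 1 - t)

theorem regions (h j : ℕ) (hj : j + 1 < 2 * (4 * h)) : j = 0 ∨ j = 1 ∨
    (∃ i, i < h ∧ (j = 4 * i + 2 ∨ j = 4 * i + 3 ∨ j = 4 * i + 4)) ∨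
    (∃ i, i + 1 < h ∧ j = 4 * i + 5) ∨ j = 4 * h + 1 ∨ j = 4 * h + 2 ∨
    ∃ i, i + 1 < h ∧ (j = 4 * h + 3 + 4 * i ∨ j = 4 * h + 4 + 4 * i ∨ j = 4 * h + 5 + 4 * i ∨
      j = 4 * h + 6 + 4 * i) := by
  by_cases h1 : j < 2
  · omega
  by_cases h2 : j < 4 * h + 1
  · by_cases h3 : j % 4 = 1
    · exact Or.inr (Or.inr (Or.inr (Or.inl ⟨(j - 5) / 4, by omega⟩)))
    · exact Or.inr (Or.inr (Or.inl ⟨(j - 2) / 4, by omega⟩))
  by_cases h3 : j < 4 * h + 3
  · omega
  · exact Or.inr (Or.inr (Or.inr (Or.inr (Or.inr (Or.inr ⟨(j - (4 * h + 3)) / 4, by omega⟩)))))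

theorem dv_val (h j : ℕ) (hj : j + 1 < 2 * (4 * h)) : ∃ i, (j = 0 ∧ dv h j = 1) ∨
    (j = 1 ∧ dv h j = 4 * h) ∨ (i < h ∧ j = 4 * i + 2 ∧ dv h j = 4 * h + 2 * i + 1) ∨
    (i < h ∧ j = 4 * i + 3 ∧ dv h j + 2 * i + 1 = 8 * h) ∨
    (i < h ∧ j = 4 * i + 4 ∧ dv h j + 2 * i + 1 = 4 * h) ∨
    (i < h ∧ j = 4 * i + 5 ∧ dv h j = 2 * i + 2) ∨ (j = 4 * h + 2 ∧ dv h j = 6 * h) ∨
    (i + 1 < h ∧ j = 4 * h + 3 + 4 * i ∧ dv h j + 2 * i + 1 = 2 * h) ∨
    (i + 1 < h ∧ j = 4 * h + 4 + 4 * i ∧ dv h j = 2 * h + 2 + 2 * i) ∨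
    (i + 1 < h ∧ j = 4 * h + 5 + 4 * i ∧ dv h j = 6 * h + 2 + 2 * i) ∨
    (i + 1 < h ∧ j = 4 * h + 6 + 4 * i ∧ dv h j + 2 * i + 2 = 6 * h) := by
  rcases regions h j hj with rfl | rfl | ⟨i, hi, rfl | rfl | rfl⟩ | ⟨i, hi, rfl⟩ | rfl | rfl |
    ⟨i, hi, rfl | rfl | rfl | rfl⟩
  · exact ⟨0, Or.inl (by simp [dv])⟩
  · exact ⟨0, Or.inr (Or.inl (by simp [dv]))⟩
  · exact ⟨i, Or.inr (Or.inr (Or.inl (by simp (disch := omega) only [dv, if_pos, if_neg, if_true, true_and, and_true] <;> omega)))⟩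
  · exact ⟨i, Or.inr (Or.inr (Or.inr (Or.inl (by simp (disch := omega) only [dv, if_pos, if_neg, if_true, true_and, and_true] <;> omega))))⟩
  · exact ⟨i, Or.inr (Or.inr (Or.inr (Or.inr (Or.inl (by simp (disch := omega) only [dv, if_pos, if_neg, if_true, true_and, and_true] <;> omega)))))⟩
  · exact ⟨i, Or.inr (Or.inr (Or.inr (Or.inr (Or.inr (Or.inl (by simp (disch := omega) only [dv, if_pos, if_neg, if_true, true_and, and_true] <;> omega))))))⟩
  · exact ⟨h - 1, Or.inr (Or.inr (Or.inr (Or.inr (Or.inr (Or.inl (by simp (disch := omega) only [dv, if_pos, if_neg, if_true, true_and, and_true] <;> omega))))))⟩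
  · exact ⟨0, Or.inr (Or.inr (Or.inr (Or.inr (Or.inr (Or.inr (Or.inl (by simp (disch := omega) only [dv, if_pos, if_neg, if_true, true_and, and_true] <;> omega)))))))⟩
  · exact ⟨i, Or.inr (Or.inr (Or.inr (Or.inr (Or.inr (Or.inr (Or.inr (Or.inl (by simp (disch := omega) only [dv, if_pos, if_neg, if_true, true_and, and_true] <;> omega))))))))⟩
  · exact ⟨i, Or.inr (Or.inr (Or.inr (Or.inr (Or.inr (Or.inr (Or.inr (Or.inr (Or.inl (by simp (disch := omega) only [dv, if_pos, if_neg, if_true, true_and, and_true] <;> omega)))))))))⟩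
  · exact ⟨i, Or.inr (Or.inr (Or.inr (Or.inr (Or.inr (Or.inr (Or.inr (Or.inr (Or.inr (Or.inl (by simp (disch := omega) only [dv, if_pos, if_neg, if_true, true_and, and_true] <;> omega))))))))))⟩
  · exact ⟨i, Or.inr (Or.inr (Or.inr (Or.inr (Or.inr (Or.inr (Or.inr (Or.inr (Or.inr (Or.inr ((by simp (disch := omega) only [dv, if_pos, if_neg, if_true, true_and, and_true] <;> omega)))))))))))⟩

theorem dc_val (h d j : ℕ) (hj : j + 1 < 2 * (4 * h)) :
    ∃ i, (j = 0 ∧ dc h d j = 4 * h + 1) ∨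
    (j = 1 ∧ dc h d j = 1) ∨ (i < h ∧ j = 4 * i + 2 ∧ dc h d j + j = 4 * h) ∨
    (i < h ∧ j = 4 * i + 3 ∧ j ≤ d ∧ dc h d j + j = 4 * h + 1 + d) ∨
    (i < h ∧ j = 4 * i + 3 ∧ d < j ∧ dc h d j + j = 8 * h + 1 + d) ∨
    (i < h ∧ j = 4 * i + 4 ∧ dc h d j + 1 = j) ∨
    (i + 1 < h ∧ j = 4 * i + 5 ∧ dc h d j = 4 * h + j) ∨ (j = 4 * h + 1 ∧ dc h d j = 4 * h) ∨
    (j = 4 * h + 2 ∧ dc h d j + 1 = 8 * h) ∨
    (i + 1 < h ∧ j = 4 * h + 3 + 4 * i ∧ dc h d j + j = 8 * h) ∨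
    (i + 1 < h ∧ j = 4 * h + 4 + 4 * i ∧ dc h d j = j) ∨
    (i + 1 < h ∧ j = 4 * h + 5 + 4 * i ∧ dc h d j + 1 + 4 * h = j) ∨
    (i + 1 < h ∧ j = 4 * h + 6 + 4 * i ∧ dc h d j + j = 12 * h + 1) := by
  rcases regions h j hj with rfl | rfl | ⟨i, hi, rfl | rfl | rfl⟩ | ⟨i, hi, rfl⟩ | rfl | rfl |
    ⟨i, hi, rfl | rfl | rfl | rfl⟩
  · exact ⟨0, Or.inl (by simp [dc])⟩
  · exact ⟨0, Or.inr (Or.inl (by simp [dc]))⟩
  · exact ⟨i, Or.inr (Or.inr (Or.inl (by simp (disch := omega) only [dc, if_pos, if_neg, if_true, true_and, and_true] <;> omega)))⟩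
  · by_cases hle : 4 * i + 3 ≤ d
    · exact ⟨i, Or.inr (Or.inr (Or.inr (Or.inl (by simp (disch := omega) only [dc, if_pos, if_neg, if_true, true_and, and_true] <;> omega))))⟩
    · exact ⟨i, Or.inr (Or.inr (Or.inr (Or.inr (Or.inl (by simp (disch := omega) only [dc, if_pos, if_neg, if_true, true_and, and_true] <;> omega)))))⟩
  · exact ⟨i, Or.inr (Or.inr (Or.inr (Or.inr (Or.inr (Or.inl (by simp (disch := omega) only [dc, if_pos, if_neg, if_true, true_and, and_true] <;> omega))))))⟩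
  · exact ⟨i, Or.inr (Or.inr (Or.inr (Or.inr (Or.inr (Or.inr (Or.inl (by simp (disch := omega) only [dc, if_pos, if_neg, if_true, true_and, and_true] <;> omega)))))))⟩
  · exact ⟨0, Or.inr (Or.inr (Or.inr (Or.inr (Or.inr (Or.inr (Or.inr (Or.inl (by simp (disch := omega) only [dc, if_pos, if_neg, if_true, true_and, and_true] <;> omega))))))))⟩
  · exact ⟨0, Or.inr (Or.inr (Or.inr (Or.inr (Or.inr (Or.inr (Or.inr (Or.inr (Or.inl (by simp (disch := omega) only [dc, if_pos, if_neg, if_true, true_and, and_true] <;> omega)))))))))⟩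
  · exact ⟨i, Or.inr (Or.inr (Or.inr (Or.inr (Or.inr (Or.inr (Or.inr (Or.inr (Or.inr (Or.inl (by simp (disch := omega) only [dc, if_pos, if_neg, if_true, true_and, and_true] <;> omega))))))))))⟩
  · exact ⟨i, Or.inr (Or.inr (Or.inr (Or.inr (Or.inr (Or.inr (Or.inr (Or.inr (Or.inr (Or.inr (Or.inl (by simp (disch := omega) only [dc, if_pos, if_neg, if_true, true_and, and_true] <;> omega)))))))))))⟩
  · exact ⟨i, Or.inr (Or.inr (Or.inr (Or.inr (Or.inr (Or.inr (Or.inr (Or.inr (Or.inr (Or.inr (Or.inr (Or.inl (by simp (disch := omega) only [dc, if_pos, if_neg, if_true, true_and, and_true] <;> omega))))))))))))⟩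
  · exact ⟨i, Or.inr (Or.inr (Or.inr (Or.inr (Or.inr (Or.inr (Or.inr (Or.inr (Or.inr (Or.inr (Or.inr (Or.inr ((by simp (disch := omega) only [dc, if_pos, if_neg, if_true, true_and, and_true] <;> omega)))))))))))))⟩

theorem dv_inj (h i j : ℕ) (hi : i + 1 < 2 * (4 * h)) (hj : j + 1 < 2 * (4 * h))
    (H : dv h i = dv h j) : i = j := by
  obtain ⟨x, hx | hx | hx | hx | hx | hx | hx | hx | hx | hx | hx⟩ := dv_val h i hi <;>
  obtain ⟨y, hy | hy | hy | hy | hy | hy | hy | hy | hy | hy | hy⟩ := dv_val h j hj <;>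
  omega

theorem dv_rng (h j : ℕ) (hj : j + 1 < 2 * (4 * h)) : 0 < dv h j ∧ dv h j < 2 * (4 * h) := by
  obtain ⟨y, hy | hy | hy | hy | hy | hy | hy | hy | hy | hy | hy⟩ := dv_val h j hj <;>
  omega

theorem dc_inj (h d i j : ℕ) (hd : d = 0 ∨ (d = 2 * h ∧ h % 2 = 0)) (hi : i + 1 < 2 * (4 * h))
    (hj : j + 1 < 2 * (4 * h)) (H : dc h d i = dc h d j) : i = j := by
  obtain ⟨x, hx | hx | hx | hx | hx | hx | hx | hx | hx | hx | hx | hx | hx⟩ := dc_val h d i hi <;>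
  obtain ⟨y, hy | hy | hy | hy | hy | hy | hy | hy | hy | hy | hy | hy | hy⟩ := dc_val h d j hj <;>
  omega

theorem dc_rng (h d j : ℕ) (hd : d = 0 ∨ (d = 2 * h ∧ h % 2 = 0)) (hj : j + 1 < 2 * (4 * h)) :
    0 < dc h d j ∧ dc h d j < 2 * (4 * h) := by
  obtain ⟨y, hy | hy | hy | hy | hy | hy | hy | hy | hy | hy | hy | hy | hy⟩ := dc_val h d j hj <;>
  omega

theorem dv_cyc (h : ℕ) (h0 : 0 < h) : dv h (2 * (4 * h) - 1) = dv h 0 := by
  simp (disch := omega) only [dv, if_pos, if_neg, if_true, true_and, and_true] <;> omega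

theorem dv_match (h : ℕ) (h3 : h % 3 ≠ 0) : ∃ j0, j0 + 1 < 2 * (4 * h) ∧ dv h j0 < 4 * h ∧
    dv h (j0 + 1) < 4 * h ∧ (2 * dv h j0 = dv h (j0 + 1) ∨ 2 * dv h j0 = dv h (j0 + 1) + 4 * h ∨
      dv h j0 = 2 * dv h (j0 + 1)) := by
  by_cases h1 : h % 3 = 1
  · refine ⟨4 + 4 * ((2 * h + 1) / 3 - 1), by omega, ?_⟩
    simp (disch := omega) only [dv, if_pos, if_neg, if_true, true_and, and_true] <;> omega
  · refine ⟨4 * h + 3 + 4 * ((4 * h + 1) / 3 - h - 1), by omega, ?_⟩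
    simp (disch := omega) only [dv, if_pos, if_neg, if_true, true_and, and_true] <;> omega

/-- The explicit description of all edges. -/
theorem d_edges (h d j : ℕ) (hd : d = 0 ∨ (d = 2 * h ∧ h % 2 = 0)) (hj : j + 1 < 2 * (4 * h)) :
    ∃ x y, ((dv h j = x ∧ dv h (j + 1) = y) ∨ (dv h j = y ∧ dv h (j + 1) = x)) ∧
      ((x < 4 * h ∧ y < 4 * h ∧ dc h d j < 4 * h ∧ (x + dc h d j = y ∨ x + dc h d j = y + 4 * h)) ∨
      (4 * h ≤ x ∧ 4 * h ≤ y ∧ dc h d j < 4 * h ∧ (x + dc h d j = y ∨ x + dc h d j = y + 4 * h)) ∨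
      (x < 4 * h ∧ 4 * h ≤ y ∧ 4 * h ≤ dc h d j ∧ (x + y) % 2 = 0 ∧
        (y + (x + d * (x % 2)) = dc h d j ∨ y + (x + d * (x % 2)) = dc h d j + 4 * h ∨
          y + (x + d * (x % 2)) = dc h d j + 2 * (4 * h))) ∨
      (x < 4 * h ∧ 4 * h ≤ y ∧ y < 8 * h ∧ (x + y) % 2 = 1 ∧ y + x = dc h d j ∧ y + x < 8 * h)) := by
  rcases regions h j hj with rfl | rfl | ⟨i, hi, rfl | rfl | rfl⟩ | ⟨i, hi, rfl⟩ | rfl | rfl |
    ⟨i, hi, rfl | rfl | rfl | rfl⟩
  · refine ⟨1, 4 * h, Or.inl ?_, Or.inr (Or.inr (Or.inr ?_))⟩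
    · simp [dv]
    · simp only [dc]; simp; omega
  · refine ⟨4 * h, 4 * h + 1, Or.inl ⟨by simp [dv], ?_⟩, Or.inr (Or.inl ?_)⟩
    · simp (disch := omega) only [dv, if_pos, if_neg, if_true, true_and, and_true] <;> omega
    · simp only [dc]; simp; omega
  · refine ⟨4 * h + 2 * i + 1, 8 * h - 1 - 2 * i, Or.inl ?_, Or.inr (Or.inl ?_)⟩
    · simp (disch := omega) only [dv, if_pos, if_neg, if_true, true_and, and_true] <;> omega
    · simp (disch := omega) only [dc, if_pos, if_neg, if_true, true_and, and_true] <;> omega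
  · refine ⟨4 * h - 1 - 2 * i, 8 * h - 1 - 2 * i, Or.inr ?_, Or.inr (Or.inr (Or.inl ?_))⟩
    · simp (disch := omega) only [dv, if_pos, if_neg, if_true, true_and, and_true] <;> omega
    · rw [show (4 * h - 1 - 2 * i) % 2 = 1 by omega, mul_one]
      simp (disch := omega) only [dc, if_pos, if_neg]; split_ifs <;> omega
  · refine ⟨4 * h - 1 - 2 * i, 2 * i + 2, Or.inl ?_, Or.inl ?_⟩
    · simp (disch := omega) only [dv, if_pos, if_neg, if_true, true_and, and_true] <;> omega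
    · simp (disch := omega) only [dc, if_pos, if_neg, if_true, true_and, and_true] <;> omega
  · refine ⟨2 * i + 2, 4 * h + 2 * i + 3, Or.inl ?_, Or.inr (Or.inr (Or.inr ?_))⟩
    · simp (disch := omega) only [dv, if_pos, if_neg, if_true, true_and, and_true] <;> omega
    · simp (disch := omega) only [dc, if_pos, if_neg, if_true, true_and, and_true] <;> omega
  · refine ⟨2 * h, 6 * h, Or.inl ?_, Or.inr (Or.inr (Or.inl ?_))⟩
    · simp (disch := omega) only [dv, if_pos, if_neg, if_true, true_and, and_true] <;> omega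
    · rw [show (2 * h) % 2 = 0 by omega, mul_zero]
      simp (disch := omega) only [dc, if_pos, if_neg, if_true, true_and, and_true] <;> omega
  · refine ⟨2 * h - 1, 6 * h, Or.inr ?_, Or.inr (Or.inr (Or.inr ?_))⟩
    · simp (disch := omega) only [dv, if_pos, if_neg, if_true, true_and, and_true] <;> omega
    · simp (disch := omega) only [dc, if_pos, if_neg, if_true, true_and, and_true] <;> omega
  · refine ⟨2 * h + 2 + 2 * i, 2 * h - 1 - 2 * i, Or.inr ?_, Or.inl ?_⟩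
    · simp (disch := omega) only [dv, if_pos, if_neg, if_true, true_and, and_true] <;> omega
    · simp (disch := omega) only [dc, if_pos, if_neg, if_true, true_and, and_true] <;> omega
  · refine ⟨2 * h + 2 + 2 * i, 6 * h + 2 + 2 * i, Or.inl ?_, Or.inr (Or.inr (Or.inl ?_))⟩
    · simp (disch := omega) only [dv, if_pos, if_neg, if_true, true_and, and_true] <;> omega
    · rw [show (2 * h + 2 + 2 * i) % 2 = 0 by omega, mul_zero]
      simp (disch := omega) only [dc, if_pos, if_neg, if_true, true_and, and_true] <;> omega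
  · refine ⟨6 * h - 2 - 2 * i, 6 * h + 2 + 2 * i, Or.inr ?_, Or.inr (Or.inl ?_)⟩
    · simp (disch := omega) only [dv, if_pos, if_neg, if_true, true_and, and_true] <;> omega
    · simp (disch := omega) only [dc, if_pos, if_neg, if_true, true_and, and_true] <;> omega
  · refine ⟨2 * h - 3 - 2 * i, 6 * h - 2 - 2 * i, Or.inr ?_, Or.inr (Or.inr (Or.inr ?_))⟩
    · simp (disch := omega) only [dv, if_pos, if_neg, if_true, true_and, and_true] <;> omega
    · simp (disch := omega) only [dc, if_pos, if_neg, if_true, true_and, and_true] <;> omega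

/-- Dihedral, generalised quaternion and semidihedral groups of order `8 h`. -/
theorem rc_dihedral_type [Finite G] {a b : G} {h d : ℕ} (h3 : h % 3 ≠ 0) (ha : orderOf a = 4 * h)
    (hb : b ∉ Subgroup.zpowers a) (hn : Nat.card G = 2 * (4 * h))
    (hd : d = 0 ∨ (d = 2 * h ∧ h % 2 = 0 ∧ b * b = 1))
    (hκ : ∀ i, (a ^ i)⁻¹ * b = b * a ^ (i + d * (i % 2))) : RC G := by
  have hd' : d = 0 ∨ (d = 2 * h ∧ h % 2 = 0) := hd.imp id fun h => ⟨h.1, h.2.1⟩
  obtain ⟨j0, hj0, h1, h2, hs⟩ := dv_match h h3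
  refine rc_meta_of_idx ha hb hn (dv h) (dc h d) (dv_inj h) (dv_rng h)
    (fun i j => dc_inj h d i j hd') (fun j => dc_rng h d j hd') (dv_cyc h (by omega)) ?_ j0 hj0
    h1 h2 hs
  intro j hj
  obtain ⟨x, y, hxy, hcol⟩ := d_edges h d j hd' hj
  suffices H : (el a b (4 * h) x)⁻¹ * el a b (4 * h) y = el a b (4 * h) (dc h d j) ∨
      (el a b (4 * h) y)⁻¹ * el a b (4 * h) x = el a b (4 * h) (dc h d j) by
    rcases hxy with ⟨e1, e2⟩ | ⟨e1, e2⟩ <;> rw [e1, e2]
    · exact H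
    · exact H.symm
  have hG := fun {i j c : ℕ} => Good.col (b := b) (i := i) (j := j) (c := c) ha (fun i _ => hκ i)
  rcases hcol with H | H | ⟨H1, H2, H3, -, H⟩ | ⟨H1, H2, H3, H4, H5, H6⟩
  · exact Or.inl (hG (Or.inl H))
  · exact Or.inl (hG (Or.inr (Or.inl H)))
  · exact Or.inl (hG (Or.inr (Or.inr ⟨H1, H2, H3, H⟩)))
  · by_cases hx : d * (x % 2) = 0
    · exact Or.inl (hG (Or.inr (Or.inr ⟨H1, H2, by omega, by simp only [hx]; omega⟩)))
    · right
      obtain ⟨hd1, hd2, hbb⟩ := hd.resolve_left (fun h => hx (by rw [h, zero_mul]))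
      have hx1 : x % 2 = 1 := by
        rcases Nat.mod_two_eq_zero_or_one x with h | h
        · exact absurd (by rw [h, mul_zero]) hx
        · exact h
      rw [el_lt a b H1, el_ge a b H2, el_ge a b (by omega), mul_inv_rev,
        inv_eq_of_mul_eq_one_right hbb, hκ, show (y - 4 * h) % 2 = 0 by omega, mul_zero, add_zero,
        mul_assoc, ← pow_add]
      congr 2; omega

/-- The group `Z4 × Z2`. -/
theorem rc_four_two [Finite G] {a b : G} (ha : orderOf a = 4) (hb : b ∉ Subgroup.zpowers a)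
    (hn : Nat.card G = 2 * 4) (hab : a * b = b * a) : RC G := by
  have hκ : ∀ i, i < 4 → (a ^ i)⁻¹ * b = b * a ^ (4 - i) := fun i hi => by
    have hc : Commute a b := hab
    rw [← (hc.pow_left (4 - i)).eq]
    congr 1
    rw [inv_eq_iff_mul_eq_one, ← pow_add, show i + (4 - i) = 4 by omega, ← ha, pow_orderOf_eq_one]
  refine rc_meta_of_idx ha hb hn (fun t => [1, 4, 6, 5, 3, 7, 2].getD t 1)
    (fun t => [7, 2, 3, 6, 4, 5, 1].getD t 1) ?_ ?_ ?_ ?_ rfl ?_ 6 (by omega) (by decide)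
    (by decide) (by decide)
  · intro i j hi hj; have : i < 7 := by omega
    have : j < 7 := by omega
    interval_cases i <;> interval_cases j <;> simp
  · intro j hj; have : j < 7 := by omega
    interval_cases j <;> simp
  · intro i j hi hj; have : i < 7 := by omega
    have : j < 7 := by omega
    interval_cases i <;> interval_cases j <;> simp
  · intro j hj; have : j < 7 := by omega
    interval_cases j <;> simp
  · intro j hj
    have : j < 7 := by omega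
    have hG := fun {i j c : ℕ} => Good.col (b := b) (i := i) (j := j) (c := c) ha hκ
    interval_cases j
    · exact Or.inl (hG (by simp [Good]))
    · exact Or.inl (hG (by simp [Good]))
    · exact Or.inl (hG (by simp [Good]))
    · exact Or.inr (hG (by simp [Good]))
    · exact Or.inl (hG (by simp [Good]))
    · exact Or.inr (hG (by simp [Good]))
    · exact Or.inr (hG (by simp [Good]))

end Pool.Agent.Lib.MP_0becda_co
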