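import Pool.Agent.Lib.MP_0becda_co.ExtOdd

set_option autoImplicit false

namespace Pool.Agent.Lib.MP_0becda_co

variable {G : Type*} [Group G]

theorem sum_ind_image {X : Type*} (f : ℕ → X) (k : ℕ)
    (hf : ∀ i j, i < k → j < k → f i = f j → i = j) (g : X) :
    ∑ j ∈ Finset.range k, ind (f j = g) = ind (∃ j, j < k ∧ f j = g) := by
  by_cases h : ∃ j, j < k ∧ f j = g
  · rw [ind_pos h]
    obtain ⟨j, hj, rfl⟩ := h
    rw [Finset.sum_eq_single j (fun i hi hij => ind_neg fun h =>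
      hij (hf i j (by simpa using hi) hj h)) (fun h => absurd (by simpa using hj) h), ind_pos rfl]
  · rw [ind_neg h]
    exact Finset.sum_eq_zero fun j hj => ind_neg fun h' => h ⟨j, by simpa using hj, h'⟩

theorem sum_ind_inj [Finite G] (f : ℕ → G) (k : ℕ) (hk : k + 1 = Nat.card G)
    (hf : ∀ i j, i < k → j < k → f i = f j → i = j) (h1 : ∀ j, j < k → f j ≠ 1) (g : G) :
    ∑ j ∈ Finset.range k, ind (f j = g) = ind (g ≠ 1) := by
  classical
  have := Fintype.ofFinite G
  rw [sum_ind_image f k hf]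
  have hsub : (Finset.range k).image f ⊆ Finset.univ.erase 1 := fun x hx => by
    obtain ⟨j, hj, rfl⟩ := Finset.mem_image.1 hx
    simpa using h1 j (by simpa using hj)
  have hcard : ((Finset.range k).image f).card = k := by
    rw [Finset.card_image_of_injOn, Finset.card_range]
    intro i hi j hj h
    exact hf i j (by simpa using hi) (by simpa using hj) h
  have heq := Finset.eq_of_subset_of_card_le hsub (by
    rw [hcard, Finset.card_erase_of_mem (Finset.mem_univ _), Finset.card_univ,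
      ← Nat.card_eq_fintype_card]; omega)
  refine ind_congr ⟨fun ⟨j, hj, h⟩ => h ▸ h1 j hj, fun hg => ?_⟩
  have : g ∈ (Finset.range k).image f := by rw [heq]; simpa using hg
  obtain ⟨j, hj, h⟩ := Finset.mem_image.1 this
  exact ⟨j, by simpa using hj, h⟩

theorem sum_ind_inj' {X : Type*} [Finite X] (f : ℕ → X) (k : ℕ) (hk : k = Nat.card X)
    (hf : ∀ i j, i < k → j < k → f i = f j → i = j) (g : X) :
    ∑ j ∈ Finset.range k, ind (f j = g) = 1 := by
  classical
  have := Fintype.ofFinite X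
  rw [sum_ind_image f k hf]
  have hcard : ((Finset.range k).image f).card = k := by
    rw [Finset.card_image_of_injOn, Finset.card_range]
    intro i hi j hj h
    exact hf i j (by simpa using hi) (by simpa using hj) h
  have heq := Finset.eq_of_subset_of_card_le (Finset.subset_univ ((Finset.range k).image f)) (by
    rw [hcard, Finset.card_univ, ← Nat.card_eq_fintype_card]; omega)
  have : g ∈ (Finset.range k).image f := by rw [heq]; simp
  obtain ⟨j, hj, h⟩ := Finset.mem_image.1 this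
  exact ind_pos ⟨j, by simpa using hj, h⟩

theorem wt_of_col {u v c : G} (h : u⁻¹ * v = c ∨ v⁻¹ * u = c) (g : G) :
    wt s(u, v) g = ind (c = g) + ind (c = g⁻¹) := by
  rcases h with h | h
  · rw [wt_mk, h]
  · rw [Sym2.eq_swap, wt_mk, h]

theorem W_of_col [Finite G] (v c : ℕ → G) (k : ℕ) (hk : k + 1 = Nat.card G)
    (hc : ∀ i j, i < k → j < k → c i = c j → i = j) (hc1 : ∀ j, j < k → c j ≠ 1)
    (hcol : ∀ j, j < k → (v j)⁻¹ * v (j + 1) = c j ∨ (v (j + 1))⁻¹ * v j = c j) (g : G) :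
    W (∑ j ∈ Finset.range k, ({s(v j, v (j + 1))} : Multiset (Sym2 G))) g = 2 * ind (g ≠ 1) := by
  rw [W_sum]
  have : ∀ j ∈ Finset.range k, W ({s(v j, v (j + 1))} : Multiset (Sym2 G)) g =
      ind (c j = g) + ind (c j = g⁻¹) := fun j hj => by
    rw [← Multiset.cons_zero, W_cons, W_zero, add_zero, wt_of_col (hcol j (by simpa using hj))]
  rw [Finset.sum_congr rfl this, Finset.sum_add_distrib, sum_ind_inj c k hk hc hc1,
    sum_ind_inj c k hk hc hc1, ind_congr (inv_ne_one (a := g)), two_mul]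

theorem rc_of_fun [Finite G] (v c : ℕ → G) (k : ℕ) (hk : k + 1 = Nat.card G)
    (hv : ∀ i j, i < k → j < k → v i = v j → i = j) (hv1 : ∀ j, j < k → v j ≠ 1)
    (hc : ∀ i j, i < k → j < k → c i = c j → i = j) (hc1 : ∀ j, j < k → c j ≠ 1)
    (hcyc : v k = v 0)
    (hcol : ∀ j, j < k → (v j)⁻¹ * v (j + 1) = c j ∨ (v (j + 1))⁻¹ * v j = c j)
    (j0 : ℕ) (hj0 : j0 < k) (hs : v (j0 + 1) = v j0 * v j0 ∨ v j0 = v (j0 + 1) * v (j0 + 1)) :
    RC G := by
  obtain ⟨k, rfl⟩ : ∃ k', k = k' + 1 := ⟨k - 1, by omega⟩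
  have hC : Cyc (∑ j ∈ Finset.range (k + 1), ({v j} : Multiset G))
      (∑ j ∈ Finset.range (k + 1), ({s(v j, v (j + 1))} : Multiset (Sym2 G))) := by
    refine (fpath v k).close.congr rfl ?_
    rw [Finset.sum_range_succ, hcyc, Sym2.eq_swap, add_comm, Multiset.singleton_add]
  have hmem : s(v j0, v (j0 + 1)) ∈
      ∑ j ∈ Finset.range (k + 1), ({s(v j, v (j + 1))} : Multiset (Sym2 G)) :=
    Multiset.mem_sum.2 ⟨j0, by simpa using hj0, by simp⟩
  have hV : ∀ g, C (∑ j ∈ Finset.range (k + 1), ({v j} : Multiset G)) g = ind (g ≠ 1) := fun g => by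
    rw [C_sum]; simp only [C_singleton]; exact sum_ind_inj v _ hk hv hv1 g
  rcases hs with hs | hs
  · exact ⟨_, _, v j0, hC, hV, W_of_col v c _ hk hc hc1 hcol, hs ▸ hmem⟩
  · exact ⟨_, _, v (j0 + 1), hC, hV, W_of_col v c _ hk hc hc1 hcol, by
      rw [← hs, Sym2.eq_swap]; exact hmem⟩

theorem pow_col {a : G} {n : ℕ} (ha : orderOf a = n) {i j c : ℕ}
    (h : i + c = j ∨ i + c = j + n) : (a ^ i)⁻¹ * a ^ j = a ^ c := by
  rw [inv_mul_eq_iff_eq_mul, ← pow_add]
  rcases h with h | h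
  · rw [h]
  · rw [h, pow_add, ← ha, pow_orderOf_eq_one, mul_one]

theorem pow_inj {a : G} {n : ℕ} (ha : orderOf a = n) {i j : ℕ} (hi : i < n) (hj : j < n)
    (h : a ^ i = a ^ j) : i = j :=
  pow_injOn_Iio_orderOf (by rwa [ha]) (by rwa [ha]) h

/-- Index form for cyclic groups. -/
theorem rc_cyclic_of_idx [Finite G] {a : G} {n : ℕ} (ha : orderOf a = n) (hn : Nat.card G = n)
    (vi ci : ℕ → ℕ)
    (hv : ∀ i j, i + 1 < n → j + 1 < n → vi i = vi j → i = j)
    (hv1 : ∀ j, j + 1 < n → 0 < vi j ∧ vi j < n)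
    (hc : ∀ i j, i + 1 < n → j + 1 < n → ci i = ci j → i = j)
    (hc1 : ∀ j, j + 1 < n → 0 < ci j ∧ ci j < n) (hcyc : vi (n - 1) = vi 0)
    (hcol : ∀ j, j + 1 < n → (vi j + ci j = vi (j + 1) ∨ vi j + ci j = vi (j + 1) + n) ∨
      (vi (j + 1) + ci j = vi j ∨ vi (j + 1) + ci j = vi j + n))
    (j0 : ℕ) (hj0 : j0 + 1 < n) (hs : vi (j0 + 1) = 2 * vi j0 ∨ vi j0 = 2 * vi (j0 + 1)) :
    RC G := by
  have h1 : ∀ i, 0 < i → i < n → a ^ i ≠ 1 := fun i h0 hi h =>
    absurd (pow_inj ha hi (by omega) (h.trans (pow_zero a).symm)) (by omega)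
  refine rc_of_fun (fun j => a ^ vi j) (fun j => a ^ ci j) (n - 1) (by omega)
    (fun i j hi hj h => hv i j (by omega) (by omega)
      (pow_inj ha (hv1 i (by omega)).2 (hv1 j (by omega)).2 h))
    (fun j hj => h1 _ (hv1 j (by omega)).1 (hv1 j (by omega)).2)
    (fun i j hi hj h => hc i j (by omega) (by omega)
      (pow_inj ha (hc1 i (by omega)).2 (hc1 j (by omega)).2 h))
    (fun j hj => h1 _ (hc1 j (by omega)).1 (hc1 j (by omega)).2) (by simp only [hcyc])
    (fun j hj => (hcol j (by omega)).imp (pow_col ha) (pow_col ha)) j0 (by omega) ?_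
  rcases hs with hs | hs
  · left; simp only [hs, two_mul, pow_add]
  · right; simp only [hs, two_mul, pow_add]

/-- First pattern for cyclic groups of order `4 h`. -/
def cv1 (h t : ℕ) : ℕ :=
  if t < 2 * h then (if t % 2 = 0 then 2 * h - t / 2 else t / 2 + 1)
  else if t < 4 * h - 1 then
    (if t % 2 = 0 then 4 * h - 1 - (4 * h - 2 - t) / 2 else 2 * h + 1 + (4 * h - 2 - t) / 2)
  else 2 * h

def cc1 (h t : ℕ) : ℕ :=
  if t < 2 * h - 1 then 2 * h - 1 - t else if t = 2 * h - 1 then 2 * h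
  else if t < 4 * h - 2 then 6 * h - 1 - t else 2 * h + 1

/-- Second pattern for cyclic groups of order `4 h`. -/
def cv2 (h t : ℕ) : ℕ :=
  if t < 2 * h then (if t % 2 = 0 then t / 2 + 1 else 2 * h - t / 2)
  else if t < 4 * h - 1 then
    (if t % 2 = 0 then 2 * h + 1 + (4 * h - 2 - t) / 2 else 4 * h - 1 - (4 * h - 2 - t) / 2)
  else 1

def cc2 (h t : ℕ) : ℕ :=
  if t < 2 * h - 1 then 2 * h - 1 - t else if t = 2 * h - 1 then 2 * h + 1
  else if t < 4 * h - 2 then 6 * h - 1 - t else 2 * h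

theorem rc_cyclic_four [Finite G] {a : G} {h : ℕ} (h0 : 0 < h) (ha : orderOf a = 4 * h)
    (hn : Nat.card G = 4 * h) : RC G := by
  by_cases h3 : h % 3 = 2
  · refine rc_cyclic_of_idx ha hn (cv2 h) (cc2 h) ?_ ?_ ?_ ?_ ?_ ?_
      (2 * ((2 * h + 2) / 3 - 2) + 1) (by omega) ?_
    · intro i j hi hj; unfold cv2; split_ifs <;> omega
    · intro j hj; unfold cv2; split_ifs <;> omega
    · intro i j hi hj; unfold cc2; split_ifs <;> omega
    · intro j hj; unfold cc2; split_ifs <;> omega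
    · unfold cv2; split_ifs <;> omega
    · intro j hj; unfold cv2 cc2; split_ifs <;> omega
    · unfold cv2; split_ifs <;> omega
  · obtain ⟨j0, hj0, hs⟩ : ∃ j0, j0 + 1 < 4 * h ∧
        (cv1 h (j0 + 1) = 2 * cv1 h j0 ∨ cv1 h j0 = 2 * cv1 h (j0 + 1)) := by
      by_cases h1 : h % 3 = 1
      · refine ⟨2 * ((2 * h + 1) / 3 - 1), by omega, ?_⟩
        unfold cv1; split_ifs <;> omega
      · refine ⟨2 * (2 * h / 3 - 1) + 1, by omega, ?_⟩
        unfold cv1; split_ifs <;> omega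
    refine rc_cyclic_of_idx ha hn (cv1 h) (cc1 h) ?_ ?_ ?_ ?_ ?_ ?_ j0 hj0 hs
    · intro i j hi hj; unfold cv1; split_ifs <;> omega
    · intro j hj; unfold cv1; split_ifs <;> omega
    · intro i j hi hj; unfold cc1; split_ifs <;> omega
    · intro j hj; unfold cc1; split_ifs <;> omega
    · unfold cv1; split_ifs <;> omega
    · intro j hj; unfold cv1 cc1; split_ifs <;> omega

end Pool.Agent.Lib.MP_0becda_co
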