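import Pool.Agent.Lib.MP_0becda_co.ExtTwo

set_option autoImplicit false

namespace Pool.Agent.Lib.MP_0becda_co

variable {G H : Type*} [Group G] [Group H]

theorem elem_core (π : G →* H) (hπ : Function.Surjective π) [Finite π.ker]
    (h3 : 3 ≤ Nat.card π.ker) {ω : π.ker ≃* π.ker} (hω : Singer ω)
    (X Y g bx b_y bp : G) (n1 u0 ns : π.ker) (hn1 : (n1 : G) = X * X) (hn1' : n1 ≠ 1)
    {V1 V2 : Multiset H} {E1 E2 : Multiset (Sym2 H)}
    (hP1 : Path V1 E1 (π (g * Y)) (π X)) (hP2 : Path V2 E2 (π Y) (π (g * X)))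
    (hV : ∀ h, ind (π g = h) + C V1 h + C V2 h = ind (h ≠ 1))
    (hE : ∀ h, wt s(π g, π (g * Y)) h + W E1 h + wt s(π X, π Y) h + W E2 h +
      wt s(π (g * X), π g) h = 2 * ind (h ≠ 1))
    (hrx : π g ≠ π X) (hry : π g ≠ π Y)
    (Θ1 Θ2 : π.ker ≃* π.ker) (hΘ1 : OProd (Multiset.card E1) Θ1)
    (hΘ2 : OProd (Multiset.card E2) Θ2) (hT : ∀ n, Θ2 (ω (Θ1 (ω.symm n))) = n)
    (hu0 : (ω u0 : G) * (g * ω n1) = g * n1) (hbp : (u0 : G) * bp = g * X)
    (hbx : (ns : G) * bx = X) (hby : (ω ns : G) * b_y = Y)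
    (h01 : Multiset.card E1 = 0 → g * Y = bx) (h02 : Multiset.card E2 = 0 → b_y = bp) : RC G := by
  classical
  have := Fintype.ofFinite π.ker
  have hker : ∀ (n : π.ker) (a : G), π ((n : G) * a) = π a := fun n a => by
    rw [map_mul, (MonoidHom.mem_ker).1 n.2, one_mul]
  have hker' : ∀ (n : π.ker) (a : G), π (a * (n : G)) = π a := fun n a => by
    rw [map_mul, (MonoidHom.mem_ker).1 n.2, mul_one]
  have hπx : π bx = π X := by rw [← hbx, hker]
  have hπy : π b_y = π Y := by rw [← hby, hker]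
  have hπp : π bp = π (g * X) := by rw [← hbp, hker]
  obtain ⟨Vn1, En1, hPn1, hVn1, hEn1⟩ := strands π hπ hP1 Θ1 (g * Y) bx hΘ1 rfl hπx h01
  obtain ⟨Vn2, En2, hPn2, hVn2, hEn2⟩ := strands π hπ hP2 Θ2 b_y bp hΘ2 hπy hπp h02
  let ψ : π.ker ≃* π.ker := ω.symm.trans Θ1
  have hψ : ∀ n, ψ n = Θ1 (ω.symm n) := fun _ => rfl
  let V' : π.ker → Multiset G := fun n => Vn1 (ω.symm n) + Vn2 (ω (ψ n))
  let E' : π.ker → Multiset (Sym2 G) := fun n =>
    En1 (ω.symm n) + s((ψ n : G) * bx, (ω (ψ n) : G) * b_y) ::ₘ En2 (ω (ψ n))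
  have hQ : ∀ n, Path (V' n) (E' n) ((ω.symm n : G) * (g * Y)) ((n : G) * bp) := fun n =>
    ((hPn1 (ω.symm n)).append (hPn2 (ω (ψ n)))).congr rfl rfl rfl (by rw [hψ, hT])
  have hK1 := hω.cyc (by omega) _ _ _ _
    (fun n => Path.cons ((n : G) * (g * ω n1)) _ _ _ _ (hQ n))
  have hu1 : u0 ≠ 1 := fun h => by
    rw [h, map_one, OneMemClass.coe_one, one_mul, mul_right_inj] at hu0
    exact hn1' (hω.fix h3 (Subtype.ext hu0))
  obtain ⟨E1', hP1', hE1'⟩ := hK1.cut (x := g * n1) (y := g * X)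
    (Multiset.mem_sum.2 ⟨u0, by simpa using hu1, by
      rw [hbp, hu0, Sym2.eq_swap]; exact Multiset.mem_cons_self _ _⟩)
  have hQ1 := hQ 1
  simp only [map_one, OneMemClass.coe_one, one_mul] at hQ1
  have hK := (hP1'.append (hQ1.append (Path.single (g * ω n1)))).close
  have hXY : s(Y, X) ∈ E' (ψ.symm ns) := by
    simp only [E', MulEquiv.apply_symm_apply, hbx, hby]
    rw [Sym2.eq_swap]; simp
  obtain ⟨EK, hPK, hEK⟩ := hK.cut (x := Y) (y := X) (by
    by_cases h0 : ψ.symm ns = 1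
    · rw [h0] at hXY; simp [hXY]
    · have h1 : s(Y, X) ∈ s(g * n1, g * X) ::ₘ E1' := by
        rw [← hE1']
        exact Multiset.mem_sum.2 ⟨ψ.symm ns, by simpa using h0, by simp [hXY]⟩
      have h2 : s(Y, X) ∈ E1' := by
        refine (Multiset.mem_cons.1 h1).resolve_left fun h => ?_
        rcases Sym2.eq_iff.1 h with ⟨h, -⟩ | ⟨-, h⟩
        · exact hry (by rw [h, hker'])
        · exact hrx (by rw [h, hker'])
      simp [h2])
  obtain ⟨VN, EN, hPN, hVN, hEN⟩ := hω.kernel_cyc π h3 hn1'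
  refine ⟨_, _, X, (hPK.append hPN).close, fun z => ?_, fun z => ?_, by simp [hn1]⟩
  · have h1 := Finset.sum_erase_add Finset.univ (fun n => C (V' n) z) (Finset.mem_univ 1)
    have h2 := Finset.sum_erase_add Finset.univ
      (fun n : π.ker => ind ((n : G) * (g * ω n1) = z)) (Finset.mem_univ 1)
    have h2' := fib_C π Function.bijective_id (g * ω n1) z
    simp only [id] at h2'
    rw [h2', hker'] at h2
    have h4 : ∑ n, C (V' n) z = C V1 (π z) + C V2 (π z) := by
      simp only [V', C_add, Finset.sum_add_distrib]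
      rw [ω.symm.bijective.sum_comp (fun n => C (Vn1 n) z), hVn1, ← hVn2,
        ← (ψ.trans ω).bijective.sum_comp (fun n => C (Vn2 n) z)]
      rfl
    have h5 := hVN z
    have h6 := ind_eq_add_ne z
    have h7 := ind_eq_add_ne (π z)
    have h8 := hV (π z)
    simp only [OneMemClass.coe_one, one_mul] at h2
    simp only [C_add, C_sum, C_cons, C_singleton, Finset.sum_add_distrib]
    omega
  · have h1 := Finset.sum_erase_add Finset.univ (fun n => W (E' n) z) (Finset.mem_univ 1)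
    have h2 := Finset.sum_erase_add Finset.univ
      (fun n : π.ker => wt s((n : G) * (g * ω n1), (ω.symm n : G) * (g * Y)) z) (Finset.mem_univ 1)
    rw [match_W π (hω.symm.ortho h3), hker'] at h2
    have h2' := Finset.sum_erase_add Finset.univ
      (fun n : π.ker => wt s((n : G) * bp, (ω n : G) * (g * ω n1)) z) (Finset.mem_univ 1)
    rw [match_W π (hω.ortho h3), hker', hπp] at h2'
    have h4 : ∑ n, W (E' n) z = W E1 (π z) + wt s(π X, π Y) (π z) + W E2 (π z) := by
      simp only [E', W_add, W_cons, Finset.sum_add_distrib]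
      rw [ω.symm.bijective.sum_comp (fun n => W (En1 n) z), hEn1, ← hEn2,
        ← (ψ.trans ω).bijective.sum_comp (fun n => W (En2 n) z),
        ψ.bijective.sum_comp (fun n : π.ker => wt s((n : G) * bx, (ω n : G) * b_y) z),
        match_W π (hω.ortho h3), hπx, hπy, add_assoc]
      rfl
    have h5 := hEN z
    have h6 := ind_eq_add_ne z
    have h7 := ind_eq_add_ne (π z)
    have h8 := hE (π z)
    have h9 := congrArg (fun E => W E z) hE1'
    have h10 := congrArg (fun E => W E z) hEK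
    simp only [W_sum, W_cons, W_add, W_zero, Finset.sum_add_distrib] at h9 h10
    simp only [map_one, OneMemClass.coe_one, one_mul] at h2 h2'
    have c1 : wt s(g * n1, g * X) z = wt s(X, (n1 : G)) z := wt_congr' (by group) z
    have c2 : wt s(g * n1, g * ω n1) z = wt s((n1 : G), (ω n1 : G)) z := wt_congr (by group) z
    have c3 : wt s(g * ω n1, g * Y) z = wt s(Y, (ω n1 : G)) z := wt_congr' (by group) z
    have c4 : wt s(g * X, g * Y) z = wt s(Y, X) z := wt_congr' (by group) z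
    simp only [W_add, W_cons]
    omega

theorem fpath {X : Type*} (v : ℕ → X) (k : ℕ) :
    Path (∑ j ∈ Finset.range (k + 1), ({v j} : Multiset X))
      (∑ j ∈ Finset.range k, ({s(v j, v (j + 1))} : Multiset (Sym2 X))) (v 0) (v k) := by
  have := path_chain (fun j => ({v j} : Multiset X)) (fun _ => 0) v v id k
    (fun j _ => Path.single _)
  simpa using this

theorem Singer.orbit {N : Type*} [Group N] [Fintype N] [DecidableEq N] {ω : N ≃* N} (h : Singer ω)
    {x : N} (hx : x ≠ 1) : ∃ L, (ω : N → N)^[L] x = x ∧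
      (∀ f : N → ℕ, ∑ j ∈ Finset.range L, f ((ω : N → N)^[j] x) = ∑ y ∈ Finset.univ.erase 1, f y) ∧
      ∀ y, y ≠ 1 → ∃ i, i < L ∧ (ω : N → N)^[i] x = y := by
  have hper : x ∈ Function.periodicPts ω := ω.injective.mem_periodicPts x
  have hpos := Function.minimalPeriod_pos_of_mem_periodicPts hper
  have hsurj : ∀ y, y ≠ 1 → ∃ i, i < Function.minimalPeriod ω x ∧ (ω : N → N)^[i] x = y := by
    intro y hy
    obtain ⟨i, hi⟩ := h x y hx hy
    exact ⟨i % _, Nat.mod_lt _ hpos, by rw [Function.iterate_mod_minimalPeriod_eq, hi]⟩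
  refine ⟨Function.minimalPeriod ω x, Function.isPeriodicPt_minimalPeriod ω x, fun f => ?_, hsurj⟩
  refine Finset.sum_nbij (fun j => (ω : N → N)^[j] x) (fun j _ => ?_) ?_ ?_ (fun _ _ => rfl)
  · have : ∀ j, (ω : N → N)^[j] x ≠ 1 := by
      intro j
      induction j with
      | zero => simpa
      | succ j ih => rw [Function.iterate_succ_apply']; simpa
    simpa using this j
  · intro i hi j hj hij
    exact Function.iterate_injOn_Iio_minimalPeriod (f := ω) (x := x) (by simpa using hi)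
      (by simpa using hj) hij
  · intro y hy
    obtain ⟨i, hi, h⟩ := hsurj y (by simpa using hy)
    exact ⟨i, by simpa using hi, h⟩

/-- The Singer cycle of an elementary abelian `2`-group cut into the pieces we need. -/
theorem elem_pieces [Finite H] (h3 : 3 ≤ Nat.card H) (h2 : ∀ h : H, h * h = 1) {x : H}
    (hx : x ≠ 1) : ∃ (r y : H) (V1 V2 : Multiset H) (E1 E2 : Multiset (Sym2 H)),
      Path V1 E1 (r * y) x ∧ Path V2 E2 y (r * x) ∧
      (∀ h, ind (r = h) + C V1 h + C V2 h = ind (h ≠ 1)) ∧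
      (∀ h, wt s(r, r * y) h + W E1 h + wt s(x, y) h + W E2 h + wt s(r * x, r) h =
        2 * ind (h ≠ 1)) ∧ r ≠ x ∧ r ≠ y ∧ Even (Multiset.card E1 + Multiset.card E2) := by
  classical
  have := Fintype.ofFinite H
  have hinv : ∀ h : H, h⁻¹ = h := fun h => inv_eq_of_mul_eq_one_right (h2 h)
  have hc : ∀ a b : H, a * b = b * a := fun a b => by
    rw [← hinv (a * b), mul_inv_rev, hinv, hinv]
  obtain ⟨σ, hσ⟩ := exists_singer 2 H hc fun a => by rw [pow_two, h2]
  obtain ⟨p, hp⟩ := (hσ.ortho h3).2.2 x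
  simp only [hinv] at hp
  have hp1 : p ≠ 1 := fun h => hx (by rw [← hp, h, map_one, one_mul])
  have hr1 : σ p ≠ 1 := by simpa using hp1
  obtain ⟨L, hL, hsum, hsurj⟩ := hσ.orbit hr1
  obtain ⟨i, hiL, hi⟩ := hsurj x hx
  have hrx : σ p ≠ x := fun h => hp1 (by rw [← hp] at h; simpa using h)
  have hi0 : i ≠ 0 := fun h => hrx (by rw [← hi, h]; rfl)
  have hLp : (σ : H → H)^[L - 1] (σ p) = p := by
    apply σ.injective
    rw [← Function.iterate_succ_apply' σ, show (L - 1).succ = L by omega, hL]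
  have hiL' : i ≠ L - 1 := fun h => hr1 (by
    rw [h, hLp, ← hp] at hi; simpa using hi)
  obtain ⟨k1, rfl⟩ : ∃ k1, i = k1 + 1 := ⟨i - 1, by omega⟩
  obtain ⟨k2, rfl⟩ : ∃ k2, L = 1 + (k1 + 1) + (k2 + 1) := ⟨L - k1 - 3, by omega⟩
  set v : ℕ → H := fun j => (σ : H → H)^[j] (σ p) with hv
  have hvs : ∀ j, v (j + 1) = σ (v j) := fun j => Function.iterate_succ_apply' _ _ _
  have hq : σ p * σ x = v 1 := by
    rw [← hp, map_mul, ← mul_assoc, h2, one_mul]; rfl
  have hpp : σ p * x = p := by rw [← hp, hc p, ← mul_assoc, h2, one_mul]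
  have hx' : v (1 + k1) = x := by rw [add_comm]; exact hi
  have hy' : v (1 + (k1 + 1)) = σ x := by rw [← add_assoc, hvs, hx']
  have hp' : v (1 + (k1 + 1) + k2) = p := hLp
  refine ⟨σ p, σ x, _, _, _, _, (fpath (fun j => v (1 + j)) k1).congr rfl rfl hq.symm hx',
    (fpath (fun j => v (1 + (k1 + 1) + j)) k2).congr rfl rfl hy' (hp'.trans hpp.symm),
    fun h => ?_, fun h => ?_, hrx, fun h => ?_, ?_⟩
  · have h1 := hsum fun y => ind (y = h)
    rw [Finset.sum_range_add, Finset.sum_range_add, Finset.sum_range_one] at h1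
    have h4 := Finset.sum_erase_add Finset.univ (fun y : H => ind (y = h)) (Finset.mem_univ 1)
    rw [sum_ind_eq] at h4
    have h5 := ind_eq_add_ne h
    simp only [C_sum, C_singleton]
    change ind (σ p = h) + ∑ j ∈ Finset.range (k1 + 1), ind (v (1 + j) = h) +
      ∑ j ∈ Finset.range (k2 + 1), ind (v (1 + (k1 + 1) + j) = h) = _ at h1
    omega
  · have h1 := hsum fun y => wt s(y, σ y) h
    rw [Finset.sum_range_add, Finset.sum_range_add, Finset.sum_range_one, Finset.sum_range_succ,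
      Finset.sum_range_succ] at h1
    change wt s(σ p, v 1) h + (∑ j ∈ Finset.range k1, wt s(v (1 + j), σ (v (1 + j))) h +
      wt s(v (1 + k1), σ (v (1 + k1))) h) +
      (∑ j ∈ Finset.range k2, wt s(v (1 + (k1 + 1) + j), σ (v (1 + (k1 + 1) + j))) h +
        wt s(v (1 + (k1 + 1) + k2), σ (v (1 + (k1 + 1) + k2))) h) = _ at h1
    rw [hx', hp', show v 1 = σ (v 0) from hvs 0] at h1
    have h4 := Finset.sum_erase_add Finset.univ (fun y : H => wt s(y, σ y) h) (Finset.mem_univ 1)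
    have h5 : ∑ y : H, wt s(y, σ y) h = 2 := by
      simp only [wt_mk]
      rw [Finset.sum_add_distrib, (hσ.ortho h3).2.sum_comp (fun y => ind (y = h)),
        (hσ.ortho h3).2.sum_comp (fun y => ind (y = h⁻¹)), sum_ind_eq, sum_ind_eq]
    have h6 := ind_eq_add_ne h
    rw [h5, map_one, wt_mk, hinv h, inv_one, one_mul] at h4
    simp only [W_sum, ← Multiset.cons_zero, W_cons, W_zero, add_zero, ← add_assoc, hvs, hq, hpp]
    simp only [← add_assoc] at h1
    omega
  · exact hr1 (by rw [← σ.injective h] at hp; simpa using hp)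
  · have h1 := hsum fun _ => 1
    simp only [Finset.sum_const, Finset.card_range, smul_eq_mul, mul_one,
      Finset.card_erase_of_mem (Finset.mem_univ _), Finset.card_univ] at h1
    have h4 : 2 ∣ Fintype.card H := by
      have : orderOf x = 2 := orderOf_eq_prime (by rw [pow_two, h2]) hx
      rw [← this]; exact orderOf_dvd_card
    simp only [Multiset.card_sum, Multiset.card_singleton, Finset.sum_const, Finset.card_range,
      smul_eq_mul, mul_one]
    rw [Nat.even_iff]; omega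

/-- Extension theorem over an elementary abelian `2`-group of order at least `4`. -/
theorem RC.of_elem (π : G →* H) (hπ : Function.Surjective π) [Finite π.ker] [Finite H]
    (p : ℕ) [Fact p.Prime] (h3 : 3 ≤ Nat.card π.ker) (hc : ∀ x y : π.ker, x * y = y * x)
    (hp : ∀ x : π.ker, x ^ p = 1) (hH : 3 ≤ Nat.card H) (h2 : ∀ h : H, h * h = 1)
    (X : G) (hX : π X ≠ 1) (hXX : X * X ≠ 1) : RC G := by
  obtain ⟨r, y, V1, V2, E1, E2, hP1, hP2, hV, hE, hrx, hry, hev⟩ := elem_pieces hH h2 hX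
  obtain ⟨ω, hω⟩ := exists_singer p π.ker hc hp
  let n1 : π.ker := ⟨X * X, by rw [MonoidHom.mem_ker, map_mul, h2]⟩
  have hn1 : n1 ≠ 1 := fun h => hXX (congrArg Subtype.val h)
  obtain ⟨Θ1, Θ2, hΘ1, hΘ2, hT⟩ : ∃ Θ1 Θ2 : π.ker ≃* π.ker, OProd (Multiset.card E1) Θ1 ∧
      OProd (Multiset.card E2) Θ2 ∧ ∀ n, Θ2 (ω (Θ1 (ω.symm n))) = n := by
    have o1 := hω.ortho h3
    have o2 := hω.symm.ortho h3
    obtain ⟨k1, e1 | e1⟩ := Nat.even_or_odd' (Multiset.card E1)
    · obtain ⟨k2, e2⟩ : ∃ k2, Multiset.card E2 = 2 * k2 :=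
        ⟨Multiset.card E2 / 2, by rw [Nat.even_iff] at hev; omega⟩
      refine ⟨MulEquiv.refl _, MulEquiv.refl _, ?_, ?_, fun n => by simp⟩
      · rw [e1, ← zero_add (2 * k1)]
        exact OProd.add_two OProd.zero o1 o2 ω.apply_symm_apply k1
      · rw [e2, ← zero_add (2 * k2)]
        exact OProd.add_two OProd.zero o1 o2 ω.apply_symm_apply k2
    · obtain ⟨k2, e2⟩ : ∃ k2, Multiset.card E2 = 1 + 2 * k2 :=
        ⟨Multiset.card E2 / 2, by rw [Nat.even_iff] at hev; omega⟩
      refine ⟨ω, ω.symm, ?_, ?_, fun n => by simp⟩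
      · rw [e1, add_comm]
        exact OProd.add_two (OProd.one o1) o1 o2 ω.apply_symm_apply k1
      · rw [e2]
        exact OProd.add_two (OProd.one o2) o1 o2 ω.apply_symm_apply k2
  obtain ⟨Y, rfl⟩ := hπ y
  have hker : ∀ (n : π.ker) (a : G), π ((n : G) * a) = π a := fun n a => by
    rw [map_mul, (MonoidHom.mem_ker).1 n.2, one_mul]
  -- `u g` is the label of the removed edge
  let u : G → π.ker := fun g => ω.symm (MulAut.conjNormal g (n1 * (ω n1)⁻¹))
  have hu : ∀ g, (ω (u g) : G) * (g * ω n1) = g * n1 := fun g => by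
    simp [u, mul_assoc]
  have main : ∀ (g bx b_y : G) (ns : π.ker), π g = r → (ns : G) * bx = X → (ω ns : G) * b_y = Y →
      (Multiset.card E1 = 0 → g * Y = bx) →
      (Multiset.card E2 = 0 → b_y = ((u g)⁻¹ : π.ker) * (g * X)) → RC G := by
    intro g bx b_y ns hg h1 h2' h01 h02
    subst hg
    rw [← map_mul] at hP1 hP2
    refine elem_core π hπ h3 hω X Y g bx b_y _ n1 (u g) ns rfl hn1 hP1 hP2 hV ?_ hrx hry Θ1 Θ2
      hΘ1 hΘ2 hT (hu g) (by simp) h1 h2' h01 h02
    simpa only [map_mul] using hE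
  obtain ⟨g0, hg0⟩ := hπ r
  by_cases h02 : Multiset.card E2 = 0
  · have hyp : π Y = r * π X := hP2.eq_of_zero h02
    by_cases h01 : Multiset.card E1 = 0
    · have hqx : r * π Y = π X := hP1.eq_of_zero h01
      let c : π.ker := ⟨X * Y⁻¹ * X * Y⁻¹, by
        rw [MonoidHom.mem_ker, mul_assoc, ← map_one π, mul_assoc, ← mul_assoc X, map_mul, h2,
          map_one]⟩
      obtain ⟨k, hk⟩ := (hω.ortho h3).2.2 (ω c * (u (Y * X⁻¹))⁻¹)
      have huk : u (k * (Y * X⁻¹)) = u (Y * X⁻¹) := by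
        simp only [u, map_mul MulAut.conjNormal, MulAut.mul_apply]
        congr 1
        apply Subtype.ext
        rw [MulAut.conjNormal_apply, ← Subgroup.coe_mul, hc, Subgroup.coe_mul,
          mul_inv_cancel_right]
      refine main (k * (Y * X⁻¹)) (k * (Y * X⁻¹) * Y) (((u (Y * X⁻¹))⁻¹ : π.ker) * (k * Y))
        (c * k⁻¹) ?_ ?_ ?_ (fun _ => rfl) (fun _ => ?_)
      · rw [hker, map_mul, map_inv, hyp, mul_inv_cancel_right]
      · simp [c, mul_assoc]
      · have : ω (c * k⁻¹) * (u (Y * X⁻¹))⁻¹ * k = 1 := by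
          simp only at hk
          rw [map_mul, map_inv, mul_assoc (ω c), hc (ω k)⁻¹, ← mul_assoc, ← hk]
          group
        rw [← mul_assoc, ← mul_assoc, ← Subgroup.coe_mul, ← Subgroup.coe_mul, this]; simp
      · rw [huk]; simp [mul_assoc]
    · let m : π.ker := ⟨Y * (((u g0)⁻¹ : π.ker) * (g0 * X))⁻¹, by
        rw [MonoidHom.mem_ker, map_mul, map_inv, hker, map_mul, hg0, hyp, mul_inv_cancel]⟩
      refine main g0 (((ω.symm m)⁻¹ : π.ker) * X) (((u g0)⁻¹ : π.ker) * (g0 * X)) (ω.symm m) hg0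
        (by simp) (by simp [m, mul_assoc]) (fun h => absurd h h01) (fun _ => rfl)
  · by_cases h01 : Multiset.card E1 = 0
    · have hqx : r * π Y = π X := hP1.eq_of_zero h01
      let m : π.ker := ⟨X * (g0 * Y)⁻¹, by
        rw [MonoidHom.mem_ker, map_mul, map_inv, map_mul, hg0, hqx, mul_inv_cancel]⟩
      exact main g0 (g0 * Y) (((ω m)⁻¹ : π.ker) * Y) m hg0 (by simp [m, mul_assoc]) (by simp)
        (fun _ => rfl) (fun h => absurd h h02)
    · exact main g0 X Y 1 hg0 (by simp) (by simp) (fun h => absurd h h01) (fun h => absurd h h02)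

/-- The element of order greater than two outside the kernel. -/
theorem exists_outside (π : G →* H) (hπ : Function.Surjective π) [Finite H]
    (hH : 3 ≤ Nat.card H) (h2 : ∀ h : H, h * h = 1) (hG : ¬ ∀ g : G, g * g = 1) :
    ∃ X : G, π X ≠ 1 ∧ X * X ≠ 1 := by
  by_contra hcon
  have hall : ∀ X : G, π X ≠ 1 → X * X = 1 := fun X hX => by
    by_contra h; exact hcon ⟨X, hX, h⟩
  obtain ⟨g, hg⟩ := not_forall.1 hG
  have hg1 : π g = 1 := by by_contra h; exact hg (hall g h)
  obtain ⟨a, ha⟩ := exists_ne_one_of_card (N := H) (by omega)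
  obtain ⟨b, hb1, hba⟩ := exists_third hH 1 a
  obtain ⟨a, rfl⟩ := hπ a
  obtain ⟨b, rfl⟩ := hπ b
  have hinv : ∀ X : G, π X ≠ 1 → ∀ n : G, π n = 1 → X * n = n⁻¹ * X := fun X hX n hn => by
    have h1 := hall (X * n) (by rwa [map_mul, hn, mul_one])
    have h3 := hall X hX
    calc X * n = (X * n)⁻¹ := (inv_eq_of_mul_eq_one_right h1).symm
      _ = n⁻¹ * X := by rw [mul_inv_rev, inv_eq_of_mul_eq_one_right h3]
  have hab : π (a * b) ≠ 1 := fun h => hba (by
    rw [map_mul] at h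
    rw [← mul_left_cancel_iff (a := π a), h, h2])
  have h4 := hinv (a * b) hab g hg1
  rw [mul_assoc, hinv b hb1 g hg1, ← mul_assoc, hinv a ha g⁻¹ (by rw [map_inv, hg1, inv_one]),
    inv_inv, mul_assoc, mul_left_inj] at h4
  exact hg (by nth_rewrite 1 [h4]; rw [inv_mul_cancel])

end Pool.Agent.Lib.MP_0becda_co
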