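import Pool.Agent.Lib.MP_0becda_co.ExtElem

set_option autoImplicit false

namespace Pool.Agent.Lib.MP_0becda_co

section alt
variable {X : Type*}

/-- Walks with an even number of edges, alternately put in two multisets. -/
inductive AltPath : Multiset X → Multiset (Sym2 X) → Multiset (Sym2 X) → X → X → Prop
  | nil (a : X) : AltPath {a} 0 0 a a
  | step (a c d b : X) (V : Multiset X) (E0 E1 : Multiset (Sym2 X)) :
      AltPath V E0 E1 d b → AltPath (a ::ₘ c ::ₘ V) (s(a, c) ::ₘ E0) (s(c, d) ::ₘ E1) a b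

theorem AltPath.congr {V V' : Multiset X} {E0 E0' E1 E1' : Multiset (Sym2 X)} {a b : X}
    (h : AltPath V E0 E1 a b) (hV : V = V') (h0 : E0 = E0') (h1 : E1 = E1') :
    AltPath V' E0' E1' a b := by subst hV h0 h1; exact h

theorem AltPath.mid {V' V'' : Multiset X} {E0' E1' F0 F1 : Multiset (Sym2 X)} {c d e f : X}
    (h2 : AltPath V' E1' E0' c d) (h3 : AltPath V'' F0 F1 e f) (a : X) :
    AltPath (a ::ₘ (V' + V'')) (s(a, c) ::ₘ (E0' + F0)) (E1' + s(d, e) ::ₘ F1) a f := by
  induction h2 generalizing a with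
  | nil c => exact (AltPath.step a c e f _ _ _ h3).congr (by simp) (by simp) (by simp)
  | step c c1 c2 d V E1 E0 _ ih =>
    exact (AltPath.step a c c1 f _ _ _ (ih c1)).congr (by simp) (by simp)
      (by rw [Multiset.cons_add])

theorem AltPath.glue {V V' V'' : Multiset X} {E0 E1 E0' E1' F0 F1 : Multiset (Sym2 X)}
    {a b c d e f : X} (h1 : AltPath V E0 E1 a b) (h2 : AltPath V' E1' E0' c d)
    (h3 : AltPath V'' F0 F1 e f) :
    AltPath (V + (V' + V'')) (E0 + s(b, c) ::ₘ (E0' + F0)) (E1 + (E1' + s(d, e) ::ₘ F1)) a f := by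
  induction h1 with
  | nil a => exact (h2.mid h3 a).congr (by simp) (by simp) (by simp)
  | step a a1 a2 b V E0 E1 _ ih =>
    exact (AltPath.step a a1 a2 f _ _ _ ih).congr (by simp) (by rw [Multiset.cons_add])
      (by rw [Multiset.cons_add])

theorem AltPath.reverse {V : Multiset X} {E0 E1 : Multiset (Sym2 X)} {a b : X}
    (h : AltPath V E0 E1 a b) : AltPath V E1 E0 b a := by
  induction h with
  | nil a => exact AltPath.nil a
  | step a c d b V E0 E1 _ ih =>
    refine (ih.glue (AltPath.nil c) (AltPath.nil a)).congr ?_ ?_ ?_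
    · simp only [← Multiset.singleton_add]; abel
    · rw [Sym2.eq_swap (a := d)]; simp only [← Multiset.singleton_add]; abel
    · rw [Sym2.eq_swap (a := c)]; simp only [← Multiset.singleton_add]; abel

theorem AltPath.toPath {V : Multiset X} {E0 E1 : Multiset (Sym2 X)} {a b : X}
    (h : AltPath V E0 E1 a b) : Path V (E0 + E1) a b := by
  induction h with
  | nil a => simpa using Path.single a
  | step a c d b V E0 E1 _ ih =>
    refine (Path.cons a c b _ _ (Path.cons c d b _ _ ih)).congr rfl ?_ rfl rfl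
    simp only [← Multiset.singleton_add]; abel

/-- Going back and forth along a family of paths. -/
theorem AltPath.weave {Y : Type*} {V : Multiset X} {E0 E1 : Multiset (Sym2 X)} {a b : X}
    (h : AltPath V E0 E1 a b) (Vn : X → Multiset Y) (En : X → Multiset (Sym2 Y)) (A B : X → Y)
    (hP : ∀ n, Path (Vn n) (En n) (A n) (B n)) :
    Path (V.map Vn).sum ((V.map En).sum + (E0.map (Sym2.map B) + E1.map (Sym2.map A)))
      (A a) (B b) := by
  induction h with
  | nil a => simpa using hP a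
  | step a c d b V E0 E1 _ ih =>
    refine ((hP a).append ((hP c).reverse.append ih)).congr (by simp) ?_ rfl rfl
    simp only [Multiset.map_cons, Multiset.sum_cons, Sym2.map_mk]
    simp only [← Multiset.singleton_add]; abel

theorem AltPath.weave_alt {Y : Type*} {V : Multiset X} {E0 E1 : Multiset (Sym2 X)} {a b : X}
    (h : AltPath V E0 E1 a b) (Vn : X → Multiset Y) (F0 F1 : X → Multiset (Sym2 Y)) (A B : X → Y)
    (hP : ∀ n, AltPath (Vn n) (F0 n) (F1 n) (A n) (B n)) :
    AltPath (V.map Vn).sum ((V.map F0).sum + E0.map (Sym2.map B))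
      ((V.map F1).sum + E1.map (Sym2.map A)) (A a) (B b) := by
  induction h with
  | nil a => simpa using hP a
  | step a c d b V E0 E1 _ ih =>
    refine ((hP a).glue (hP c).reverse ih).congr (by simp) ?_ ?_
    · simp only [Multiset.map_cons, Multiset.sum_cons, Sym2.map_mk]
      simp only [← Multiset.singleton_add]; abel
    · simp only [Multiset.map_cons, Multiset.sum_cons, Sym2.map_mk]
      simp only [← Multiset.singleton_add]; abel

theorem eq_univ_of_C [Fintype X] {V : Multiset X} (h : ∀ x, C V x = 1) : V = Finset.univ.val := by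
  classical
  ext x
  rw [← C_eq_count, h, Multiset.count_univ]

end alt

variable {G H : Type*} [Group G] [Group H]

/-- Starter-translate terraces. -/
def ST (G : Type*) [Group G] : Prop :=
  ∃ (V : Multiset G) (E0 E1 : Multiset (Sym2 G)) (a b : G), AltPath V E0 E1 a b ∧
    (∀ g, C V g = 1) ∧ (∀ g, W E0 g = ind (g ≠ 1)) ∧ ∀ g, W E1 g = ind (g ≠ 1)

theorem ST.ter (h : ST G) : Ter G := by
  obtain ⟨V, E0, E1, a, b, hp, hV, h0, h1⟩ := h
  exact ⟨V, _, a, b, hp.toPath, hV, fun g => by rw [W_add, h0, h1, two_mul]⟩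

theorem W_map_fib (π : G →* H) (ψ : π.ker ≃* π.ker) (b : G) {E : Multiset (Sym2 π.ker)}
    (hE : ∀ n, W E n = ind (n ≠ 1)) (g : G) :
    W (E.map (Sym2.map fun n => (ψ n : G) * b)) g + ind (1 = g) = ind (1 = π g) := by
  by_cases hg : π g = 1
  · let n : π.ker := ψ.symm ⟨b * g * b⁻¹, by simp [MonoidHom.mem_ker, hg]⟩
    have hn : (ψ n : G) = b * g * b⁻¹ := by simp [n]
    have key : ∀ E : Multiset (Sym2 π.ker),
        W (E.map (Sym2.map fun n => (ψ n : G) * b)) g = W E n := by
      intro E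
      induction E using Multiset.induction_on with
      | empty => simp
      | cons e E ih =>
        rw [Multiset.map_cons, W_cons, W_cons, ih]
        congr 1
        induction e using Sym2.ind with
        | _ u v =>
          have aux : ∀ (z : G) (m : π.ker), (ψ m : G) = b * z * b⁻¹ →
              ((((ψ u : G) * b)⁻¹ * ((ψ v : G) * b) = z) ↔ u⁻¹ * v = m) := by
            intro z m hm
            rw [← ψ.injective.eq_iff, Subtype.ext_iff, hm, map_mul, map_inv, Subgroup.coe_mul,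
              Subgroup.coe_inv]
            constructor
            · intro h; rw [← h]; group
            · intro h; rw [mul_inv_rev, mul_assoc, ← mul_assoc _ _ b, h]; group
          rw [Sym2.map_mk, wt_mk, wt_mk, ind_congr (aux g n hn),
            ind_congr (aux g⁻¹ n⁻¹ (by rw [map_inv, Subgroup.coe_inv, hn]; group))]
    rw [key, hE, ind_pos hg.symm]
    have : n ≠ 1 ↔ g ≠ 1 := by
      rw [ne_eq, ← ψ.injective.eq_iff, Subtype.ext_iff, hn]; simp
    rw [ind_congr this, add_comm, ind_eq_add_ne]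
  · have key : ∀ E : Multiset (Sym2 π.ker),
        W (E.map (Sym2.map fun n => (ψ n : G) * b)) g = 0 := by
      intro E
      induction E using Multiset.induction_on with
      | empty => simp
      | cons e E ih =>
        rw [Multiset.map_cons, W_cons, ih]
        induction e using Sym2.ind with
        | _ u v =>
          have aux : π (((ψ u : G) * b)⁻¹ * ((ψ v : G) * b)) = 1 := by
            simp [(MonoidHom.mem_ker).1 (ψ u).2, (MonoidHom.mem_ker).1 (ψ v).2]
          rw [Sym2.map_mk, wt_mk, ind_neg (fun h => hg (by rw [← h, aux])),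
            ind_neg (fun h => hg (by rw [h, map_inv, inv_eq_one] at aux; exact aux))]
    rw [key, ind_neg (Ne.symm hg), ind_neg (fun h => hg (by rw [← h, map_one]))]

theorem ortho_inv {N : Type*} [Group N] [Finite N] (hc : ∀ x y : N, x * y = y * x)
    (h2 : ∀ x : N, x * x = 1 → x = 1) : ∃ ι : N ≃* N, Ortho ι ∧ ∀ n, ι (ι n) = n := by
  let _ : CommGroup N := { (inferInstance : Group N) with mul_comm := hc }
  refine ⟨MulEquiv.inv N, ortho_of_fpf _ fun x hx => h2 x ?_, fun n => inv_inv n⟩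
  have : x⁻¹ = x := hx
  nth_rewrite 1 [← this]; exact inv_mul_cancel x

theorem exists_oprod {N : Type*} [Group N] [Finite N] (hc : ∀ x y : N, x * y = y * x)
    (h2 : ∀ x : N, x * x = 1 → x = 1) (l : ℕ) : ∃ Θ : N ≃* N, OProd l Θ := by
  obtain ⟨ι, h1, hι⟩ := ortho_inv hc h2
  obtain ⟨k, rfl | rfl⟩ := Nat.even_or_odd' l
  · refine ⟨MulEquiv.refl N, ?_⟩
    rw [← zero_add (2 * k)]
    exact OProd.add_two OProd.zero h1 h1 hι k
  · refine ⟨ι, ?_⟩
    rw [add_comm]
    exact OProd.add_two (OProd.one h1) h1 h1 hι k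

theorem ai_core (π : G →* H) [Fintype π.ker] (hST : ST π.ker) :
    ∃ x0 x1 : π.ker, ∀ (a b : G) (Θ : π.ker ≃* π.ker) (Vn : π.ker → Multiset G)
      (En : π.ker → Multiset (Sym2 G)),
      (∀ n : π.ker, Path (Vn n) (En n) ((n : G) * a) ((Θ n : G) * b)) →
      ∃ E', Path (∑ n, Vn n) (∑ n, En n + E') ((x0 : G) * a) ((Θ x1 : G) * b) ∧
        ∀ g, W E' g + 2 * ind (1 = g) = 2 * ind (1 = π g) := by
  obtain ⟨V, E0, E1, x0, x1, hp, hV, h0, h1⟩ := hST
  refine ⟨x0, x1, fun a b Θ Vn En hP =>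
    ⟨E0.map (Sym2.map fun n => (Θ n : G) * b) + E1.map (Sym2.map fun n : π.ker => (n : G) * a),
      ?_, fun g => ?_⟩⟩
  · have := hp.weave Vn En _ _ hP
    rw [eq_univ_of_C hV] at this
    exact this
  · have e0 := W_map_fib π Θ b h0 g
    have e1 : W (E1.map (Sym2.map fun n : π.ker => (n : G) * a)) g + _ = _ :=
      W_map_fib π (MulEquiv.refl _) a h1 g
    rw [W_add]; omega

/-- The Anderson-Ihrig extension theorem. -/
theorem Ter.ext_odd (π : G →* H) (hπ : Function.Surjective π) [Finite π.ker]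
    (hc : ∀ x y : π.ker, x * y = y * x) (h2 : ∀ x : π.ker, x * x = 1 → x = 1)
    (hST : ST π.ker) (h : Ter H) : Ter G := by
  have := Fintype.ofFinite π.ker
  obtain ⟨V, E, a', b', hp, hV, hE⟩ := h
  obtain ⟨Θ, hΘ⟩ := exists_oprod hc h2 (Multiset.card E)
  obtain ⟨x0, x1, hx⟩ := ai_core π hST
  obtain ⟨a, ha⟩ := hπ a'
  obtain ⟨b, hb, h0⟩ : ∃ b, π b = b' ∧ (Multiset.card E = 0 → a = b) := by
    by_cases h0 : Multiset.card E = 0
    · exact ⟨a, by rw [ha, hp.eq_of_zero h0], fun _ => rfl⟩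
    · obtain ⟨b, hb⟩ := hπ b'
      exact ⟨b, hb, fun h => absurd h h0⟩
  obtain ⟨Vn, En, hP, hVn, hEn⟩ := strands π hπ hp Θ a b hΘ ha hb h0
  obtain ⟨E', hP', hE'⟩ := hx a b Θ Vn En hP
  refine ⟨_, _, _, _, hP', fun g => by rw [C_sum, hVn, hV], fun g => ?_⟩
  have h3 := hE' g
  have h4 := ind_eq_add_ne g
  have h5 := ind_eq_add_ne (π g)
  rw [W_add, W_sum, hEn, hE]; omega

theorem alt_strands (π : G →* H) (hπ : Function.Surjective π) [Fintype π.ker]
    {ι : π.ker ≃* π.ker} (hι : Ortho ι) (hιι : ∀ n, ι (ι n) = n)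
    {V : Multiset H} {E0 E1 : Multiset (Sym2 H)} {a' b' : H} (hp : AltPath V E0 E1 a' b') :
    ∀ a : G, π a = a' → ∃ (b : G) (Vn : π.ker → Multiset G) (F0 F1 : π.ker → Multiset (Sym2 G)),
      (∀ n : π.ker, AltPath (Vn n) (F0 n) (F1 n) ((n : G) * a) ((n : G) * b)) ∧
      (∀ g, ∑ n, C (Vn n) g = C V (π g)) ∧ (∀ g, ∑ n, W (F0 n) g = W E0 (π g)) ∧
      (∀ g, ∑ n, W (F1 n) g = W E1 (π g)) := by
  induction hp with
  | nil a' =>
    intro a ha
    refine ⟨a, fun n => {(n : G) * a}, fun _ => 0, fun _ => 0, fun n => AltPath.nil _,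
      fun g => ?_, fun g => by simp, fun g => by simp⟩
    simp only [C_singleton]
    rw [← ha]; exact fib_C π Function.bijective_id a g
  | step a' c' d' b' V E0 E1 _ ih =>
    intro a ha
    obtain ⟨c, hc⟩ := hπ c'
    obtain ⟨d, hd⟩ := hπ d'
    obtain ⟨b, Vn, F0, F1, hP, hV, h0, h1⟩ := ih d hd
    refine ⟨b, _, _, _, fun n => AltPath.step ((n : G) * a) ((ι n : G) * c) _ _ _ _ _ (hP n),
      fun g => ?_, fun g => ?_, fun g => ?_⟩
    · simp only [C_cons, Finset.sum_add_distrib]
      rw [hV, fib_C π hι.1, hc, ← ha]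
      congr 1
      exact fib_C π Function.bijective_id a g
    · simp only [W_cons, Finset.sum_add_distrib]
      rw [h0, match_W π hι, ha, hc]
    · simp only [W_cons, Finset.sum_add_distrib]
      rw [h1, ← hc, ← hd, ← match_W π hι c d g, ← hι.1.sum_comp
        (fun n : π.ker => wt s((n : G) * c, (ι n : G) * d) g)]
      simp only [hιι]

theorem ST.ext_odd (π : G →* H) (hπ : Function.Surjective π) [Finite π.ker]
    (hc : ∀ x y : π.ker, x * y = y * x) (h2 : ∀ x : π.ker, x * x = 1 → x = 1)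
    (hST : ST π.ker) (h : ST H) : ST G := by
  have := Fintype.ofFinite π.ker
  obtain ⟨V, E0, E1, a', b', hp, hV, h0, h1⟩ := h
  obtain ⟨U, D0, D1, x0, x1, hq, hU, hD0, hD1⟩ := hST
  obtain ⟨ι, hι, hιι⟩ := ortho_inv hc h2
  obtain ⟨a, ha⟩ := hπ a'
  obtain ⟨b, Vn, F0, F1, hP, hVn, hF0, hF1⟩ := alt_strands π hπ hι hιι hp a ha
  have hfin := hq.weave_alt Vn F0 F1 _ _ hP
  rw [eq_univ_of_C hU] at hfin
  refine ⟨_, _, _, _, _, hfin, fun g => ?_, fun g => ?_, fun g => ?_⟩
  · change C (∑ n, Vn n) g = 1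
    rw [C_sum, hVn, hV]
  · change W (∑ n, F0 n + _) g = _
    have e0 : W (D0.map (Sym2.map fun n : π.ker => (n : G) * b)) g + _ = _ :=
      W_map_fib π (MulEquiv.refl _) b hD0 g
    have h4 := ind_eq_add_ne g
    have h5 := ind_eq_add_ne (π g)
    rw [W_add, W_sum, hF0, h0]; omega
  · change W (∑ n, F1 n + _) g = _
    have e0 : W (D1.map (Sym2.map fun n : π.ker => (n : G) * a)) g + _ = _ :=
      W_map_fib π (MulEquiv.refl _) a hD1 g
    have h4 := ind_eq_add_ne g
    have h5 := ind_eq_add_ne (π g)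
    rw [W_add, W_sum, hF1, h1]; omega

end Pool.Agent.Lib.MP_0becda_co
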