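import Pool.Agent.Lib.MP_0becda_co.Singer

set_option autoImplicit false

namespace Pool.Agent.Lib.MP_0becda_co

theorem exists_third {M : Type*} [Finite M] (h3 : 3 ≤ Nat.card M) (a b : M) :
    ∃ y, y ≠ a ∧ y ≠ b := by
  classical
  by_contra hcon
  have hall : ∀ y : M, y ∈ ({a, b} : Finset M) := fun y => by
    by_contra hy
    simp only [Finset.mem_insert, Finset.mem_singleton, not_or] at hy
    exact hcon ⟨y, hy⟩
  have := Fintype.ofFinite M
  have h1 : (Finset.univ : Finset M).card ≤ ({a, b} : Finset M).card :=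
    Finset.card_le_card fun y _ => hall y
  have h2 := Finset.card_le_two (a := a) (b := b)
  rw [Finset.card_univ, ← Nat.card_eq_fintype_card] at h1
  omega

theorem local_design (M : Type*) [Group M] [Finite M] (h3 : 3 ≤ Nat.card M)
    (hc : ∀ x y : M, x * y = y * x) (hp : ∀ x : M, x * x = 1) (α : M ≃* M) :
    ∃ (A : M ≃* M) (n1 n2 y1 y2 : M), Singer A ∧ n1 ≠ 1 ∧ n2 ≠ 1 ∧ n1 ≠ n2 ∧ y1 ≠ 1 ∧ y2 ≠ 1 ∧
      y1 ≠ y2 ∧ ((α (y1 * A y1) = n1 * y1 ∧ α (y2 * A y2) = n2 * y2) ∨
        (α (y2 * A y2) = n1 * y1 ∧ α (y1 * A y1) = n2 * y2)) ∧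
      α (α (A (y1 * y2))) = n1 * n2 := by
  obtain ⟨v, A, hA, hv, hb, hbv⟩ : ∃ (v : M) (A : M ≃* M), Singer A ∧ v ≠ 1 ∧
      v * α (v * A v) = α (α (A v)) ∧ α (α (A v)) ≠ v := by
    by_cases hα : ∀ x, α x = x
    · obtain ⟨v, hv⟩ := exists_ne_one_of_card (N := M) (by omega)
      obtain ⟨A, hA⟩ := exists_singer 2 M hc fun x => by rw [pow_two, hp]
      refine ⟨v, A, hA, hv, ?_, ?_⟩
      · rw [hα, hα, hα, ← mul_assoc, hp, one_mul]
      · rw [hα, hα]; exact fun h => hv (hA.fix h3 h)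
    · obtain ⟨v, hv⟩ := not_forall.1 hα
      have hv1 : v ≠ 1 := fun h => hv (by rw [h, map_one])
      obtain ⟨A, hA, hAv⟩ := exists_singer_two M h3 hc hp (u := v) (w := α.symm v) hv1
        (by simpa using hv1) (fun h => hv (by rw [MulEquiv.eq_symm_apply] at h; exact h))
      refine ⟨v, A, hA, hv1, ?_, ?_⟩
      · rw [hAv, map_mul, MulEquiv.apply_symm_apply, hc (α v), ← mul_assoc, hp, one_mul]
      · rw [hAv, MulEquiv.apply_symm_apply]; exact hv
  obtain ⟨y, hy1, hyv⟩ := exists_third h3 1 v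
  let _ : CommGroup M := { (inferInstance : Group M) with mul_comm := hc }
  have hp' : ∀ x z : M, x * (x * z) = z := fun x z => by rw [← mul_assoc, hp, one_mul]
  have heq : ∀ x z : M, x * z = 1 ↔ x = z := fun x z =>
    ⟨fun h => by rw [← hp' z x, mul_comm z x, h, mul_one], fun h => by rw [h, hp]⟩
  have hb1 : α (α (A v)) ≠ 1 := by simpa using hv
  have hyy : y * (y * v) = v := hp' _ _
  have hB : (y * α (y * A y)) * ((y * v) * α ((y * v) * A (y * v))) = α (α (A v)) := by
    rw [← hb]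
    simp only [map_mul, mul_assoc, mul_comm, mul_left_comm, hp', hp, one_mul]
  have hy2 : y * v ≠ 1 := fun h => hyv ((heq _ _).1 h)
  have hy12 : y ≠ y * v := fun h => hv (by simpa using h)
  by_cases hd : y * α (y * A y) ≠ 1 ∧ (y * v) * α ((y * v) * A (y * v)) ≠ 1
  · refine ⟨A, _, _, y, y * v, hA, hd.1, hd.2, fun h => hb1 ?_, hy1, hy2, hy12, Or.inl ⟨?_, ?_⟩, ?_⟩
    · rw [← hB, h, hp]
    · rw [mul_comm _ y, hp']
    · rw [mul_comm _ (y * v), hp']
    · rw [hyy, hB]
  · have hcase : (y * α (y * A y) = 1 ∧ (y * v) * α ((y * v) * A (y * v)) = α (α (A v))) ∨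
        ((y * v) * α ((y * v) * A (y * v)) = 1 ∧ y * α (y * A y) = α (α (A v))) := by
      by_cases h : y * α (y * A y) = 1
      · left; exact ⟨h, by rw [← hB, h, one_mul]⟩
      · right
        have h' : (y * v) * α ((y * v) * A (y * v)) = 1 := by
          by_contra h'; exact hd ⟨h, h'⟩
        exact ⟨h', by rw [← hB, h', mul_one]⟩
    refine ⟨A, v * ((y * v) * α ((y * v) * A (y * v))), v * (y * α (y * A y)), y, y * v, hA,
      ?_, ?_, fun h => hb1 ?_, hy1, hy2, hy12, Or.inr ⟨?_, ?_⟩, ?_⟩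
    · rcases hcase with ⟨-, h⟩ | ⟨h, -⟩ <;> rw [h]
      · exact fun h' => hbv ((heq _ _).1 h').symm
      · simpa using hv
    · rcases hcase with ⟨h, -⟩ | ⟨-, h⟩ <;> rw [h]
      · simpa using hv
      · exact fun h' => hbv ((heq _ _).1 h').symm
    · rw [← hB, ← mul_left_cancel h, hp]
    · simp only [mul_assoc, mul_comm, hp']
    · simp only [mul_assoc, mul_comm, mul_left_comm, hp']
    · rw [hyy, ← hB]
      simp only [mul_assoc, mul_comm, mul_left_comm, hp']

theorem Singer.oprod {M : Type*} [Group M] [Finite M] (h3 : 3 ≤ Nat.card M)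
    (hc : ∀ x y : M, x * y = y * x) (hp : ∀ x : M, x * x = 1) {A : M ≃* M} (hA : Singer A)
    (l : ℕ) : ∃ Θ φ : M ≃* M, OProd l Θ ∧ Singer φ ∧ ∀ n, A (φ n) = Θ n := by
  obtain ⟨k, rfl | rfl⟩ := Nat.even_or_odd' l
  · refine ⟨MulEquiv.refl M, A.symm, ?_, hA.symm, fun n => by simp⟩
    have := OProd.add_two (Θ := id) OProd.zero (hA.ortho h3) (hA.symm.ortho h3)
      A.apply_symm_apply k
    rw [zero_add] at this
    exact this
  · refine ⟨A.trans A, A, ?_, hA, fun n => rfl⟩
    have h2 : Ortho (A.trans A) := ortho_of_fpf _ fun x hx => by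
      have hx' : A (A x) = x := hx
      have : x * A x = 1 := hA.fix h3 (by rw [map_mul, hx', hc])
      refine hA.fix h3 ?_
      rw [← mul_left_cancel_iff (a := x), this, hp]
    have := OProd.add_two (OProd.one h2) (hA.ortho h3) (hA.symm.ortho h3)
      A.apply_symm_apply k
    rw [add_comm] at this
    exact this

variable {G H : Type*} [Group G] [Group H]

/-- Extension theorem along a normal elementary abelian `2`-subgroup of order at least `4`. -/
theorem RC.ext_two (π : G →* H) (hπ : Function.Surjective π) [Finite π.ker]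
    (h3 : 3 ≤ Nat.card π.ker) (hc : ∀ x y : π.ker, x * y = y * x) (hp : ∀ x : π.ker, x * x = 1)
    (h : RC H) : RC G := by
  classical
  have := Fintype.ofFinite π.ker
  obtain ⟨V, E, s, hcyc, hV, hE, hs⟩ := h
  have hs1 : s ≠ 1 := fun h1 => by
    have := C_pos_of_mem (hcyc.mem_of_edge hs).1
    rw [hV, ind_neg (by simpa using h1)] at this; omega
  obtain ⟨E', hP, rfl⟩ := hcyc.cut hs
  obtain ⟨S, rfl⟩ := hπ s
  let α : π.ker ≃* π.ker := MulAut.conjNormal S⁻¹
  have hα : ∀ n : π.ker, (α n : G) = S⁻¹ * n * S := fun n => by simp [α]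
  obtain ⟨A, n1, n2, y1, y2, hA, hn1, hn2, hn12, hy1, hy2, hy12, hcol, hloop⟩ :=
    local_design π.ker h3 hc hp α
  obtain ⟨ρ, hρ, hρn⟩ := exists_singer_two π.ker h3 hc hp hn2 hn1 hn12.symm
  obtain ⟨Θ, φ, hΘ, hφ, hAφ⟩ := hA.oprod h3 hc hp (Multiset.card E')
  have hinv : ∀ x : π.ker, ((x : G))⁻¹ = x := fun x => by
    rw [← Subgroup.coe_inv, inv_eq_of_mul_eq_one_right (hp x)]
  have hss : π S ≠ π S * π S := fun h => hs1 (by simpa using h)
  obtain ⟨Vn, En, hPn, hVn, hEn⟩ := strands π hπ hP Θ ((y2 : G) * S) ((A y2 : G) * (S * S)) hΘ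
    (by rw [map_mul, (MonoidHom.mem_ker).1 y2.2, one_mul])
    (by rw [map_mul, (MonoidHom.mem_ker).1 (A y2).2, one_mul, map_mul])
    (fun h0 => absurd (hP.eq_of_zero h0) hss)
  have hK1 := hφ.cyc (by omega) Vn En _ _ hPn
  -- the closing edges
  have hedge : ∀ m : π.ker, m ≠ y2 → s((m : G) * S, (A m : G) * (S * S)) ∈
      ∑ n ∈ Finset.univ.erase 1, (s((Θ n : G) * ((A y2 : G) * (S * S)),
        (φ n : G) * ((y2 : G) * S)) ::ₘ En n) := by
    intro m hm
    refine Multiset.mem_sum.2 ⟨φ.symm (m * y2), ?_, ?_⟩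
    · have : m * y2 ≠ 1 := fun h => hm (by rw [← mul_left_inj y2, h, hp])
      simpa only [Finset.mem_erase, Finset.mem_univ, and_true, ne_eq, map_eq_one_iff _ φ.symm.injective]
        using this
    · rw [← hAφ, MulEquiv.apply_symm_apply, Sym2.eq_swap, ← mul_assoc (_ : G) (y2 : G) S,
        ← mul_assoc (_ : G) (A y2 : G) (S * S),
        ← Subgroup.coe_mul, ← Subgroup.coe_mul, ← map_mul, mul_assoc m, hp, mul_one]
      exact Multiset.mem_cons_self _ _
  obtain ⟨E1, hP1, hE1⟩ := hK1.cut (hedge y1 hy12)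
  have hmatch : s(S, S * S) ∈ E1 := by
    have h1 := hedge 1 hy2.symm
    rw [hE1] at h1
    simp only [map_one, OneMemClass.coe_one, one_mul] at h1
    refine (Multiset.mem_cons.1 h1).resolve_left fun h => ?_
    rcases Sym2.eq_iff.1 h with ⟨h, -⟩ | ⟨h, -⟩
    · exact hy1 (Subtype.ext (by simpa using h.symm))
    · apply hss
      have := congrArg π h
      rwa [map_mul, (MonoidHom.mem_ker).1 (A y1).2, one_mul, map_mul] at this
  obtain ⟨VN, EN, hPN, hVN, hEN⟩ := hρ.kernel_cyc π h3 hn2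
  rw [hρn] at hPN hEN
  have hP0 := hPn 1
  simp only [map_one, OneMemClass.coe_one, one_mul] at hP0
  have hfin := ((hP1.append hP0.reverse).append hPN).close
  refine ⟨_, _, S, hfin, fun g => ?_, fun g => ?_, ?_⟩
  · have h1 := Finset.sum_erase_add Finset.univ (fun n => C (Vn n) g) (Finset.mem_univ 1)
    rw [hVn, hV] at h1
    have h2 := hVN g
    have h3 := ind_eq_add_ne g
    have h4 := ind_eq_add_ne (π g)
    simp only [C_add, C_sum]
    omega
  · have h1 := Finset.sum_erase_add Finset.univ (fun n => W (En n) g) (Finset.mem_univ 1)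
    rw [hEn] at h1
    have h2 := hEN g
    have h3' := ind_eq_add_ne g
    have h4 := ind_eq_add_ne (π g)
    have h5 := hE (π g)
    rw [W_cons] at h5
    have h6 := congrArg (fun E => W E g) hE1
    simp only [W_sum, W_cons, Finset.sum_add_distrib] at h6
    have h7 := Finset.sum_erase_add Finset.univ (fun n : π.ker => wt
      s((Θ n : G) * ((A y2 : G) * (S * S)), (φ n : G) * ((y2 : G) * S)) g) (Finset.mem_univ 1)
    have h8 : ∑ n : π.ker, wt s((Θ n : G) * ((A y2 : G) * (S * S)), (φ n : G) * ((y2 : G) * S)) g =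
        wt s(π S, π S * π S) (π g) := by
      have := match_W π (hA.ortho h3) ((y2 : G) * S) ((A y2 : G) * (S * S)) g
      rw [map_mul, (MonoidHom.mem_ker).1 y2.2, one_mul, map_mul,
        (MonoidHom.mem_ker).1 (A y2).2, one_mul, map_mul] at this
      rw [← this, ← φ.bijective.sum_comp
        (fun n : π.ker => wt s((n : G) * ((y2 : G) * S), (A n : G) * ((A y2 : G) * (S * S))) g)]
      exact Finset.sum_congr rfl fun n _ => by rw [Sym2.eq_swap, hAφ]
    rw [h8] at h7
    simp only [map_one, OneMemClass.coe_one, one_mul] at h7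
    have hc1 : ∀ y n z : π.ker, α (y * A y) = n * z →
        wt s((y : G) * S, (A y : G) * (S * S)) g = wt s((n : G), (z : G) * S) g := by
      intro y n z hyn
      have := congrArg Subtype.val hyn
      rw [hα, Subgroup.coe_mul, Subgroup.coe_mul] at this
      refine wt_congr ?_ g
      rw [mul_inv_rev, hinv, hinv, ← mul_assoc (n : G), ← this]; group
    have hl : wt s((A y1 : G) * (S * S), (A y2 : G) * (S * S)) g = wt s((n2 : G), (n1 : G)) g := by
      have := congrArg Subtype.val hloop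
      rw [hα, hα, map_mul, Subgroup.coe_mul, Subgroup.coe_mul] at this
      refine wt_congr' ?_ g
      rw [mul_inv_rev, hinv, hinv, ← this]; group
    simp only [W_add, W_cons]
    rw [hl, Sym2.eq_swap (a := (y1 : G) * S), Sym2.eq_swap (a := (y2 : G) * S)]
    rw [Sym2.eq_swap (a := (A y2 : G) * (S * S))] at h7
    rcases hcol with ⟨c1, c2⟩ | ⟨c1, c2⟩
    · rw [← hc1 _ _ _ c1, ← hc1 _ _ _ c2]; omega
    · rw [← hc1 _ _ _ c1, ← hc1 _ _ _ c2]; omega
  · simp [hmatch]

end Pool.Agent.Lib.MP_0becda_co
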