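import Pool.Agent.Lib.MP_0becda_co.Core

set_option autoImplicit false

namespace Pool.Agent.Lib.MP_0becda_co

theorem four_merge {X : Type*} [Fintype X] [DecidableEq X] {φ : X → X} (hφ : Function.Injective φ)
    {C1 C2 C3 C4 : Finset X} (h1 : Tr φ C1) (h2 : Tr φ C2) (h3 : Tr φ C3) (h4 : Tr φ C4)
    (d12 : ∀ x ∈ C1, x ∉ C2) (d13 : ∀ x ∈ C1, x ∉ C3) (d14 : ∀ x ∈ C1, x ∉ C4)
    (d23 : ∀ x ∈ C2, x ∉ C3) (d24 : ∀ x ∈ C2, x ∉ C4) (d34 : ∀ x ∈ C3, x ∉ C4)
    (hall : ∀ x, x ∉ C1 → x ∉ C2 → x ∉ C3 → x ∈ C4)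
    {p q x y z : X} (hp : p ∈ C1) (hq : q ∈ C3) (hx : x ∈ C4) (hy : y ∉ C4) (hz : z ∈ C2) :
    ∃ S, Tr (Equiv.swap p q ∘ Equiv.swap x y ∘ φ) S ∧ Tr (Equiv.swap p q ∘ Equiv.swap x y ∘ φ) Sᶜ ∧
      p ∈ S ∧ z ∉ S := by
  have hψ : Function.Injective (Equiv.swap x y ∘ φ) := (Equiv.swap x y).injective.comp hφ
  have hd : ∀ A B : Finset X, (∀ t, t ∈ A → t ∉ B) → Disjoint A B := fun A B h =>
    Finset.disjoint_left.2 h
  have x1 : x ∉ C1 := fun h => d14 x h hx
  have x2 : x ∉ C2 := fun h => d24 x h hx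
  have x3 : x ∉ C3 := fun h => d34 x h hx
  have q2 : q ∉ C2 := fun h => d23 q h hq
  have z1 : z ∉ C1 := fun h => d12 z h hz
  by_cases y1 : y ∈ C1
  · refine ⟨(C4 ∪ C1) ∪ C3, (h4.merge hφ h1 (hd _ _ fun t a b => d14 t b a) hx y1).merge
      hψ (h3.keep x3 (d13 y y1)) (hd _ _ fun t a b => (Finset.mem_union.1 a).elim (d34 t b)
        fun c => d13 t c b) (by simp [hp]) hq, ?_, by simp [hp],
        by simp [z1, d23 z hz, d24 z hz]⟩
    rw [show ((C4 ∪ C1) ∪ C3)ᶜ = C2 from Finset.ext fun t => by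
      simp only [Finset.mem_union, Finset.mem_compl, not_or]
      exact ⟨fun h => by_contra fun h' => h.1.1 (hall t h.1.2 h' h.2),
        fun h => ⟨⟨d24 t h, fun c => d12 t c h⟩, d23 t h⟩⟩]
    exact (h2.keep x2 (d12 y y1)).keep (d12 p hp) q2
  by_cases y2 : y ∈ C2
  · refine ⟨C1 ∪ C3, (h1.keep x1 y1).merge hψ (h3.keep x3 (d23 y y2))
      (hd _ _ d13) hp hq, ?_, by simp [hp], by simp [z1, d23 z hz]⟩
    rw [show (C1 ∪ C3)ᶜ = C4 ∪ C2 from Finset.ext fun t => by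
      simp only [Finset.mem_union, Finset.mem_compl, not_or]
      exact ⟨fun h => by_contra fun h' => h' (Or.inl (hall t h.1 (fun c => h' (Or.inr c)) h.2)),
        fun h => h.elim (fun c => ⟨fun d => d14 t d c, fun d => d34 t d c⟩)
          fun c => ⟨fun d => d12 t d c, d23 t c⟩⟩]
    exact (h4.merge hφ h2 (hd _ _ fun t a b => d24 t b a) hx y2).keep
      (by simp [d14 p hp, d12 p hp]) (by simp [d34 q hq, q2])
  have y3 : y ∈ C3 := by_contra fun h => hy (hall y y1 y2 h)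
  refine ⟨C1 ∪ (C4 ∪ C3), (h1.keep x1 y1).merge hψ
    (h4.merge hφ h3 (hd _ _ fun t a b => d34 t b a) hx y3) (hd _ _ fun t a => by
      simp [d14 t a, d13 t a]) hp (by simp [hq]), ?_, by simp [hp],
      by simp [z1, d23 z hz, d24 z hz]⟩
  rw [show (C1 ∪ (C4 ∪ C3))ᶜ = C2 from Finset.ext fun t => by
    simp only [Finset.mem_union, Finset.mem_compl, not_or]
    exact ⟨fun h => by_contra fun h' => h.2.1 (hall t h.1 h' h.2.2),
      fun h => ⟨fun c => d12 t c h, d24 t h, d23 t h⟩⟩]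
  exact (h2.keep x2 y2).keep (d12 p hp) q2

variable {N U : Type*} [Group N] [Group U]

theorem exists_sep [Fintype N] [DecidableEq N] {X : N → N} (hX : Function.Bijective X)
    {S : Finset N} (hS : Odd S.card) {c : N} (hc1 : c ≠ 1) (hc : c * c = 1) :
    ∃ v, X v ∈ S ∧ X (v * c) ∉ S := by
  by_contra hcon
  have hinv : ∀ v, X v ∈ S → X (v * c) ∈ S := fun v h => by
    by_contra h'; exact hcon ⟨v, h, h'⟩
  have hcard : (Finset.univ.filter fun v => X v ∈ S).card = S.card :=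
    Finset.card_bij (fun v _ => X v) (fun v hv => by simpa using hv) (fun a _ b _ h => hX.1 h)
      (fun y hy => by obtain ⟨v, rfl⟩ := hX.2 y; exact ⟨v, by simpa using hy, rfl⟩)
  have h0 : ∑ _v ∈ Finset.univ.filter fun v => X v ∈ S, (1 : ZMod 2) = 0 :=
    Finset.sum_involution (fun v _ => v * c) (fun _ _ => rfl) (fun v _ _ => by simpa using hc1)
      (fun v hv => by simpa using hinv v (by simpa using hv))
      (fun v _ => by rw [mul_assoc, hc, mul_one])
  rw [Finset.sum_const, hcard, nsmul_eq_mul, mul_one, ZMod.natCast_eq_zero_iff_even] at h0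
  exact Nat.not_even_iff_odd.2 hS h0

/-- Maps which are compatible with the fibres of a homomorphism. -/
def fib (q : N →* U) (r : U → N) (hr : ∀ u, q (r u) = u) (t : U → U) (f : U → q.ker → q.ker)
    (x : N) : N :=
  (f (q x) ⟨x * (r (q x))⁻¹, by simp [MonoidHom.mem_ker, hr]⟩ : N) * r (t (q x))

theorem fib_apply (q : N →* U) (r : U → N) (hr : ∀ u, q (r u) = u) (t : U → U)
    (f : U → q.ker → q.ker) (a : q.ker) (u : U) :
    fib q r hr t f (a * r u) = f u a * r (t u) := by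
  have h : q (a * r u) = u := by rw [ker_mul, hr]
  unfold fib
  simp only [h, mul_inv_cancel_right, Subtype.coe_eta]

theorem fib_dec (q : N →* U) (r : U → N) (hr : ∀ u, q (r u) = u) (x : N) :
    ∃ (a : q.ker) (u : U), x = a * r u :=
  ⟨⟨x * (r (q x))⁻¹, by simp [MonoidHom.mem_ker, hr]⟩, q x, by simp⟩

theorem fib_ortho [Finite N] (q : N →* U) (r : U → N) (hr : ∀ u, q (r u) = u) {t : U → U}
    {f : U → q.ker → q.ker} (ht : Ortho t) (hf : ∀ u, Ortho (f u)) : Ortho (fib q r hr t f) := by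
  refine ⟨Finite.injective_iff_bijective.1 fun x y h => ?_,
    Finite.injective_iff_bijective.1 fun x y h => ?_⟩
  · obtain ⟨a, u, rfl⟩ := fib_dec q r hr x
    obtain ⟨b, v, rfl⟩ := fib_dec q r hr y
    rw [fib_apply, fib_apply] at h
    have h1 := congrArg q h
    rw [ker_mul, ker_mul, hr, hr] at h1
    obtain rfl := ht.1.1 h1
    rw [(hf u).1.1 (Subtype.ext (mul_right_cancel h))]
  · obtain ⟨a, u, rfl⟩ := fib_dec q r hr x
    obtain ⟨b, v, rfl⟩ := fib_dec q r hr y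
    simp only [fib_apply] at h
    have h1 := congrArg q h
    rw [map_mul, map_mul q (_)⁻¹, map_inv, map_inv, ker_mul, ker_mul, ker_mul, ker_mul, hr, hr, hr,
      hr] at h1
    obtain rfl := ht.2.1 h1
    have h2 : a⁻¹ * f u a = b⁻¹ * f u b := Subtype.ext (by
      simp only [mul_inv_rev, mul_assoc, mul_right_inj] at h
      simp only [← mul_assoc, mul_left_inj] at h
      exact h)
    rw [(hf u).2.1 h2]

theorem Singer.ortho_sq [Finite U] (h3 : 3 ≤ Nat.card U) (hp : ∀ x : U, x * x = 1) {A : U ≃* U}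
    (hA : Singer A) : Ortho (A ∘ A) :=
  ortho_of_fpf (A.trans A) fun x hx => by
    have hx' : A (A x) = x := hx
    have : x * A x = 1 := hA.fix h3 (by rw [map_mul, hx', comm_of_sq hp])
    refine hA.fix h3 ?_
    rw [← mul_left_cancel_iff (a := x), this, hp]

theorem Singer.four [Finite U] (h4 : Nat.card U = 4) (hp : ∀ x : U, x * x = 1) {A : U ≃* U}
    (hA : Singer A) (x : U) : A (A x) = x * A x := by
  classical
  by_cases hx : x = 1
  · simp [hx]
  have := Fintype.ofFinite U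
  have h1 : A x ≠ x := fun h => hx (hA.fix (by omega) h)
  have h2 : A x ≠ 1 := by simpa using hx
  have h5 : A (A x) ≠ x := fun h => hx ((hA.ortho_sq (by omega) hp).2.1 (show x⁻¹ * A (A x) =
    1⁻¹ * A (A 1) by simp [h]))
  have h6 : A (A x) ≠ A x := fun h => h1 (A.injective h)
  have h7 : A (A x) ≠ 1 := by simpa using hx
  have h8 : x * A x ≠ 1 := fun h => h1 (by rw [← mul_left_cancel_iff (a := x), h, hp])
  by_contra h9
  have hc : ({A (A x), 1, x, A x, x * A x} : Finset U).card ≤ 4 := by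
    rw [← h4, Nat.card_eq_fintype_card]; exact Finset.card_le_univ _
  rw [Finset.card_insert_of_notMem (by simp [h5, h6, h7, h9]),
    Finset.card_insert_of_notMem (by simp [Ne.symm hx, Ne.symm h2, Ne.symm h8]),
    Finset.card_insert_of_notMem (by simp [Ne.symm h1, h2]),
    Finset.card_insert_of_notMem (by simp [hx]), Finset.card_singleton] at hc
  omega

theorem Singer.iter_mod [Finite U] (h4 : Nat.card U = 4) (hp : ∀ x : U, x * x = 1) {A : U ≃* U}
    (hA : Singer A) (k : ℕ) : (A : U → U)^[k] = (A : U → U)^[k % 3] := by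
  have h3 : (A : U → U)^[3] = id := funext fun x => by
    change A (A (A x)) = x
    rw [hA.four h4 hp (A x), hA.four h4 hp x, comm_of_sq hp x, ← mul_assoc, hp, one_mul]
  conv_lhs => rw [← Nat.mod_add_div k 3, Function.iterate_add, Function.iterate_mul, h3,
    Function.iterate_id, Function.comp_id]

theorem Singer.iter_ortho [Finite U] (h4 : Nat.card U = 4) (hp : ∀ x : U, x * x = 1) {A : U ≃* U}
    (hA : Singer A) {k : ℕ} (hk : k % 3 ≠ 0) : Ortho (A : U → U)^[k] := by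
  rw [hA.iter_mod h4 hp]
  rcases (by omega : k % 3 = 1 ∨ k % 3 = 2) with h | h <;> rw [h]
  · exact hA.ortho (by omega)
  · exact hA.ortho_sq (by omega) hp

theorem exists_section (q : N →* U) (hq : Function.Surjective q) {z : N} (hz : q z = 1) :
    ∃ r : U → N, (∀ u, q (r u) = u) ∧ r 1 = z := by
  classical
  obtain ⟨σ, hσ⟩ := hq.hasRightInverse
  refine ⟨fun u => if u = 1 then z else σ u, fun u => ?_, if_pos rfl⟩
  dsimp only
  split_ifs with h
  · rw [hz, h]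
  · exact hσ u

/-- A product of orthomorphisms with four controlled cycles. -/
theorem four_cycles [Fintype N] [DecidableEq N] [Finite U] (q : N →* U) (hq : Function.Surjective q)
    (h4 : Nat.card q.ker = 4) (hp : ∀ x : q.ker, x * x = 1) (h3 : 3 ≤ Nat.card U)
    (hU : ∀ x : U, x * x = 1) {z : N} (hz : q z = 1) {m : ℕ} (hm : 1 ≤ m) :
    ∃ (Φ : N → N) (C1 C2 C3 C4 : Finset N), OProd m Φ ∧ Tr Φ C1 ∧ Tr Φ C2 ∧ Tr Φ C3 ∧ Tr Φ C4 ∧
      (∀ x, x ∈ C1 ↔ q x = 1 ∧ x ≠ z) ∧ (∀ x, x ∈ C2 ↔ x = z) ∧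
      (∀ x, x ∈ C4 ↔ q x ≠ 1 ∧ x ∉ C3) ∧ (∀ x ∈ C3, q x ≠ 1) ∧ Odd C3.card ∧ Odd C4.card := by
  classical
  have := Fintype.ofFinite U
  obtain ⟨r, hr, hr1⟩ := exists_section q hq hz
  obtain ⟨ω, hω⟩ := exists_singer 2 U (comm_of_sq hU) fun x => by rw [pow_two, hU]
  obtain ⟨l, hl⟩ := exists_singer 2 q.ker (comm_of_sq hp) fun x => by rw [pow_two, hp]
  obtain ⟨u0, hu0⟩ := exists_ne_one_of_card (N := U) (by omega)
  obtain ⟨a0, ha0⟩ := exists_ne_one_of_card (N := q.ker) (by omega)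
  let e : U → ℕ := fun u => 1 + ind (u = u0 ∧ (Nat.card U - 1) % 3 = 0)
  have he : ∀ u, e u = 1 ∨ e u = 2 := fun u => by
    by_cases h : u = u0 ∧ (Nat.card U - 1) % 3 = 0
    · right; simp only [e, ind_pos h]
    · left; simp only [e, ind_neg h]
  have he1 : e 1 = 1 := by simp only [e]; rw [ind_neg fun h => hu0 h.1.symm]
  have hT : (∑ u ∈ Finset.univ.erase 1, e u) % 3 ≠ 0 := by
    simp only [e, Finset.sum_add_distrib, Finset.sum_const, smul_eq_mul, mul_one,
      Finset.card_erase_of_mem (Finset.mem_univ _), Finset.card_univ, ← Nat.card_eq_fintype_card]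
    rw [Finset.sum_eq_single u0 (fun u _ hu => ind_neg fun h => hu h.1) (by simp [hu0])]
    by_cases h : (Nat.card U - 1) % 3 = 0
    · rw [ind_pos ⟨rfl, h⟩]; omega
    · rw [ind_neg fun h' => h h'.2]; omega
  let Φ := fib q r hr ω fun u => (l : q.ker → q.ker)^[e u]
  have hΦ : Ortho Φ := fib_ortho q r hr (hω.ortho h3) fun u =>
    hl.iter_ortho h4 hp (by have := he u; omega)
  have hΦa : ∀ (a : q.ker) (u : U), Φ (a * r u) = (l : q.ker → q.ker)^[e u] a * r (ω u) :=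
    fib_apply q r hr ω fun u => (l : q.ker → q.ker)^[e u]
  have hit : ∀ (a : q.ker) (u : U) (i : ℕ), Φ^[i] (a * r u) =
      (l : q.ker → q.ker)^[∑ j ∈ Finset.range i, e ((ω : U → U)^[j] u)] a * r ((ω : U → U)^[i] u) := by
    intro a u i
    induction i with
    | zero => simp
    | succ i ih =>
      rw [Function.iterate_succ_apply', ih, hΦa, Finset.sum_range_succ, add_comm,
        Function.iterate_add_apply _ (e _) (∑ _j ∈ _, _), Function.iterate_succ_apply' (ω : U → U) i]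
  have hl1 : ∀ (k : ℕ) (a : q.ker), (l : q.ker → q.ker)^[k] a = 1 ↔ a = 1 := fun k a =>
    ⟨fun h => (l.injective.iterate k) (by rw [h, Function.iterate_fixed (map_one l)]),
      fun h => by rw [h, Function.iterate_fixed (map_one l)]⟩
  have hq' : ∀ (a : q.ker) (u : U), q (a * r u) = u := fun a u => by rw [ker_mul, hr]
  have hz' : ∀ (a : q.ker) (u : U), a * r u = z ↔ a = 1 ∧ u = 1 := fun a u =>
    ⟨fun h => by
      have h1 : u = 1 := by rw [← hq' a u, h, hz]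
      subst h1
      exact ⟨Subtype.ext (by simpa [hr1] using h), rfl⟩, fun h => by simp [h.1, h.2, hr1]⟩
  let C3 := Finset.univ.filter fun x => q x ≠ 1 ∧ x = r (q x)
  have hC3 : ∀ (a : q.ker) (u : U), a * r u ∈ C3 ↔ u ≠ 1 ∧ a = 1 := fun a u => by
    simp [C3, hq']
  have hcard3 : C3.card = Nat.card U - 1 := by
    rw [Nat.card_eq_fintype_card, ← Finset.card_univ,
      ← Finset.card_erase_of_mem (Finset.mem_univ (1 : U))]
    exact Finset.card_bij (fun x _ => q x) (fun x hx => by simpa using (Finset.mem_filter.1 hx).2.1)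
      (fun x hx y hy h => by
        rw [(Finset.mem_filter.1 hx).2.2, (Finset.mem_filter.1 hy).2.2, h])
      (fun u hu => ⟨r u, by simpa [C3, hr] using hu, hr u⟩)
  have hUev : 2 ∣ Nat.card U := by
    rw [← orderOf_eq_prime (p := 2) (by rw [pow_two, hU]) hu0]; exact orderOf_dvd_natCard _
  refine ⟨Φ, Finset.univ.filter fun x => q x = 1 ∧ x ≠ z, {z}, C3,
    Finset.univ.filter fun x => q x ≠ 1 ∧ x ∉ C3, ?_, ?_, ?_, ?_, ?_, by simp, by simp, by simp,
    fun x hx => (Finset.mem_filter.1 hx).2.1, by rw [hcard3, Nat.odd_iff]; omega, ?_⟩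
  · rcases Nat.mod_two_eq_zero_or_one m with h | h
    · have h1 := fib_ortho q r hr (hω.symm.ortho h3) (f := fun u => (l : q.ker → q.ker)^[2 * e u])
        fun u => hl.iter_ortho h4 hp (by have := he u; omega)
      have h2 := fib_ortho q r hr (hω.ortho_sq h3 hU)
        (f := fun u => (l : q.ker → q.ker)^[2 * e (ω u)])
        fun u => hl.iter_ortho h4 hp (by have := he (ω u); omega)
      have h5 := (OProd.one h2).comp (OProd.one h1)
      refine OProd.pad (l := 1 + 1) ?_ hΦ (by omega) (by omega)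
      convert h5 using 1
      funext x
      obtain ⟨a, u, rfl⟩ := fib_dec q r hr x
      simp only [Φ, Function.comp_apply, fib_apply, MulEquiv.apply_symm_apply]
      rw [← Function.iterate_add_apply, hl.iter_mod h4 hp (2 * e u + 2 * e u),
        hl.iter_mod h4 hp (e u), show (2 * e u + 2 * e u) % 3 = e u % 3 by omega]
    · exact (OProd.one hΦ).pad hΦ hm (by omega)
  · refine Tr.of_base hΦ.1.1 (a0 * r 1) (fun x hx => ?_) (fun x hx => ?_) <;>
      obtain ⟨a, u, rfl⟩ := fib_dec q r hr x <;>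
      simp only [Finset.mem_filter, Finset.mem_univ, true_and, hq', ne_eq, hz'] at hx <;>
      obtain ⟨rfl, hx⟩ := hx
    · simpa [Φ, fib_apply, hq', hz', hl1] using hx
    · obtain ⟨i, hi⟩ := hl a0 a ha0 (by simpa using hx)
      exact ⟨i, by simp [hit, Function.iterate_fixed (map_one ω), he1, hi]⟩
  · refine Tr.of_base hΦ.1.1 z (fun x hx => ?_) (fun x hx => ⟨0, by simpa using (Finset.mem_singleton.1 hx).symm⟩)
    rw [Finset.mem_singleton.1 hx, ← (hz' 1 1).2 ⟨rfl, rfl⟩, hΦa, (hl1 _ _).2 rfl, map_one]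
    simp
  · refine Tr.of_base hΦ.1.1 ((1 : q.ker) * r u0) (fun x hx => ?_) (fun x hx => ?_) <;>
      obtain ⟨a, u, rfl⟩ := fib_dec q r hr x <;> obtain ⟨hx', rfl⟩ := (hC3 _ _).1 hx
    · rw [hΦa, hC3, hl1]; simpa using hx'
    · obtain ⟨i, hi⟩ := hω u0 u hu0 hx'
      exact ⟨i, by rw [hit, hi, (hl1 _ _).2 rfl]⟩
  · obtain ⟨L, hL, hsum, -⟩ := hω.orbit hu0
    have hk : ∀ k, Φ^[k * L] (a0 * r u0) =
        (l : q.ker → q.ker)^[k * ∑ u ∈ Finset.univ.erase 1, e u] a0 * r u0 := by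
      intro k
      induction k with
      | zero => simp
      | succ k ih =>
        rw [add_mul, add_comm, Function.iterate_add_apply, ih, one_mul, hit, hsum e, hL,
          ← Function.iterate_add_apply, add_mul, one_mul, add_comm]
    refine Tr.of_base hΦ.1.1 (a0 * r u0) (fun x hx => ?_) (fun x hx => ?_) <;>
      obtain ⟨a, u, rfl⟩ := fib_dec q r hr x <;>
      simp only [Finset.mem_filter, Finset.mem_univ, true_and, hq', hC3] at hx
    · simp only [Φ, fib_apply, Finset.mem_filter, Finset.mem_univ, true_and, hq', hC3, hl1]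
      simpa using hx
    · obtain ⟨i, hi⟩ := hω u0 u hu0 hx.1
      obtain ⟨a', ha'⟩ := (l.surjective.iterate (∑ j ∈ Finset.range i, e ((ω : U → U)^[j] u0))) a
      obtain ⟨j, hj⟩ := hl a0 a' ha0 fun h => hx.2 ⟨hx.1, by rw [← ha', hl1, h]⟩
      refine ⟨i + j * (∑ u ∈ Finset.univ.erase 1, e u) * L, ?_⟩
      rw [Function.iterate_add_apply, hk, hl.iter_mod h4 hp, hit, hi, ← ha', ← hj,
        hl.iter_mod h4 hp j]
      generalize ∑ u ∈ Finset.univ.erase 1, e u = T at hT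
      rw [mul_assoc j, Nat.mul_mod j, show T * T % 3 = 1 by
        rw [Nat.mul_mod]; rcases (by omega : T % 3 = 1 ∨ T % 3 = 2) with h | h <;> rw [h],
        mul_one, Nat.mod_mod]
  · have h1 : (Finset.univ.filter fun x => q x = 1).card = 4 := by
      rw [← h4, Nat.card_eq_fintype_card, Fintype.card_subtype]
      simp only [MonoidHom.mem_ker]
    have h2 := Finset.card_filter_add_card_filter_not (s := Finset.univ) (fun x => q x = 1)
    have h5 := Finset.card_filter_add_card_filter_not (s := Finset.univ.filter fun x => ¬ q x = 1)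
      (fun x => x ∈ C3)
    have h6 : (Finset.univ.filter fun x => ¬ q x = 1).filter (fun x => x ∈ C3) = C3 := by
      ext x; simp only [Finset.mem_filter, Finset.mem_univ, true_and, C3]; tauto
    rw [h6, Finset.filter_filter] at h5
    have h7 : 4 ∣ Fintype.card N := by
      rw [← h4, ← Nat.card_eq_fintype_card]; exact Subgroup.card_subgroup_dvd_card _
    rw [Finset.card_univ] at h2
    rw [Nat.odd_iff]
    simp only [ne_eq]
    omega

theorem D_ortho [Fintype N] {θ : N → N} (h : Ortho θ) (x : N) : D θ x = 1 := by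
  unfold D
  rw [h.2.sum_comp (fun y => ind (y = x)), sum_ind_eq]

theorem D_swap [Fintype N] [DecidableEq N] (θ : N → N) {p q : N} (hpq : p ≠ q) (x : N) :
    D (θ ∘ Equiv.swap p q) x + ind (p⁻¹ * θ p = x) + ind (q⁻¹ * θ q = x) =
      D θ x + ind (p⁻¹ * θ q = x) + ind (q⁻¹ * θ p = x) := by
  unfold D
  have key : ∀ f : N → ℕ, ∑ n, f n = f p + (f q + ∑ n ∈ (Finset.univ.erase p).erase q, f n) :=
    fun f => by
      rw [Finset.add_sum_erase _ _ (by simp [hpq.symm]), Finset.add_sum_erase _ _ (by simp)]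
  rw [key, key fun n => ind (n⁻¹ * θ n = x)]
  have : ∑ n ∈ (Finset.univ.erase p).erase q, ind (n⁻¹ * (θ ∘ Equiv.swap p q) n = x) =
      ∑ n ∈ (Finset.univ.erase p).erase q, ind (n⁻¹ * θ n = x) :=
    Finset.sum_congr rfl fun n hn => by
      simp only [Finset.mem_erase] at hn
      rw [Function.comp_apply, Equiv.swap_apply_of_ne_of_ne hn.2.1 hn.1]
  rw [this]
  simp only [Function.comp_apply, Equiv.swap_apply_left, Equiv.swap_apply_right]
  omega

theorem kit_generic {U0 U1 : Type*} [Group U0] [Group U1] [Fintype N] [DecidableEq N] [Finite U0]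
    [Finite U1] (q0 : N →* U0) (q1 : N →* U1) (hq0 : Function.Surjective q0)
    (hq1 : Function.Surjective q1) (h40 : Nat.card q0.ker = 4) (h41 : Nat.card q1.ker = 4)
    (hp0 : ∀ x : q0.ker, x * x = 1) (hp1 : ∀ x : q1.ker, x * x = 1) (h30 : 3 ≤ Nat.card U0)
    (h31 : 3 ≤ Nat.card U1) (hU0 : ∀ x : U0, x * x = 1) (hU1 : ∀ x : U1, x * x = 1) {z : N}
    (hz : z ≠ 1) (hz0 : q0 z = 1) (hz1 : q1 z = 1)
    (hint : ∀ x, q0 x = 1 → q1 x = 1 → x = 1 ∨ x = z) {m : ℕ} (hm : 2 ≤ m) : Kit N z m := by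
  obtain ⟨r, hr, hr1⟩ := exists_section q0 hq0 hz0
  obtain ⟨ω, hω⟩ := exists_singer 2 U0 (comm_of_sq hU0) fun x => by rw [pow_two, hU0]
  obtain ⟨l, hl⟩ := exists_singer 2 q0.ker (comm_of_sq hp0) fun x => by rw [pow_two, hp0]
  let θ := fib q0 r hr ω fun _ => l
  have hθ : Ortho θ := fib_ortho q0 r hr (hω.ortho h30) fun _ => hl.ortho (by omega)
  let z0 : q0.ker := ⟨z, hz0⟩
  have hθa : ∀ a : q0.ker, θ a = ((l (a * z0) * z0 : q0.ker) : N) := fun a => by
    have := fib_apply q0 r hr ω (fun _ => l) (a * z0) 1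
    rw [map_one, hr1] at this
    rw [Subgroup.coe_mul q0.ker (l _), ← this]
    congr 1
    change (a : N) = ((a * z0 * z0 : q0.ker) : N)
    rw [mul_assoc, hp0, mul_one]
  have hc := comm_of_sq hp0
  have h4 := hl.four h40 hp0 z0
  have hz01 : z0 ≠ 1 := fun h => hz (congrArg Subtype.val h)
  have hw1 : l z0 ≠ 1 := by simpa using hz01
  have hwz : l z0 ≠ z0 := fun h => hz01 (hl.fix (by omega) h)
  have hinv : ∀ a : q0.ker, (a : N)⁻¹ = a := fun a => by
    rw [← Subgroup.coe_inv, inv_eq_of_mul_eq_one_right (hp0 a)]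
  have hsq : ∀ a : q0.ker, (a : N) * a = 1 := fun a => by rw [← Subgroup.coe_mul, hp0]; rfl
  have t1 : θ 1 = ((l z0 * z0 : q0.ker) : N) := by simpa using hθa 1
  have t2 : θ z = z := by simpa [hp0] using hθa z0
  have t3 : θ (l z0) = 1 := by
    rw [hθa, map_mul, h4, mul_assoc z0, hp0, mul_one, hp0]; rfl
  have t4 : θ ((l z0 * z0 : q0.ker) : N) = l z0 := by
    rw [hθa, mul_assoc, hp0, mul_one, h4, hc z0, mul_assoc, hp0, mul_one]
  have n1 : (1 : N) ≠ l z0 := fun h => hw1 (Subtype.ext h.symm)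
  have n2 : ((l z0 * z0 : q0.ker) : N) ≠ z := fun h => hw1 (by
    simpa using (Subtype.ext h : l z0 * z0 = z0))
  have e1 : ((l z0 * z0 : q0.ker) : N)⁻¹ * z = l z0 := by
    rw [hinv, Subgroup.coe_mul, mul_assoc, hsq z0, mul_one]
  have e2 : ((l z0 : q0.ker) : N)⁻¹ * z = ((l z0 * z0 : q0.ker) : N) := by rw [hinv]; rfl
  refine ⟨1, ((l z0 * z0 : q0.ker) : N), z, θ, hθ, Or.inl rfl, n2, by rw [e1, hsq],
    by rw [t4, t2, e2, hsq], fun c hc1 hc2 a b hab => ?_⟩
  obtain ⟨Φ, C1, C2, C3, C4, hΦ, tr1, tr2, tr3, tr4, m1, m2, m4, m3, o3, o4⟩ :=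
    four_cycles q1 hq1 h41 hp1 h31 hU1 hz1 (m := m - 1) (by omega)
  have hΞ := (OProd.one hθ).comp hΦ
  rw [show 1 + (m - 1) = b + a by omega] at hΞ
  obtain ⟨Θb, Θa, hΘb, hΘa, hΞ⟩ := hΞ.split
  obtain ⟨θ', hθ', h1, h2⟩ := hθ.exists_inv
  have hX : Function.Bijective (θ' ∘ Θb) := hθ'.1.comp hΘb.bijective
  have hwq : q1 (l z0) ≠ 1 := fun h => (hint _ (l z0).2 h).elim (fun h => n1 h.symm)
    fun h => hwz (Subtype.ext h)
  obtain ⟨v, S, s1, s2, s3, s4⟩ : ∃ v S, Tr (Equiv.swap 1 (l z0 : N) ∘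
      Equiv.swap ((θ' ∘ Θb) v) ((θ' ∘ Θb) (v * c)) ∘ Φ) S ∧ Tr (Equiv.swap 1 (l z0 : N) ∘
      Equiv.swap ((θ' ∘ Θb) v) ((θ' ∘ Θb) (v * c)) ∘ Φ) Sᶜ ∧ 1 ∈ S ∧ z ∉ S := by
    have d12 : ∀ x ∈ C1, x ∉ C2 := fun x h h' => ((m1 x).1 h).2 ((m2 x).1 h')
    have d13 : ∀ x ∈ C1, x ∉ C3 := fun x h h' => m3 x h' ((m1 x).1 h).1
    have d14 : ∀ x ∈ C1, x ∉ C4 := fun x h h' => ((m4 x).1 h').1 ((m1 x).1 h).1
    have d23 : ∀ x ∈ C2, x ∉ C3 := fun x h h' => m3 x h' (by rw [(m2 x).1 h, hz1])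
    have d24 : ∀ x ∈ C2, x ∉ C4 := fun x h h' => ((m4 x).1 h').1 (by rw [(m2 x).1 h, hz1])
    have d34 : ∀ x ∈ C3, x ∉ C4 := fun x h h' => ((m4 x).1 h').2 h
    have hall : ∀ x, x ∉ C1 → x ∉ C2 → x ∉ C3 → x ∈ C4 := fun x k1 k2 k3 =>
      (m4 x).2 ⟨fun h => k1 ((m1 x).2 ⟨h, fun h' => k2 ((m2 x).2 h')⟩), k3⟩
    by_cases hw : (l z0 : N) ∈ C3
    · obtain ⟨v, k1, k2⟩ := exists_sep hX o4 hc1 hc2
      exact ⟨v, four_merge hΦ.bijective.1 tr1 tr2 tr3 tr4 d12 d13 d14 d23 d24 d34 hall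
        ((m1 _).2 ⟨map_one _, hz.symm⟩) hw k1 k2 ((m2 _).2 rfl)⟩
    · obtain ⟨v, k1, k2⟩ := exists_sep hX o3 hc1 hc2
      exact ⟨v, four_merge hΦ.bijective.1 tr1 tr2 tr4 tr3 d12 d14 d13 d24 d23
        (fun x a b => d34 x b a) (fun x a b c => by_contra fun d => c (hall x a b d))
        ((m1 _).2 ⟨map_one _, hz.symm⟩) ((m4 _).2 ⟨hwq, hw⟩) k1 k2 ((m2 _).2 rfl)⟩
  have a1 : (θ ∘ Equiv.swap 1 (l z0 : N)) 1 = 1 := by simp [t3]
  have a2 : (θ ∘ Equiv.swap 1 (l z0 : N)) z = z := by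
    rw [Function.comp_apply, Equiv.swap_apply_of_ne_of_ne hz fun h => hwz (Subtype.ext h.symm), t2]
  refine ⟨θ ∘ Equiv.swap 1 (l z0 : N), Θa, Θb, _, v, S, hθ.1.comp (Equiv.swap _ _).bijective,
    Or.inl ⟨a1, a2⟩, fun x => ?_, hΘa, hΘb, fun n => ?_, s1, s2, s3, s4⟩
  · have d1 := D_swap θ n1 x
    have d2 := D_swap θ n2 x
    have e3 : ((l z0 : q0.ker) : N)⁻¹ * ((l z0 * z0 : q0.ker) : N) = z := by simp [z0]
    have e4 : ((l z0 * z0 : q0.ker) : N)⁻¹ * l z0 = z := by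
      rw [hinv, hc, Subgroup.coe_mul, mul_assoc, hsq, mul_one]
    have e5 : z⁻¹ * l z0 = ((l z0 * z0 : q0.ker) : N) := by rw [hinv z0, hc]; rfl
    rw [D_ortho hθ, t1, t3, e3, inv_one, one_mul, mul_one, mul_one, hinv] at d1
    rw [D_ortho hθ, t4, t2, e1, e4, e5, inv_mul_cancel] at d2
    rw [a1, a2, inv_mul_cancel]
    omega
  · have h5 : Φ n = (θ' ∘ Θb) (Θa n) := by
      have := congrFun hΞ n
      simp only [Function.comp_apply] at this ⊢
      rw [← this, h1]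
    simp only [Function.comp_apply, Equiv.swap_apply_self] at h5 ⊢
    rw [h5]
    have := hX.1.swap_apply v (v * c) (Θa n)
    simp only [Function.comp_apply] at this
    rw [this, h2]

end Pool.Agent.Lib.MP_0becda_co
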