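import Pool.Agent.Lib.MP_0becda_co.KitGen

set_option autoImplicit false

namespace Pool.Agent.Lib.MP_0becda_co

section transport
variable {M N : Type*} [Group M] [Group N]

theorem Ortho.equiv (e : M ≃* N) {θ : M → M} (h : Ortho θ) : Ortho (e ∘ θ ∘ e.symm) := by
  refine ⟨e.bijective.comp (h.1.comp e.symm.bijective), ?_⟩
  convert e.bijective.comp (h.2.comp e.symm.bijective) using 1
  funext x
  simp

theorem OProd.equiv (e : M ≃* N) {l : ℕ} {Θ : M → M} (h : OProd l Θ) :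
    OProd l (e ∘ Θ ∘ e.symm) := by
  induction h with
  | zero => convert OProd.zero using 1; funext x; simp
  | succ l Θ θ _ h2 ih =>
    convert OProd.succ _ _ _ ih (h2.equiv e) using 1
    funext x; simp

theorem D_equiv [Fintype M] [Fintype N] (e : M ≃* N) (T : M → M) (x : M) :
    D (e ∘ T ∘ e.symm) (e x) = D T x := by
  unfold D
  rw [← e.bijective.sum_comp]
  refine Finset.sum_congr rfl fun y _ => ind_congr ?_
  simp only [Function.comp_apply, MulEquiv.symm_apply_apply]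
  rw [← map_inv, ← map_mul, e.injective.eq_iff]

theorem Tr.equiv {X Y : Type*} (e : X ≃ Y) {φ : X → X} {S : Finset X} (h : Tr φ S) :
    Tr (e ∘ φ ∘ e.symm) (S.map e.toEmbedding) := by
  have hit : ∀ i x, (e ∘ φ ∘ e.symm)^[i] (e x) = e (φ^[i] x) := fun i x => by
    induction i with
    | zero => rfl
    | succ i ih => rw [Function.iterate_succ_apply', ih, Function.iterate_succ_apply']; simp
  refine ⟨fun x hx => ?_, fun x hx y hy => ?_⟩
  · rw [Finset.mem_map_equiv] at hx ⊢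
    simpa using h.1 _ hx
  · rw [Finset.mem_map_equiv] at hx hy
    obtain ⟨i, hi⟩ := h.2 _ hx _ hy
    exact ⟨i, by rw [← e.apply_symm_apply x, hit, hi, e.apply_symm_apply]⟩

theorem Kit.equiv [Fintype M] [Fintype N] [DecidableEq M] [DecidableEq N] (e : M ≃* N) {z : M}
    {m : ℕ} (h : Kit M z m) : Kit N (e z) m := by
  obtain ⟨w, p, q, θ, hθ, hw, hpq, hw1, hw2, hk⟩ := h
  refine ⟨e w, e p, e q, _, hθ.equiv e, hw.imp (fun h => by rw [h, map_one]) (fun h => by rw [h]),
    e.injective.ne hpq, by rw [← hw1]; simp, by rw [← hw2]; simp, fun c hc1 hc2 a b hab => ?_⟩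
  obtain ⟨c, rfl⟩ := e.surjective c
  obtain ⟨A, Θa, Θb, φ, v, S, hA, hA1, hcov, hΘa, hΘb, hφ, hT, hT', h1T, hzT⟩ :=
    hk c (fun h => hc1 (by rw [h, map_one])) (e.injective (by rw [map_mul, hc2])) a b hab
  have h1 : e.symm 1 = 1 := map_one _
  refine ⟨e ∘ A ∘ e.symm, _, _, e ∘ φ ∘ e.symm, e v, S.map e.toEquiv.toEmbedding,
    e.bijective.comp (hA.comp e.symm.bijective), ?_, fun x => ?_, hΘa.equiv e, hΘb.equiv e,
    fun n => ?_, hT.equiv e.toEquiv, ?_, ?_, ?_⟩
  · rcases hA1 with ⟨k1, k2⟩ | ⟨k1, k2⟩ <;> simp [k1, k2]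
  · obtain ⟨x, rfl⟩ := e.surjective x
    have k : (e ∘ θ ∘ e.symm) ∘ Equiv.swap (e p) (e q) = e ∘ (θ ∘ Equiv.swap p q) ∘ e.symm := by
      funext y
      obtain ⟨y, rfl⟩ := e.surjective y
      simp only [Function.comp_apply, e.injective.swap_apply, MulEquiv.symm_apply_apply]
    rw [k, D_equiv, D_equiv, ind_congr (show 1 = e x ↔ 1 = x by
      rw [← map_one e, e.injective.eq_iff]), hcov]
    simp only [Function.comp_apply, h1, MulEquiv.symm_apply_apply]
    rw [← map_inv, ← map_mul, ind_congr e.injective.eq_iff, ind_congr e.injective.eq_iff]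
  · obtain ⟨n, rfl⟩ := e.surjective n
    simp only [Function.comp_apply, MulEquiv.symm_apply_apply, hφ]
    rw [← map_mul, e.injective.swap_apply, MulEquiv.symm_apply_apply]
  · rw [show (S.map e.toEquiv.toEmbedding)ᶜ = Sᶜ.map e.toEquiv.toEmbedding from
      Finset.ext fun x => by
        rw [Finset.mem_compl, Finset.mem_map_equiv, Finset.mem_map_equiv, Finset.mem_compl]]
    exact hT'.equiv e.toEquiv
  · simpa [Finset.mem_map_equiv] using h1T
  · simpa [Finset.mem_map_equiv] using hzT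

end transport

/-- A checkable form of the two-orbit condition. -/
def TwoOrb {X : Type*} (φ : X → X) (p z : X) : Prop :=
  (∀ k < 8, φ^[k] p ≠ z) ∧ (∃ k < 8, φ^[k + 1] p = p) ∧
    ∀ x, (∃ k < 8, φ^[k] p = x) ∨ ∃ k < 8, φ^[k] z = x

instance {X : Type*} [Fintype X] [DecidableEq X] (φ : X → X) (p z : X) :
    Decidable (TwoOrb φ p z) := by unfold TwoOrb; infer_instance

theorem TwoOrb.tr {X : Type*} [Fintype X] [DecidableEq X] {φ : X → X} (hφ : Function.Injective φ)
    {p z : X} (h : TwoOrb φ p z) : ∃ S, Tr φ S ∧ Tr φ Sᶜ ∧ p ∈ S ∧ z ∉ S := by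
  classical
  obtain ⟨h1, ⟨L, hL, hp⟩, h3⟩ := h
  have hz : ∀ k, φ^[k] p ≠ z := fun k => by
    rw [← (show Function.IsPeriodicPt φ (L + 1) p from hp).iterate_mod_apply]
    exact h1 _ (lt_of_lt_of_le (Nat.mod_lt _ (by omega)) (by omega))
  refine ⟨Finset.univ.filter fun x => ∃ k, φ^[k] p = x, Tr.of_base hφ p (fun x hx => ?_)
    (fun y hy => by simpa using hy), Tr.of_base hφ z (fun x hx => ?_) (fun y hy => ?_), ?_, ?_⟩
  · obtain ⟨k, rfl⟩ := (Finset.mem_filter.1 hx).2
    exact Finset.mem_filter.2 ⟨Finset.mem_univ _, k + 1, Function.iterate_succ_apply' _ _ _⟩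
  · simp only [Finset.mem_compl, Finset.mem_filter, Finset.mem_univ, true_and] at hx ⊢
    rintro ⟨k, hk⟩
    obtain ⟨j, hj⟩ := reach_symm hφ (show φ^[1] x = φ x from rfl)
    exact hx ⟨j + k, by rw [Function.iterate_add_apply, hk, hj]⟩
  · simp only [Finset.mem_compl, Finset.mem_filter, Finset.mem_univ, true_and] at hy
    obtain ⟨k, -, hk⟩ := (h3 y).resolve_left fun ⟨k, _, hk⟩ => hy ⟨k, hk⟩
    exact ⟨k, hk⟩
  · exact Finset.mem_filter.2 ⟨Finset.mem_univ _, 0, rfl⟩
  · simpa using hz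

open QuaternionGroup

/-- Maps on the quaternion group given by tables. -/
def tab (l : List ℕ) (x : QuaternionGroup 2) : QuaternionGroup 2 :=
  let k := l.getD (match x with | a i => i.val | xa i => 4 + i.val) 0
  if k < 4 then a (k : ℕ) else xa (k : ℕ)

instance {N : Type*} [Group N] [Fintype N] [DecidableEq N] (θ : N → N) : Decidable (Ortho θ) := by
  unfold Ortho; infer_instance

theorem ind_ite (p : Prop) [Decidable p] : ind p = if p then 1 else 0 := by
  split_ifs with h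
  · exact ind_pos h
  · exact ind_neg h

def tT := tab [0, 2, 5, 7, 6, 4, 1, 3]
def tθ := tab [0, 3, 6, 7, 5, 4, 1, 2]
def tA (k : ℕ) := if k = 1 then tab [0, 3, 2, 4, 5, 1, 7, 6] else tab [2, 3, 0, 4, 5, 1, 7, 6]
def tI (k : ℕ) := if k = 1 then tab [0, 5, 2, 1, 3, 4, 7, 6] else tab [2, 5, 0, 1, 3, 4, 7, 6]

theorem tT_ortho : Ortho tT := by decide +kernel
theorem tθ_ortho : Ortho tθ := by decide +kernel
theorem tA_inv : ∀ k < 3, (∀ x, tA k (tI k x) = x) ∧ (∀ x, tI k (tA k x) = x) ∧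
    ((tA k 1 = 1 ∧ tA k (a 2) = a 2) ∨ (tA k 1 = a 2 ∧ tA k (a 2) = 1)) := by decide +kernel
theorem tA_cov : ∀ k < 3, ∀ x, D (tA k) x + 2 * ind (1 = x) + D (tθ ∘ Equiv.swap 1 (xa 0)) x =
    2 + ind (tA k 1 = x) + ind ((a 2)⁻¹ * tA k (a 2) = x) := by
  simp only [D, ind_ite]
  decide +kernel
/-- The two-orbit condition for given numbers of factors. -/
def tG (i j : ℕ) : Prop := ∀ c : QuaternionGroup 2, c * c = a 2 →
    ∃ v, TwoOrb (tI (i + j) ∘ tT^[j] ∘ Equiv.swap v (v * c) ∘ tT^[i]) 1 (a 2)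

instance (i j : ℕ) : Decidable (tG i j) := by unfold tG; infer_instance

theorem tT_good : ∀ i < 3, ∀ j < 3, i + j = 1 ∨ i + j = 2 → tG i j := by
  decide +kernel

theorem OProd.iter {N : Type*} [Group N] {θ : N → N} (h : Ortho θ) (i : ℕ) : OProd i θ^[i] := by
  induction i with
  | zero => exact OProd.zero
  | succ i ih => exact OProd.succ _ _ _ ih h

theorem kit_q8 {m : ℕ} (hm : 1 ≤ m) : Kit (QuaternionGroup 2) (a 2) m := by
  refine ⟨a 2, 1, xa 0, tθ, tθ_ortho, Or.inr rfl, by decide, by decide +kernel, by decide +kernel,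
    fun c _ hc s t hst => ?_⟩
  obtain ⟨i, j, hi, hj, hij, h1, h2, h3, h4⟩ : ∃ i j, i < 3 ∧ j < 3 ∧ (i + j = 1 ∨ i + j = 2) ∧
      i ≤ s ∧ j ≤ t ∧ s % 2 = i % 2 ∧ t % 2 = j % 2 := by
    by_cases h : s % 2 = 0 ∧ t % 2 = 0
    · by_cases h' : s = 0
      · exact ⟨0, 2, by omega⟩
      · exact ⟨2, 0, by omega⟩
    · exact ⟨s % 2, t % 2, by omega⟩
  obtain ⟨v, hv⟩ := tT_good i hi j hj hij c hc
  obtain ⟨k1, k2, k3⟩ := tA_inv (i + j) (by omega)
  obtain ⟨S, s1⟩ := hv.tr ((Function.LeftInverse.injective k1).comp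
    ((tT_ortho.1.1.iterate j).comp ((Equiv.swap _ _).injective.comp (tT_ortho.1.1.iterate i))))
  exact ⟨tA (i + j), _, _, _, v, S, Function.bijective_iff_has_inverse.2 ⟨_, k2, k1⟩, k3,
    tA_cov _ (by omega), (OProd.iter tT_ortho i).pad tT_ortho h1 h3,
    (OProd.iter tT_ortho j).pad tT_ortho h2 h4, fun n => k1 _, s1⟩

theorem kit_unique {N : Type*} [Group N] [Fintype N] [DecidableEq N] {z i j : N} (hz1 : z ≠ 1)
    (hz2 : z * z = 1) (hsq : ∀ x, x ≠ 1 → x ≠ z → x * x = z) (hi1 : i ≠ 1) (hiz : i ≠ z)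
    (hj1 : j ≠ 1) (hjz : j ≠ z) (hji : j ≠ i) (hji' : j ≠ i * z) {m : ℕ} (hm : 1 ≤ m) :
    Kit N z m := by
  have hc : ∀ x, x * z = z * x := fun x => by
    by_cases h1 : x = 1
    · simp [h1]
    by_cases h2 : x = z
    · rw [h2]
    rw [← hsq x h1 h2, mul_assoc]
  have hzi : z⁻¹ = z := inv_eq_of_mul_eq_one_right hz2
  have hinv : ∀ x, x ≠ 1 → x ≠ z → x⁻¹ = x * z := fun x h1 h2 =>
    inv_eq_of_mul_eq_one_right (by rw [← mul_assoc, hsq x h1 h2, hz2])
  have hanti : ∀ x y, x ≠ 1 → x ≠ z → y ≠ 1 → y ≠ z → y ≠ x → y ≠ x * z → x * y = y * x * z := by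
    intro x y h1 h2 h3 h4 h5 h6
    have k1 : x * y ≠ 1 := fun h => h6 (by rw [← hinv x h1 h2, inv_eq_of_mul_eq_one_right h])
    have k2 : x * y ≠ z := fun h => h5 (by
      rw [← mul_right_inj x, h, hsq x h1 h2])
    have k3 := hsq _ k1 k2
    calc x * y = x⁻¹ * (x * x) * (y * y) * y⁻¹ := by group
      _ = x⁻¹ * (x * y * (x * y)) * y⁻¹ * z := by
        rw [hsq x h1 h2, hsq y h3 h4, k3, mul_assoc _ z, ← hc, ← mul_assoc]
      _ = y * x * z := by group
  have hi2 := hsq i hi1 hiz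
  have hi4 : i ^ 4 = 1 := by rw [show 4 = 2 + 2 from rfl, pow_add, pow_two, hi2, hz2]
  let P : ZMod (2 * 2) → N := fun n => i ^ n.val
  have hP : ∀ n k, P (n + k) = P n * P k := fun n k => by
    simp only [P]
    rw [ZMod.val_add, ← pow_add, eq_comm, pow_eq_pow_mod _ hi4]
  have hP0 : P 0 = 1 := by simp [P]
  have hP2 : P 2 = z := (pow_two i).trans hi2
  have hP1 : P 1 = i := pow_one i
  have hP3 : P 3 = i * z := (pow_three i).trans (by rw [hi2])
  have hij : j⁻¹ * i * j = i⁻¹ := by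
    rw [mul_assoc, hanti i j hi1 hiz hj1 hjz hji hji', hinv i hi1 hiz]; group
  have hPj : ∀ n k, P n * (j * P k) = j * P (k - n) := fun n k => by
    have h1 : j⁻¹ * P n * j = (P n)⁻¹ := by
      simp only [P]
      rw [← inv_pow, ← hij]
      simpa using (conj_pow (a := j⁻¹) (b := i) (i := n.val)).symm
    have h2 : P (k - n) = (P n)⁻¹ * P k := by
      rw [eq_inv_mul_iff_mul_eq, ← hP]; congr 1; ring
    rw [h2, ← h1]; group
  let f : QuaternionGroup 2 →* N := MonoidHom.mk'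
    (fun x => match x with | a n => P n | xa n => j * P n) (by
      rintro (n | n) (k | k)
      · exact hP n k
      · exact (hPj n k).symm
      · simp only [xa_mul_a, hP, mul_assoc]
      · simp only [xa_mul_xa]
        rw [mul_assoc, hPj, ← mul_assoc, hsq j hj1 hjz, ← hP2, ← hP]
        congr 1; push_cast; ring)
  have hcase : ∀ n : ZMod (2 * 2), n = 0 ∨ n = 1 ∨ n = 2 ∨ n = 3 := by decide
  have hiz' : i * z ≠ 1 := fun h => hiz (by rw [eq_inv_of_mul_eq_one_left h, hzi])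
  have hf : Function.Bijective f := by
    refine ⟨(injective_iff_map_eq_one f).2 ?_, fun k => ?_⟩
    · rintro (n | n) h
      · have h' : P n = 1 := h
        rcases hcase n with rfl | rfl | rfl | rfl
        · rfl
        · exact absurd (hP1 ▸ h') hi1
        · exact absurd (hP2 ▸ h') hz1
        · exact absurd (hP3 ▸ h') hiz'
      · have h' : j = (P n)⁻¹ := eq_inv_of_mul_eq_one_left h
        exfalso
        rcases hcase n with rfl | rfl | rfl | rfl
        · exact hj1 (by rw [h', hP0, inv_one])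
        · exact hji' (by rw [h', hP1, hinv i hi1 hiz])
        · exact hjz (by rw [h', hP2, hzi])
        · exact hji (by rw [h', hP3, ← hinv i hi1 hiz, inv_inv])
    · by_contra hk
      have n1 : ∀ n, k ≠ P n := fun n h => hk ⟨a n, h.symm⟩
      have n2 : ∀ n, k ≠ j * P n := fun n h => hk ⟨xa n, h.symm⟩
      have k1 : k ≠ 1 := hP0 ▸ n1 0
      have k2 : k ≠ z := hP2 ▸ n1 2
      have a1 := hanti i k hi1 hiz k1 k2 (hP1 ▸ n1 1) (hP3 ▸ n1 3)
      have a2 := hanti j k hj1 hjz k1 k2 (by simpa [hP0] using n2 0) (hP2 ▸ n2 2)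
      have a3 := hanti (j * i) k (fun h => hji' (by
          rw [← hinv i hi1 hiz, eq_inv_of_mul_eq_one_left h]))
        (fun h => hji (by rw [← mul_left_inj i, h, hi2])) k1 k2 (hP1 ▸ n2 1)
        (by rw [mul_assoc, ← hP3]; exact n2 3)
      rw [mul_assoc, a1, ← mul_assoc, ← mul_assoc, a2, mul_left_inj, mul_assoc, mul_assoc,
        mul_right_inj, mul_right_inj, mul_eq_right] at a3
      exact hz1 a3
  have := (kit_q8 hm).equiv (MulEquiv.ofBijective f hf)
  rwa [show MulEquiv.ofBijective f hf (a 2) = z from hP2] at this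

end Pool.Agent.Lib.MP_0becda_co
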