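import Pool.Agent.Lib.MP_0becda_co.TwoGroup

set_option autoImplicit false

namespace Pool.Agent.Lib.MP_0becda_co

variable {G : Type*} [Group G]

theorem exists_elem_normal [Finite G] [Group.IsSolvable G] (O : Subgroup G) [hO : O.Normal]
    (hne : O ≠ ⊥) : ∃ (p : ℕ) (N : Subgroup G), p.Prime ∧ N.Normal ∧ N ≤ O ∧ N ≠ ⊥ ∧
      (∀ x ∈ N, ∀ y ∈ N, x * y = y * x) ∧ ∀ x ∈ N, x ^ p = 1 := by
  obtain ⟨D, ⟨hD, hDO, hD1⟩, hmin⟩ := Set.exists_min_image
    {D : Subgroup G | D.Normal ∧ D ≤ O ∧ D ≠ ⊥} (fun D => Nat.card D)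
    (Set.toFinite _) ⟨O, hO, le_rfl, hne⟩
  have hlt := Group.IsSolvable.commutator_lt_of_ne_bot hD1
  have hbot : ⁅D, D⁆ = ⊥ := by
    by_contra h
    exact hlt.ne (Subgroup.eq_of_le_of_card_ge hlt.le
      (hmin _ ⟨inferInstance, hlt.le.trans hDO, h⟩))
  have hc : ∀ x ∈ D, ∀ y ∈ D, x * y = y * x := fun x hx y hy =>
    (Subgroup.commutator_eq_bot_iff_le_centralizer.1 hbot hy x hx)
  obtain ⟨p, hp, hpd⟩ := Nat.exists_prime_and_dvd (fun h => hD1 (Subgroup.card_eq_one.1 h))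
  have := Fact.mk hp
  obtain ⟨x, hx⟩ := exists_prime_orderOf_dvd_card' p hpd
  let N : Subgroup G :=
    { carrier := {x | x ∈ D ∧ x ^ p = 1}
      one_mem' := ⟨D.one_mem, one_pow p⟩
      mul_mem' := fun {x y} hx hy => ⟨D.mul_mem hx.1 hy.1, by
        rw [Commute.mul_pow (hc x hx.1 y hy.1), hx.2, hy.2, one_mul]⟩
      inv_mem' := fun {x} hx => ⟨D.inv_mem hx.1, by rw [inv_pow, hx.2, inv_one]⟩ }
  refine ⟨p, N, hp, ⟨fun y hy g => ⟨hD.conj_mem y hy.1 g, by rw [conj_pow, hy.2]; group⟩⟩,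
    fun y hy => hDO hy.1, fun h => ?_, fun y hy z hz => hc y hy.1 z hz.1, fun y hy => hy.2⟩
  have hxN : (x : G) ∈ N := ⟨x.2, by rw [← Subgroup.coe_pow, ← hx, pow_orderOf_eq_one]; rfl⟩
  rw [h, Subgroup.mem_bot] at hxN
  rw [show x = 1 from Subtype.ext hxN, orderOf_one] at hx
  exact hp.one_lt.ne hx

theorem ter_tiny [Finite G] (h : Nat.card G ≤ 2) : Ter G := by
  by_cases h1 : ∀ x : G, x = 1
  · have : Subsingleton G := ⟨fun x y => by rw [h1 x, h1 y]⟩
    exact st_trivial.ter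
  obtain ⟨x, hx⟩ := not_forall.1 h1
  have hall : ∀ g : G, g ≠ 1 ↔ x = g := fun g => ⟨fun hg => by
    by_contra hxg
    have h3 : ({1, x, g} : Set G).ncard = 3 :=
      Set.ncard_eq_three.2 ⟨1, x, g, Ne.symm hx, hg.symm, hxg, rfl⟩
    have := Set.ncard_le_card ({1, x, g} : Set G)
    omega, fun h => h ▸ hx⟩
  refine ⟨_, _, _, _, Path.cons 1 x x _ _ (Path.single x), fun g => ?_, fun g => ?_⟩
  · rw [C_cons, C_singleton, ← ind_congr (hall g), ind_eq_add_ne]
  · rw [W_cons, W_zero, wt_mk, inv_one, one_mul, ← ind_congr (hall g), ← ind_congr (hall g⁻¹),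
      ind_congr (inv_ne_one (a := g))]; ring

theorem ter_two_group [Finite G] (hG : IsPGroup 2 G)
    (hne : ¬ ((∀ g : G, g * g = 1) ∧ 4 ≤ Nat.card G)) : Ter G := by
  by_cases hel : ∀ g : G, g * g = 1
  · obtain ⟨k, hk⟩ := IsPGroup.iff_card.1 hG
    have h4 : Nat.card G < 4 := by by_contra h; exact hne ⟨hel, by omega⟩
    refine ter_tiny ?_
    rcases k with _ | k
    · omega
    · rw [pow_succ] at hk; omega
  · exact (rc_two_group _ G rfl hG hel).ter

/-- A normal subgroup of odd order elements containing a `2`-power of every element. -/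
def HasCompl (G : Type*) [Group G] : Prop :=
  ∃ O : Subgroup G, O.Normal ∧ (∀ x ∈ O, Odd (orderOf x)) ∧ ∀ g, ∃ k, g ^ 2 ^ k ∈ O

theorem ter_of_compl (n : ℕ) : ∀ (G : Type*) [Group G] [Finite G] [Group.IsSolvable G], Nat.card G = n →
    HasCompl G → ¬ ((∀ g : G, g * g = 1) ∧ 4 ≤ Nat.card G) → Ter G := by
  induction n using Nat.strong_induction_on with
  | _ n ih =>
    rintro G _ _ _ hn ⟨O, hO, hodd, hpow⟩ hne
    by_cases hbot : O = ⊥
    · exact ter_two_group (fun g => by simpa [hbot] using hpow g) hne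
    obtain ⟨p, N, hp, hN, hNO, hN1, hc, hNp⟩ := exists_elem_normal O hbot
    have := Fact.mk hp
    obtain ⟨⟨x, hx⟩, hx1⟩ := (Subgroup.ne_bot_iff_exists_ne_one).1 hN1
    have hx1' : x ≠ 1 := fun h => hx1 (Subtype.ext h)
    have hox : orderOf x = p := orderOf_eq_prime (hNp x hx) hx1'
    have hpo : Odd p := hox ▸ hodd x (hNO hx)
    have hc' : ∀ y z : (QuotientGroup.mk' N).ker, y * z = z * y := fun y z =>
      Subtype.ext (hc y (mem_ker_mk' N y) z (mem_ker_mk' N z))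
    have hp' : ∀ y : (QuotientGroup.mk' N).ker, y ^ p = 1 := fun y =>
      Subtype.ext (hNp y (mem_ker_mk' N y))
    by_cases hq : (∀ g : G ⧸ N, g * g = 1) ∧ 4 ≤ Nat.card (G ⧸ N)
    · have h3 : 3 ≤ Nat.card N := by
        have h1 : p ≤ Nat.card N := by
          refine Nat.le_of_dvd Nat.card_pos ?_
          rw [← hox, ← Subgroup.orderOf_mk x hx]; exact orderOf_dvd_natCard _
        have h2 := hp.two_le
        obtain ⟨k, hk⟩ := hpo
        omega
      have hne' : ¬ ∀ g : G, g * g = 1 := fun h => by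
        have h2 : p ∣ 2 := hox ▸ orderOf_dvd_iff_pow_eq_one.2 (by rw [pow_two, h])
        have := (Nat.prime_dvd_prime_iff_eq hp Nat.prime_two).1 h2
        obtain ⟨k, hk⟩ := hpo
        omega
      obtain ⟨X, hX, hXX⟩ := exists_outside _ (QuotientGroup.mk'_surjective N) (by omega) hq.1 hne'
      exact (RC.of_elem _ (QuotientGroup.mk'_surjective N) p (by rwa [card_ker_mk']) hc' hp'
        (by omega) hq.1 X hX hXX).ter
    · refine Ter.ext_odd _ (QuotientGroup.mk'_surjective N) hc' (sq_eq_one_of_odd hpo hp')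
        (st_elem p hpo _ _ rfl hc' hp') (ih _ (hn ▸ card_quot_lt N hN1) _ rfl ?_ hq)
      refine ⟨O.map (QuotientGroup.mk' N), hO.map _ (QuotientGroup.mk'_surjective N), ?_, ?_⟩
      · rintro _ ⟨y, hy, rfl⟩
        exact (hodd y hy).of_dvd_nat (orderOf_map_dvd _ y)
      · intro g
        obtain ⟨g, rfl⟩ := QuotientGroup.mk'_surjective N g
        obtain ⟨k, hk⟩ := hpow g
        exact ⟨k, _, hk, map_pow _ _ _⟩

theorem compl_of_nilpotent (n : ℕ) : ∀ (G : Type*) [Group G] [Finite G] [Group.IsNilpotent G],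
    Nat.card G = n → HasCompl G := by
  induction n using Nat.strong_induction_on with
  | _ n ih =>
    intro G _ _ _ hn
    by_cases h2 : IsPGroup 2 G
    · exact ⟨⊥, inferInstance, by simp, fun g => by simpa using h2 g⟩
    obtain ⟨p, hp, hpd, hp2⟩ : ∃ p, p.Prime ∧ p ∣ Nat.card G ∧ p ≠ 2 := by
      by_contra hcon
      refine h2 (IsPGroup.of_card (n := (Nat.card G).primeFactorsList.length)
        (Nat.eq_prime_pow_of_unique_prime_dvd Nat.card_pos.ne' fun {d} hd hdd => ?_))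
      by_contra h; exact hcon ⟨d, hd, hdd, h⟩
    have := Fact.mk hp
    obtain ⟨P⟩ : Nonempty (Sylow p G) := inferInstance
    have hP : (P : Subgroup G).Normal :=
      Sylow.normal_of_normalizerCondition Group.normalizerCondition_of_isNilpotent P
    obtain ⟨O, hO, hodd, hpow⟩ := ih _ (hn ▸ card_quot_lt (P : Subgroup G)
      (P.ne_bot_of_dvd_card hpd)) (G ⧸ (P : Subgroup G)) rfl
    refine ⟨O.comap (QuotientGroup.mk' _), inferInstance, fun x hx => ?_, fun g => ?_⟩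
    · have h1 : x ^ orderOf (QuotientGroup.mk' (P : Subgroup G) x) ∈ (P : Subgroup G) := by
        rw [← QuotientGroup.eq_one_iff, QuotientGroup.mk_pow]; exact pow_orderOf_eq_one _
      obtain ⟨k, hk⟩ := P.2 ⟨_, h1⟩
      have h3 : x ^ (orderOf (QuotientGroup.mk' (P : Subgroup G) x) * p ^ k) = 1 := by
        rw [pow_mul]; exact congrArg Subtype.val hk
      exact ((hodd _ hx).mul ((hp.odd_of_ne_two hp2).pow)).of_dvd_nat
        (orderOf_dvd_iff_pow_eq_one.2 h3)
    · obtain ⟨k, hk⟩ := hpow (QuotientGroup.mk' _ g)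
      exact ⟨k, by rwa [Subgroup.mem_comap, map_pow]⟩

end Pool.Agent.Lib.MP_0becda_co
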