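import Pool.Agent.Lib.MP_0becda_co.Sub

set_option autoImplicit false

namespace Pool.Agent.Lib.MP_0becda_co

variable {G H : Type*} [Group G] [Group H]

/-- A family of strands over a walk of the quotient. -/
def Str (π : G →* H) [Fintype π.ker] (Vn : π.ker → Multiset G) (En : π.ker → Multiset (Sym2 G))
    (a b : G) (Θ : π.ker → π.ker) (V : Multiset H) (E : Multiset (Sym2 H)) : Prop :=
  (∀ n : π.ker, Path (Vn n) (En n) ((n : G) * a) ((Θ n : G) * b)) ∧
    (∀ g, ∑ n, C (Vn n) g = C V (π g)) ∧ ∀ g, ∑ n, W (En n) g = W E (π g)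

theorem Str.cons {π : G →* H} [Fintype π.ker] {Vn : π.ker → Multiset G}
    {En : π.ker → Multiset (Sym2 G)} {c b : G} {Θ : π.ker → π.ker} {V : Multiset H}
    {E : Multiset (Sym2 H)} (h : Str π Vn En c b Θ V E) {θ : π.ker → π.ker} (h2 : Ortho θ)
    (a : G) : Str π (fun n => ((n : G) * a) ::ₘ Vn (θ n))
      (fun n => s((n : G) * a, (θ n : G) * c) ::ₘ En (θ n)) a b (Θ ∘ θ) (π a ::ₘ V)
      (s(π a, π c) ::ₘ E) := by
  obtain ⟨hP, hV, hE⟩ := h
  refine ⟨fun n => Path.cons _ _ _ _ _ (hP (θ n)), fun g => ?_, fun g => ?_⟩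
  · simp only [C_cons]
    rw [Finset.sum_add_distrib, h2.1.sum_comp (fun m => C (Vn m) g), hV]
    congr 1
    exact fib_C π Function.bijective_id a g
  · simp only [W_cons]
    rw [Finset.sum_add_distrib, h2.1.sum_comp (fun m => W (En m) g), hE, match_W π h2]

theorem ker_mul (π : G →* H) (n : π.ker) (a : G) : π ((n : G) * a) = π a := by
  rw [map_mul, (MonoidHom.mem_ker).1 n.2, one_mul]

theorem ker_inv_mul (π : G →* H) (n : π.ker) (a : G) : π ((n : G)⁻¹ * a) = π a := by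
  rw [← Subgroup.coe_inv, ker_mul]

theorem RC.ext_odd (π : G →* H) (hπ : Function.Surjective π) [Finite π.ker]
    (hc : ∀ x y : π.ker, x * y = y * x) (h2 : ∀ x : π.ker, x * x = 1 → x = 1)
    (hST : ST π.ker) (h : RC H) : RC G := by
  have := Fintype.ofFinite π.ker
  obtain ⟨V, E, s, hcyc, hV, hE, hs⟩ := h
  have hs1 : s ≠ 1 := fun h1 => by
    have := C_pos_of_mem (hcyc.mem_of_edge hs).1
    rw [hV, ind_neg (by simpa using h1)] at this; omega
  obtain ⟨E', hP, rfl⟩ := hcyc.cut hs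
  obtain ⟨S, rfl⟩ := hπ s
  obtain ⟨Θ, hΘ⟩ := exists_oprod hc h2 (Multiset.card E')
  obtain ⟨ι, hι, -⟩ := ortho_inv hc h2
  obtain ⟨x0, x1, hx⟩ := ai_core π hST
  obtain ⟨Vn, En, hS⟩ := strands π hπ hP Θ ((ι x0 : G)⁻¹ * S) ((Θ (ι x1) : G)⁻¹ * (S * S)) hΘ
    (ker_inv_mul _ _ _) (by rw [ker_inv_mul, map_mul])
    (fun h0 => absurd (hP.eq_of_zero h0) (by simpa using hs1))
  obtain ⟨hP', hV', hE'⟩ := Str.cons (π := π) hS hι ((x0 : G)⁻¹ * 1)
  obtain ⟨E2, hP2, hE2⟩ := hx _ _ (ι.trans Θ) _ _ hP'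
  refine RC.of_path (s := S) (hP2.congr rfl rfl (by simp) (by simp)) ?_ (fun g => ?_) (fun g => ?_)
  · exact Multiset.mem_add.2 (Or.inl (Multiset.mem_sum.2 ⟨x0, by simp, by simp⟩))
  · rw [C_sum, hV', C_cons, hV, ker_inv_mul, map_one, ind_eq_add_ne]
  · have h3 := hE2 g
    have h4 := ind_eq_add_ne g
    have h5 := ind_eq_add_ne (π g)
    have h6 := hE (π g)
    rw [W_cons, wt_congr (u' := 1) (v' := π S) (by group)] at h6
    rw [W_add, W_sum, hE', W_cons, ker_inv_mul, ker_inv_mul, map_one]; omega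

theorem exists_inv_lift (π : G →* H) (hπ : Function.Surjective π) {p : ℕ} (hodd : Odd p)
    (hp : ∀ x : π.ker, x ^ p = 1) {t : H} (ht : t * t = 1) : ∃ T : G, π T = t ∧ T * T = 1 := by
  obtain ⟨g, rfl⟩ := hπ t
  obtain ⟨k, rfl⟩ := hodd
  refine ⟨g ^ (2 * k + 1), ?_, ?_⟩
  · rw [map_pow, pow_succ, pow_mul, pow_two, ht, one_pow, one_mul]
  · have := congrArg Subtype.val (hp ⟨g * g, by rw [MonoidHom.mem_ker, map_mul, ht]⟩)
    rw [← Commute.mul_pow (Commute.refl g)]
    simpa using this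

theorem TT.ext_odd (π : G →* H) (hπ : Function.Surjective π) [Finite π.ker] {p : ℕ} (hodd : Odd p)
    (hc : ∀ x y : π.ker, x * y = y * x) (hp : ∀ x : π.ker, x ^ p = 1)
    (hST : ST π.ker) (h : TT H) : TT G := by
  have := Fintype.ofFinite π.ker
  have h2 := sq_eq_one_of_odd hodd hp
  obtain ⟨t, s, V, E, ht, hP, hV, hE⟩ := h
  have hsV := C_pos_of_mem hP.start_mem
  have hs1 : s ≠ 1 := fun h1 => by
    have := hV s
    rw [ind_pos h1.symm] at this; omega
  have hst : s ≠ t := fun h1 => by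
    have := hV s
    rw [ind_pos h1.symm] at this; omega
  have ht1 : t ≠ 1 := fun h1 => by
    have := hV 1
    rw [ind_pos h1, ind_pos rfl] at this; omega
  obtain ⟨T, rfl, hT⟩ := exists_inv_lift π hπ hodd hp ht
  obtain ⟨S, rfl⟩ := hπ s
  obtain ⟨Θ, hΘ⟩ := exists_oprod hc h2 (Multiset.card E)
  obtain ⟨ι, hι, hιι⟩ := ortho_inv hc h2
  obtain ⟨x0, x1, hx⟩ := ai_core π hST
  obtain ⟨Vn, En, hS⟩ := strands π hπ hP Θ ((x0 : G)⁻¹ * S) ((Θ x1 : G)⁻¹ * (S * S)) hΘ
    (ker_inv_mul _ _ _) (by rw [ker_inv_mul, map_mul])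
    (fun h0 => absurd (hP.eq_of_zero h0) (by simpa using hs1))
  obtain ⟨hP', hV', hE'⟩ := (Str.cons (π := π) hS hι ((ι x0 : G)⁻¹ * 1)).cons hι ((x0 : G)⁻¹ * T)
  obtain ⟨E2, hP2, hE2⟩ := hx _ _ (ι.trans (ι.trans Θ)) _ _ hP'
  refine TT.of_path (s := S) hT (hP2.congr rfl rfl (by simp) (by simp [hιι])) ?_ ?_
    (fun h => hst (by rw [h])) (fun h => ht1 (by rw [h, map_one])) (fun g => ?_) (fun g => ?_)
  · exact Multiset.mem_add.2 (Or.inl (Multiset.mem_sum.2 ⟨x0, by simp, by simp⟩))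
  · exact Multiset.mem_add.2 (Or.inl (Multiset.mem_sum.2 ⟨x0, by simp, by simp [hιι]⟩))
  · rw [C_sum, hV', C_cons, C_cons, ker_inv_mul, ker_inv_mul, map_one, ← add_assoc, hV]
  · have h3 := hE2 g
    have h4 := ind_eq_add_ne g
    have h5 := ind_eq_add_ne (π g)
    have h6 := hE (π g)
    rw [W_add, W_sum, hE', W_cons, W_cons, ker_inv_mul, ker_inv_mul, ker_inv_mul, map_one]; omega

/-- Zigzag values on `1, ..., k`. -/
def zz (k i : ℕ) : ℕ := if i % 2 = 0 then i / 2 + 1 else k - i / 2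

/-- Vertices of the rotational terrace of a cyclic group of odd order. -/
def ov (k j : ℕ) : ℕ := if j = 0 then k + 1 else if j ≤ k then zz k (j - 1) else zz k (2 * k - j) + k

/-- Colours of the rotational terrace of a cyclic group of odd order. -/
def oc (k j : ℕ) : ℕ := if j = 0 then k else if j < k then k - j else if j = k then k + 1
  else 3 * k + 1 - j

theorem rc_cyclic_odd [Finite G] {a : G} {k : ℕ} (h0 : 0 < k) (ha : orderOf a = 2 * k + 1)
    (hn : Nat.card G = 2 * k + 1) : RC G := by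
  have h1 : ∀ i, 0 < i → i < 2 * k + 1 → a ^ i ≠ 1 := fun i h0 hi h =>
    absurd (pow_inj ha hi (by omega) (h.trans (pow_zero a).symm)) (by omega)
  have hv1 : ∀ j, j < 2 * k → 0 < ov k j ∧ ov k j < 2 * k + 1 := fun j hj => by
    unfold ov zz; split_ifs <;> omega
  have hc1 : ∀ j, j < 2 * k → 0 < oc k j ∧ oc k j < 2 * k + 1 := fun j hj => by
    unfold oc; split_ifs <;> omega
  refine rc_of_fun (fun j => a ^ ov k j) (fun j => a ^ oc k j) (2 * k) (by omega)
    (fun i j hi hj h => ?_) (fun j hj => h1 _ (hv1 j hj).1 (hv1 j hj).2)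
    (fun i j hi hj h => ?_) (fun j hj => h1 _ (hc1 j hj).1 (hc1 j hj).2) ?_
    (fun j hj => Or.imp (pow_col ha) (pow_col ha) ?_) 0 (by omega) (Or.inl ?_)
  · have := pow_inj ha (hv1 i hi).2 (hv1 j hj).2 h
    revert this; unfold ov zz; split_ifs <;> omega
  · have := pow_inj ha (hc1 i hi).2 (hc1 j hj).2 h
    revert this; unfold oc; split_ifs <;> omega
  · congr 1; unfold ov zz; split_ifs <;> omega
  · unfold ov oc zz; split_ifs <;> first | omega | contradiction
  · have e1 : ov k (0 + 1) = 1 := by unfold ov zz; split_ifs <;> first | omega | contradiction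
    have e0 : ov k 0 = k + 1 := rfl
    rw [e1, e0, ← pow_add, show k + 1 + (k + 1) = 1 + (2 * k + 1) by omega, pow_add, ← ha,
      pow_orderOf_eq_one, mul_one]

/-- Dihedral-type base case. -/
theorem tt_dihedral [Finite G] (N : Subgroup G) (t : G) (ht : t * t = 1) (htN : t ∉ N)
    (hinv : ∀ n ∈ N, n⁻¹ * t = t * n) (hcov : ∀ g, g ∉ N → t * g ∈ N)
    (h2 : ∀ x : N, x * x = 1 → x = 1) (hc : ∀ x y : N, x * y = y * x) (h : RC N) : TT G := by
  classical
  have := Fintype.ofFinite N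
  obtain ⟨V, E, s, hcyc, hV, hE, hs⟩ := h
  obtain ⟨E', hP, rfl⟩ := hcyc.cut hs
  have hP1 := Path.cons 1 s _ _ _ hP
  have hV1 : ∀ g, C (1 ::ₘ V) g = 1 := fun g => by rw [C_cons, hV, ind_eq_add_ne]
  have hE1 : ∀ g, W (s(1, s) ::ₘ E') g = 2 * ind (g ≠ 1) := fun g => by
    rw [← hE g, W_cons, W_cons, wt_congr (u' := s) (v' := s * s) (by group)]
  have hodd : Odd (Nat.card N) := by
    rw [← Nat.not_even_iff_odd, even_iff_two_dvd]
    intro hd
    obtain ⟨x, hx⟩ := exists_prime_orderOf_dvd_card' 2 hd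
    have := h2 x (by rw [← pow_two, ← hx, pow_orderOf_eq_one])
    rw [this, orderOf_one] at hx; omega
  have hcard := hP.card
  have hcV := card_eq_sum_C (1 ::ₘ V)
  simp only [hV1, Finset.sum_const, Finset.card_univ, smul_eq_mul, mul_one, Multiset.card_cons,
    ← Nat.card_eq_fintype_card] at hcV
  obtain ⟨c, V', E0, E1, hA, rfl, rfl⟩ := hP.toAlt.2 (by
    obtain ⟨k, hk⟩ := hodd
    exact ⟨k - 1, by omega⟩)
  have hA' := AltPath.step 1 s c _ _ _ _ hA
  have hw := hA'.weave (fun n => (t * n) ::ₘ {(n : G)}) (fun n => s(t * n, (n : G)) ::ₘ 0)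
    (fun n => t * n) (fun n => (n : G)) (fun n => Path.cons _ _ _ _ _ (Path.single _))
  rw [eq_univ_of_C hV1] at hw
  have hti : t⁻¹ = t := inv_eq_of_mul_eq_one_right ht
  have htt : ∀ g, t * (t * g) = g := fun g => by rw [← mul_assoc, ht, one_mul]
  have hsum : ∀ g : G, ∑ n : N, ind ((n : G) = g) = ind (g ∈ N) := fun g => by
    by_cases hg : g ∈ N
    · rw [ind_pos hg, ← sum_ind_eq (⟨g, hg⟩ : N)]
      exact Finset.sum_congr rfl fun m _ => ind_congr ⟨fun h => Subtype.ext h, fun h => by rw [h]⟩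
    · rw [ind_neg hg]
      exact Finset.sum_eq_zero fun m _ => ind_neg fun h' => hg (h' ▸ m.2)
  have hsum' : ∀ g : G, ∑ n : N, ind (t * (n : G) = g) = ind (g ∉ N) := fun g => by
    rw [Finset.sum_congr rfl fun (n : N) _ => ind_congr (show t * (n : G) = g ↔ (n : G) = t * g from
      ⟨fun h => by rw [← h, htt], fun h => by rw [h, htt]⟩), hsum]
    refine ind_congr ⟨fun h hg => htN ?_, hcov g⟩
    simpa using N.mul_mem h (N.inv_mem hg)
  have hsq : Function.Bijective fun x : N => x * x := Finite.injective_iff_bijective.1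
    fun x y hxy => by
      have hxy' : x * x = y * y := hxy
      refine mul_inv_eq_one.1 (h2 _ ?_)
      rw [mul_assoc, ← mul_assoc y⁻¹, hc y⁻¹, mul_assoc, ← mul_assoc x, hxy']; group
  refine TT.of_path (s := s) ht (hw.congr rfl rfl (by simp) rfl) ?_ ?_ (fun h => htN (h ▸ s.2))
    (fun h => htN (h ▸ N.one_mem)) (fun g => ?_) (fun g => ?_)
  · refine Multiset.mem_add.2 (Or.inl ?_)
    exact Multiset.mem_sum.2 ⟨1, by simp, by simp⟩
  · simp
  · change C (∑ n : N, (t * n) ::ₘ {(n : G)}) g = 1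
    simp only [C_sum, C_cons, C_singleton, Finset.sum_add_distrib, hsum, hsum']
    by_cases hg : g ∈ N
    · rw [ind_pos hg, ind_neg (by simpa using hg)]
    · rw [ind_neg hg, ind_pos hg]
  · change W (∑ n : N, (s(t * n, (n : G)) ::ₘ 0) + _) g = _
    have e1 : ∀ n : N, (t * (n : G))⁻¹ * n = t * ((n * n : N) : G) := fun n => by
      rw [mul_inv_rev, hti, hinv n n.2, mul_assoc]; rfl
    have e2 : (fun n : N => t * (n : G)) = (fun y => t * y) ∘ N.subtype := rfl
    have e3 : (fun n : N => (n : G)) = N.subtype := rfl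
    simp only [W_add, W_sum, W_cons, W_zero, add_zero, wt_mk, e1, Finset.sum_add_distrib]
    rw [hsq.sum_comp (fun n : N => ind (t * (n : G) = g)),
      hsq.sum_comp (fun n : N => ind (t * (n : G) = g⁻¹)), hsum', hsum', e2, e3, Sym2.map_comp,
      ← Multiset.map_map, W_map_mul, ← W_add, ← Multiset.map_add, ind_congr (N.inv_mem_iff).not]
    have e4 : s(1, s) ::ₘ E0 + s(s, c) ::ₘ E1 = s(1, s) ::ₘ s(s, c) ::ₘ (E0 + E1) := by
      simp only [← Multiset.singleton_add]; abel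
    rw [e4]
    by_cases hg : g ∈ N
    · have := W_map_hom _ N.subtype_injective (s(1, s) ::ₘ s(s, c) ::ₘ (E0 + E1)) ⟨g, hg⟩
      rw [hE1] at this
      change W _ g = _ at this
      rw [this, ind_neg (by simpa using hg), ind_congr (show (⟨g, hg⟩ : N) ≠ 1 ↔ g ≠ 1 by simp)]
      simp
    · rw [W_map_not N.subtype _ (g := g) fun x hx => hg (hx ▸ x.2), ind_pos hg,
        ind_pos (show g ≠ 1 from fun h => hg (h ▸ N.one_mem))]

end Pool.Agent.Lib.MP_0becda_co
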