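import Mathlib

set_option autoImplicit false

namespace Pool.Agent.Lib.MP_0becda_co

open Multiset

/-- Indicator of a proposition. -/
noncomputable def ind (p : Prop) : ℕ := by classical exact if p then 1 else 0

theorem ind_pos {p : Prop} (h : p) : ind p = 1 := by unfold ind; simp [h]
theorem ind_neg {p : Prop} (h : ¬ p) : ind p = 0 := by unfold ind; simp [h]
theorem ind_congr {p q : Prop} (h : p ↔ q) : ind p = ind q := by rw [propext h]

section path
variable {G : Type*}

/-- `Path V E a b`: a walk from `a` to `b` whose vertex multiset is `V` and whose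
multiset of (unoriented) consecutive pairs is `E`. -/
inductive Path : Multiset G → Multiset (Sym2 G) → G → G → Prop
  | single (a : G) : Path {a} 0 a a
  | cons (a b c : G) (V : Multiset G) (E : Multiset (Sym2 G)) :
      Path V E b c → Path (a ::ₘ V) (s(a, b) ::ₘ E) a c

theorem Path.congr {V V' : Multiset G} {E E' : Multiset (Sym2 G)} {a b a' b' : G}
    (h : Path V E a b) (hV : V = V') (hE : E = E') (ha : a = a') (hb : b = b') :
    Path V' E' a' b' := by subst hV hE ha hb; exact h

theorem Path.append {V1 V2 : Multiset G} {E1 E2 : Multiset (Sym2 G)} {a b c d : G}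
    (h1 : Path V1 E1 a b) (h2 : Path V2 E2 c d) :
    Path (V1 + V2) (E1 + s(b, c) ::ₘ E2) a d := by
  induction h1 with
  | single a => exact (Path.cons a c d V2 E2 h2).congr (by simp) (by simp) rfl rfl
  | cons a b' c' V E _ ih =>
    exact (Path.cons a b' d _ _ ih).congr (by simp) (by rw [Multiset.cons_add]) rfl rfl

theorem Path.reverse {V : Multiset G} {E : Multiset (Sym2 G)} {a b : G}
    (h : Path V E a b) : Path V E b a := by
  induction h with
  | single a => exact Path.single a
  | cons a b c V E _ ih =>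
    refine (ih.append (Path.single a)).congr ?_ ?_ rfl rfl
    · rw [add_comm]; simp
    · rw [Sym2.eq_swap, add_comm]; simp

theorem Path.card {V : Multiset G} {E : Multiset (Sym2 G)} {a b : G}
    (h : Path V E a b) : Multiset.card V = Multiset.card E + 1 := by
  induction h with
  | single a => simp
  | cons a b c V E _ ih => simp [ih]

theorem Path.eq_of_zero {V : Multiset G} {E : Multiset (Sym2 G)} {a b : G}
    (h : Path V E a b) (h0 : Multiset.card E = 0) : a = b := by
  cases h with
  | single a => rfl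
  | cons a b c V E _ => simp at h0

theorem Path.start_mem {V : Multiset G} {E : Multiset (Sym2 G)} {a b : G}
    (h : Path V E a b) : a ∈ V := by
  cases h <;> simp

theorem Path.end_mem {V : Multiset G} {E : Multiset (Sym2 G)} {a b : G}
    (h : Path V E a b) : b ∈ V := h.reverse.start_mem

theorem Path.split {V : Multiset G} {E : Multiset (Sym2 G)} {a b : G}
    (h : Path V E a b) {e : Sym2 G} (he : e ∈ E) :
    ∃ V1 E1 V2 E2 u w, e = s(u, w) ∧ Path V1 E1 a u ∧ Path V2 E2 w b ∧ V = V1 + V2 ∧
      E = E1 + e ::ₘ E2 := by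
  induction h with
  | single a => simp at he
  | cons a b c V E hp ih =>
    rcases Multiset.mem_cons.1 he with h | h
    · exact ⟨{a}, 0, V, E, a, b, h, Path.single a, hp, by simp, by simp [h]⟩
    · obtain ⟨V1, E1, V2, E2, u, w, h1, h2, h3, h4, h5⟩ := ih h
      refine ⟨a ::ₘ V1, s(a, b) ::ₘ E1, V2, E2, u, w, h1, Path.cons _ _ _ _ _ h2, h3, ?_, ?_⟩
      · simp [h4]
      · rw [h5, Multiset.cons_add]

/-- A closed walk. -/
def Cyc (V : Multiset G) (E : Multiset (Sym2 G)) : Prop :=
  ∃ E' a b, Path V E' a b ∧ E = s(a, b) ::ₘ E'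

theorem Path.close {V : Multiset G} {E : Multiset (Sym2 G)} {a b : G}
    (h : Path V E a b) : Cyc V (s(a, b) ::ₘ E) := ⟨E, a, b, h, rfl⟩

theorem Cyc.congr {V V' : Multiset G} {E E' : Multiset (Sym2 G)}
    (h : Cyc V E) (hV : V = V') (hE : E = E') : Cyc V' E' := by subst hV hE; exact h

theorem path_of_sym {V : Multiset G} {E : Multiset (Sym2 G)} {a b x y : G}
    (h : Path V E a b) (hs : s(x, y) = s(a, b)) : Path V E x y := by
  rcases Sym2.eq_iff.1 hs with ⟨h1, h2⟩ | ⟨h1, h2⟩
  · exact h.congr rfl rfl h1.symm h2.symm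
  · exact h.reverse.congr rfl rfl h1.symm h2.symm

theorem Cyc.cut {V : Multiset G} {E : Multiset (Sym2 G)} (h : Cyc V E) {x y : G}
    (he : s(x, y) ∈ E) : ∃ E', Path V E' x y ∧ E = s(x, y) ::ₘ E' := by
  obtain ⟨E', a, b, hp, rfl⟩ := h
  rcases Multiset.mem_cons.1 he with h | h
  · exact ⟨E', path_of_sym hp h, by rw [h]⟩
  · obtain ⟨V1, E1, V2, E2, u, w, h1, h2, h3, h4, h5⟩ := hp.split h
    refine ⟨E2 + s(b, a) ::ₘ E1, ?_, ?_⟩
    · refine path_of_sym ((h3.append h2).congr ?_ rfl rfl rfl) (by rw [h1, Sym2.eq_swap])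
      rw [h4, add_comm]
    · rw [h5, Sym2.eq_swap (a := b)]
      simp only [← Multiset.singleton_add]; abel

theorem Cyc.mem_of_edge {V : Multiset G} {E : Multiset (Sym2 G)} (h : Cyc V E) {x y : G}
    (he : s(x, y) ∈ E) : x ∈ V ∧ y ∈ V := by
  obtain ⟨E', hp, -⟩ := h.cut he
  exact ⟨hp.start_mem, hp.end_mem⟩

/-- Chaining paths along an orbit. -/
theorem path_chain {X : Type*} (V : X → Multiset G) (E : X → Multiset (Sym2 G)) (A B : X → G)
    (x : ℕ → X) (k : ℕ) (hp : ∀ j, j ≤ k → Path (V (x j)) (E (x j)) (A (x j)) (B (x j))) :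
    Path (∑ j ∈ Finset.range (k + 1), V (x j))
      (∑ j ∈ Finset.range k, (s(B (x j), A (x (j + 1))) ::ₘ E (x j)) + E (x k))
      (A (x 0)) (B (x k)) := by
  induction k with
  | zero => simpa using hp 0 le_rfl
  | succ k ih =>
    have h1 := ih (fun j hj => hp j (by omega))
    refine (h1.append (hp (k + 1) le_rfl)).congr ?_ ?_ rfl rfl
    · rw [Finset.sum_range_succ _ (k + 1)]
    · rw [Finset.sum_range_succ _ k]
      simp only [← Multiset.singleton_add]; abel

/-- Closing up paths along a cyclic orbit. -/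
theorem cyc_orbit {X : Type*} (V : X → Multiset G) (E : X → Multiset (Sym2 G)) (A B : X → G)
    (φ : X → X) (S : Finset X) (hne : S.Nonempty)
    (hS : ∀ x ∈ S, φ x ∈ S) (htr : ∀ x ∈ S, ∀ y ∈ S, ∃ i, φ^[i] x = y)
    (hp : ∀ x ∈ S, Path (V x) (E x) (A x) (B x)) :
    Cyc (∑ x ∈ S, V x) (∑ x ∈ S, (s(B x, A (φ x)) ::ₘ E x)) := by
  classical
  obtain ⟨x0, hx0⟩ := hne
  have hit : ∀ i, φ^[i] x0 ∈ S := by
    intro i
    induction i with
    | zero => simpa
    | succ i ih => rw [Function.iterate_succ_apply']; exact hS _ ih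
  have hper : x0 ∈ Function.periodicPts φ := by
    obtain ⟨i, hi⟩ := htr (φ x0) (hS _ hx0) x0 hx0
    exact Function.mk_mem_periodicPts (n := i + 1) (by omega)
      (by rw [Function.IsPeriodicPt, Function.IsFixedPt, Function.iterate_succ_apply, hi])
  have hpos := Function.minimalPeriod_pos_of_mem_periodicPts hper
  obtain ⟨k, hk⟩ : ∃ k, Function.minimalPeriod φ x0 = k + 1 := ⟨_, (Nat.succ_pred_eq_of_pos hpos).symm⟩
  have hret : φ^[k + 1] x0 = x0 := by
    rw [← hk]; exact Function.isPeriodicPt_minimalPeriod φ x0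
  have hsum : ∀ {M : Type _} [AddCommMonoid M] (f : X → M),
      ∑ j ∈ Finset.range (k + 1), f (φ^[j] x0) = ∑ x ∈ S, f x := by
    intro M _ f
    refine Finset.sum_nbij (fun j => φ^[j] x0) (fun j _ => hit j) ?_ ?_ (fun _ _ => rfl)
    · intro i hi j hj hij
      refine Function.iterate_injOn_Iio_minimalPeriod (f := φ) (x := x0) ?_ ?_ hij
      · rw [hk]; simpa using hi
      · rw [hk]; simpa using hj
    · intro y hy
      obtain ⟨i, hi⟩ := htr x0 hx0 y hy
      refine ⟨i % (k + 1), by simpa using Nat.mod_lt i (show 0 < k + 1 by omega), ?_⟩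
      simp only
      rw [← hk, Function.iterate_mod_minimalPeriod_eq, hi]
  have h1 := path_chain V E A B (fun j => φ^[j] x0) k (fun j _ => hp _ (hit j))
  refine h1.close.congr (hsum V) ?_
  rw [← hsum (fun x => s(B x, A (φ x)) ::ₘ E x), Finset.sum_range_succ]
  have : φ (φ^[k] x0) = x0 := by rw [← Function.iterate_succ_apply' φ k x0]; exact hret
  rw [this, Sym2.eq_swap (a := B _)]
  simp only [Function.iterate_succ_apply', Function.iterate_zero, id,
    ← Multiset.singleton_add]
  abel

/-- Vertex count. -/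
noncomputable def C (V : Multiset G) (g : G) : ℕ := (V.map fun v => ind (v = g)).sum

@[simp] theorem C_zero (g : G) : C 0 g = 0 := by simp [C]
@[simp] theorem C_cons (a : G) (V : Multiset G) (g : G) :
    C (a ::ₘ V) g = ind (a = g) + C V g := by simp [C]
@[simp] theorem C_singleton (a g : G) : C {a} g = ind (a = g) := by simp [C]
@[simp] theorem C_add (V V' : Multiset G) (g : G) : C (V + V') g = C V g + C V' g := by simp [C]
theorem C_sum {X : Type*} (S : Finset X) (V : X → Multiset G) (g : G) :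
    C (∑ x ∈ S, V x) g = ∑ x ∈ S, C (V x) g := by
  classical
  induction S using Finset.induction_on with
  | empty => simp
  | insert a s ha ih => rw [Finset.sum_insert ha, Finset.sum_insert ha, C_add, ih]

theorem C_eq_count [DecidableEq G] (V : Multiset G) (g : G) : C V g = V.count g := by
  induction V using Multiset.induction_on with
  | empty => simp
  | cons a V ih =>
    rw [C_cons, ih, Multiset.count_cons]
    by_cases h : a = g
    · rw [ind_pos h, if_pos h.symm, add_comm]
    · rw [ind_neg h, if_neg (Ne.symm h)]; simp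

theorem C_pos_of_mem {V : Multiset G} {g : G} (h : g ∈ V) : 0 < C V g := by
  classical
  rw [C_eq_count]; exact Multiset.count_pos.2 h

end path

section colour
variable {G : Type*} [Group G]

/-- Symmetrised colour weight of an edge. -/
noncomputable def wt (e : Sym2 G) (g : G) : ℕ :=
  Sym2.lift ⟨fun u v => ind (u⁻¹ * v = g) + ind (v⁻¹ * u = g), fun _ _ => add_comm _ _⟩ e

theorem wt_mk (u v g : G) : wt s(u, v) g = ind (u⁻¹ * v = g) + ind (u⁻¹ * v = g⁻¹) := by
  have : ind (v⁻¹ * u = g) = ind (u⁻¹ * v = g⁻¹) :=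
    ind_congr ⟨fun h => by rw [← h]; group, fun h => by
      rw [← inv_inv g, ← h]; group⟩
  rw [← this]; rfl

theorem wt_congr {u v u' v' : G} (h : u⁻¹ * v = u'⁻¹ * v') (g : G) :
    wt s(u, v) g = wt s(u', v') g := by rw [wt_mk, wt_mk, h]

theorem wt_congr' {u v u' v' : G} (h : u⁻¹ * v = v'⁻¹ * u') (g : G) :
    wt s(u, v) g = wt s(u', v') g := by rw [Sym2.eq_swap (a := u'), wt_congr h]

/-- Total colour weight. -/
noncomputable def W (E : Multiset (Sym2 G)) (g : G) : ℕ := (E.map fun e => wt e g).sum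

@[simp] theorem W_zero (g : G) : W 0 g = 0 := by simp [W]
@[simp] theorem W_cons (e : Sym2 G) (E : Multiset (Sym2 G)) (g : G) :
    W (e ::ₘ E) g = wt e g + W E g := by simp [W]
@[simp] theorem W_add (E E' : Multiset (Sym2 G)) (g : G) : W (E + E') g = W E g + W E' g := by
  simp [W]
theorem W_sum {X : Type*} (S : Finset X) (E : X → Multiset (Sym2 G)) (g : G) :
    W (∑ x ∈ S, E x) g = ∑ x ∈ S, W (E x) g := by
  classical
  induction S using Finset.induction_on with
  | empty => simp
  | insert a s ha ih => rw [Finset.sum_insert ha, Finset.sum_insert ha, W_add, ih]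

/-- Terraces in path form. -/
def Ter (G : Type*) [Group G] : Prop :=
  ∃ (V : Multiset G) (E : Multiset (Sym2 G)) (a b : G), Path V E a b ∧ (∀ g, C V g = 1) ∧
    ∀ g, W E g = 2 * ind (g ≠ 1)

/-- Rotational terraces with an edge of the form `(s, s * s)`. -/
def RC (G : Type*) [Group G] : Prop :=
  ∃ (V : Multiset G) (E : Multiset (Sym2 G)) (s : G), Cyc V E ∧ (∀ g, C V g = ind (g ≠ 1)) ∧
    (∀ g, W E g = 2 * ind (g ≠ 1)) ∧ s(s, s * s) ∈ E

theorem ind_eq_add_ne (g : G) : ind ((1 : G) = g) + ind (g ≠ 1) = 1 := by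
  by_cases h : g = 1
  · rw [ind_pos h.symm, ind_neg (by simpa using h)]
  · rw [ind_neg (Ne.symm h), ind_pos h]

theorem RC.ter (h : RC G) : Ter G := by
  obtain ⟨V, E, s, hc, hV, hE, hs⟩ := h
  obtain ⟨E', hp, rfl⟩ := hc.cut hs
  refine ⟨_, _, _, _, Path.cons 1 s _ _ _ hp, fun g => ?_, fun g => ?_⟩
  · rw [C_cons, hV, ind_eq_add_ne]
  · rw [← hE g, W_cons, W_cons, wt_congr (u' := s) (v' := s * s) (by group)]

theorem Path.exists_list [DecidableEq G] {V : Multiset G} {E : Multiset (Sym2 G)} {a b : G}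
    (h : Path V E a b) : ∃ t : List G, ((a :: t : List G) : Multiset G) = V ∧
      ∀ g, W E g = (List.zipWith (fun a b => a⁻¹ * b) (a :: t) t).count g +
        (List.zipWith (fun a b => a⁻¹ * b) (a :: t) t).count g⁻¹ := by
  induction h with
  | single a => exact ⟨[], rfl, fun g => by simp⟩
  | cons a b c V E _ ih =>
    obtain ⟨t, h1, h2⟩ := ih
    refine ⟨b :: t, by rw [← h1]; rfl, fun g => ?_⟩
    rw [W_cons, h2, wt_mk, List.zipWith_cons_cons, List.count_cons, List.count_cons]
    have e1 : ind (a⁻¹ * b = g) = if (a⁻¹ * b == g) = true then 1 else 0 := by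
      by_cases h : a⁻¹ * b = g
      · rw [ind_pos h]; simp [h]
      · rw [ind_neg h]; simp [h]
    have e2 : ind (a⁻¹ * b = g⁻¹) = if (a⁻¹ * b == g⁻¹) = true then 1 else 0 := by
      by_cases h : a⁻¹ * b = g⁻¹
      · rw [ind_pos h]; simp [h]
      · rw [ind_neg h]; simp [h]
    rw [e1, e2]; ring

/-- From the path form to the list form of a terrace. -/
theorem Ter.exists_list [DecidableEq G] (h : Ter G) :
    ∃ l : List G, l.Nodup ∧ (∀ g : G, g ∈ l) ∧
      ∀ x : G, x ≠ 1 →
        (x * x = 1 → (List.zipWith (fun a b => a⁻¹ * b) l l.tail).count x = 1) ∧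
        (x * x ≠ 1 →
          (List.zipWith (fun a b => a⁻¹ * b) l l.tail).count x +
            (List.zipWith (fun a b => a⁻¹ * b) l l.tail).count x⁻¹ = 2) := by
  obtain ⟨V, E, a, b, hp, hV, hE⟩ := h
  obtain ⟨t, h1, h2⟩ := hp.exists_list
  have hc : ∀ g, (a :: t).count g = 1 := fun g => by
    have := hV g
    rwa [C_eq_count, ← h1, Multiset.coe_count] at this
  refine ⟨a :: t, List.nodup_iff_count_le_one.2 fun g => (hc g).le,
    fun g => List.count_pos_iff.1 (by rw [hc]; omega), fun x hx => ?_⟩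
  have h3 := h2 x
  rw [hE, ind_pos hx] at h3
  refine ⟨fun hxx => ?_, fun _ => by simpa using h3.symm⟩
  have : x⁻¹ = x := inv_eq_of_mul_eq_one_right hxx
  rw [this] at h3
  simp only [List.tail_cons]; omega

end colour

end Pool.Agent.Lib.MP_0becda_co
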