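import Pool.Agent.Lib.MP_0becda_co.Strand

set_option autoImplicit false

namespace Pool.Agent.Lib.MP_0becda_co

theorem exists_singer_add (p : ℕ) [Fact p.Prime] (A : Type*) [AddCommGroup A] [Module (ZMod p) A]
    [Finite A] : ∃ ω : A ≃+ A, ∀ x y : A, x ≠ 0 → y ≠ 0 → ∃ i, (ω : A → A)^[i] x = y := by
  classical
  by_cases h0 : Module.finrank (ZMod p) A = 0
  · have : Subsingleton A := Module.finrank_zero_iff.1 h0
    exact ⟨AddEquiv.refl A, fun x y hx _ => absurd (Subsingleton.elim _ _) hx⟩
  · set n := Module.finrank (ZMod p) A with hn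
    let e : A ≃ₗ[ZMod p] GaloisField p n :=
      LinearEquiv.ofFinrankEq _ _ (by rw [GaloisField.finrank p h0])
    obtain ⟨g, hg⟩ := IsCyclic.exists_monoid_generator (α := (GaloisField p n)ˣ)
    let m : GaloisField p n ≃+ GaloisField p n := AddAut.mulLeft g
    refine ⟨(e.toAddEquiv.trans m).trans e.symm.toAddEquiv, fun x y hx hy => ?_⟩
    have hx' : e x ≠ 0 := by simpa using hx
    have hy' : e y ≠ 0 := by simpa using hy
    obtain ⟨i, hi⟩ := hg (Units.mk0 (e y) hy' * (Units.mk0 (e x) hx')⁻¹)
    refine ⟨i, ?_⟩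
    have key : ∀ j : ℕ, ((e.toAddEquiv.trans m).trans e.symm.toAddEquiv : A → A)^[j] x =
        e.symm (((g ^ j : (GaloisField p n)ˣ) : GaloisField p n) * e x) := by
      intro j
      induction j with
      | zero => simp
      | succ j ih =>
        rw [Function.iterate_succ_apply', ih]
        simp [m, pow_succ', mul_assoc, Units.smul_def]
    rw [key]
    simp only at hi
    rw [hi]
    simp [hx']

theorem exists_transvection (A : Type*) [AddCommGroup A] [Module (ZMod 2) A] {u w w0 : A}
    (hw : w ≠ 0) (hw0 : w0 ≠ 0) (huw : u ≠ w) (huw0 : u ≠ w0) :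
    ∃ T : A ≃+ A, T u = u ∧ T w0 = w := by
  have h2 : ∀ x : A, x + x = 0 := fun x => by
    have : ((1 : ZMod 2) + 1) • x = 0 := by
      rw [show (1 : ZMod 2) + 1 = 0 from rfl, zero_smul]
    rwa [add_smul, one_smul] at this
  have hcases : ∀ c : ZMod 2, c = 0 ∨ c = 1 := by decide
  have hnot : w0 ∉ Submodule.span (ZMod 2) {u, w0 + w} := by
    rw [Submodule.mem_span_pair]
    rintro ⟨a, b, hab⟩
    rcases hcases a with rfl | rfl <;> rcases hcases b with rfl | rfl
    · exact hw0 (by simpa using hab.symm)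
    · exact hw (by simpa using hab)
    · exact huw0 (by simpa using hab)
    · apply huw
      simp only [one_smul] at hab
      linear_combination (norm := abel) hab - h2 w
  obtain ⟨f, hf0, hf⟩ := Submodule.exists_le_ker_of_notMem hnot
  have hfu : f u = 0 := hf (Submodule.subset_span (by simp))
  have hfc : f (w0 + w) = 0 := hf (Submodule.subset_span (by simp))
  have hf1 : f w0 = 1 := (hcases _).resolve_left hf0
  let t : A →+ A :=
    { toFun := fun x => x + f x • (w0 + w)
      map_zero' := by simp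
      map_add' := fun x y => by rw [map_add, add_smul]; abel }
  have ht : ∀ x, t (t x) = x := fun x => by
    change x + f x • (w0 + w) + f (x + f x • (w0 + w)) • (w0 + w) = x
    rw [map_add, map_smul, hfc, smul_zero, add_zero, add_assoc, h2, add_zero]
  refine ⟨{ t with invFun := t, left_inv := ht, right_inv := ht }, ?_, ?_⟩
  · change u + f u • (w0 + w) = u
    rw [hfu, zero_smul, add_zero]
  · change w0 + f w0 • (w0 + w) = w
    rw [hf1, one_smul, ← add_assoc, h2, zero_add]

theorem exists_singer (p : ℕ) [Fact p.Prime] (M : Type*) [Group M] [Finite M]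
    (hc : ∀ x y : M, x * y = y * x) (hp : ∀ x : M, x ^ p = 1) : ∃ ω : M ≃* M, Singer ω := by
  let _ : CommGroup M := { (inferInstance : Group M) with mul_comm := hc }
  let _ : Module (ZMod p) (Additive M) := AddCommGroup.zmodModule fun x => hp x.toMul
  obtain ⟨ω, hω⟩ := exists_singer_add p (Additive M)
  exact ⟨MulEquiv.toAdditive.symm ω, fun x y hx hy => hω (Additive.ofMul x) (Additive.ofMul y) hx hy⟩

theorem Singer.conj {M : Type*} [Group M] {ω : M ≃* M} (h : Singer ω) (T : M ≃* M) :
    Singer ((T.symm.trans ω).trans T) := by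
  intro x y hx hy
  obtain ⟨i, hi⟩ := h (T.symm x) (T.symm y) (by simpa using hx) (by simpa using hy)
  refine ⟨i, ?_⟩
  have key : ∀ j : ℕ, (((T.symm.trans ω).trans T : M ≃* M) : M → M)^[j] x =
      T ((ω : M → M)^[j] (T.symm x)) := by
    intro j
    induction j with
    | zero => simp
    | succ j ih => rw [Function.iterate_succ_apply', ih, Function.iterate_succ_apply']; simp
  rw [key, hi]; simp

theorem exists_singer_two (M : Type*) [Group M] [Finite M] (h3 : 3 ≤ Nat.card M)
    (hc : ∀ x y : M, x * y = y * x) (hp : ∀ x : M, x * x = 1) {u w : M}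
    (hu : u ≠ 1) (hw : w ≠ 1) (huw : u ≠ w) : ∃ ω : M ≃* M, Singer ω ∧ ω u = w := by
  obtain ⟨ω, hω⟩ := exists_singer 2 M hc fun x => by rw [pow_two, hp]
  let _ : CommGroup M := { (inferInstance : Group M) with mul_comm := hc }
  let _ : Module (ZMod 2) (Additive M) := AddCommGroup.zmodModule fun x => by
    rw [two_nsmul]; exact hp x.toMul
  obtain ⟨T, hT1, hT2⟩ := exists_transvection (Additive M) (u := Additive.ofMul u)
    (w := Additive.ofMul w) (w0 := Additive.ofMul (ω u)) hw
    (show ω u ≠ 1 by simpa using hu) huw (fun h => hu (hω.fix h3 h.symm))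
  let T' : M ≃* M := MulEquiv.toAdditive.symm T
  have h1 : T' u = u := hT1
  have h2 : T' (ω u) = w := hT2
  refine ⟨_, hω.conj T', ?_⟩
  have h3 : T'.symm u = u := by rw [MulEquiv.symm_apply_eq, h1]
  simp [h3, h2]

end Pool.Agent.Lib.MP_0becda_co
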