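import Pool.Agent.Lib.MP_0becda_co.Crit

set_option autoImplicit false

namespace Pool.Agent.Lib.MP_0becda_co

variable {G H : Type*} [Group G] [Group H]

/-- No proper normal subgroup has odd index. -/
def Gen2 (G : Type*) [Group G] : Prop := ∀ K : Subgroup G, K.Normal → Odd K.index → K = ⊤

theorem Gen2.quot (h : Gen2 G) (N : Subgroup G) [N.Normal] : Gen2 (G ⧸ N) := fun K hK ho => by
  have := h (K.comap (QuotientGroup.mk' N)) inferInstance
    (by rwa [Subgroup.index_comap_of_surjective _ (QuotientGroup.mk'_surjective N)])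
  rw [← Subgroup.map_comap_eq_self_of_surjective (QuotientGroup.mk'_surjective N) K, this,
    Subgroup.map_top_of_surjective _ (QuotientGroup.mk'_surjective N)]

theorem odd_card_of_pow [Finite G] {p : ℕ} (hp : Odd p) (h : ∀ x : G, x ^ p = 1) :
    Odd (Nat.card G) := by
  by_contra h'
  obtain ⟨x, hx⟩ := exists_prime_orderOf_dvd_card' (G := G) 2
    (even_iff_two_dvd.1 (Nat.not_odd_iff_even.1 h'))
  have := hp.of_dvd_nat (orderOf_dvd_of_pow_eq_one (h x))
  rw [hx] at this
  exact absurd this (by decide)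

theorem sq_eq_one_of_odd_card [Finite G] (h : Odd (Nat.card G)) (x : G) (hx : x * x = 1) : x = 1 :=
  sq_eq_one_of_odd h (fun _ => pow_card_eq_one') x hx

theorem two_group_of_sq (h : ∀ x : G, x * x = 1) : IsPGroup 2 G := fun x => ⟨1, by simp [pow_two, h]⟩

theorem card_of_two_group [Finite G] (h : IsPGroup 2 G) (h4 : Nat.card G % 4 = 2) :
    Nat.card G = 2 := by
  obtain ⟨k, hk⟩ := IsPGroup.iff_card.1 h
  rcases k with _ | _ | k
  · omega
  · omega
  · rw [pow_succ, pow_succ] at hk; omega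

theorem exists_odd_elem [Finite G] [Group.IsSolvable G] (hG : Gen2 G) (h4 : Nat.card G % 4 = 2)
    (h2 : 2 < Nat.card G) : ∃ (p : ℕ) (N : Subgroup G), p.Prime ∧ Odd p ∧ N.Normal ∧ N ≠ ⊥ ∧
      (∀ x ∈ N, ∀ y ∈ N, x * y = y * x) ∧ ∀ x ∈ N, x ^ p = 1 := by
  have : Nontrivial G := Finite.one_lt_card_iff_nontrivial.1 (by omega)
  obtain ⟨p, N, hp, hN, -, hN1, hc, hNp⟩ := exists_elem_normal (⊤ : Subgroup G) top_ne_bot
  refine ⟨p, N, hp, hp.odd_of_ne_two ?_, hN, hN1, hc, hNp⟩
  rintro rfl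
  obtain ⟨-, -, -, k, hk⟩ := prime_dvd_of_elem hp hN1 hNp
  have h1 := N.card_mul_index
  have h3 : N = ⊤ := hG N hN (by
    by_contra h
    obtain ⟨j, hj⟩ := Nat.not_odd_iff_even.1 h
    rw [hk, hj, show 2 * k * (j + j) = 4 * (k * j) by ring] at h1
    omega)
  have := card_of_two_group (G := G) (two_group_of_sq fun x => by
    rw [← pow_two]; exact hNp x (h3 ▸ Subgroup.mem_top x)) h4
  omega

theorem card_quot_mod {a b c : ℕ} (h : c = a * b) (hb : Odd b) :
    (c % 4 = 2 → a % 4 = 2) ∧ (c % 4 = 0 → a % 4 = 0) := by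
  rw [Nat.odd_iff] at hb
  rw [h, Nat.mul_mod]
  rcases (by omega : b % 4 = 1 ∨ b % 4 = 3) with h1 | h1 <;>
    rcases (by omega : a % 4 = 0 ∨ a % 4 = 1 ∨ a % 4 = 2 ∨ a % 4 = 3) with h2 | h2 | h2 | h2 <;>
    simp [h1, h2]

theorem tt_gen (n : ℕ) : ∀ (G : Type*) [Group G] [Finite G] [Group.IsSolvable G], Nat.card G = n →
    Gen2 G → n % 4 = 2 → 2 < n → TT G := by
  induction n using Nat.strong_induction_on with
  | _ n ih =>
    intro G _ _ _ hn hG h4 h2
    subst hn
    have step : ∀ (p : ℕ) (N : Subgroup G) [N.Normal], p.Prime → Odd p → N ≠ ⊥ →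
        (∀ x ∈ N, ∀ y ∈ N, x * y = y * x) → (∀ x ∈ N, x ^ p = 1) →
        Nat.card (G ⧸ N) = 2 ∨ TT G := by
      intro p N _ hp hodd hN1 hc hNp
      have := Fact.mk hp
      have h5 := (card_quot_mod (Subgroup.card_eq_card_quotient_mul_card_subgroup N)
        (odd_card_of_pow hodd fun x => Subtype.ext (hNp x x.2))).1 h4
      refine or_iff_not_imp_left.2 fun h => ?_
      exact TT.ext_odd _ (QuotientGroup.mk'_surjective N) hodd (ker_comm N hc) (ker_pow N hNp)
        (st_elem p hodd _ _ rfl (ker_comm N hc) (ker_pow N hNp))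
        (ih _ (card_quot_lt N hN1) _ rfl (hG.quot N) h5 (by omega))
    obtain ⟨p, E, hp, hodd, hE, hE1, hc, hEp⟩ := exists_odd_elem hG h4 h2
    refine (step p E hp hodd hE1 hc hEp).elim (fun hi => ?_) id
    have hi' : E.index = 2 := hi
    have hEo : Odd (Nat.card E) := odd_card_of_pow hodd fun x => Subtype.ext (hEp x x.2)
    obtain ⟨t, ht⟩ := exists_prime_orderOf_dvd_card' (G := G) 2 (by omega)
    have ht2 : t * t = 1 := by rw [← pow_two, ← ht, pow_orderOf_eq_one]
    have ht1 : t ≠ 1 := fun h => by rw [h, orderOf_one] at ht; omega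
    have hti : t⁻¹ = t := inv_eq_of_mul_eq_one_right ht2
    have htE : t ∉ E := fun h => ht1 (congrArg Subtype.val
      (sq_eq_one_of_odd_card hEo ⟨t, h⟩ (Subtype.ext ht2)))
    have hcov : ∀ g, g ∉ E → t * g ∈ E := fun g hg =>
      (Subgroup.mul_mem_iff_of_index_two hi').2 (by simp [hg, htE])
    have hdec : ∀ g, g ∈ E ∨ ∃ e ∈ E, g = t * e := fun g =>
      or_iff_not_imp_left.2 fun hg => ⟨_, hcov g hg, by rw [← mul_assoc, ht2, one_mul]⟩
    obtain ⟨x, hx, hxt⟩ : ∃ x ∈ E, x * t ≠ t * x := by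
      by_contra hcon
      have h6 : ∀ g, g * t = t * g := fun g => by
        rcases hdec g with h | ⟨e, he, rfl⟩
        · by_contra h'; exact hcon ⟨g, h, h'⟩
        · rw [mul_assoc, mul_right_inj]; by_contra h'; exact hcon ⟨e, he, h'⟩
      have h7 := (Subgroup.zpowers t).card_mul_index
      rw [Nat.card_zpowers, ht] at h7
      have h8 := hG (Subgroup.zpowers t) ⟨fun n hn g => by
        rcases (mem_zpowers_inv ht2 n).1 hn with rfl | rfl <;> simp [h6]⟩
        (by rw [Nat.odd_iff]; omega)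
      rw [h8, Subgroup.index_top] at h7
      omega
    have hy : x⁻¹ * (t * x * t⁻¹) ∈ E := E.mul_mem (E.inv_mem hx) (hE.conj_mem x hx t)
    have hy1 : x⁻¹ * (t * x * t⁻¹) ≠ 1 := fun h => hxt (by
      rw [inv_mul_eq_one, eq_mul_inv_iff_mul_eq] at h; exact h)
    have hyt : t * (x⁻¹ * (t * x * t⁻¹)) * t⁻¹ = (x⁻¹ * (t * x * t⁻¹))⁻¹ := by
      calc _ = (t * x * t⁻¹)⁻¹ * ((t * t) * x * (t * t)⁻¹) := by group
        _ = _ := by rw [ht2]; group
    generalize x⁻¹ * (t * x * t⁻¹) = y at hy hy1 hyt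
    have hM : ∀ m ∈ Subgroup.zpowers y, t * m * t⁻¹ = m⁻¹ := by
      rintro _ ⟨k, rfl⟩
      simp only
      rw [← conj_zpow, hyt, inv_zpow]
    have hME : Subgroup.zpowers y ≤ E := (Subgroup.zpowers_le).2 hy
    have hMn : (Subgroup.zpowers y).Normal := ⟨fun m hm g => by
      rcases hdec g with h | ⟨e, he, rfl⟩
      · rwa [hc g h m (hME hm), mul_inv_cancel_right]
      · rw [show t * e * m * (t * e)⁻¹ = t * (e * m * e⁻¹) * t⁻¹ by group, hc e he m (hME hm),
          mul_inv_cancel_right, hM m hm]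
        exact inv_mem hm⟩
    refine (step p _ hp hodd (by simpa using hy1) (fun a ha b hb => hc a (hME ha) b (hME hb))
      fun a ha => hEp a (hME ha)).elim (fun hj => ?_) id
    have e1 := Subgroup.card_eq_card_quotient_mul_card_subgroup E
    have e2 := Subgroup.card_eq_card_quotient_mul_card_subgroup (Subgroup.zpowers y)
    rw [hi] at e1
    rw [hj] at e2
    have e3 := Subgroup.eq_of_le_of_card_ge hME (by omega)
    exact tt_dihedral E t ht2 htE (fun n hn => by rw [← hM n (e3 ▸ hn)]; group) hcov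
      (sq_eq_one_of_odd_card hEo) (fun a b => Subtype.ext (hc a a.2 b b.2))
      (rc_odd _ E rfl hEo (by omega))

theorem rc_gen (n : ℕ) : ∀ (G : Type*) [Group G] [Finite G] [Group.IsSolvable G], Nat.card G = n →
    Gen2 G → n % 4 = 0 → (¬ ∀ g : G, g * g = 1) → RC G := by
  induction n using Nat.strong_induction_on with
  | _ n ih =>
    intro G _ _ _ hn hG h4 hne
    subst hn
    by_cases h2 : IsPGroup 2 G
    · exact rc_two_group _ G rfl h2 hne
    by_cases hodd : ∀ K : Subgroup G, K.Normal → Odd (Nat.card K) → K = ⊥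
    swap
    · obtain ⟨K, hK, hKo, hK1⟩ : ∃ K : Subgroup G, K.Normal ∧ Odd (Nat.card K) ∧ K ≠ ⊥ := by
        by_contra h
        exact hodd fun K h1 h2 => by_contra fun h3 => h ⟨K, h1, h2, h3⟩
      obtain ⟨p, N, hp, hN, hNK, hN1, hc, hNp⟩ := exists_elem_normal K hK1
      have := Fact.mk hp
      obtain ⟨-, -, -, hpd⟩ := prime_dvd_of_elem hp hN1 hNp
      have hNo : Odd (Nat.card N) := hKo.of_dvd_nat (Subgroup.card_dvd_of_le hNK)
      have hpo : Odd p := hNo.of_dvd_nat hpd
      have h5 := (card_quot_mod (Subgroup.card_eq_card_quotient_mul_card_subgroup N) hNo).2 h4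
      have h6 : 0 < Nat.card (G ⧸ N) := Nat.card_pos
      by_cases hq : ∀ g : G ⧸ N, g * g = 1
      · obtain ⟨X, hX, hXX⟩ := exists_outside _ (QuotientGroup.mk'_surjective N) (by omega) hq hne
        have h7 := (Subgroup.one_lt_card_iff_ne_bot N).2 hN1
        rw [Nat.odd_iff] at hNo
        exact RC.of_elem _ (QuotientGroup.mk'_surjective N) p (by rw [card_ker_mk']; omega)
          (ker_comm N hc) (ker_pow N hNp) (by omega) hq X hX hXX
      · exact RC.ext_odd _ (QuotientGroup.mk'_surjective N) (ker_comm N hc)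
          (sq_eq_one_of_odd hpo (ker_pow N hNp))
          (st_elem p hpo _ _ rfl (ker_comm N hc) (ker_pow N hNp))
          (ih _ (card_quot_lt N hN1) _ rfl (hG.quot N) h5 hq)
    have hcomap : ∀ (N : Subgroup G) [N.Normal], IsPGroup 2 N → ∀ J : Subgroup (G ⧸ N),
        IsPGroup 2 J → IsPGroup 2 (J.comap (QuotientGroup.mk' N)) := fun N _ hN J hJ =>
      hJ.comap_of_ker_isPGroup _ (by rwa [QuotientGroup.ker_mk'])
    have quot : ∀ (N : Subgroup G) [N.Normal], IsPGroup 2 N → N ≠ ⊥ →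
        (Nat.card (G ⧸ N) % 4 = 0 ∧ 4 < Nat.card (G ⧸ N) ∧ RC (G ⧸ N)) ∨
        (Nat.card (G ⧸ N) % 4 = 2 ∧ 2 < Nat.card (G ⧸ N) ∧ TT (G ⧸ N)) := by
      intro N _ hN hN1
      have h5 : ¬ IsPGroup 2 (G ⧸ N) := fun h => h2 (by
        have := hcomap N hN ⊤ (h.to_subgroup ⊤)
        rw [Subgroup.comap_top] at this
        exact this.of_equiv Subgroup.topEquiv)
      have h6 : ¬ Odd (Nat.card (G ⧸ N)) := fun h => h2 (by
        rw [hG N inferInstance h] at hN
        exact hN.of_equiv Subgroup.topEquiv)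
      have h7 : Nat.card (G ⧸ N) ≠ 2 := fun h => h5 (IsPGroup.of_card (n := 1) h)
      have h8 : Nat.card (G ⧸ N) ≠ 4 := fun h => h5 (IsPGroup.of_card (n := 2) h)
      have h9 : 0 < Nat.card (G ⧸ N) := Nat.card_pos
      rw [Nat.odd_iff] at h6
      by_cases h : Nat.card (G ⧸ N) % 4 = 0
      · exact Or.inl ⟨h, by omega, ih _ (card_quot_lt N hN1) _ rfl (hG.quot N) h
          fun h' => h5 (two_group_of_sq h')⟩
      · exact Or.inr ⟨by omega, by omega, tt_gen _ _ rfl (hG.quot N) (by omega) (by omega)⟩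
    have hzp : ∀ {Q : Type _} [Group Q] {t : Q}, t * t = 1 → IsPGroup 2 (Subgroup.zpowers t) :=
      fun {Q} _ {t} ht => two_group_of_sq fun x => Subtype.ext (by
        rcases (mem_zpowers_inv ht _).1 x.2 with h | h <;> simp [h, ht])
    have hzc : ∀ {Q : Type _} [Group Q] {t : Q}, t * t = 1 → t ≠ 1 →
        Nat.card (Subgroup.zpowers t) = 2 := fun {Q} _ {t} ht ht1 => by
      rw [Nat.card_zpowers, orderOf_eq_prime (by rw [pow_two, ht]) ht1]
    by_cases hE : ∀ K : Subgroup G, K.Normal → (∀ x ∈ K, x * x = 1) → Nat.card K ≤ 2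
    swap
    · obtain ⟨N, hN, hp, h3⟩ : ∃ K : Subgroup G, K.Normal ∧ (∀ x ∈ K, x * x = 1) ∧
          3 ≤ Nat.card K := by
        by_contra h
        exact hE fun K h1 h2 => by_contra fun h3 => h ⟨K, h1, h2, by omega⟩
      have hp' : ∀ x : (QuotientGroup.mk' N).ker, x * x = 1 := fun x =>
        Subtype.ext (hp x (mem_ker_mk' N x))
      have hN2 : IsPGroup 2 N := two_group_of_sq fun x => Subtype.ext (hp x x.2)
      rcases quot N hN2 ((Subgroup.one_lt_card_iff_ne_bot N).1 (by omega)) with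
        ⟨-, -, h⟩ | ⟨h5, h6, h⟩
      · exact RC.ext_two _ (QuotientGroup.mk'_surjective N) (by rwa [card_ker_mk'])
          (comm_of_sq hp') hp' h
      obtain ⟨t, ht, ht1, h⟩ := h.rt
      refine RT.ext_two _ (QuotientGroup.mk'_surjective N) (by rwa [card_ker_mk']) hp' h
        (rc_two_group _ _ rfl (hcomap N hN2 _ (hzp ht)) fun hel => ?_)
      have h7 : (Subgroup.zpowers t).comap (QuotientGroup.mk' N) ≤ Subgroup.centralizer N :=
        fun g hg n hn => congrArg Subtype.val (comm_of_sq hel ⟨n, by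
          rw [Subgroup.mem_comap, show QuotientGroup.mk' N n = 1 from
            (QuotientGroup.eq_one_iff n).2 hn]; exact one_mem _⟩ ⟨g, hg⟩)
      have h8 := (Subgroup.zpowers t).card_mul_index
      rw [hzc ht ht1] at h8
      have h9 := hG _ inferInstance (Odd.of_dvd_nat (by
        rw [Subgroup.index_comap_of_surjective _ (QuotientGroup.mk'_surjective N), Nat.odd_iff]
        omega) (Subgroup.index_dvd_of_le h7))
      obtain ⟨p, E, -, hpo, hEn, hE1, hc, hEp⟩ := exists_odd_elem (hG.quot N) h5 h6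
      obtain ⟨x, n, -, hn, hxn⟩ := odd_act _ (QuotientGroup.mk'_surjective N)
        (two_group_of_sq hp') hE1 hpo hc hEp hodd
      rw [QuotientGroup.ker_mk'] at hn
      exact hxn ((h9 ▸ Subgroup.mem_top x : x ∈ Subgroup.centralizer (N : Set G)) n hn).symm
    obtain ⟨P, ⟨hP, hP2⟩, hmax⟩ := Set.exists_max_image
      {D : Subgroup G | D.Normal ∧ IsPGroup 2 D} (fun D => Nat.card D)
      (Set.toFinite _) ⟨⊥, inferInstance, IsPGroup.of_bot⟩
    have hPC : ¬ P ≤ oddC G := by
      have hT : (⊤ : Subgroup (G ⧸ P)) ≠ ⊥ := fun h => h2 (by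
        have := hcomap P hP2 ⊤ (h ▸ IsPGroup.of_bot)
        rw [Subgroup.comap_top] at this
        exact this.of_equiv Subgroup.topEquiv)
      obtain ⟨p, E, hp, hEn, -, hE1, hc, hEp⟩ := exists_elem_normal _ hT
      have hp2 : p ≠ 2 := by
        rintro rfl
        have h5 := hmax _ ⟨inferInstance, hcomap P hP2 E
          (two_group_of_sq fun x => Subtype.ext (by simpa [pow_two] using hEp x x.2))⟩
        have h6 := Subgroup.eq_of_le_of_card_ge (QuotientGroup.le_comap_mk' P E) h5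
        apply hE1
        rw [← Subgroup.map_comap_eq_self_of_surjective (QuotientGroup.mk'_surjective P) E, ← h6,
          QuotientGroup.map_mk'_self]
      obtain ⟨x, n, hx, hn, hxn⟩ := odd_act _ (QuotientGroup.mk'_surjective P)
        (by rwa [QuotientGroup.ker_mk']) hE1 (hp.odd_of_ne_two hp2) hc hEp hodd
      rw [QuotientGroup.ker_mk'] at hn
      exact fun h => hxn (mem_oddC.1 (h hn) x hx)
    obtain ⟨N, hN, z, hN2, hzN, hz1, hz2, hz, ⟨n0, hn0, hn1⟩, hkit⟩ := exists_kit hE hP hP2 hPC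
    classical
    have := Fintype.ofFinite (QuotientGroup.mk' N).ker
    have fin : ∀ (J : Subgroup (G ⧸ N)) (m : ℕ), IsPGroup 2 J → RT _ J →
        Nat.card (G ⧸ N) = Nat.card J + (m + 3) → 1 ≤ m → (m = 1 → Nat.card (G ⧸ N) = 6) →
        RC G := fun J m hJ h hm h1 h6 =>
      RT.ext_kit _ (QuotientGroup.mk'_surjective N) ⟨z, (QuotientGroup.ker_mk' N).ge hzN⟩
        (fun h => hz1 (congrArg Subtype.val h)) (Subtype.ext hz2) hz hm
        (hkit _ _ m (QuotientGroup.ker_mk' N) rfl h1 h6) h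
        (rc_two_group _ _ rfl (hcomap N hN2 J hJ) fun hel => hn1 (congrArg Subtype.val
          (hel ⟨n0, QuotientGroup.le_comap_mk' N J hn0⟩)))
    rcases quot N hN2 (fun h => hz1 (by rwa [h, Subgroup.mem_bot] at hzN)) with
      ⟨h5, h6, h⟩ | ⟨h5, h6, h⟩
    · exact fin ⊥ (Nat.card (G ⧸ N) - 4) IsPGroup.of_bot h.rt (by rw [Subgroup.card_bot]; omega)
        (by omega) (by omega)
    · obtain ⟨t, ht, ht1, h⟩ := h.rt
      exact fin _ (Nat.card (G ⧸ N) - 5) (hzp ht) h (by rw [hzc ht ht1]; omega) (by omega)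
        (by omega)

theorem ter_solvable (n : ℕ) : ∀ (G : Type*) [Group G] [Finite G] [Group.IsSolvable G],
    Nat.card G = n → ¬ ((∀ g : G, g * g = 1) ∧ 4 ≤ Nat.card G) → Ter G := by
  induction n using Nat.strong_induction_on with
  | _ n ih =>
    intro G _ _ _ hn hne
    subst hn
    have h0 : 0 < Nat.card G := Nat.card_pos
    by_cases hG : Gen2 G
    · by_cases h1 : Nat.card G ≤ 2
      · exact ter_tiny h1
      have h2 : ¬ Odd (Nat.card G) := fun h => h1 (by
        have := hG ⊥ inferInstance (by rwa [Subgroup.index_bot])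
        rw [← Subgroup.card_top, ← this, Subgroup.card_bot]; omega)
      rw [Nat.odd_iff] at h2
      by_cases h4 : Nat.card G % 4 = 0
      · exact (rc_gen _ G rfl hG h4 fun h => hne ⟨h, by omega⟩).ter
      · exact (tt_gen _ G rfl hG (by omega) (by omega)).ter
    obtain ⟨K, hK, ho, hK1⟩ : ∃ K : Subgroup G, K.Normal ∧ Odd K.index ∧ K ≠ ⊤ := by
      by_contra h
      exact hG fun K h1 h2 => by_contra fun h3 => h ⟨K, h1, h2, h3⟩
    have ho' : Odd (Nat.card (G ⧸ K)) := ho
    have h1 : 1 < Nat.card (G ⧸ K) := Subgroup.one_lt_index_of_ne_top hK1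
    by_cases hel : (∀ g : (QuotientGroup.mk' K).ker, g * g = 1) ∧
        4 ≤ Nat.card (QuotientGroup.mk' K).ker
    · exact (RC.ext_two _ (QuotientGroup.mk'_surjective K) (by omega) (comm_of_sq hel.1) hel.1
        (rc_odd _ _ rfl ho' h1)).ter
    · refine Ter.ext_index _ (QuotientGroup.mk'_surjective K) (sq_eq_one_of_odd_card ho')
        (st_odd _ _ rfl ho') (ih _ ?_ _ rfl hel)
      rw [card_ker_mk', Subgroup.card_eq_card_quotient_mul_card_subgroup K]
      have : 0 < Nat.card K := Nat.card_pos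
      nlinarith

end Pool.Agent.Lib.MP_0becda_co
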