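import Pool.Agent.Lib.MP_0becda_co.Explicit

set_option autoImplicit false

namespace Pool.Agent.Lib.MP_0becda_co

variable {G : Type*} [Group G]

theorem sum_two_fam [Finite G] {a : G} {k : ℕ} (ha : orderOf a = 2 * k + 1)
    (hn : Nat.card G = 2 * k + 1) (u w : ℕ → ℕ)
    (hu : ∀ j, j < k → 0 < u j ∧ u j < 2 * k + 1) (hw : ∀ j, j < k → 0 < w j ∧ w j < 2 * k + 1)
    (huu : ∀ i j, i < k → j < k → u i = u j → i = j)
    (hww : ∀ i j, i < k → j < k → w i = w j → i = j)
    (huw : ∀ i j, i < k → j < k → u i ≠ w j) (g : G) :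
    ∑ j ∈ Finset.range k, ind (a ^ u j = g) + ∑ j ∈ Finset.range k, ind (a ^ w j = g) =
      ind (g ≠ 1) := by
  let f : ℕ → ℕ := fun j => if j < k then u j else w (j - k)
  have hf : ∀ j, j < k + k → 0 < f j ∧ f j < 2 * k + 1 := fun j hj => by
    simp only [f]; split_ifs with h
    · exact hu j h
    · exact hw _ (by omega)
  have := sum_ind_inj (fun j => a ^ f j) (k + k) (by omega) (fun i j hi hj h => by
    have h1 := pow_inj ha (hf i hi).2 (hf j hj).2 h
    simp only [f] at h1
    split_ifs at h1 with h2 h3 h3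
    · exact huu i j h2 h3 h1
    · exact absurd h1 (huw _ _ h2 (by omega))
    · exact absurd h1.symm (huw _ _ h3 (by omega))
    · have := hww _ _ (by omega) (by omega) h1; omega) (fun j hj h => by
      have := pow_inj ha (hf j hj).2 (by omega) (h.trans (pow_zero a).symm)
      have := (hf j hj).1
      omega) g
  rw [Finset.sum_range_add] at this
  rw [← this]
  congr 1
  · exact Finset.sum_congr rfl fun j hj => by simp only [f, if_pos (Finset.mem_range.1 hj)]
  · exact Finset.sum_congr rfl fun j _ => by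
      simp only [f, if_neg (show ¬ k + j < k by omega), Nat.add_sub_cancel_left]

theorem wt_pow {a : G} {n : ℕ} (ha : orderOf a = n) {i j c c' : ℕ} (h : i + c = j)
    (h' : c + c' = n) (g : G) : wt s(a ^ i, a ^ j) g = ind (a ^ c = g) + ind (a ^ c' = g) := by
  rw [wt_mk, pow_col ha (Or.inl h)]
  congr 1
  have : (a ^ c)⁻¹ = a ^ c' := by
    rw [inv_eq_iff_mul_eq_one, ← pow_add, h', ← ha, pow_orderOf_eq_one]
  exact ind_congr (by rw [← this, inv_eq_iff_eq_inv])

theorem lww {a : G} (n m : ℕ) :
    AltPath ({1} + ∑ j ∈ Finset.range m, (({a ^ (n - j - 1)} : Multiset G) + {a ^ (j + 1)}))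
      (∑ j ∈ Finset.range m, ({s(a ^ j, a ^ (n - j - 1))} : Multiset (Sym2 G)))
      (∑ j ∈ Finset.range m, ({s(a ^ (j + 1), a ^ (n - j - 1))} : Multiset (Sym2 G)))
      1 (a ^ m) := by
  induction m with
  | zero => simpa using AltPath.nil (1 : G)
  | succ m ih =>
    refine (ih.glue (AltPath.nil (a ^ (n - m - 1))) (AltPath.nil (a ^ (m + 1)))).congr ?_ ?_ ?_
    · rw [Finset.sum_range_succ, add_assoc]
    · rw [Finset.sum_range_succ]; simp
    · rw [Finset.sum_range_succ, Sym2.eq_swap (a := a ^ (m + 1))]; simp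

theorem st_cyclic [Finite G] {a : G} {k : ℕ} (ha : orderOf a = 2 * k + 1)
    (hn : Nat.card G = 2 * k + 1) : ST G := by
  refine ⟨_, _, _, _, _, lww (a := a) (2 * k + 1) k, fun g => ?_, fun g => ?_, fun g => ?_⟩
  · simp only [C_add, C_sum, C_singleton, Finset.sum_add_distrib]
    rw [sum_two_fam ha hn (fun j => 2 * k + 1 - j - 1) (fun j => j + 1) (by intros; omega)
      (by intros; omega) (by intros; omega) (by intros; omega) (by intros; omega), ind_eq_add_ne]
  · rw [W_sum, ← sum_two_fam ha hn (fun j => 2 * k - 2 * j) (fun j => 2 * j + 1) (by intros; omega)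
      (by intros; omega) (by intros; omega) (by intros; omega) (by intros; omega) g,
      ← Finset.sum_add_distrib]
    refine Finset.sum_congr rfl fun j hj => ?_
    have := Finset.mem_range.1 hj
    rw [← Multiset.cons_zero, W_cons, W_zero, add_zero]
    exact wt_pow ha (by omega) (by omega) g
  · rw [W_sum, ← sum_two_fam ha hn (fun j => 2 * k - 2 * j - 1) (fun j => 2 * j + 2)
      (by intros; omega) (by intros; omega) (by intros; omega) (by intros; omega)
      (by intros; omega) g, ← Finset.sum_add_distrib]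
    refine Finset.sum_congr rfl fun j hj => ?_
    have := Finset.mem_range.1 hj
    rw [← Multiset.cons_zero, W_cons, W_zero, add_zero]
    exact wt_pow ha (by omega) (by omega) g

theorem st_trivial [Subsingleton G] : ST G :=
  ⟨_, _, _, _, _, AltPath.nil 1, fun g => by simp [ind_pos (Subsingleton.elim 1 g)],
    fun g => by simp [ind_neg (not_not.2 (Subsingleton.elim g 1))],
    fun g => by simp [ind_neg (not_not.2 (Subsingleton.elim g 1))]⟩

theorem card_ker_mk' (N : Subgroup G) [N.Normal] :
    Nat.card (QuotientGroup.mk' N).ker = Nat.card N := by rw [QuotientGroup.ker_mk']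

theorem mem_ker_mk' (N : Subgroup G) [N.Normal] (x : (QuotientGroup.mk' N).ker) : (x : G) ∈ N :=
  (QuotientGroup.ker_mk' N).le x.2

theorem card_quot_lt [Finite G] (N : Subgroup G) (h : N ≠ ⊥) : Nat.card (G ⧸ N) < Nat.card G := by
  rw [Subgroup.card_eq_card_quotient_mul_card_subgroup N]
  have h1 : 1 < Nat.card N := (Subgroup.one_lt_card_iff_ne_bot N).2 h
  have h2 : 0 < Nat.card (G ⧸ N) := Nat.card_pos
  nlinarith

theorem sq_eq_one_of_odd {N : Type*} [Group N] {p : ℕ} (hodd : Odd p) (hp : ∀ x : N, x ^ p = 1)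
    (x : N) (hx : x * x = 1) : x = 1 := by
  obtain ⟨k, rfl⟩ := hodd
  have := hp x
  rwa [pow_succ, pow_mul, pow_two, hx, one_pow, one_mul] at this

/-- Elementary abelian groups of odd order have starter-translate terraces. -/
theorem st_elem (p : ℕ) [hp : Fact p.Prime] (hodd : Odd p) (n : ℕ) :
    ∀ (M : Type*) [Group M] [Finite M], Nat.card M = n → (∀ x y : M, x * y = y * x) →
      (∀ x : M, x ^ p = 1) → ST M := by
  induction n using Nat.strong_induction_on with
  | _ n ih =>
    intro M _ _ hn hc hp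
    by_cases h1 : ∀ x : M, x = 1
    · have : Subsingleton M := ⟨fun x y => by rw [h1 x, h1 y]⟩
      exact st_trivial
    obtain ⟨x, hx⟩ := not_forall.1 h1
    have hN : (Subgroup.zpowers x).Normal := ⟨fun y hy g => by rwa [hc g, mul_inv_cancel_right]⟩
    have hox : orderOf x = p := orderOf_eq_prime (hp x) hx
    obtain ⟨k, hk⟩ := hodd
    let π := QuotientGroup.mk' (Subgroup.zpowers x)
    refine ST.ext_odd π (QuotientGroup.mk'_surjective _) (fun y z => Subtype.ext (hc y z))
      (sq_eq_one_of_odd ⟨k, hk⟩ fun y => Subtype.ext (hp y)) ?_ ?_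
    · refine st_cyclic (a := ⟨x, by simp [π]⟩) (k := k) ?_ ?_
      · rw [← Subgroup.orderOf_coe, ← hk]; exact hox
      · rw [card_ker_mk', Nat.card_zpowers, hox, hk]
    · refine ih _ (hn ▸ card_quot_lt _ (by simpa using hx)) _ rfl ?_ ?_
      · intro y z
        obtain ⟨y, rfl⟩ := QuotientGroup.mk'_surjective _ y
        obtain ⟨z, rfl⟩ := QuotientGroup.mk'_surjective _ z
        rw [← map_mul, hc, map_mul]
      · intro y
        obtain ⟨y, rfl⟩ := QuotientGroup.mk'_surjective _ y
        rw [← map_pow, hp, map_one]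

end Pool.Agent.Lib.MP_0becda_co
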