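import Pool.Agent.Lib.MP_0becda_co.Path

set_option autoImplicit false

namespace Pool.Agent.Lib.MP_0becda_co

/-- Orthomorphisms. -/
def Ortho {N : Type*} [Group N] (θ : N → N) : Prop :=
  Function.Bijective θ ∧ Function.Bijective fun n => n⁻¹ * θ n

/-- Products of exactly `l` orthomorphisms. -/
inductive OProd {N : Type*} [Group N] : ℕ → (N → N) → Prop
  | zero : OProd 0 id
  | succ (l : ℕ) (Θ θ : N → N) : OProd l Θ → Ortho θ → OProd (l + 1) (Θ ∘ θ)

theorem OProd.bijective {N : Type*} [Group N] {l : ℕ} {Θ : N → N} (h : OProd l Θ) :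
    Function.Bijective Θ := by
  induction h with
  | zero => exact Function.bijective_id
  | succ l Θ θ _ h ih => exact ih.comp h.1

theorem OProd.add_two {N : Type*} [Group N] {l : ℕ} {Θ θ θ' : N → N} (h : OProd l Θ)
    (h1 : Ortho θ) (h2 : Ortho θ') (h3 : ∀ n, θ (θ' n) = n) (k : ℕ) : OProd (l + 2 * k) Θ := by
  induction k with
  | zero => exact h
  | succ k ih =>
    have := OProd.succ _ _ _ (OProd.succ _ _ _ ih h1) h2
    have e : (Θ ∘ θ) ∘ θ' = Θ := by funext n; simp [h3]
    rw [e] at this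
    exact this

theorem OProd.one {N : Type*} [Group N] {θ : N → N} (h : Ortho θ) : OProd 1 θ :=
  OProd.succ 0 id θ OProd.zero h

theorem sum_ind_eq {X : Type*} [Fintype X] (x : X) : ∑ y, ind (y = x) = 1 := by
  classical
  rw [Finset.sum_eq_single x (fun y _ hy => ind_neg hy) (by simp), ind_pos rfl]

variable {G H : Type*} [Group G] [Group H]

theorem sum_ind_ker (π : G →* H) [Fintype π.ker] (g : G) :
    ∑ m : π.ker, ind ((m : G) = g) = ind (π g = 1) := by
  by_cases h : π g = 1
  · rw [ind_pos h, ← sum_ind_eq (⟨g, h⟩ : π.ker)]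
    exact Finset.sum_congr rfl fun m _ => ind_congr ⟨fun h => Subtype.ext h, fun h => by rw [h]⟩
  · rw [ind_neg h]
    exact Finset.sum_eq_zero fun m _ => ind_neg fun h' => h (h' ▸ m.2)

theorem fib_C (π : G →* H) [Fintype π.ker] {θ : π.ker → π.ker} (hθ : Function.Bijective θ)
    (b g : G) : ∑ n : π.ker, ind ((θ n : G) * b = g) = ind (π b = π g) := by
  rw [hθ.sum_comp (fun m : π.ker => ind ((m : G) * b = g))]
  have : ind (π b = π g) = ind (π (g * b⁻¹) = 1) :=
    ind_congr (by rw [map_mul, map_inv, mul_inv_eq_one, eq_comm])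
  rw [this, ← sum_ind_ker]
  exact Finset.sum_congr rfl fun m _ => ind_congr (by rw [eq_mul_inv_iff_mul_eq])

theorem match_aux (π : G →* H) [Fintype π.ker] {θ : π.ker → π.ker} (hθ : Ortho θ)
    (a b g : G) : ∑ n : π.ker, ind (((n : G) * a)⁻¹ * ((θ n : G) * b) = g) =
      ind ((π a)⁻¹ * π b = π g) := by
  have h1 : ∀ n : π.ker, ind (((n : G) * a)⁻¹ * ((θ n : G) * b) = g) =
      ind (((n⁻¹ * θ n : π.ker) : G) * b = a * g) := fun n => ind_congr (by
    rw [mul_inv_rev, mul_assoc, inv_mul_eq_iff_eq_mul]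
    simp [mul_assoc])
  rw [Finset.sum_congr rfl fun n _ => h1 n, fib_C π hθ.2]
  exact ind_congr (by rw [map_mul, inv_mul_eq_iff_eq_mul])

theorem match_W (π : G →* H) [Fintype π.ker] {θ : π.ker → π.ker} (hθ : Ortho θ)
    (a b g : G) : ∑ n : π.ker, wt s((n : G) * a, (θ n : G) * b) g = wt s(π a, π b) (π g) := by
  simp only [wt_mk]
  rw [Finset.sum_add_distrib, match_aux π hθ, match_aux π hθ, map_inv]

/-- Lifting a path of the quotient to a family of strands. -/
theorem strands (π : G →* H) (hπ : Function.Surjective π) [Fintype π.ker]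
    {V : Multiset H} {E : Multiset (Sym2 H)} {a' b' : H} (hp : Path V E a' b') :
    ∀ (Θ : π.ker → π.ker) (a b : G), OProd (Multiset.card E) Θ → π a = a' → π b = b' →
      (Multiset.card E = 0 → a = b) →
      ∃ (Vn : π.ker → Multiset G) (En : π.ker → Multiset (Sym2 G)),
        (∀ n : π.ker, Path (Vn n) (En n) ((n : G) * a) ((Θ n : G) * b)) ∧
        (∀ g, ∑ n, C (Vn n) g = C V (π g)) ∧ (∀ g, ∑ n, W (En n) g = W E (π g)) := by
  induction hp with
  | single a' =>
    intro Θ a b hΘ ha hb h0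
    have hab := h0 rfl
    subst hab
    have : Θ = id := by
      generalize hl : Multiset.card (0 : Multiset (Sym2 H)) = l at hΘ
      cases hΘ with
      | zero => rfl
      | succ l Θ θ _ _ => simp at hl
    subst this
    refine ⟨fun n => {(n : G) * a}, fun _ => 0, fun n => Path.single _, fun g => ?_, fun g => ?_⟩
    · simp only [C_singleton]
      rw [← ha]; exact fib_C π Function.bijective_id a g
    · simp
  | cons a' c' b' V E hp ih =>
    intro Θ a b hΘ ha hb _
    obtain ⟨Θ', θ, h1, h2, rfl⟩ : ∃ Θ' θ, OProd (Multiset.card E) Θ' ∧ Ortho θ ∧ Θ = Θ' ∘ θ := by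
      generalize hl : Multiset.card (s(a', c') ::ₘ E) = l at hΘ
      cases hΘ with
      | zero => simp at hl
      | succ l Θ θ h1 h2 =>
        have : Multiset.card E = l := by simpa using hl
        exact ⟨Θ, θ, this ▸ h1, h2, rfl⟩
    obtain ⟨c, hc, hc0⟩ : ∃ c, π c = c' ∧ (Multiset.card E = 0 → c = b) := by
      by_cases h0 : Multiset.card E = 0
      · exact ⟨b, by rw [hb, hp.eq_of_zero h0], fun _ => rfl⟩
      · obtain ⟨c, hc⟩ := hπ c'
        exact ⟨c, hc, fun h => absurd h h0⟩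
    obtain ⟨Vn, En, hP, hV, hE⟩ := ih Θ' c b h1 hc hb hc0
    refine ⟨fun n => ((n : G) * a) ::ₘ Vn (θ n),
      fun n => s((n : G) * a, (θ n : G) * c) ::ₘ En (θ n),
      fun n => Path.cons _ _ _ _ _ (hP (θ n)), fun g => ?_, fun g => ?_⟩
    · simp only [C_cons]
      rw [Finset.sum_add_distrib, h2.1.sum_comp (fun m => C (Vn m) g), hV, ← ha]
      congr 1
      exact fib_C π Function.bijective_id a g
    · simp only [W_cons]
      rw [Finset.sum_add_distrib, h2.1.sum_comp (fun m => W (En m) g), hE, match_W π h2, ha, hc]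

/-- An automorphism acting transitively on the non-identity elements. -/
def Singer {N : Type*} [Group N] (ω : N ≃* N) : Prop :=
  ∀ x y : N, x ≠ 1 → y ≠ 1 → ∃ i, (ω : N → N)^[i] x = y

theorem Singer.fix {N : Type*} [Group N] [Finite N] {ω : N ≃* N} (h : Singer ω)
    (h3 : 3 ≤ Nat.card N) {x : N} (hx : ω x = x) : x = 1 := by
  classical
  by_contra hne
  have hall : ∀ y : N, y ∈ ({1, x} : Finset N) := fun y => by
    by_cases hy : y = 1
    · simp [hy]
    · obtain ⟨i, hi⟩ := h x y hne hy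
      rw [Function.iterate_fixed hx] at hi
      simp [hi]
  have := Fintype.ofFinite N
  have h1 : (Finset.univ : Finset N).card ≤ ({1, x} : Finset N).card :=
    Finset.card_le_card fun y _ => hall y
  have h2 := Finset.card_le_two (a := (1 : N)) (b := x)
  rw [Finset.card_univ, ← Nat.card_eq_fintype_card] at h1
  omega

theorem ortho_of_fpf {N : Type*} [Group N] [Finite N] (ω : N ≃* N)
    (h : ∀ x, ω x = x → x = 1) : Ortho ω := by
  refine ⟨ω.bijective, Finite.injective_iff_bijective.1 fun x y hxy => ?_⟩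
  have h1 : ω (x * y⁻¹) = x * y⁻¹ := by
    have h2 : x⁻¹ * ω x = y⁻¹ * ω y := hxy
    rw [map_mul, map_inv]
    calc ω x * (ω y)⁻¹ = x * (x⁻¹ * ω x) * (ω y)⁻¹ := by group
      _ = x * (y⁻¹ * ω y) * (ω y)⁻¹ := by rw [h2]
      _ = x * y⁻¹ := by group
  exact mul_inv_eq_one.1 (h _ h1)

theorem Singer.symm {N : Type*} [Group N] {ω : N ≃* N} (h : Singer ω) : Singer ω.symm := by
  intro x y hx hy
  obtain ⟨i, hi⟩ := h y x hy hx
  refine ⟨i, ?_⟩
  rw [← hi]
  exact Function.LeftInverse.iterate ω.symm_apply_apply i y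

theorem Singer.ortho {N : Type*} [Group N] [Finite N] {ω : N ≃* N} (h : Singer ω)
    (h3 : 3 ≤ Nat.card N) : Ortho ω := ortho_of_fpf ω fun _ hx => h.fix h3 hx

theorem exists_ne_one_of_card {N : Type*} [Group N] [Finite N] (h3 : 2 ≤ Nat.card N) :
    ∃ x : N, x ≠ 1 := by
  have : Nontrivial N := Finite.one_lt_card_iff_nontrivial.1 (by omega)
  exact exists_ne 1

/-- Closing strands along a Singer cycle. -/
theorem Singer.cyc {N : Type*} [Group N] [Fintype N] [DecidableEq N] {ω : N ≃* N} (h : Singer ω)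
    (h2 : 2 ≤ Nat.card N) {X : Type*} (V : N → Multiset X) (E : N → Multiset (Sym2 X))
    (A B : N → X) (hp : ∀ n, Path (V n) (E n) (A n) (B n)) :
    Cyc (∑ n ∈ Finset.univ.erase 1, V n)
      (∑ n ∈ Finset.univ.erase 1, (s(B n, A (ω n)) ::ₘ E n)) := by
  obtain ⟨x, hx⟩ := exists_ne_one_of_card h2
  refine cyc_orbit V E A B ω _ ⟨x, by simpa⟩ (fun y hy => ?_) (fun y hy z hz => ?_)
    (fun n _ => hp n)
  · simpa using hy
  · exact h y z (by simpa using hy) (by simpa using hz)

/-- The rotational sequencing of the kernel given by a Singer cycle. -/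
theorem Singer.kernel_cyc (π : G →* H) [Finite π.ker] {ρ : π.ker ≃* π.ker} (h : Singer ρ)
    (h3 : 3 ≤ Nat.card π.ker) {n1 : π.ker} (hn : n1 ≠ 1) :
    ∃ V E, Path V E (n1 : G) (ρ n1 : G) ∧ (∀ g, C V g + ind (1 = g) = ind (1 = π g)) ∧
      ∀ g, W E g + wt s((n1 : G), (ρ n1 : G)) g + 2 * ind (1 = g) = 2 * ind (1 = π g) := by
  classical
  have := Fintype.ofFinite π.ker
  have hc := h.cyc (by omega) (fun n => ({(n : G)} : Multiset G)) (fun _ => 0)
    (fun n => (n : G)) (fun n => (n : G)) (fun n => Path.single _)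
  obtain ⟨E, hp, hE⟩ := hc.cut (x := n1) (y := ρ n1)
    (Multiset.mem_sum.2 ⟨n1, by simpa, by simp⟩)
  refine ⟨_, E, hp, fun g => ?_, fun g => ?_⟩
  · rw [C_sum]
    simp only [C_singleton]
    have h1 := Finset.sum_erase_add Finset.univ (fun n : π.ker => ind ((n : G) = g))
      (Finset.mem_univ 1)
    rw [sum_ind_ker] at h1
    rw [ind_congr (eq_comm (a := 1) (b := π g))]
    simpa using h1
  · have h1 := Finset.sum_erase_add Finset.univ
      (fun n : π.ker => wt s((n : G) * 1, (ρ n : G) * 1) g) (Finset.mem_univ 1)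
    rw [match_W π (h.ortho h3)] at h1
    have h2 := congrArg (fun E => W E g) hE
    simp only [W_sum, W_cons, W_zero, add_zero] at h2
    simp only [mul_one, map_one, OneMemClass.coe_one] at h1
    rw [h2, wt_mk 1 1, wt_mk 1 1] at h1
    simp only [inv_one, mul_one, eq_comm (a := (1 : G)) (b := g⁻¹), inv_eq_one,
      eq_comm (a := (1 : H)) (b := (π g)⁻¹)] at h1
    rw [ind_congr (eq_comm (a := g) (b := 1)), ind_congr (eq_comm (a := π g) (b := 1))] at h1
    omega

end Pool.Agent.Lib.MP_0becda_co
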