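import Pool.Agent.Lib.MP_0becda_co.KitQ8

set_option autoImplicit false

namespace Pool.Agent.Lib.MP_0becda_co

variable {G H : Type*} [Group G] [Group H]

theorem eq_one_of_coprime {c : G} {a b : ℕ} (hab : a.Coprime b) (ha : c ^ a = 1) (hb : c ^ b = 1) :
    c = 1 := by
  rw [← orderOf_eq_one_iff]
  exact Nat.eq_one_of_dvd_coprimes hab (orderOf_dvd_of_pow_eq_one ha) (orderOf_dvd_of_pow_eq_one hb)

theorem comm_of_coprime {x n c : G} {a b : ℕ} (hab : a.Coprime b) (hx : x ^ a = 1) (hc : c ^ b = 1)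
    (h : x * n * x⁻¹ = c * n) (hcx : x * c = c * x) : c = 1 := by
  have key : ∀ k : ℕ, x ^ k * n * (x ^ k)⁻¹ = c ^ k * n := fun k => by
    induction k with
    | zero => simp
    | succ k ih =>
      have h1 : x * c ^ k = c ^ k * x := (Commute.pow_right hcx k)
      calc x ^ (k + 1) * n * (x ^ (k + 1))⁻¹ = x * (x ^ k * n * (x ^ k)⁻¹) * x⁻¹ := by group
        _ = c ^ k * (x * n * x⁻¹) := by rw [ih, ← mul_assoc, h1]; group
        _ = c ^ (k + 1) * n := by rw [h, pow_succ, mul_assoc]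
  have := key a
  rw [hx] at this
  exact eq_one_of_coprime hab (by simpa using this.symm) hc

theorem odd_coprime {a : ℕ} (h : Odd a) (k : ℕ) : a.Coprime (2 ^ k) :=
  (Nat.coprime_two_right.2 h).pow_right k

theorem two_pow_eq {N : Subgroup G} (h : IsPGroup 2 N) {n : G} (hn : n ∈ N) :
    ∃ k, n ^ 2 ^ k = 1 := by
  obtain ⟨k, hk⟩ := h ⟨n, hn⟩
  exact ⟨k, congrArg Subtype.val hk⟩

theorem odd_act [Finite G] (π : G →* H) (hπ : Function.Surjective π) (hk : IsPGroup 2 π.ker)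
    {E : Subgroup H} [hN : E.Normal] (hE : E ≠ ⊥) {p : ℕ} (hp : Odd p)
    (hc : ∀ x ∈ E, ∀ y ∈ E, x * y = y * x) (hpow : ∀ x ∈ E, x ^ p = 1)
    (hodd : ∀ K : Subgroup G, K.Normal → Odd (Nat.card K) → K = ⊥) :
    ∃ x n : G, Odd (orderOf x) ∧ n ∈ π.ker ∧ x * n ≠ n * x := by
  by_contra hcon
  have hall : ∀ x n : G, x ^ p = 1 → n ∈ π.ker → x * n = n * x := fun x n hx hn => by
    by_contra h
    exact hcon ⟨x, n, hp.of_dvd_nat (orderOf_dvd_of_pow_eq_one hx), hn, h⟩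
  let K : Subgroup G :=
    { carrier := {x | π x ∈ E ∧ x ^ p = 1}
      one_mem' := ⟨by simp, one_pow p⟩
      mul_mem' := fun {x y} hx hy => ⟨by rw [map_mul]; exact E.mul_mem hx.1 hy.1, by
        have h1 : x * y * x⁻¹ * y⁻¹ ∈ π.ker := by
          simp [MonoidHom.mem_ker, hc _ hx.1 _ hy.1]
        obtain ⟨k, hk⟩ := two_pow_eq hk h1
        have h2 := comm_of_coprime (n := y) (odd_coprime hp k) hx.2 hk (by group)
          (hall x _ hx.2 h1)
        have h3 : Commute x y := by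
          rw [mul_inv_eq_one, mul_inv_eq_iff_eq_mul] at h2; exact h2
        rw [h3.mul_pow, hx.2, hy.2, one_mul]⟩
      inv_mem' := fun {x} hx => ⟨by rw [map_inv]; exact E.inv_mem hx.1, by
        rw [inv_pow, hx.2, inv_one]⟩ }
  have hK : K = ⊥ := hodd K ⟨fun y hy g => ⟨by
      rw [map_mul, map_mul, map_inv]; exact hN.conj_mem _ hy.1 _, by
      rw [conj_pow, hy.2]; group⟩⟩ (by
    by_contra h
    obtain ⟨x, hx⟩ := exists_prime_orderOf_dvd_card' (G := K) 2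
      (even_iff_two_dvd.1 (Nat.not_odd_iff_even.1 h))
    have h1 : x ^ p = 1 := Subtype.ext x.2.2
    have := hp.of_dvd_nat (orderOf_dvd_of_pow_eq_one h1)
    rw [hx] at this
    exact absurd this (by decide))
  obtain ⟨⟨e, he⟩, he1⟩ := (Subgroup.ne_bot_iff_exists_ne_one).1 hE
  obtain ⟨g, rfl⟩ := hπ e
  obtain ⟨k, hk⟩ := two_pow_eq hk (n := g ^ p) (by rw [MonoidHom.mem_ker, map_pow, hpow _ he])
  have h1 : g ^ 2 ^ k ∈ K := ⟨by rw [map_pow]; exact E.pow_mem he _, by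
    rw [← pow_mul, mul_comm, pow_mul, hk]⟩
  rw [hK, Subgroup.mem_bot] at h1
  exact he1 (Subtype.ext (eq_one_of_coprime (odd_coprime hp k) (hpow _ he)
    (by rw [← map_pow, h1, map_one])))

theorem eq_of_card_le_two [Finite G] (h : Nat.card G ≤ 2) {a b : G} (ha : a ≠ 1) (hb : b ≠ 1) :
    a = b := by
  by_contra hab
  have h3 : ({1, a, b} : Set G).ncard = 3 :=
    Set.ncard_eq_three.2 ⟨1, a, b, ha.symm, hb.symm, hab, rfl⟩
  have := Set.ncard_le_card ({1, a, b} : Set G)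
  omega

theorem eq_of_card_le_two' [Finite G] {K : Subgroup G} (h : Nat.card K ≤ 2) {a b : G} (ha : a ∈ K)
    (hb : b ∈ K) (ha1 : a ≠ 1) (hb1 : b ≠ 1) : a = b :=
  congrArg Subtype.val (eq_of_card_le_two h (a := ⟨a, ha⟩) (b := ⟨b, hb⟩)
    (fun h => ha1 (congrArg Subtype.val h)) fun h => hb1 (congrArg Subtype.val h))

/-- The centraliser of the elements of odd order. -/
def oddC (G : Type*) [Group G] : Subgroup G := Subgroup.centralizer {x | Odd (orderOf x)}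

theorem mem_oddC {k : G} : k ∈ oddC G ↔ ∀ x, Odd (orderOf x) → x * k = k * x := Iff.rfl

theorem odd_conj {x : G} (h : Odd (orderOf x)) (g : G) : Odd (orderOf (g * x * g⁻¹)) := by
  have := orderOf_injective (MulAut.conj g).toMonoidHom (MulAut.conj g).injective x
  simp only [MulEquiv.toMonoidHom_eq_coe, MonoidHom.coe_coe, MulAut.conj_apply] at this
  rwa [this]

instance : (oddC G).Normal := ⟨fun k hk g => mem_oddC.2 fun x hx => by
  have := mem_oddC.1 hk _ (odd_conj hx g⁻¹)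
  calc x * (g * k * g⁻¹) = g * (g⁻¹ * x * g⁻¹⁻¹ * k) * g⁻¹ := by group
    _ = g * k * g⁻¹ * x := by rw [this]; group⟩

theorem exists_min [Finite G] {P : Subgroup G} (hP : P.Normal) (h2 : IsPGroup 2 P)
    (h : ¬ P ≤ oddC G) : ∃ N : Subgroup G, N.Normal ∧ IsPGroup 2 N ∧ ¬ N ≤ oddC G ∧
      ∀ K : Subgroup G, K.Normal → K ≤ N → N ≤ K ∨ K ≤ oddC G := by
  obtain ⟨N, ⟨h1, h3, h4⟩, hmin⟩ := Set.exists_min_image
    {D : Subgroup G | D.Normal ∧ IsPGroup 2 D ∧ ¬ D ≤ oddC G} (fun D => Nat.card D)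
    (Set.toFinite _) ⟨P, hP, h2, h⟩
  refine ⟨N, h1, h3, h4, fun K hK hKN => or_iff_not_imp_right.2 fun h5 => ?_⟩
  exact (Subgroup.eq_of_le_of_card_ge hKN (hmin K ⟨hK, h3.to_le hKN, h5⟩)).ge

/-- Structure of a critical normal `2`-subgroup. -/
theorem sympl [Finite G] [Group.IsSolvable G]
    (hE : ∀ K : Subgroup G, K.Normal → (∀ x ∈ K, x * x = 1) → Nat.card K ≤ 2)
    {N : Subgroup G} [hN : N.Normal] (h2 : IsPGroup 2 N) (hC : ¬ N ≤ oddC G)
    (hmin : ∀ K : Subgroup G, K.Normal → K ≤ N → N ≤ K ∨ K ≤ oddC G) :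
    ∃ z ∈ N, z ≠ 1 ∧ z * z = 1 ∧ (∀ g, g * z = z * g) ∧ (∃ n ∈ N, n * n = z) ∧
      (∀ n ∈ N, n * n = 1 ∨ n * n = z) ∧ ∀ a ∈ N, a * a = 1 → a ∈ oddC G → a = 1 ∨ a = z := by
  have hP : ∀ K : Subgroup G, K.Normal → K ≤ N →
      (∀ x, Odd (orderOf x) → ∀ n ∈ N, x * n * x⁻¹ * n⁻¹ ∈ K) → N ≤ K := by
    intro K hK hKN h
    refine (hmin K hK hKN).resolve_right fun h' => hC fun n hn => mem_oddC.2 fun x hx => ?_
    obtain ⟨k, hk⟩ := two_pow_eq h2 (hKN (h x hx n hn))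
    have h3 := comm_of_coprime (n := n) (odd_coprime hx k) (pow_orderOf_eq_one x) hk (by group)
      (mem_oddC.1 (h' (h x hx n hn)) x hx)
    rwa [mul_inv_eq_one, mul_inv_eq_iff_eq_mul] at h3
  have hcent : ∀ n ∈ N, ∀ k ∈ N, k ∈ oddC G → k * n = n * k := by
    have := hP (N ⊓ Subgroup.centralizer ((N ⊓ oddC G : Subgroup G) : Set G)) inferInstance
      inf_le_left fun x hx n hn => ⟨N.mul_mem (hN.conj_mem n hn x) (N.inv_mem hn), fun k hk => by
        have h1 := mem_oddC.1 hk.2 x hx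
        have h3 := mem_oddC.1 hk.2 _ (odd_conj (x := x⁻¹) (by rwa [orderOf_inv]) n)
        calc k * (x * n * x⁻¹ * n⁻¹) = k * x * (n * x⁻¹ * n⁻¹) := by group
          _ = x * (k * (n * x⁻¹ * n⁻¹)) := by rw [← h1, mul_assoc]
          _ = x * n * x⁻¹ * n⁻¹ * k := by rw [← h3]; group⟩
    exact fun n hn k hk hk' => (this hn).2 k ⟨hk, hk'⟩
  have hN1 : N ≠ ⊥ := fun h => hC (h ▸ bot_le)
  have hcomm : ∀ a ∈ N, ∀ b ∈ N, ∃ c ∈ N, c ∈ oddC G ∧ b * a = a * b * c := by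
    have hlt := Group.IsSolvable.commutator_lt_of_ne_bot hN1
    have h1 := (hmin _ inferInstance hlt.le).resolve_left hlt.not_ge
    intro a ha b hb
    have h3 := Subgroup.commutator_mem_commutator (N.inv_mem hb) (N.inv_mem ha)
    exact ⟨_, hlt.le h3, h1 h3, by rw [commutatorElement_def]; group⟩
  have hsq : ∀ a ∈ N, ∀ b ∈ N, ∃ c ∈ N, c ∈ oddC G ∧ b * a = a * b * c ∧
      a * b * (a * b) = a * a * (b * b) * c := fun a ha b hb => by
    obtain ⟨c, h1, h3, h4⟩ := hcomm a ha b hb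
    refine ⟨c, h1, h3, h4, ?_⟩
    calc a * b * (a * b) = a * (b * a) * b := by group
      _ = a * a * b * (c * b) := by rw [h4]; group
      _ = a * a * (b * b) * c := by rw [hcent b hb c h1 h3]; group
  have hconj : ∀ g n : G, g * n * g⁻¹ * (g * n * g⁻¹) = g * (n * n) * g⁻¹ := fun g n => by group
  have hsqC : ∀ n ∈ N, n * n ∈ oddC G := by
    let K : Subgroup G :=
      { carrier := {n | n ∈ N ∧ n * n ∈ oddC G}
        one_mem' := ⟨N.one_mem, by simp⟩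
        mul_mem' := fun {a b} ha hb => ⟨N.mul_mem ha.1 hb.1, by
          obtain ⟨c, -, h3, -, h4⟩ := hsq a ha.1 b hb.1
          rw [h4]; exact mul_mem (mul_mem ha.2 hb.2) h3⟩
        inv_mem' := fun {a} ha => ⟨N.inv_mem ha.1, by rw [← mul_inv_rev]; exact inv_mem ha.2⟩ }
    rcases hmin K ⟨fun n hn g => ⟨hN.conj_mem n hn.1 g, by
      rw [hconj]; exact Subgroup.Normal.conj_mem inferInstance _ hn.2 g⟩⟩ (fun n hn => hn.1) with h | h
    · exact fun n hn => (h hn).2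
    · have key : ∀ k : ℕ, ∀ n ∈ N, n ^ 2 ^ k ∈ oddC G → n ∈ oddC G := fun k => by
        induction k with
        | zero => intro n _ hn; simpa using hn
        | succ k ih =>
          intro n hn h1
          rw [pow_succ', pow_mul, pow_two] at h1
          exact h ⟨hn, ih _ (N.mul_mem hn hn) h1⟩
      refine absurd (fun n hn => ?_) hC
      obtain ⟨k, hk⟩ := two_pow_eq h2 hn
      exact key k n hn (hk ▸ one_mem _)
  have hsq' : ∀ a ∈ N, ∀ b ∈ N, ∃ c ∈ N, c ∈ oddC G ∧ c * c = 1 ∧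
      a * b * (a * b) = a * a * (b * b) * c := fun a ha b hb => by
    obtain ⟨c, h1, h3, h4, h5⟩ := hsq a ha b hb
    refine ⟨c, h1, h3, ?_, h5⟩
    have h6 := hcent b hb _ (N.mul_mem ha ha) (hsqC a ha)
    have : a * a * b = a * a * b * (c * c) :=
      calc a * a * b = b * a * a := by rw [h6, mul_assoc]
        _ = a * b * (c * a) := by rw [h4, mul_assoc]
        _ = a * (b * a) * c := by rw [hcent a ha c h1 h3]; group
        _ = a * a * b * (c * c) := by rw [h4]; group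
    simpa using this.symm
  have h4 : ∀ n ∈ N, n * n * (n * n) = 1 := by
    let K : Subgroup G :=
      { carrier := {n | n ∈ N ∧ n * n * (n * n) = 1}
        one_mem' := ⟨N.one_mem, by simp⟩
        mul_mem' := fun {a b} ha hb => ⟨N.mul_mem ha.1 hb.1, by
          obtain ⟨c, h1, h3, h5, h4⟩ := hsq' a ha.1 b hb.1
          have c1 : Commute (a * a) (b * b) :=
            hcent _ (N.mul_mem hb.1 hb.1) _ (N.mul_mem ha.1 ha.1) (hsqC a ha.1)
          have c2 : Commute (a * a * (b * b)) c :=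
            (hcent _ (N.mul_mem (N.mul_mem ha.1 ha.1) (N.mul_mem hb.1 hb.1)) c h1 h3).symm
          rw [h4, ← pow_two, c2.mul_pow, c1.mul_pow, pow_two, pow_two, pow_two, ha.2, hb.2, h5]
          simp⟩
        inv_mem' := fun {a} ha => ⟨N.inv_mem ha.1, by
          rw [← mul_inv_rev, ← mul_inv_rev, ha.2, inv_one]⟩ }
    have := hP K ⟨fun n hn g => ⟨hN.conj_mem n hn.1 g, by rw [hconj, hconj, hn.2]; group⟩⟩
      (fun n hn => hn.1) fun x hx n hn => ⟨N.mul_mem (hN.conj_mem n hn x) (N.inv_mem hn), by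
        obtain ⟨c, -, -, h5, h4⟩ := hsq' _ (hN.conj_mem n hn x) _ (N.inv_mem hn)
        rw [h4, hconj, mem_oddC.1 (hsqC n hn) x hx,
          show n * n * x * x⁻¹ * (n⁻¹ * n⁻¹) * c = c by group, h5]⟩
    exact fun n hn => (this hn).2
  let Ω : Subgroup G :=
    { carrier := {n | n ∈ N ∧ n ∈ oddC G ∧ n * n = 1}
      one_mem' := ⟨N.one_mem, one_mem _, by simp⟩
      mul_mem' := fun {a b} ha hb => ⟨N.mul_mem ha.1 hb.1, mul_mem ha.2.1 hb.2.1, by
        rw [← pow_two, Commute.mul_pow (hcent b hb.1 a ha.1 ha.2.1), pow_two, pow_two, ha.2.2,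
          hb.2.2, one_mul]⟩
      inv_mem' := fun {a} ha => ⟨N.inv_mem ha.1, inv_mem ha.2.1, by
        rw [← mul_inv_rev, ha.2.2, inv_one]⟩ }
  have hΩ : Ω.Normal := ⟨fun n hn g => ⟨hN.conj_mem n hn.1 g,
    Subgroup.Normal.conj_mem inferInstance _ hn.2.1 g, by rw [hconj, hn.2.2]; group⟩⟩
  have hΩ2 := hE Ω hΩ fun x hx => hx.2.2
  have hsΩ : ∀ n ∈ N, n * n ∈ Ω := fun n hn => ⟨N.mul_mem hn hn, hsqC n hn, h4 n hn⟩
  obtain ⟨n0, hn0, hz⟩ : ∃ n ∈ N, n * n ≠ 1 := by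
    by_contra hcon
    have h5 := hE N hN fun x hx => by_contra fun h => hcon ⟨x, hx, h⟩
    refine hC fun n hn => mem_oddC.2 fun x _ => ?_
    by_cases h1 : n = 1
    · simp [h1]
    · rw [← mul_inv_eq_iff_eq_mul]
      exact eq_of_card_le_two' h5 (hN.conj_mem n hn x) hn (by simpa using h1) h1
  refine ⟨n0 * n0, N.mul_mem hn0 hn0, hz, h4 n0 hn0, fun g => ?_, ⟨n0, hn0, rfl⟩, fun n hn => ?_,
    fun a ha h5 h6 => ?_⟩
  · rw [← mul_inv_eq_iff_eq_mul]
    exact eq_of_card_le_two' hΩ2 (hΩ.conj_mem _ (hsΩ n0 hn0) g) (hsΩ n0 hn0)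
      (fun h => hz (by rwa [conj_eq_one_iff] at h)) hz
  · exact or_iff_not_imp_left.2 fun h => eq_of_card_le_two' hΩ2 (hsΩ n hn) (hsΩ n0 hn0) h hz
  · exact or_iff_not_imp_left.2 fun h => eq_of_card_le_two' hΩ2 ⟨ha, h6, h5⟩ (hsΩ n0 hn0) h hz

end Pool.Agent.Lib.MP_0becda_co
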