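import Pool.Agent.Lib.MP_0becda_co.Main

set_option autoImplicit false

namespace Pool.Agent.Lib.MP_0becda_co

section gen
variable {X Y : Type*}

theorem Path.map {V : Multiset X} {E : Multiset (Sym2 X)} {a b : X} (h : Path V E a b)
    (f : X → Y) : Path (V.map f) (E.map (Sym2.map f)) (f a) (f b) := by
  induction h with
  | single a => simpa using Path.single (f a)
  | cons a b c V E _ ih => simpa using Path.cons (f a) (f b) (f c) _ _ ih

theorem Cyc.map {V : Multiset X} {E : Multiset (Sym2 X)} (h : Cyc V E) (f : X → Y) :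
    Cyc (V.map f) (E.map (Sym2.map f)) := by
  obtain ⟨E', a, b, hp, rfl⟩ := h
  simpa using (hp.map f).close

theorem Path.eq_single {V : Multiset X} {E : Multiset (Sym2 X)} {a : X} (h : Path V E a a)
    (h1 : C V a = 1) : V = {a} ∧ E = 0 := by
  have key : ∀ b, Path V E a b → b = a → V = {a} ∧ E = 0 := by
    intro b h hb
    cases h with
    | single => exact ⟨rfl, rfl⟩
    | cons _ c _ V E hp =>
      have := C_pos_of_mem (hb ▸ hp.end_mem)
      rw [C_cons, ind_pos rfl] at h1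
      omega
  exact key a h rfl

theorem Path.behead {V : Multiset X} {E : Multiset (Sym2 X)} {a b c : X} (h : Path V E a b)
    (h1 : C V a = 1) (he : s(a, c) ∈ E) :
    ∃ V' E', Path V' E' c b ∧ V = a ::ₘ V' ∧ E = s(a, c) ::ₘ E' := by
  obtain ⟨V1, E1, V2, E2, u, w, huw, hp1, hp2, rfl, rfl⟩ := h.split he
  have p1 := C_pos_of_mem hp1.start_mem
  rw [C_add] at h1
  rcases Sym2.eq_iff.1 huw with ⟨rfl, rfl⟩ | ⟨rfl, rfl⟩
  · obtain ⟨rfl, rfl⟩ := hp1.eq_single (by omega)
    exact ⟨V2, E2, hp2, by simp, by simp⟩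
  · have := C_pos_of_mem hp2.start_mem
    omega

theorem C_map_inj (V : Multiset X) {f : X → Y} (hf : Function.Injective f) (x : X) :
    C (V.map f) (f x) = C V x := by
  induction V using Multiset.induction_on with
  | empty => simp
  | cons a V ih => rw [Multiset.map_cons, C_cons, C_cons, ih, ind_congr hf.eq_iff]

theorem C_map_not (V : Multiset X) {f : X → Y} {y : Y} (hy : ∀ x, f x ≠ y) :
    C (V.map f) y = 0 := by
  induction V using Multiset.induction_on with
  | empty => simp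
  | cons a V ih => rw [Multiset.map_cons, C_cons, ih, ind_neg (hy a)]

theorem card_eq_sum_C [Fintype X] (V : Multiset X) : Multiset.card V = ∑ x, C V x := by
  induction V using Multiset.induction_on with
  | empty => simp
  | cons a V ih =>
    simp only [Multiset.card_cons, C_cons, Finset.sum_add_distrib, ih]
    rw [add_comm, ← sum_ind_eq a]
    congr 1
    exact Finset.sum_congr rfl fun x _ => ind_congr eq_comm

theorem Path.toAlt {V : Multiset X} {E : Multiset (Sym2 X)} {a b : X} (h : Path V E a b) :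
    (Even (Multiset.card E) → ∃ E0 E1, AltPath V E0 E1 a b ∧ E = E0 + E1) ∧
    (Odd (Multiset.card E) → ∃ c V' E0 E1, AltPath V' E0 E1 c b ∧ V = a ::ₘ V' ∧
      E = s(a, c) ::ₘ (E0 + E1)) := by
  induction h with
  | single a => exact ⟨fun _ => ⟨0, 0, AltPath.nil a, by simp⟩, fun h => by simp at h⟩
  | cons a c b V E _ ih =>
    rw [Multiset.card_cons]
    refine ⟨fun h => ?_, fun h => ?_⟩
    · obtain ⟨d, V', E0, E1, h1, rfl, rfl⟩ := ih.2 (by rwa [Nat.even_add_one, Nat.not_even_iff_odd] at h)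
      refine ⟨_, _, AltPath.step a c d b _ _ _ h1, ?_⟩
      simp only [← Multiset.singleton_add]; abel
    · obtain ⟨E0, E1, h1, rfl⟩ := ih.1 (by rwa [Nat.odd_add_one, Nat.not_odd_iff_even] at h)
      exact ⟨c, V, E0, E1, h1, rfl, rfl⟩

/-- `φ` permutes the set `S` transitively. -/
def Tr (φ : X → X) (S : Finset X) : Prop :=
  (∀ x ∈ S, φ x ∈ S) ∧ ∀ x ∈ S, ∀ y ∈ S, ∃ i, φ^[i] x = y

theorem reach_symm [Finite X] {φ : X → X} (hφ : Function.Injective φ) {x y : X} {i : ℕ}
    (h : φ^[i] x = y) : ∃ j, φ^[j] y = x := by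
  obtain ⟨L, hL, hx⟩ := hφ.mem_periodicPts x
  refine ⟨L * i - i, ?_⟩
  rw [← h, ← Function.iterate_add_apply, show L * i - i + i = L * i by
    have := Nat.le_mul_of_pos_left i hL; omega]
  exact hx.mul_const i

theorem Tr.of_base [Finite X] {φ : X → X} (hφ : Function.Injective φ) {S : Finset X} (p : X)
    (h1 : ∀ x ∈ S, φ x ∈ S) (h2 : ∀ y ∈ S, ∃ i, φ^[i] p = y) : Tr φ S := by
  refine ⟨h1, fun x hx y hy => ?_⟩
  obtain ⟨i, hi⟩ := h2 x hx
  obtain ⟨j, hj⟩ := reach_symm hφ hi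
  obtain ⟨k, hk⟩ := h2 y hy
  exact ⟨k + j, by rw [Function.iterate_add_apply, hj, hk]⟩

theorem Tr.iter {φ : X → X} {S : Finset X} (h : Tr φ S) {x : X} (hx : x ∈ S) (i : ℕ) :
    φ^[i] x ∈ S := by
  induction i with
  | zero => simpa
  | succ i ih => rw [Function.iterate_succ_apply']; exact h.1 _ ih

theorem Tr.reach_swap [DecidableEq X] {φ : X → X} {S : Finset X} (h : Tr φ S) {p q : X}
    (hp : p ∈ S) (hq : q ∉ S) :
    (∀ y ∈ S, ∃ j, (Equiv.swap p q ∘ φ)^[j] p = y) ∧ ∃ j, (Equiv.swap p q ∘ φ)^[j] p = q := by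
  have key : ∀ i, ∃ j, (Equiv.swap p q ∘ φ)^[j] p = φ^[i] p := by
    intro i
    induction i with
    | zero => exact ⟨0, rfl⟩
    | succ i ih =>
      obtain ⟨j, hj⟩ := ih
      by_cases h0 : φ^[i + 1] p = p
      · exact ⟨0, h0.symm⟩
      · refine ⟨j + 1, ?_⟩
        rw [Function.iterate_succ_apply', hj, Function.comp_apply,
          ← Function.iterate_succ_apply' φ i p]
        exact Equiv.swap_apply_of_ne_of_ne h0 fun h' => hq (h' ▸ h.iter hp _)
  refine ⟨fun y hy => ?_, ?_⟩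
  · obtain ⟨i, rfl⟩ := h.2 p hp y hy
    exact key i
  · obtain ⟨i, hi⟩ := h.2 (φ p) (h.1 p hp) p hp
    obtain ⟨j, hj⟩ := key i
    refine ⟨j + 1, ?_⟩
    rw [Function.iterate_succ_apply', hj, Function.comp_apply,
      ← Function.iterate_succ_apply' φ i p, Function.iterate_succ_apply, hi, Equiv.swap_apply_left]

/-- A transposition merges two orbits. -/
theorem Tr.merge [Finite X] [DecidableEq X] {φ : X → X} (hφ : Function.Injective φ)
    {S T : Finset X} (hS : Tr φ S) (hT : Tr φ T) (hd : Disjoint S T) {p q : X} (hp : p ∈ S)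
    (hq : q ∈ T) : Tr (Equiv.swap p q ∘ φ) (S ∪ T) := by
  obtain ⟨a1, j, hj⟩ := hS.reach_swap hp (q := q) (Finset.disjoint_right.1 hd hq)
  obtain ⟨a2, -⟩ := hT.reach_swap hq (q := p) (Finset.disjoint_left.1 hd hp)
  rw [Equiv.swap_comm] at a2
  refine Tr.of_base ((Equiv.swap p q).injective.comp hφ) p (fun x hx => ?_) (fun y hy => ?_)
  · have : φ x ∈ S ∪ T := by
      rcases Finset.mem_union.1 hx with h | h
      · exact Finset.mem_union_left _ (hS.1 x h)
      · exact Finset.mem_union_right _ (hT.1 x h)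
    rw [Function.comp_apply, Equiv.swap_apply_def]
    split_ifs
    · exact Finset.mem_union_right _ hq
    · exact Finset.mem_union_left _ hp
    · exact this
  · rcases Finset.mem_union.1 hy with h | h
    · exact a1 y h
    · obtain ⟨k, hk⟩ := a2 y h
      exact ⟨k + j, by rw [Function.iterate_add_apply, hj, hk]⟩

theorem Tr.keep [DecidableEq X] {φ : X → X} {S : Finset X} (h : Tr φ S) {p q : X} (hp : p ∉ S)
    (hq : q ∉ S) : Tr (Equiv.swap p q ∘ φ) S := by
  have h1 : ∀ x ∈ S, (Equiv.swap p q ∘ φ) x = φ x := fun x hx =>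
    Equiv.swap_apply_of_ne_of_ne (fun h' => hp (h' ▸ h.1 x hx)) (fun h' => hq (h' ▸ h.1 x hx))
  refine ⟨fun x hx => by rw [h1 x hx]; exact h.1 x hx, fun x hx y hy => ?_⟩
  obtain ⟨i, rfl⟩ := h.2 x hx y hy
  refine ⟨i, ?_⟩
  clear hy
  induction i with
  | zero => rfl
  | succ i ih => rw [Function.iterate_succ_apply', ih, h1 _ (h.iter hx i),
      Function.iterate_succ_apply']

end gen

section oprod
variable {N : Type*} [Group N]

theorem OProd.comp {l l' : ℕ} {Θ Θ' : N → N} (h : OProd l Θ) (h' : OProd l' Θ') :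
    OProd (l + l') (Θ ∘ Θ') := by
  induction h' with
  | zero => exact h
  | succ l' Θ' θ _ h2 ih => exact OProd.succ _ (Θ ∘ Θ') θ ih h2

theorem OProd.split {a : ℕ} : ∀ {b : ℕ} {Ξ : N → N}, OProd (b + a) Ξ →
    ∃ Θb Θa, OProd b Θb ∧ OProd a Θa ∧ Ξ = Θb ∘ Θa := by
  induction a with
  | zero => intro b Ξ h; exact ⟨Ξ, id, h, OProd.zero, rfl⟩
  | succ a ih =>
    intro b Ξ h
    generalize hl : b + (a + 1) = l at h
    cases h with
    | zero => omega
    | succ l Θ θ h1 h2 =>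
      obtain ⟨Θb, Θa, h3, h4, rfl⟩ := ih (b := b) (Ξ := Θ) (by rwa [show b + a = l by omega])
      exact ⟨Θb, Θa ∘ θ, h3, OProd.succ _ _ _ h4 h2, rfl⟩

theorem Ortho.inv {θ θ' : N → N} (h : Ortho θ) (h1 : ∀ n, θ' (θ n) = n) (h2 : ∀ n, θ (θ' n) = n) :
    Ortho θ' := by
  have hb : Function.Bijective θ' := Function.bijective_iff_has_inverse.2 ⟨θ, h2, h1⟩
  refine ⟨hb, ?_⟩
  have : (fun n => n⁻¹ * θ' n) = (fun x => x⁻¹) ∘ (fun n => n⁻¹ * θ n) ∘ θ' := by
    funext n; simp [h2]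
  rw [this]
  exact inv_involutive.bijective.comp (h.2.comp hb)

theorem Ortho.exists_inv {θ : N → N} (h : Ortho θ) :
    ∃ θ', Ortho θ' ∧ (∀ n, θ' (θ n) = n) ∧ ∀ n, θ (θ' n) = n := by
  obtain ⟨θ', h1, h2⟩ := Function.bijective_iff_has_inverse.1 h.1
  exact ⟨θ', h.inv h1 h2, h1, h2⟩

theorem OProd.pad {l : ℕ} {Θ θ : N → N} (h : OProd l Θ) (hθ : Ortho θ) {m : ℕ} (hm : l ≤ m)
    (h2 : m % 2 = l % 2) : OProd m Θ := by
  obtain ⟨θ', h1, -, h3⟩ := hθ.exists_inv
  have := h.add_two hθ h1 h3 ((m - l) / 2)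
  rwa [show l + 2 * ((m - l) / 2) = m by omega] at this

end oprod

variable {G H : Type*} [Group G] [Group H]

theorem wt_one (u v g : G) : wt s(u, v) g = wt s(1, u⁻¹ * v) g := wt_congr (by group) g

theorem W_map_mul (E : Multiset (Sym2 G)) (x g : G) :
    W (E.map (Sym2.map fun y => x * y)) g = W E g := by
  induction E using Multiset.induction_on with
  | empty => simp
  | cons e E ih =>
    rw [Multiset.map_cons, W_cons, W_cons, ih]
    induction e using Sym2.ind with
    | _ u v => rw [Sym2.map_mk, wt_congr (u' := u) (v' := v) (by group)]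

theorem C_map_mul (V : Multiset G) (x g : G) : C (V.map fun y => x * y) g = C V (x⁻¹ * g) := by
  rw [← C_map_inj V (mul_right_injective x) (x⁻¹ * g)]; simp

theorem W_map_hom (f : H →* G) (hf : Function.Injective f) (E : Multiset (Sym2 H)) (h : H) :
    W (E.map (Sym2.map f)) (f h) = W E h := by
  induction E using Multiset.induction_on with
  | empty => simp
  | cons e E ih =>
    rw [Multiset.map_cons, W_cons, W_cons, ih]
    induction e using Sym2.ind with
    | _ u v =>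
      rw [Sym2.map_mk, wt_mk, wt_mk, ← map_inv, ← map_inv, ← map_mul, ind_congr hf.eq_iff,
        ind_congr hf.eq_iff]

theorem W_map_not (f : H →* G) (E : Multiset (Sym2 H)) {g : G} (hg : ∀ h, f h ≠ g) :
    W (E.map (Sym2.map f)) g = 0 := by
  induction E using Multiset.induction_on with
  | empty => simp
  | cons e E ih =>
    rw [Multiset.map_cons, W_cons, ih]
    induction e using Sym2.ind with
    | _ u v =>
      rw [Sym2.map_mk, wt_mk, ← map_inv, ← map_mul, ind_neg (hg _),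
        ind_neg fun h => hg (u⁻¹ * v)⁻¹ (by rw [map_inv, h, inv_inv])]

theorem exists_edge {E : Multiset (Sym2 G)} {g : G} (h : 0 < W E g) :
    ∃ u, s(u, u * g) ∈ E := by
  induction E using Multiset.induction_on with
  | empty => simp at h
  | cons e E ih =>
    rw [W_cons] at h
    by_cases h0 : 0 < W E g
    · obtain ⟨u, hu⟩ := ih h0
      exact ⟨u, Multiset.mem_cons_of_mem hu⟩
    · induction e using Sym2.ind with
      | _ u v =>
        rw [wt_mk] at h
        by_cases h1 : u⁻¹ * v = g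
        · exact ⟨u, by rw [← h1]; simp⟩
        · have h2 : u⁻¹ * v = g⁻¹ := by
            by_contra h2
            rw [ind_neg h1, ind_neg h2] at h; omega
          refine ⟨v, ?_⟩
          rw [show v * g = u by rw [← inv_inv g, ← h2]; group, Sym2.eq_swap]; simp

theorem Ter.sub {P : Subgroup G} (h : Ter P) : ∃ (V : Multiset G) (E : Multiset (Sym2 G)) (a b : G),
    Path V E a b ∧ a ∈ P ∧ (∀ g, C V g = ind (g ∈ P)) ∧ ∀ g, W E g = 2 * ind (g ∈ P ∧ g ≠ 1) := by
  obtain ⟨V, E, a, b, hp, hV, hE⟩ := h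
  refine ⟨_, _, _, _, hp.map P.subtype, a.2, fun g => ?_, fun g => ?_⟩
  · by_cases hg : g ∈ P
    · rw [ind_pos hg]; exact (C_map_inj V P.subtype_injective ⟨g, hg⟩).trans (hV _)
    · rw [ind_neg hg]; exact C_map_not V fun x hx => hg (hx ▸ x.2)
  · by_cases hg : g ∈ P
    · refine (W_map_hom _ P.subtype_injective E ⟨g, hg⟩).trans ?_
      rw [hE]; congr 1; exact ind_congr (by simp [hg])
    · rw [ind_neg fun h => hg h.1]; exact W_map_not _ E fun x hx => hg (hx ▸ x.2)

theorem RC.sub {P : Subgroup G} (h : RC P) : ∃ (V : Multiset G) (E : Multiset (Sym2 G)) (s : G),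
    Cyc V E ∧ (∀ g, C V g = ind (g ∈ P ∧ g ≠ 1)) ∧ (∀ g, W E g = 2 * ind (g ∈ P ∧ g ≠ 1)) ∧
      s(s, s * s) ∈ E := by
  obtain ⟨V, E, s, hp, hV, hE, hs⟩ := h
  refine ⟨_, _, s, hp.map P.subtype, fun g => ?_, fun g => ?_, Multiset.mem_map.2 ⟨_, hs, rfl⟩⟩
  · by_cases hg : g ∈ P
    · refine (C_map_inj V P.subtype_injective ⟨g, hg⟩).trans ?_
      rw [hV]; exact ind_congr (by simp [hg])
    · rw [ind_neg fun h => hg h.1]; exact C_map_not V fun x hx => hg (hx ▸ x.2)
  · by_cases hg : g ∈ P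
    · refine (W_map_hom _ P.subtype_injective E ⟨g, hg⟩).trans ?_
      rw [hE]; congr 1; exact ind_congr (by simp [hg])
    · rw [ind_neg fun h => hg h.1]; exact W_map_not _ E fun x hx => hg (hx ▸ x.2)

/-- A cycle on the complement of a subgroup with the right colours and an edge `(s, s * s)`. -/
def RT (G : Type*) [Group G] (J : Subgroup G) : Prop :=
  ∃ (V : Multiset G) (E : Multiset (Sym2 G)) (s : G), Cyc V E ∧ (∀ g, C V g = ind (g ∉ J)) ∧
    (∀ g, W E g = 2 * ind (g ∉ J)) ∧ s(s, s * s) ∈ E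

theorem RC.rt (h : RC G) : RT G ⊥ := by
  obtain ⟨V, E, s, hc, hV, hE, hs⟩ := h
  exact ⟨V, E, s, hc, fun g => by rw [hV]; exact ind_congr (by simp),
    fun g => by rw [hE, ind_congr (Subgroup.mem_bot (x := g)).not], hs⟩

theorem RC.of_path {V : Multiset G} {E : Multiset (Sym2 G)} {s : G} (hp : Path V E 1 (s * s))
    (hs : s(1, s) ∈ E) (hV : ∀ g, C V g = 1) (hE : ∀ g, W E g = 2 * ind (g ≠ 1)) : RC G := by
  obtain ⟨V', E', hp', rfl, rfl⟩ := hp.behead (hV 1) hs
  refine ⟨_, _, s, hp'.close, fun g => ?_, fun g => ?_, by simp⟩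
  · have := hV g
    have h2 := ind_eq_add_ne g
    rw [C_cons] at this; omega
  · rw [← hE g, W_cons, W_cons, wt_congr (u' := 1) (v' := s) (by group)]

/-- Terraces `t, 1, s, ..., s * s` with an involution `t`. -/
def TT (G : Type*) [Group G] : Prop :=
  ∃ (t s : G) (V : Multiset G) (E : Multiset (Sym2 G)), t * t = 1 ∧ Path V E s (s * s) ∧
    (∀ g, ind (t = g) + ind (1 = g) + C V g = 1) ∧
    ∀ g, wt s(t, 1) g + wt s(1, s) g + W E g = 2 * ind (g ≠ 1)

theorem TT.ter (h : TT G) : Ter G := by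
  obtain ⟨t, s, V, E, -, hp, hV, hE⟩ := h
  exact ⟨_, _, _, _, Path.cons t 1 _ _ _ (Path.cons 1 s _ _ _ hp),
    fun g => by rw [C_cons, C_cons, ← hV g, add_assoc],
    fun g => by rw [W_cons, W_cons, ← hE g, add_assoc]⟩

theorem TT.of_path {V : Multiset G} {E : Multiset (Sym2 G)} {t s : G} (ht : t * t = 1)
    (hp : Path V E t (s * s)) (h1 : s(t, 1) ∈ E) (hs : s(1, s) ∈ E) (hst : s ≠ t) (ht1 : t ≠ 1)
    (hV : ∀ g, C V g = 1) (hE : ∀ g, W E g = 2 * ind (g ≠ 1)) : TT G := by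
  obtain ⟨V', E', hp', rfl, rfl⟩ := hp.behead (hV t) h1
  have hs' : s(1, s) ∈ E' := (Multiset.mem_cons.1 hs).resolve_left fun h => by
    rcases Sym2.eq_iff.1 h with ⟨h, -⟩ | ⟨-, h⟩
    · exact ht1 h.symm
    · exact hst h
  obtain ⟨V'', E'', hp'', rfl, rfl⟩ := hp'.behead (by
    have := hV 1
    rwa [C_cons, ind_neg ht1, zero_add] at this) hs'
  exact ⟨t, s, V'', E'', ht, hp'', fun g => by rw [← hV g, C_cons, C_cons, add_assoc],
    fun g => by rw [← hE g, W_cons, W_cons, add_assoc]⟩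

theorem mem_zpowers_inv {t : G} (ht : t * t = 1) (g : G) :
    g ∈ Subgroup.zpowers t ↔ g = 1 ∨ g = t := by
  refine ⟨?_, ?_⟩
  · rintro ⟨k, rfl⟩
    have h2 : t ^ (2 : ℤ) = 1 := by rw [zpow_two, ht]
    obtain ⟨j, rfl | rfl⟩ := Int.even_or_odd' k
    · left; simp only [zpow_mul, h2, one_zpow]
    · right; simp only [zpow_add, zpow_mul, h2, one_zpow, one_mul, zpow_one]
  · rintro (rfl | rfl)
    · exact Subgroup.one_mem _
    · exact Subgroup.mem_zpowers _

theorem TT.rt (h : TT G) : ∃ t : G, t * t = 1 ∧ t ≠ 1 ∧ RT G (Subgroup.zpowers t) := by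
  obtain ⟨t, s, V, E, ht, hp, hV, hE⟩ := h
  have ht1 : t ≠ 1 := fun h => by
    have := hV 1
    rw [ind_pos h, ind_pos rfl] at this; omega
  have hi : ∀ g, ind (t = g) + ind (1 = g) + ind (g ∉ Subgroup.zpowers t) = 1 := fun g => by
    rw [ind_congr (mem_zpowers_inv ht g).not]
    by_cases h1 : g = 1
    · rw [ind_neg (by rw [h1]; exact ht1), ind_pos h1.symm, ind_neg (by simp [h1])]
    · by_cases h2 : g = t
      · rw [ind_pos h2.symm, ind_neg (Ne.symm h1), ind_neg (by simp [h2])]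
      · rw [ind_neg (Ne.symm h2), ind_neg (Ne.symm h1), ind_pos (by simp [h1, h2])]
  refine ⟨t, ht, ht1, _, _, s, hp.close, fun g => ?_, fun g => ?_, by simp⟩
  · have := hV g; have := hi g; omega
  · have h1 := hE g
    have h2 := hi g
    have h3 := ind_eq_add_ne g
    have hti : t⁻¹ = t := inv_eq_of_mul_eq_one_right ht
    rw [wt_mk t 1, mul_one, hti, ind_congr (show t = g⁻¹ ↔ t = g by
      rw [← inv_eq_iff_eq_inv, hti])] at h1
    rw [W_cons, wt_congr (u' := 1) (v' := s) (by group)]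
    omega

end Pool.Agent.Lib.MP_0becda_co
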