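import Pool.Agent.Lib.MP_0becda_co.TwoStruct
import Pool.Agent.Lib.MP_0becda_co.Dihedral
import Pool.Agent.Lib.MP_0becda_co.Starter

set_option autoImplicit false

namespace Pool.Agent.Lib.MP_0becda_co

variable {G : Type*} [Group G]

theorem comm_of_sq {N : Type*} [Group N] (h : ∀ x : N, x * x = 1) (x y : N) : x * y = y * x := by
  have hinv : ∀ h' : N, h'⁻¹ = h' := fun h' => inv_eq_of_mul_eq_one_right (h h')
  rw [← hinv (x * y), mul_inv_rev, hinv, hinv]

theorem kappa_of_inv {a b : G} (h : b⁻¹ * a * b = a⁻¹) (i : ℕ) :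
    (a ^ i)⁻¹ * b = b * a ^ (i + 0 * (i % 2)) := by
  have h1 : b⁻¹ * a⁻¹ * b = a := by
    rw [show b⁻¹ * a⁻¹ * b = (b⁻¹ * a * b)⁻¹ by group, h, inv_inv]
  have h2 := conj_pow (a := b⁻¹) (b := a⁻¹) (i := i)
  rw [inv_inv, h1] at h2
  rw [zero_mul, add_zero]
  conv_rhs => rw [h2, inv_pow]
  group

theorem two_pow_mod_three (e : ℕ) : 2 ^ e % 3 ≠ 0 := fun h => by
  have := (Nat.prime_three.dvd_of_dvd_pow (Nat.dvd_of_mod_eq_zero h))
  omega

theorem card_of_index_two [Finite G] {a : G} (hne : ∃ g, g ∉ Subgroup.zpowers a)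
    (h : ∀ g, g ∉ Subgroup.zpowers a → ∀ g', g' ∉ Subgroup.zpowers a →
      g * g' ∈ Subgroup.zpowers a) : Nat.card G = 2 * orderOf a := by
  obtain ⟨g, hg⟩ := hne
  have : (Subgroup.zpowers a).index = 2 := by
    rw [Subgroup.index_eq_two_iff_exists_notMem_and]
    refine ⟨g, hg, fun b => ?_⟩
    by_cases hb : b ∈ Subgroup.zpowers a
    · exact Or.inr hb
    · exact Or.inl (h b hb g hg)
  rw [← (Subgroup.zpowers a).index_mul_card, this, Nat.card_zpowers]

theorem rc_cyclic_two [Finite G] (hG : IsPGroup 2 G) (hne : ¬ ∀ g : G, g * g = 1) {a : G}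
    (ha : ∀ g, g ∈ Subgroup.zpowers a) : RC G := by
  obtain ⟨k, hk⟩ := IsPGroup.iff_orderOf.1 hG a
  have hcard : Nat.card G = orderOf a := (orderOf_eq_card_of_forall_mem_zpowers ha).symm
  obtain ⟨e, rfl⟩ : ∃ e, k = e + 2 := by
    refine ⟨k - 2, ?_⟩
    by_contra hlt
    refine hne fun g => ?_
    have h1 : orderOf g ∣ 2 ^ 1 :=
      (hcard ▸ orderOf_dvd_natCard g).trans (hk ▸ pow_dvd_pow 2 (by omega))
    rw [← pow_two]; exact orderOf_dvd_iff_pow_eq_one.1 h1
  exact rc_cyclic_four (h := 2 ^ e) (Nat.two_pow_pos e) (by rw [hk]; ring) (by rw [hcard, hk]; ring)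

/-- Groups with an element of order four generating a subgroup of index two. -/
theorem rc_eight [Finite G] {a : G} (ha : orderOf a = 4) (hn : Nat.card G = 2 * 4) : RC G := by
  have hidx : (Subgroup.zpowers a).index = 2 := by
    have := (Subgroup.zpowers a).index_mul_card
    rw [Nat.card_zpowers, ha, hn] at this; omega
  have hN := Subgroup.normal_of_index_eq_two hidx
  obtain ⟨b, hb, -⟩ := Subgroup.index_eq_two_iff_exists_notMem_and.1 hidx
  obtain ⟨r, hr⟩ := (mem_powers_iff_mem_zpowers.2 (hN.conj_mem' a (Subgroup.mem_zpowers a) b))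
  simp only at hr
  rw [← pow_mod_orderOf, ha] at hr
  have h4 : a ^ 4 = 1 := by rw [← ha, pow_orderOf_eq_one]
  have h2 : a ^ 2 ≠ 1 := pow_ne_one_of_lt_orderOf (by norm_num) (by omega)
  have hsq : a ^ (r % 4 * 2) ≠ 1 := fun h => h2 (by
    rw [pow_mul, hr] at h
    calc a ^ 2 = b * (b⁻¹ * a * b) ^ 2 * b⁻¹ := by rw [pow_two, pow_two]; group
      _ = 1 := by rw [h]; group)
  have hlt : r % 4 < 4 := Nat.mod_lt _ (by norm_num)
  interval_cases r % 4
  · exact absurd (pow_zero a) hsq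
  · refine rc_four_two ha hb hn ?_
    rw [pow_one] at hr
    calc a * b = b * (b⁻¹ * a * b) := by group
      _ = b * a := by rw [← hr]
  · exact absurd h4 hsq
  · refine rc_dihedral_type (h := 1) (d := 0) (by norm_num) ha hb hn (Or.inl rfl)
      (kappa_of_inv ?_)
    rw [← hr, eq_inv_iff_mul_eq_one, ← pow_succ, h4]

theorem rc_small [Finite G] (hG : IsPGroup 2 G) (hne : ¬ ∀ g : G, g * g = 1)
    (h8 : Nat.card G ≤ 8) : RC G := by
  obtain ⟨a, ha⟩ := not_forall.1 hne
  by_cases hall : ∀ g, g ∈ Subgroup.zpowers a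
  · exact rc_cyclic_two hG hne hall
  obtain ⟨k, hk⟩ := IsPGroup.iff_orderOf.1 hG a
  have h1 := (Subgroup.zpowers a).index_mul_card
  rw [Nat.card_zpowers, hk] at h1
  have h2 : (Subgroup.zpowers a).index ≠ 1 := fun h =>
    hall fun g => by rw [Subgroup.index_eq_one.1 h]; trivial
  have h3 : (Subgroup.zpowers a).index ≠ 0 := Subgroup.index_ne_zero_of_finite
  have h4 : 2 ≤ k := by
    by_contra hlt
    refine ha ?_
    rw [← pow_two]
    exact orderOf_dvd_iff_pow_eq_one.1 (hk ▸ (pow_dvd_pow 2 (by omega : k ≤ 1)))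
  have h5 : 4 ≤ 2 ^ k := Nat.pow_le_pow_right (by norm_num : 0 < 2) h4
  have h6 : 2 ≤ (Subgroup.zpowers a).index := by omega
  have h7 : 2 ^ k = 4 := by nlinarith
  exact rc_eight (hk.trans h7) (by nlinarith)

theorem rc_of_no_v4 [Finite G] (hG : IsPGroup 2 G) (hne : ¬ ∀ g : G, g * g = 1)
    (h8 : 8 < Nat.card G) (hno : ¬ V4Data G) : RC G := by
  obtain ⟨A, hA, hc, hcen⟩ := exists_self_centralizing hG
  obtain ⟨a, rfl⟩ := cyclic_of_unique_inv hG A hc fun u hu w hw huu hww hu1 hw1 => by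
    by_contra h; exact hno (v4_of_two_inv hG A hc hu hw huu hww hu1 hw1 h)
  have hcen' : ∀ g, g * a = a * g → g ∈ Subgroup.zpowers a := fun g hg => hcen g (by
    rintro _ ⟨i, rfl⟩
    exact (Commute.zpow_right hg i).eq)
  by_cases hall : ∀ g, g ∈ Subgroup.zpowers a
  · exact rc_cyclic_two hG hne hall
  obtain ⟨g, hg⟩ := not_forall.1 hall
  obtain ⟨k, hk⟩ := IsPGroup.iff_orderOf.1 hG a
  by_cases hk3 : k < 3
  · exfalso
    have h4 : a ^ 4 = 1 := orderOf_dvd_iff_pow_eq_one.1 (hk ▸ pow_dvd_pow 2 (by omega : k ≤ 2))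
    have hinv : ∀ x, x ∉ Subgroup.zpowers a → x⁻¹ * a * x = a⁻¹ := fun x hx => by
      obtain ⟨r, hr⟩ := (mem_powers_iff_mem_zpowers.2 (hA.conj_mem' a (Subgroup.mem_zpowers a) x))
      simp only at hr
      rw [← Nat.div_add_mod r 4, pow_add, pow_mul, h4, one_pow, one_mul] at hr
      have hlt : r % 4 < 4 := Nat.mod_lt _ (by norm_num)
      have hfix : x⁻¹ * a * x ≠ a := fun h => hx (hcen' x (by
        calc x * a = x * (x⁻¹ * a * x) := by rw [h]
          _ = a * x := by group))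
      interval_cases r % 4
      · exfalso; apply hfix
        have : a = 1 := by
          calc a = x * (x⁻¹ * a * x) * x⁻¹ := by group
            _ = 1 := by rw [← hr]; group
        rw [this]; group
      · exact absurd (by rw [← hr, pow_one]) hfix
      · exfalso; apply hfix
        have h2 : a ^ 2 = 1 := by
          calc a ^ 2 = x * (x⁻¹ * a * x) ^ 2 * x⁻¹ := by rw [pow_two, pow_two]; group
            _ = 1 := by rw [← hr, ← pow_mul, h4]; group
        have : a = 1 := by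
          calc a = x * (x⁻¹ * a * x) * x⁻¹ := by group
            _ = 1 := by rw [← hr, h2]; group
        rw [this]; group
      · rw [← hr, eq_inv_iff_mul_eq_one, ← pow_succ, h4]
    have := card_of_index_two ⟨g, hg⟩ fun x hx y hy => hcen' _ (by
      have h1 := hinv x hx
      have h2 := hinv y hy
      calc x * y * a = x * y * (y⁻¹ * a * y)⁻¹ := by rw [h2, inv_inv]
        _ = x * (x⁻¹ * a * x) * y := by rw [h1]; group
        _ = a * (x * y) := by group)
    have h5 : 2 ^ k ≤ 2 ^ 2 := Nat.pow_le_pow_right (by norm_num) (by omega)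
    omega
  obtain ⟨e, rfl⟩ : ∃ e, k = e + 3 := ⟨k - 3, by omega⟩
  obtain ⟨h1, h2⟩ := cyclic_case hG (e := e) (by rw [hk]; ring) hA hcen' hno
  have hcard := card_of_index_two ⟨g, hg⟩ h1
  have ha4 : orderOf a = 4 * 2 ^ (e + 1) := by rw [hk]; ring
  rcases h2 g hg with h | ⟨b, hb, hbb, h⟩
  · exact rc_dihedral_type (d := 0) (two_pow_mod_three _) ha4 hg (by rw [hcard, ha4]) (Or.inl rfl)
      (kappa_of_inv h)
  · refine rc_dihedral_type (d := 2 ^ (e + 2)) (two_pow_mod_three _) ha4 hb (by rw [hcard, ha4])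
      (Or.inr ⟨by ring, by rw [pow_succ]; omega, hbb⟩) fun i => ?_
    have hz : (a ^ 2 ^ (e + 2)) ^ 2 = 1 := by
      rw [← pow_mul, ← pow_succ, ← hk, pow_orderOf_eq_one]
    have h3 : b⁻¹ * a⁻¹ * b = a * a ^ 2 ^ (e + 2) := by
      rw [show b⁻¹ * a⁻¹ * b = (b⁻¹ * a * b)⁻¹ by group, h, mul_inv_rev, inv_inv,
        inv_eq_of_mul_eq_one_right (by rw [← pow_two]; exact hz), ← pow_succ, ← pow_succ']
    have h4 := conj_pow (a := b⁻¹) (b := a⁻¹) (i := i)
    rw [inv_inv, h3, (Commute.self_pow a _).mul_pow] at h4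
    have h5 : (a ^ 2 ^ (e + 2)) ^ i = (a ^ 2 ^ (e + 2)) ^ (i % 2) := by
      conv_lhs => rw [← Nat.div_add_mod i 2, pow_add, pow_mul, hz, one_pow, one_mul]
    rw [pow_add, pow_mul, ← h5, h4, inv_pow]; group

/-- Extension along a normal elementary abelian `2`-subgroup, both cases. -/
theorem rc_step [Finite G] (N : Subgroup G) [N.Normal] (hN : ∀ x ∈ N, x * x = 1)
    (h3 : 3 ≤ Nat.card N) (hq : 3 ≤ Nat.card (G ⧸ N)) (hne : ¬ ∀ g : G, g * g = 1)
    (ih : (¬ ∀ g : G ⧸ N, g * g = 1) → RC (G ⧸ N)) : RC G := by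
  have hsq : ∀ x : (QuotientGroup.mk' N).ker, x * x = 1 := fun x =>
    Subtype.ext (hN x (mem_ker_mk' N x))
  by_cases hel : ∀ g : G ⧸ N, g * g = 1
  · obtain ⟨X, hX, hXX⟩ := exists_outside _ (QuotientGroup.mk'_surjective N) hq hel hne
    exact RC.of_elem _ (QuotientGroup.mk'_surjective N) 2 (by rwa [card_ker_mk']) (comm_of_sq hsq)
      (fun x => by rw [pow_two, hsq]) hq hel X hX hXX
  · exact (ih hel).ext_two _ (QuotientGroup.mk'_surjective N) (by rwa [card_ker_mk'])
      (comm_of_sq hsq) hsq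

/-- Every finite `2`-group which is not elementary abelian has property `RC`. -/
theorem rc_two_group (n : ℕ) : ∀ (G : Type*) [Group G] [Finite G], Nat.card G = n →
    IsPGroup 2 G → (¬ ∀ g : G, g * g = 1) → RC G := by
  induction n using Nat.strong_induction_on with
  | _ n ih =>
    intro G _ _ hn hG hne
    by_cases h8 : Nat.card G ≤ 8
    · exact rc_small hG hne h8
    by_cases hV : V4Data G
    · obtain ⟨N, hN, hsq, h3, h4⟩ := hV.subgroup
      have hc := Subgroup.card_eq_card_quotient_mul_card_subgroup N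
      refine rc_step N hsq h3 (by nlinarith) hne fun h => ih _ (hn ▸ card_quot_lt N ?_) _ rfl
        (hG.to_quotient N) h
      rintro rfl
      simp at h3
    · exact rc_of_no_v4 hG hne (by omega) hV

end Pool.Agent.Lib.MP_0becda_co
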