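import Mathlib

set_option autoImplicit false

namespace Pool.Agent.Lib.MP_0becda_co

variable {G : Type*} [Group G]

theorem central_in_normal {p : ℕ} [Fact p.Prime] [Finite G] (hG : IsPGroup p G) (N : Subgroup G)
    [N.Normal] (hN : N ≠ ⊥) : ∃ z ∈ N, z ≠ 1 ∧ ∀ g, g * z = z * g := by
  let _ : MulAction G N := MulAction.compHom N (MulAut.conjNormal : G →* MulAut N)
  have hd : p ∣ Nat.card N := ((hG.to_subgroup N).card_eq_or_dvd).resolve_left fun h =>
    hN (Subgroup.card_eq_one.1 h)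
  have h1 : (1 : N) ∈ MulAction.fixedPoints G N := fun g => map_one (MulAut.conjNormal g)
  obtain ⟨b, hb, hb1⟩ := hG.exists_fixed_point_of_prime_dvd_card_of_fixed_point N hd h1
  refine ⟨b, b.2, fun h => hb1 (Subtype.ext h.symm), fun g => ?_⟩
  have : g * b * g⁻¹ = b := congrArg Subtype.val (hb g)
  rw [← mul_inv_eq_iff_eq_mul, this]

theorem central_mod {p : ℕ} [Fact p.Prime] [Finite G] (hG : IsPGroup p G) (A B : Subgroup G)
    [A.Normal] [B.Normal] (h : ¬ B ≤ A) : ∃ c ∈ B, c ∉ A ∧ ∀ g, g * c * g⁻¹ * c⁻¹ ∈ A := by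
  have hn : (B.map (QuotientGroup.mk' A)).Normal :=
    Subgroup.Normal.map inferInstance _ (QuotientGroup.mk'_surjective A)
  obtain ⟨z, ⟨c, hc, rfl⟩, hz1, hz⟩ := central_in_normal (hG.to_quotient A)
    (B.map (QuotientGroup.mk' A)) (by rwa [Ne, Subgroup.map_eq_bot_iff, QuotientGroup.ker_mk'])
  refine ⟨c, hc, fun h => hz1 ((QuotientGroup.eq_one_iff c).2 h), fun g => ?_⟩
  rw [← QuotientGroup.eq_one_iff]
  have := hz (g : G ⧸ A)
  simp only [QuotientGroup.mk'_apply] at this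
  simp [this]

theorem exists_self_centralizing {p : ℕ} [Fact p.Prime] [Finite G] (hG : IsPGroup p G) :
    ∃ A : Subgroup G, A.Normal ∧ (∀ x ∈ A, ∀ y ∈ A, x * y = y * x) ∧
      ∀ g, (∀ x ∈ A, g * x = x * g) → g ∈ A := by
  obtain ⟨A, ⟨hA, hc⟩, hmax⟩ := Set.exists_max_image
    {A : Subgroup G | A.Normal ∧ ∀ x ∈ A, ∀ y ∈ A, x * y = y * x} (fun A => Nat.card A)
    (Set.toFinite _) ⟨⊥, inferInstance, by simp⟩
  refine ⟨A, hA, hc, fun g hg => ?_⟩
  by_contra hgA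
  obtain ⟨c, hcC, hcA, hcen⟩ := central_mod hG A (Subgroup.centralizer A)
    (fun h => hgA (h fun x hx => (hg x hx).symm))
  have hcomm : ∀ x ∈ A, Commute x c := fun x hx => hcC x hx
  let B : Subgroup G :=
    { carrier := {y | ∃ a ∈ A, ∃ i : ℤ, y = a * c ^ i}
      one_mem' := ⟨1, A.one_mem, 0, by simp⟩
      mul_mem' := by
        rintro _ _ ⟨a, ha, i, rfl⟩ ⟨a', ha', j, rfl⟩
        refine ⟨a * a', A.mul_mem ha ha', i + j, ?_⟩
        rw [zpow_add, mul_assoc, ← mul_assoc (c ^ i), ← ((hcomm a' ha').zpow_right i).eq]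
        group
      inv_mem' := by
        rintro _ ⟨a, ha, i, rfl⟩
        refine ⟨a⁻¹, A.inv_mem ha, -i, ?_⟩
        rw [mul_inv_rev, ((hcomm _ (A.inv_mem ha)).zpow_right (-i)).eq, zpow_neg] }
  have hB : B.Normal := ⟨by
    rintro _ ⟨a, ha, i, rfl⟩ x
    refine ⟨x * a * x⁻¹ * (x * c * x⁻¹ * c⁻¹) ^ i,
      A.mul_mem (hA.conj_mem a ha x) (A.zpow_mem (hcen x) i), i, ?_⟩
    rw [mul_assoc _ _ (c ^ i), ← (hcomm _ (hcen x)).mul_zpow, inv_mul_cancel_right, conj_zpow]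
    group⟩
  have hBc : ∀ x ∈ B, ∀ y ∈ B, x * y = y * x := by
    rintro _ ⟨a, ha, i, rfl⟩ _ ⟨a', ha', j, rfl⟩
    have h1 : Commute a a' := hc a ha a' ha'
    exact (Commute.mul_left (h1.mul_right ((hcomm a ha).zpow_right j))
      (((hcomm a' ha').symm.zpow_left i).mul_right (Commute.zpow_zpow_self c i j))).eq
  have hle : A ≤ B := fun a ha => ⟨a, ha, 0, by simp⟩
  have := Subgroup.eq_of_le_of_card_ge hle (hmax B ⟨hB, hBc⟩)
  exact hcA (this ▸ (⟨1, A.one_mem, 1, by simp⟩ : c ∈ B))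

/-- Data giving a normal Klein four-group. -/
def V4Data (G : Type*) [Group G] : Prop :=
  ∃ z v : G, z ≠ 1 ∧ z * z = 1 ∧ (∀ g, g * z = z * g) ∧ v * v = 1 ∧ v ≠ 1 ∧ v ≠ z ∧
    ∀ g, g * v * g⁻¹ = v ∨ g * v * g⁻¹ = v * z

theorem V4Data.subgroup [Finite G] (h : V4Data G) : ∃ N : Subgroup G, N.Normal ∧
    (∀ x ∈ N, x * x = 1) ∧ 3 ≤ Nat.card N ∧ Nat.card N ≤ 4 := by
  obtain ⟨z, v, hz1, hzz, hz, hvv, hv1, hvz, hv⟩ := h
  have hvv' : ∀ x, v * (v * x) = x := fun x => by rw [← mul_assoc, hvv, one_mul]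
  have hzv : z * v = v * z := (hz v).symm
  have hzv' : ∀ x, z * (v * x) = v * (z * x) := fun x => by rw [← mul_assoc, hzv, mul_assoc]
  have hsq : ∀ x, x ∈ ({1, z, v, v * z} : Set G) → x * x = 1 := by
    rintro x (rfl | rfl | rfl | rfl) <;> simp [mul_assoc, hzz, hvv, hzv']
  let N : Subgroup G :=
    { carrier := {1, z, v, v * z}
      one_mem' := by simp
      mul_mem' := by
        rintro x y (rfl | rfl | rfl | rfl) (rfl | rfl | rfl | rfl) <;>
          simp [mul_assoc, hzz, hvv, hzv, hzv', hvv']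
      inv_mem' := fun {x} hx => by rwa [inv_eq_of_mul_eq_one_right (hsq x hx)] }
  refine ⟨N, ⟨?_⟩, hsq, ?_, ?_⟩
  · have hz' : ∀ g, g * z * g⁻¹ = z := fun g => by rw [hz, mul_inv_cancel_right]
    rintro x (rfl | rfl | rfl | rfl) g
    · simp
    · rw [hz']; exact Or.inr (Or.inl rfl)
    · rcases hv g with h | h <;> rw [h]
      · exact Or.inr (Or.inr (Or.inl rfl))
      · exact Or.inr (Or.inr (Or.inr rfl))
    · have : g * (v * z) * g⁻¹ = g * v * g⁻¹ * z := by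
        rw [mul_assoc (g * v), hz g⁻¹]; group
      rcases hv g with h | h <;> rw [this, h]
      · exact Or.inr (Or.inr (Or.inr rfl))
      · rw [mul_assoc, hzz, mul_one]; exact Or.inr (Or.inr (Or.inl rfl))
  · have h3 : ({1, z, v} : Set G).ncard = 3 :=
      Set.ncard_eq_three.2 ⟨1, z, v, hz1.symm, hv1.symm, hvz.symm, rfl⟩
    rw [← h3]
    exact Set.ncard_le_ncard (s := {1, z, v}) (t := {1, z, v, v * z})
      (by rintro x (rfl | rfl | rfl) <;> simp) (Set.toFinite _)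
  · change ({1, z, v, v * z} : Set G).ncard ≤ 4
    have h1 := Set.ncard_insert_le 1 ({z, v, v * z} : Set G)
    have h2 := Set.ncard_insert_le z ({v, v * z} : Set G)
    have h3 := Set.ncard_insert_le v ({v * z} : Set G)
    rw [Set.ncard_singleton] at h3
    omega

theorem v4_of_two_inv [Finite G] (hG : IsPGroup 2 G) (A : Subgroup G) [hA : A.Normal]
    (hc : ∀ x ∈ A, ∀ y ∈ A, x * y = y * x) {u w : G} (hu : u ∈ A) (hw : w ∈ A) (huu : u * u = 1)
    (hww : w * w = 1) (hu1 : u ≠ 1) (hw1 : w ≠ 1) (huw : u ≠ w) : V4Data G := by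
  let Ω : Subgroup G :=
    { carrier := {x | x ∈ A ∧ x * x = 1}
      one_mem' := ⟨A.one_mem, by simp⟩
      mul_mem' := fun {x y} hx hy => ⟨A.mul_mem hx.1 hy.1, by
        rw [mul_assoc, ← mul_assoc y, hc y hy.1 x hx.1, mul_assoc, hy.2, mul_one, hx.2]⟩
      inv_mem' := fun {x} hx => ⟨A.inv_mem hx.1, by rw [← mul_inv_rev, hx.2, inv_one]⟩ }
  have hΩ : Ω.Normal := ⟨fun x hx g => ⟨hA.conj_mem x hx.1 g, by
    rw [show g * x * g⁻¹ * (g * x * g⁻¹) = g * (x * x) * g⁻¹ by group, hx.2]; group⟩⟩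
  obtain ⟨z, hz, hz1, hzc⟩ := central_in_normal hG Ω (fun h => hu1 (by
    have : u ∈ Ω := ⟨hu, huu⟩
    rwa [h, Subgroup.mem_bot] at this))
  have hZ : ∀ x, x ∈ Subgroup.zpowers z → x = 1 ∨ x = z := by
    rintro _ ⟨k, rfl⟩
    have h2 : z ^ (2 : ℤ) = 1 := by rw [zpow_two, hz.2]
    obtain ⟨j, rfl | rfl⟩ := Int.even_or_odd' k
    · left; simp only [zpow_mul, h2, one_zpow]
    · right; simp only [zpow_add, zpow_mul, h2, one_zpow, one_mul, zpow_one]
  have hZn : (Subgroup.zpowers z).Normal := ⟨fun x hx g => by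
    rcases hZ x hx with rfl | rfl
    · simp
    · rw [hzc, mul_inv_cancel_right]; exact hx⟩
  obtain ⟨v, hv, hvz, hvc⟩ := central_mod hG (Subgroup.zpowers z) Ω (fun h => by
    rcases hZ u (h ⟨hu, huu⟩) with h1 | h1
    · exact hu1 h1
    · rcases hZ w (h ⟨hw, hww⟩) with h2 | h2
      · exact hw1 h2
      · exact huw (h1.trans h2.symm))
  refine ⟨z, v, hz1, hz.2, hzc, hv.2, fun h => hvz (h ▸ Subgroup.one_mem _),
    fun h => hvz (h ▸ Subgroup.mem_zpowers _), fun g => ?_⟩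
  rcases hZ _ (hvc g) with h | h
  · left; rwa [mul_inv_eq_one] at h
  · right; rw [mul_inv_eq_iff_eq_mul] at h; rw [h, hzc]

theorem cyclic_of_unique_inv [Finite G] (hG : IsPGroup 2 G) (A : Subgroup G)
    (hc : ∀ x ∈ A, ∀ y ∈ A, x * y = y * x)
    (huniq : ∀ u ∈ A, ∀ w ∈ A, u * u = 1 → w * w = 1 → u ≠ 1 → w ≠ 1 → u = w) :
    ∃ a, A = Subgroup.zpowers a := by
  obtain ⟨a, ha, hmax⟩ := Set.exists_max_image (A : Set G) orderOf (Set.toFinite _) ⟨1, A.one_mem⟩
  obtain ⟨e, he⟩ := IsPGroup.iff_orderOf.1 hG a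
  have hdvd : ∀ x ∈ A, x ^ 2 ^ e = 1 := fun x hx => by
    obtain ⟨f, hf⟩ := IsPGroup.iff_orderOf.1 hG x
    have := hmax x hx
    rw [hf, he, Nat.pow_le_pow_iff_right (by norm_num)] at this
    exact orderOf_dvd_iff_pow_eq_one.1 (hf ▸ pow_dvd_pow 2 this)
  refine ⟨a, le_antisymm (fun x hx => ?_) (Subgroup.zpowers_le.2 ha)⟩
  obtain ⟨k, hk⟩ := hG x
  induction k generalizing x with
  | zero => rw [pow_zero, pow_one] at hk; rw [hk]; exact Subgroup.one_mem _
  | succ k ih =>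
    obtain ⟨j, hj⟩ := ih _ (A.mul_mem hx hx) (by rw [← pow_two, ← pow_mul, ← pow_succ', hk])
    simp only at hj
    rcases e with _ | e
    · have := hdvd x hx
      rw [pow_zero, pow_one] at this; rw [this]; exact Subgroup.one_mem _
    have h1 : a ^ (j * 2 ^ e) = 1 := by
      rw [zpow_mul, hj, ← pow_two]
      norm_cast
      rw [← pow_mul, ← pow_succ', hdvd x hx]
    rw [← orderOf_dvd_iff_zpow_eq_one, he] at h1
    obtain ⟨i, rfl⟩ : 2 ∣ j := by
      push_cast at h1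
      rw [pow_succ'] at h1
      exact Int.dvd_of_mul_dvd_mul_right (by positivity) h1
    have hcx : Commute x (a ^ i) := hc _ hx _ (A.zpow_mem ha i)
    have hy : (x * (a ^ i)⁻¹) * (x * (a ^ i)⁻¹) = 1 := by
      rw [mul_assoc, ← mul_assoc (a ^ i)⁻¹, ← hcx.inv_right.eq, ← mul_assoc, ← mul_assoc, ← hj]
      group
    have hmem : x * (a ^ i)⁻¹ ∈ Subgroup.zpowers a := by
      by_cases hy1 : x * (a ^ i)⁻¹ = 1
      · rw [hy1]; exact Subgroup.one_mem _
      · rw [huniq _ (A.mul_mem hx (A.inv_mem (A.zpow_mem ha i))) (a ^ 2 ^ e) (A.pow_mem ha _) hy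
          (by rw [← pow_two, ← pow_mul, ← pow_succ, ← he, pow_orderOf_eq_one]) hy1
          (pow_ne_one_of_lt_orderOf (by positivity) (by rw [he, pow_succ]; have := Nat.two_pow_pos e; omega))]
        exact Subgroup.npow_mem_zpowers a _
    simpa using Subgroup.mul_mem _ hmem (Subgroup.zpow_mem_zpowers a i)

theorem sq_one_mod (e : ℕ) (y : ℤ) (hodd : Odd y) (h : (2 * 2 ^ e : ℤ) ∣ y * y - 1) :
    (2 ^ e : ℤ) ∣ y - 1 ∨ (2 ^ e : ℤ) ∣ y + 1 := by
  obtain ⟨t, rfl⟩ := hodd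
  have hco : ∀ s : ℤ, IsCoprime (2 ^ e : ℤ) (2 * s + 1) := fun s =>
    IsCoprime.pow_left ⟨-s, 1, by ring⟩
  have h' : (2 ^ e : ℤ) ∣ 2 * t * (t + 1) :=
    Int.dvd_of_mul_dvd_mul_left (a := 2) (by norm_num) (by convert h using 1; ring)
  obtain ⟨s, rfl | rfl⟩ := Int.even_or_odd' t
  · left
    rw [add_sub_cancel_right]
    exact (hco s).dvd_of_dvd_mul_right h'
  · right
    refine (hco s).dvd_of_dvd_mul_right ?_
    rwa [show (2 * (2 * s + 1) + 1 + 1) * (2 * s + 1) = 2 * (2 * s + 1) * (2 * s + 1 + 1) by ring]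

/-- Structure of a `2`-group with a self-centralizing cyclic normal subgroup of order `8 h`. -/
theorem cyclic_case [Finite G] (hG : IsPGroup 2 G) {a : G} {e : ℕ}
    (ha : orderOf a = 2 * 2 ^ (e + 2)) (hN : (Subgroup.zpowers a).Normal)
    (hcen : ∀ g, g * a = a * g → g ∈ Subgroup.zpowers a) (hno : ¬ V4Data G) :
    (∀ g, g ∉ Subgroup.zpowers a → ∀ g', g' ∉ Subgroup.zpowers a → g * g' ∈ Subgroup.zpowers a) ∧
    ∀ g, g ∉ Subgroup.zpowers a → g⁻¹ * a * g = a⁻¹ ∨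
      ∃ b, b ∉ Subgroup.zpowers a ∧ b * b = 1 ∧ b⁻¹ * a * b = a⁻¹ * a ^ 2 ^ (e + 2) := by
  set m : ℤ := 2 ^ (e + 2) with hm
  have hone : ∀ i : ℤ, a ^ i = 1 ↔ 2 * m ∣ i := fun i => by
    rw [← orderOf_dvd_iff_zpow_eq_one, ha]; push_cast; rfl
  have heq : ∀ i j : ℤ, a ^ i = a ^ j ↔ 2 * m ∣ i - j := fun i j => by
    rw [← hone, zpow_sub, mul_inv_eq_one]
  have hm4 : m = 4 * 2 ^ e := by rw [hm]; ring
  have hmpos : 0 < m := by positivity
  have hact : ∀ g, ∃ r : ℤ, g⁻¹ * a * g = a ^ r := fun g => by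
    obtain ⟨r, hr⟩ := hN.conj_mem' a (Subgroup.mem_zpowers a) g
    exact ⟨r, hr.symm⟩
  have hpow : ∀ g (r : ℤ), g⁻¹ * a * g = a ^ r → ∀ i : ℤ, g⁻¹ * a ^ i * g = a ^ (r * i) :=
    fun g r h i => by
      rw [zpow_mul, ← h]
      have := conj_zpow (a := g⁻¹) (b := a) (i := i)
      rw [inv_inv] at this
      exact this.symm
  have hmul : ∀ g g' (r r' : ℤ), g⁻¹ * a * g = a ^ r → g'⁻¹ * a * g' = a ^ r' →
      (g * g')⁻¹ * a * (g * g') = a ^ (r' * r) := fun g g' r r' h h' => by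
    rw [← hpow g' r' h' r, ← h]; group
  have hmem : ∀ g (r : ℤ), g⁻¹ * a * g = a ^ r → 2 * m ∣ r - 1 → g ∈ Subgroup.zpowers a :=
    fun g r h hr => hcen g (by
      rw [(heq r 1).2 hr, zpow_one] at h
      calc g * a = g * (g⁻¹ * a * g) := by rw [h]
        _ = a * g := by group)
  have hodd : ∀ g (r : ℤ), g⁻¹ * a * g = a ^ r → Odd r := fun g r h => by
    rw [← Int.not_even_iff_odd]
    rintro ⟨s, rfl⟩
    have h1 := hpow g _ h m
    rw [(hone ((s + s) * m)).2 ⟨s, by ring⟩] at h1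
    have h2 : a ^ m = 1 := by
      calc a ^ m = g * (g⁻¹ * a ^ m * g) * g⁻¹ := by group
        _ = 1 := by rw [h1]; group
    have := Int.le_of_dvd hmpos ((hone m).1 h2)
    omega
  have hzz : a ^ m * a ^ m = 1 := by rw [← zpow_add, hone]; exact ⟨1, by ring⟩
  have hzc : ∀ g, g * a ^ m = a ^ m * g := fun g => by
    obtain ⟨r, hr⟩ := hact g
    obtain ⟨s, rfl⟩ := hodd g r hr
    have h1 := hpow g _ hr m
    rw [(heq ((2 * s + 1) * m) m).2 ⟨s, by ring⟩] at h1
    calc g * a ^ m = g * (g⁻¹ * a ^ m * g) := by rw [h1]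
      _ = a ^ m * g := by group
  have hco : IsCoprime m (2 * 2 ^ e - 1) := IsCoprime.pow_left ⟨2 ^ e, -1, by ring⟩
  have hco' : IsCoprime m (2 * 2 ^ e + 1) := IsCoprime.pow_left ⟨-2 ^ e, 1, by ring⟩
  have hz : ∀ i : ℤ, m ∣ i → a ^ i = 1 ∨ a ^ i = a ^ m := by
    rintro _ ⟨c, rfl⟩
    obtain ⟨s, rfl | rfl⟩ := Int.even_or_odd' c
    · left; exact (hone _).2 ⟨s, by ring⟩
    · right; exact (heq _ _).2 ⟨s, by ring⟩
  -- no element acts as the power map with exponent `1 + m`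
  have hM : ∀ g, g⁻¹ * a * g ≠ a ^ (1 + m) := fun g hg => hno (by
    obtain ⟨j, hj⟩ := hmem _ _ (hmul g g _ _ hg hg) ⟨1 + 2 * 2 ^ e, by rw [hm4]; ring⟩
    simp only at hj
    have hj2 : 2 ∣ j := by
      have h1 := hpow g _ hg j
      rw [hj, show g⁻¹ * (g * g) * g = g * g by group, ← hj, heq] at h1
      obtain ⟨c, hc⟩ := h1
      refine ⟨-c, Int.eq_of_mul_eq_mul_left hmpos.ne' ?_⟩
      linear_combination -hc
    obtain ⟨j', rfl⟩ := hj2
    obtain ⟨i, hi⟩ : ∃ i : ℤ, 2 * m ∣ 2 * j' + (1 + m) * i + i := by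
      obtain ⟨s, rfl | rfl⟩ := Int.even_or_odd' j'
      · exact ⟨-(2 * s), -s, by ring⟩
      · exact ⟨-(2 * s + 1) + 2 * 2 ^ e, -s + 2 ^ e, by rw [hm4]; ring⟩
    have hv : (g * a ^ i) * (g * a ^ i) = 1 := by
      rw [← (hone _).2 hi, zpow_add, zpow_add, ← hpow g _ hg, hj]; group
    have hva : (g * a ^ i)⁻¹ * a * (g * a ^ i) = a ^ (1 + m) := by
      have := hmul g (a ^ i) _ 1 hg (by group)
      rwa [one_mul] at this
    have hnot : g * a ^ i ∉ Subgroup.zpowers a := by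
      rintro ⟨k, hk⟩
      simp only at hk
      rw [← hk, show (a ^ k)⁻¹ * a * a ^ k = a ^ (1 : ℤ) by group, heq] at hva
      have := Int.le_of_dvd hmpos (by simpa using hva)
      omega
    generalize g * a ^ i = v at hv hva hnot
    have hvi : v⁻¹ = v := inv_eq_of_mul_eq_one_right hv
    refine ⟨a ^ m, v, fun h => ?_, hzz, hzc, hv, fun h => hnot (h ▸ Subgroup.one_mem _),
      fun h => hnot (h ▸ Subgroup.zpow_mem_zpowers a m), fun x => ?_⟩
    · have := Int.le_of_dvd hmpos ((hone m).1 h); omega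
    · obtain ⟨r, hr⟩ := hact x
      obtain ⟨r', hr'⟩ := hact x⁻¹
      have h1 := hmul _ _ _ _ hr hr'
      rw [mul_inv_cancel, inv_one, one_mul, mul_one] at h1
      have h2 : 2 * m ∣ 1 - r' * r := by rw [← heq, zpow_one]; exact h1
      obtain ⟨k, hk⟩ := hmem _ _ (hmul _ _ _ _ (hmul _ _ _ _ (hmul _ _ _ _ hr hva) hr') hva) (by
        obtain ⟨c, hc⟩ := h2
        refine ⟨1 + 2 * 2 ^ e - (1 + m) ^ 2 * c, ?_⟩
        have : r' * r = 1 - 2 * m * c := by linear_combination -hc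
        rw [show (1 + m) * (r' * ((1 + m) * r)) = (1 + m) ^ 2 * (r' * r) by ring, this, hm4]
        ring)
      simp only at hk
      have h3 : x * v * x⁻¹ = a ^ k * v := by rw [hk, mul_assoc _ v v, hv, mul_one]
      have h4 : a ^ (k + (1 + m) * k) = 1 := by
        rw [zpow_add, ← hpow v _ hva, hvi]
        calc a ^ k * (v * a ^ k * v) = (x * v * x⁻¹) * (x * v * x⁻¹) := by rw [h3]; group
          _ = x * (v * v) * x⁻¹ := by group
          _ = 1 := by rw [hv]; group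
      have h5 : m ∣ k := by
        obtain ⟨c, hc⟩ := (hone _).1 h4
        refine hco'.dvd_of_dvd_mul_right ⟨c, ?_⟩
        rw [hm4] at hc ⊢
        linarith
      rcases hz k h5 with h | h
      · left; rw [h3, h, one_mul]
      · right; rw [h3, h, hzc])
  have hsq : ∀ (k : ℕ) g (r : ℤ), g⁻¹ * a * g = a ^ r → g ^ 2 ^ k = 1 → 2 * m ∣ r * r - 1 := by
    intro k
    induction k with
    | zero =>
      intro g r h hg
      rw [pow_zero, pow_one] at hg
      rw [hg, inv_one, one_mul, mul_one] at h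
      have : 2 * m ∣ 1 - r := by rw [← heq, zpow_one]; exact h
      obtain ⟨c, hc⟩ := this
      exact ⟨-c * (1 + r), by linear_combination -(1 + r) * hc⟩
    | succ k ih =>
      intro g r h hg
      have h2 := hmul g g r r h h
      have h3 := ih (g * g) (r * r) h2 (by rw [← pow_two, ← pow_mul, ← pow_succ', hg])
      obtain ⟨t, ht⟩ := hodd g r h
      rcases sq_one_mod (e + 2) (r * r) ((hodd g r h).mul (hodd g r h)) h3 with h4 | h4
      · rcases hz _ h4 with h5 | h5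
        · exact (hone _).1 h5
        · refine absurd ?_ (hM (g * g))
          rw [h2, zpow_add, ← h5, ← zpow_add]; congr 1; ring
      · exfalso
        obtain ⟨c, hc⟩ := h4
        rw [← hm, hm4, ht] at hc
        have : 4 * (t * t + t) + 2 = 4 * (2 ^ e * c) := by linear_combination hc
        omega
  have htype : ∀ g, g ∉ Subgroup.zpowers a →
      g⁻¹ * a * g = a ^ (-1 : ℤ) ∨ g⁻¹ * a * g = a ^ (-1 + m) := fun g hg => by
    obtain ⟨r, hr⟩ := hact g
    obtain ⟨k, hk⟩ := hG g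
    rcases sq_one_mod (e + 2) r (hodd g r hr) (hsq k g r hr hk) with h4 | h4
    · rcases hz _ h4 with h5 | h5
      · exact absurd (hmem g r hr ((hone _).1 h5)) hg
      · refine absurd ?_ (hM g)
        rw [hr, zpow_add, ← h5, ← zpow_add]; congr 1; ring
    · rcases hz _ h4 with h5 | h5
      · left; rw [hr, heq, sub_neg_eq_add, ← hone, h5]
      · right; rw [hr, zpow_add, ← h5, ← zpow_add]; congr 1; ring
  refine ⟨fun g hg g' hg' => ?_, fun g hg => ?_⟩
  · rcases htype g hg with h | h <;> rcases htype g' hg' with h' | h'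
    · exact hmem _ _ (hmul _ _ _ _ h h') (by simp)
    · refine absurd ?_ (hM (g * g'))
      rw [hmul _ _ _ _ h h', heq]; exact ⟨-1, by ring⟩
    · refine absurd ?_ (hM (g * g'))
      rw [hmul _ _ _ _ h h', heq]; exact ⟨-1, by ring⟩
    · exact hmem _ _ (hmul _ _ _ _ h h') ⟨2 * 2 ^ e - 1, by rw [hm4]; ring⟩
  · rcases htype g hg with h | h
    · left; rw [h, zpow_neg_one]
    · right
      have hfin : a ^ (-1 + m) = a⁻¹ * a ^ 2 ^ (e + 2) := by
        rw [zpow_add, zpow_neg_one, hm]; norm_cast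
      obtain ⟨j, hj⟩ := hmem _ _ (hmul g g _ _ h h) ⟨2 * 2 ^ e - 1, by rw [hm4]; ring⟩
      simp only at hj
      have h5 : m ∣ j := by
        have h1 := hpow g _ h j
        rw [hj, show g⁻¹ * (g * g) * g = g * g by group, ← hj, heq] at h1
        obtain ⟨c, hc⟩ := h1
        refine hco.dvd_of_dvd_mul_right ⟨-c, ?_⟩
        rw [hm4] at hc ⊢
        linarith
      rcases hz j h5 with h6 | h6
      · exact ⟨g, hg, by rw [← hj, h6], by rw [h, hfin]⟩
      · refine ⟨g * a, fun hm => hg ?_, ?_, ?_⟩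
        · simpa using Subgroup.mul_mem _ hm (Subgroup.inv_mem _ (Subgroup.mem_zpowers a))
        · calc g * a * (g * a) = (g * g) * (g⁻¹ * a * g) * a := by group
            _ = a ^ m * a ^ m := by rw [← hj, h6, h]; group
            _ = 1 := hzz
        · have := hmul g a _ 1 h (by group)
          rw [this, one_mul, hfin]

end Pool.Agent.Lib.MP_0becda_co
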