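import Pool.Agent.Lib.MP_0becda_co.OddExt

set_option autoImplicit false

namespace Pool.Agent.Lib.MP_0becda_co

variable {G H : Type*} [Group G] [Group H]

theorem zig {V : Multiset G} {E : Multiset (Sym2 G)} {a b : G} (h : Path V E a b) (B B' : G) :
    ∃ V1 E1 V2 E2 e1 e2, ((e1 = b * B ∧ e2 = b * B') ∨ (e1 = b * B' ∧ e2 = b * B)) ∧
      Path V1 E1 (a * B) e1 ∧ Path V2 E2 (a * B') e2 ∧
      (∀ g, C V1 g + C V2 g = C V (g * B⁻¹) + C V (g * B'⁻¹)) ∧
      ∀ g, W E1 g + W E2 g = W E (B * g * B'⁻¹) + W E (B * g⁻¹ * B'⁻¹) := by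
  have hC : ∀ (a B g : G), ind (a * B = g) = ind (a = g * B⁻¹) := fun a B g =>
    ind_congr (by rw [eq_mul_inv_iff_mul_eq])
  induction h with
  | single a =>
    exact ⟨_, _, _, _, _, _, Or.inl ⟨rfl, rfl⟩, Path.single _, Path.single _,
      fun g => by simp only [C_singleton, hC], fun g => by simp⟩
  | cons a c b V E _ ih =>
    obtain ⟨V1, E1, V2, E2, e1, e2, he, h1, h2, hV, hE⟩ := ih
    refine ⟨_, _, _, _, e2, e1, by tauto, Path.cons _ _ _ _ _ h2, Path.cons _ _ _ _ _ h1,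
      fun g => ?_, fun g => ?_⟩
    · have := hV g
      simp only [C_cons, hC]; omega
    · have := hE g
      have k1 : ∀ z : G, ind ((a * B)⁻¹ * (c * B') = z) = ind (a⁻¹ * c = B * z * B'⁻¹) := fun z =>
        ind_congr ⟨fun h => by rw [← h]; group, fun h => by
          rw [mul_inv_rev, mul_assoc, ← mul_assoc a⁻¹, h]; group⟩
      have k2 : ∀ z : G, ind ((a * B')⁻¹ * (c * B) = z) =
          ind (a⁻¹ * c = (B * z⁻¹ * B'⁻¹)⁻¹) := fun z =>
        ind_congr ⟨fun h => by rw [← h]; group, fun h => by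
          rw [mul_inv_rev, mul_assoc, ← mul_assoc a⁻¹, h]; group⟩
      simp only [W_cons, wt_mk, k1, k2, inv_inv]; omega

theorem zigzag (π : G →* H) (hK : Ter π.ker) (u y : G) : ∃ V E, Path V E u (u * y) ∧
    (∀ g, C V g = ind (π u = π g) + ind (π (u * y) = π g)) ∧
    ∀ g, W E g + wt s(1, y) g = 2 * wt s(1, π y) (π g) := by
  obtain ⟨V, E, a, b, hp, ha, hV, hE⟩ := hK.sub
  rw [MonoidHom.mem_ker] at ha
  obtain ⟨V1, E1, V2, E2, e1, e2, he, h1, h2, hV', hE'⟩ := zig hp (a⁻¹ * u) (a⁻¹ * u * y)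
  refine ⟨_, _, (h1.append h2.reverse).congr rfl rfl (by group) (by group), fun g => ?_,
    fun g => ?_⟩
  · rw [C_add, hV', hV, hV]
    congr 1 <;> refine ind_congr ?_
    · rw [MonoidHom.mem_ker, map_mul, map_inv, mul_inv_eq_one, map_mul, map_inv, ha, inv_one,
        one_mul, eq_comm]
    · rw [MonoidHom.mem_ker, map_mul, map_inv, mul_inv_eq_one, mul_assoc, map_mul, map_inv, ha,
        inv_one, one_mul, eq_comm]
  · have h3 := hE' g
    have h4 : wt s(e1, e2) g = wt s(1, y) g := by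
      rcases he with ⟨rfl, rfl⟩ | ⟨rfl, rfl⟩
      · exact wt_congr (by group) g
      · exact wt_congr' (by group) g
    have h5 : ∀ z : G, ind ((a⁻¹ * u * z * (a⁻¹ * u * y)⁻¹) ∈ π.ker ∧
        a⁻¹ * u * z * (a⁻¹ * u * y)⁻¹ ≠ 1) + ind (y = z) = ind (π y = π z) := fun z => by
      have e1 : a⁻¹ * u * z * (a⁻¹ * u * y)⁻¹ ∈ π.ker ↔ π y = π z := by
        rw [MonoidHom.mem_ker, map_mul, map_inv, mul_inv_eq_one, map_mul _ _ z, map_mul _ _ y,
          mul_right_inj, eq_comm]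
      have e2 : a⁻¹ * u * z * (a⁻¹ * u * y)⁻¹ ≠ 1 ↔ y ≠ z := by
        rw [ne_eq, mul_inv_eq_one, mul_right_inj, eq_comm]
      rw [ind_congr (and_congr e1 e2)]
      by_cases h : y = z
      · rw [ind_neg (by simp [h]), ind_pos h, ind_pos (by rw [h])]
      · rw [ind_neg h, add_zero]; exact ind_congr (by simp [h])
    have h6 := h5 g
    have h7 := h5 g⁻¹
    rw [hE, hE] at h3
    rw [W_add, W_cons, h4, wt_mk, wt_mk]
    simp only [inv_one, one_mul, map_inv] at h7 ⊢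
    omega

theorem exists_sym_section (π : G →* H) (hπ : Function.Surjective π) [Finite H]
    (h2 : ∀ x : H, x * x = 1 → x = 1) :
    ∃ Y : H → G, (∀ h, π (Y h) = h) ∧ ∀ h, Y h⁻¹ = (Y h)⁻¹ := by
  classical
  obtain ⟨σ, hσ⟩ := hπ.hasRightInverse
  obtain ⟨n, ⟨e⟩⟩ := Finite.exists_equiv_fin H
  refine ⟨fun h => if h = 1 then 1 else if e h < e h⁻¹ then σ h else (σ h⁻¹)⁻¹, fun h => ?_,
    fun h => ?_⟩
  · dsimp only
    split_ifs with h1 h3
    · rw [h1, map_one]
    · exact hσ h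
    · rw [map_inv, hσ, inv_inv]
  · by_cases h1 : h = 1
    · simp [h1]
    · have hne : e h ≠ e h⁻¹ := fun h' => h1 (h2 h (by
        nth_rewrite 1 [e.injective h']; exact inv_mul_cancel h))
      simp only [inv_eq_one, h1, if_false, inv_inv]
      by_cases h3 : e h < e h⁻¹
      · rw [if_pos h3, if_neg (not_lt.2 h3.le)]
      · rw [if_neg h3, if_pos (lt_of_le_of_ne (not_lt.1 h3) hne.symm), inv_inv]

/-- Extension from a normal subgroup of odd index. -/
theorem Ter.ext_index (π : G →* H) (hπ : Function.Surjective π) [Finite H]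
    (h2 : ∀ x : H, x * x = 1 → x = 1) (hST : ST H) (hK : Ter π.ker) : Ter G := by
  obtain ⟨Y, hY, hYi⟩ := exists_sym_section π hπ h2
  obtain ⟨V, E0, E1, a, b, hp, hV, h0, h1⟩ := hST
  have hw : ∀ (c d : H) (g : G), wt s(1, Y (c⁻¹ * d)) g = ind (Y (π g) = g) * wt s(c, d) (π g) := by
    intro c d g
    have k : ∀ (x : H) (z : G), ind (Y x = z) = ind (Y (π z) = z) * ind (x = π z) := fun x z => by
      by_cases h : x = π z
      · rw [ind_pos h, mul_one, h]
      · rw [ind_neg h, mul_zero, ind_neg fun h' => h (by rw [← h', hY])]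
    rw [wt_mk, wt_mk, inv_one, one_mul, k _ g, k _ g⁻¹, map_inv, hYi, ind_congr inv_inj, mul_add]
  have key : ∀ u, π u = a → ∃ V' E' e, Path V' E' u e ∧ (∀ g, C V' g = C V (π g)) ∧
      ∀ g, W E' g + ind (Y (π g) = g) * W E0 (π g) = 2 * W E0 (π g) +
        ind (Y (π g) = g) * W E1 (π g) + 2 * ind (g ∈ π.ker ∧ g ≠ 1) := by
    clear hV h0 h1
    induction hp with
    | nil a =>
      intro u hu
      obtain ⟨V, E, a', b, hp, ha, hV, hE⟩ := hK.sub
      rw [MonoidHom.mem_ker] at ha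
      refine ⟨_, _, _, (hp.map fun y => u * a'⁻¹ * y).congr rfl rfl (by group) rfl, fun g => ?_,
        fun g => by simp [W_map_mul, hE]⟩
      rw [C_map_mul, hV, C_singleton]
      exact ind_congr (by simp [MonoidHom.mem_ker, ha, hu, inv_mul_eq_one])
    | step a c d b V E0 E1 _ ih =>
      intro u hu
      obtain ⟨V1, F1, hp1, hV1, hF1⟩ := zigzag π hK u (Y (a⁻¹ * c))
      have hc : π (u * Y (a⁻¹ * c)) = c := by rw [map_mul, hY, hu]; group
      obtain ⟨V2, F2, e, hp2, hV2, hF2⟩ := ih (u * Y (a⁻¹ * c) * Y (c⁻¹ * d))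
        (by rw [map_mul, hc, hY]; group)
      refine ⟨_, _, _, hp1.append hp2, fun g => ?_, fun g => ?_⟩
      · rw [C_add, hV1, hV2, hu, hc, C_cons, C_cons, add_assoc]
      · have e1 := hF1 g
        have e2 := hF2 g
        rw [hw, hY, ← wt_one] at e1
        rw [W_add, W_cons, W_cons, W_cons, wt_one, show (u * Y (a⁻¹ * c))⁻¹ *
          (u * Y (a⁻¹ * c) * Y (c⁻¹ * d)) = Y (c⁻¹ * d) by group, hw, mul_add, mul_add, mul_add]
        omega
  obtain ⟨u, hu⟩ := hπ a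
  obtain ⟨V', E', e, hp', hV', hE'⟩ := key u hu
  refine ⟨_, _, _, _, hp', fun g => by rw [hV', hV], fun g => ?_⟩
  have e1 := hE' g
  rw [h0, h1] at e1
  by_cases hg : π g = 1
  · rw [ind_neg (show ¬ π g ≠ 1 by simpa using hg),
      ind_congr (show (g ∈ π.ker ∧ g ≠ 1) ↔ g ≠ 1 by simp [MonoidHom.mem_ker, hg])] at e1
    omega
  · rw [ind_pos hg, ind_neg (show ¬ (g ∈ π.ker ∧ g ≠ 1) from fun h => hg h.1)] at e1
    rw [ind_pos (show g ≠ 1 from fun h => hg (by rw [h, map_one]))]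
    omega

theorem prime_dvd_of_elem [Finite G] {p : ℕ} (hp : p.Prime) {N : Subgroup G} (hN : N ≠ ⊥)
    (hNp : ∀ x ∈ N, x ^ p = 1) : ∃ x ∈ N, orderOf x = p ∧ p ∣ Nat.card N := by
  have := Fact.mk hp
  obtain ⟨⟨x, hx⟩, hx1⟩ := (Subgroup.ne_bot_iff_exists_ne_one).1 hN
  have hox : orderOf x = p := orderOf_eq_prime (hNp x hx) fun h => hx1 (Subtype.ext h)
  exact ⟨x, hx, hox, by rw [← hox, ← Subgroup.orderOf_mk x hx]; exact orderOf_dvd_natCard _⟩

theorem ker_comm (N : Subgroup G) [N.Normal] (hc : ∀ x ∈ N, ∀ y ∈ N, x * y = y * x)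
    (y z : (QuotientGroup.mk' N).ker) : y * z = z * y :=
  Subtype.ext (hc y (mem_ker_mk' N y) z (mem_ker_mk' N z))

theorem ker_pow (N : Subgroup G) [N.Normal] {p : ℕ} (hp : ∀ x ∈ N, x ^ p = 1)
    (y : (QuotientGroup.mk' N).ker) : y ^ p = 1 := Subtype.ext (hp y (mem_ker_mk' N y))

theorem st_odd (n : ℕ) : ∀ (G : Type*) [Group G] [Finite G] [Group.IsSolvable G], Nat.card G = n →
    Odd n → ST G := by
  induction n using Nat.strong_induction_on with
  | _ n ih =>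
    intro G _ _ _ hn hodd
    by_cases h1 : (⊤ : Subgroup G) = ⊥
    · have : Subsingleton G := ⟨fun x y => by
        rw [(Subgroup.mem_bot (x := x)).1 (h1 ▸ Subgroup.mem_top x),
          (Subgroup.mem_bot (x := y)).1 (h1 ▸ Subgroup.mem_top y)]⟩
      exact st_trivial
    obtain ⟨p, N, hp, hN, -, hN1, hc, hNp⟩ := exists_elem_normal ⊤ h1
    have := Fact.mk hp
    obtain ⟨x, -, -, hd⟩ := prime_dvd_of_elem hp hN1 hNp
    have hpo : Odd p := (hn ▸ hodd).of_dvd_nat (hd.trans N.card_subgroup_dvd_card)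
    exact ST.ext_odd _ (QuotientGroup.mk'_surjective N) (ker_comm N hc)
      (sq_eq_one_of_odd hpo (ker_pow N hNp)) (st_elem p hpo _ _ rfl (ker_comm N hc) (ker_pow N hNp))
      (ih _ (hn ▸ card_quot_lt N hN1) _ rfl ((hn ▸ hodd).of_dvd_nat N.card_quotient_dvd_card))

theorem zpowers_elem {p : ℕ} {x : G} (hx : x ^ p = 1) :
    (∀ y ∈ Subgroup.zpowers x, ∀ z ∈ Subgroup.zpowers x, y * z = z * y) ∧
      ∀ y ∈ Subgroup.zpowers x, y ^ p = 1 := by
  refine ⟨?_, ?_⟩
  · rintro _ ⟨i, rfl⟩ _ ⟨j, rfl⟩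
    exact zpow_mul_comm x i j
  · rintro _ ⟨i, rfl⟩
    simp only
    rw [← zpow_natCast, ← zpow_mul, mul_comm, zpow_mul, zpow_natCast, hx, one_zpow]

theorem rc_odd (n : ℕ) : ∀ (G : Type*) [Group G] [Finite G] [Group.IsSolvable G], Nat.card G = n →
    Odd n → 1 < n → RC G := by
  induction n using Nat.strong_induction_on with
  | _ n ih =>
    intro G _ _ _ hn hodd h1
    have step : ∀ (p : ℕ) (N : Subgroup G), p.Prime → N.Normal → N ≠ ⊥ → N ≠ ⊤ →
        (∀ x ∈ N, ∀ y ∈ N, x * y = y * x) → (∀ x ∈ N, x ^ p = 1) → RC G := by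
      intro p N hp hN hN1 hN2 hc hNp
      have := Fact.mk hp
      obtain ⟨x, -, -, hd⟩ := prime_dvd_of_elem hp hN1 hNp
      have hpo : Odd p := (hn ▸ hodd).of_dvd_nat (hd.trans N.card_subgroup_dvd_card)
      exact RC.ext_odd _ (QuotientGroup.mk'_surjective N) (ker_comm N hc)
        (sq_eq_one_of_odd hpo (ker_pow N hNp))
        (st_elem p hpo _ _ rfl (ker_comm N hc) (ker_pow N hNp))
        (ih _ (hn ▸ card_quot_lt N hN1) _ rfl ((hn ▸ hodd).of_dvd_nat N.card_quotient_dvd_card)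
          (Subgroup.one_lt_index_of_ne_top hN2))
    have hnt : Nontrivial G := Finite.one_lt_card_iff_nontrivial.1 (by omega)
    obtain ⟨p, N, hp, hN, -, hN1, hc, hNp⟩ := exists_elem_normal (⊤ : Subgroup G) top_ne_bot
    by_cases hN2 : N = ⊤
    · subst hN2
      obtain ⟨x, -, hx, -⟩ := prime_dvd_of_elem hp hN1 hNp
      have hx1 : x ≠ 1 := fun h => hp.one_lt.ne (by rw [← hx, h, orderOf_one])
      by_cases hZ : Subgroup.zpowers x = ⊤
      · have hc' : Nat.card G = p := by rw [← hx, ← Nat.card_zpowers, hZ, Subgroup.card_top]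
        obtain ⟨k, hk⟩ := hodd
        exact rc_cyclic_odd (a := x) (k := k) (by omega) (by omega) (by omega)
      · exact step p _ hp ⟨fun y hy g => by
          rwa [hc g trivial y trivial, mul_inv_cancel_right]⟩ (by simpa using hx1) hZ
          (zpowers_elem (hNp x trivial)).1 (zpowers_elem (hNp x trivial)).2
    · exact step p N hp hN hN1 hN2 hc hNp

end Pool.Agent.Lib.MP_0becda_co
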